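import Pool.Agent.ARD.ARFr

/-! helper11. The reduction to the localisations at the associated (= minimal) primes. -/

set_option autoImplicit false

namespace Pool.Agent.ARD

open ARS IsLocalRing TensorProduct CategoryTheory CategoryTheory.Abelian

/-- the converse of `ARS.St_Ext`: if `ExtProp` holds for all syzygies then `Ext ^ i = 0` -/
theorem Min_EV (R : Type) [CommRing R] [IsNoetherianRing R] [HasExt.{0} (ModuleCat.{0} R)]
    (M : Type) [AddCommGroup M] [Module R M] (i : ℕ) : ∀ (X : Type) [AddCommGroup X] [Module R X]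
    [Module.Finite R X], EA R X M →
    Subsingleton (Ext (ModuleCat.of R X) (ModuleCat.of R M) (i + 1)) := by
  induction i with
  | zero =>
    intro X _ _ _ h
    obtain ⟨n, p, hp⟩ := Module.Finite.exists_fin' R X
    have hS := LinearMap.shortExact_shortComplexKer hp
    have : Projective p.shortComplexKer.X₂ :=
      inferInstanceAs (Projective (ModuleCat.of R (Fin n → R)))
    have hz : ∀ x : Ext (ModuleCat.of R X) (ModuleCat.of R M) (0 + 1), x = 0 := by
      intro x
      obtain ⟨x1, hx1⟩ := Ext.contravariant_sequence_exact₃ hS (ModuleCat.of R M) x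
        (Ext.eq_zero_of_projective _) (n₀ := 0) rfl
      obtain ⟨g, rfl⟩ := Ext.addEquiv₀.symm.surjective x1
      obtain ⟨φ, hφ⟩ := (h 1).1 n p hp g.hom
      have hg : g = p.shortComplexKer.f ≫ ModuleCat.ofHom φ := by
        apply ModuleCat.hom_ext
        refine LinearMap.ext fun k => ?_
        exact (hφ k).symm
      have h1 : Ext.addEquiv₀.symm g =
          (Ext.mk₀ p.shortComplexKer.f).comp (Ext.mk₀ (ModuleCat.ofHom φ)) (zero_add 0) := by
        rw [Ext.mk₀_comp_mk₀, ← hg]
        rfl
      rw [← hx1, h1, hS.extClass_comp_assoc]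
    exact ⟨fun a b => by rw [hz a, hz b]⟩
  | succ i ih =>
    intro X _ _ _ h
    obtain ⟨n, p, hp⟩ := Module.Finite.exists_fin' R X
    have hS := LinearMap.shortExact_shortComplexKer hp
    have : Projective p.shortComplexKer.X₂ :=
      inferInstanceAs (Projective (ModuleCat.of R (Fin n → R)))
    have hsub : Subsingleton (Ext (ModuleCat.of R (LinearMap.ker p)) (ModuleCat.of R M) (i + 1)) :=
      ih (LinearMap.ker p) fun k => (h (k + 1)).2 n p hp
    have hz : ∀ x : Ext (ModuleCat.of R X) (ModuleCat.of R M) (i + 1 + 1), x = 0 := by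
      intro x
      obtain ⟨x1, hx1⟩ := Ext.contravariant_sequence_exact₃ hS (ModuleCat.of R M) x
        (Ext.eq_zero_of_projective _) (n₀ := i + 1) (by omega)
      rw [← hx1, show x1 = 0 from hsub.elim _ _, Ext.comp_zero]
    exact ⟨fun a b => by rw [hz a, hz b]⟩

/-- freeness at a prime gives an element outside the prime -/
theorem Min_loc {R M : Type} [CommRing R] [IsNoetherianRing R] [AddCommGroup M]
    [Module R M] [Module.Finite R M] (P : Ideal R) [P.IsPrime]
    (h : Module.Free (Localization.AtPrime P) (Localization.AtPrime P ⊗[R] M)) :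
    ∃ s : R, s ∉ P ∧ Red_F R M (s • LinearMap.id) := by
  classical
  have hM : Module.FinitePresentation R M := Module.finitePresentation_of_finite R M
  let A := Localization.AtPrime P
  let b := Module.Free.chooseBasis A (A ⊗[R] M)
  obtain ⟨q, ⟨e⟩⟩ : ∃ q : ℕ, Nonempty ((A ⊗[R] M) ≃ₗ[A] (Fin q → A)) :=
    ⟨_, ⟨(b.reindex (Fintype.equivFin _)).equivFun⟩⟩
  let fM : M →ₗ[R] (A ⊗[R] M) := TensorProduct.mk R A M 1
  have : IsLocalizedModule P.primeCompl fM :=
    (isLocalizedModule_iff_isBaseChange P.primeCompl A fM).2 (TensorProduct.isBaseChange R M A)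
  let f : (Fin q → R) →ₗ[R] (Fin q → A) :=
    LinearMap.pi fun i => (Algebra.linearMap R A) ∘ₗ LinearMap.proj i
  have : IsLocalizedModule P.primeCompl f := inferInstance
  obtain ⟨p, s1, h1⟩ := Module.FinitePresentation.exists_lift_of_isLocalizedModule P.primeCompl f
    ((e.toLinearMap.restrictScalars R) ∘ₗ fM)
  obtain ⟨j, s2, h2⟩ := Module.FinitePresentation.exists_lift_of_isLocalizedModule P.primeCompl fM
    ((e.symm.toLinearMap.restrictScalars R) ∘ₗ f)
  have h3 : fM.comp (j.comp p) = fM.comp ((s2 * s1) • LinearMap.id) := by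
    refine LinearMap.ext fun v => ?_
    have h4 : ∀ w, fM (j w) = s2 • e.symm (f w) := fun w => LinearMap.congr_fun h2 w
    have h5 : ∀ w, f (p w) = s1 • e (fM w) := fun w => LinearMap.congr_fun h1 w
    show fM (j (p v)) = fM ((s2 * s1) • v)
    rw [h4, h5]
    have h6 : e.symm (s1 • e (fM v)) = s1 • fM v := by
      have h7 : (s1 • e (fM v)) = e (s1 • fM v) := (map_smul (e.toLinearMap.restrictScalars R)
        (s1 : R) (fM v)).symm
      rw [h7, LinearEquiv.symm_apply_apply]
    rw [h6, smul_smul]
    exact (map_smul fM ((s2 * s1 : P.primeCompl) : R) v).symm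
  obtain ⟨s3, h4⟩ := Module.Finite.exists_smul_of_comp_eq_of_isLocalizedModule P.primeCompl fM
    _ _ h3
  refine ⟨((s3 * (s2 * s1) : P.primeCompl) : R), (s3 * (s2 * s1) : P.primeCompl).2, q, p,
    (s3 : R) • j, fun v => ?_⟩
  have h5 := LinearMap.congr_fun h4 v
  show (s3 : R) • j (p v) = ((s3 * (s2 * s1) : P.primeCompl) : R) • v
  rw [Submonoid.coe_mul, mul_smul]
  exact h5

/-- the ideal of the `s` such that `s • id` factors through a finite free module -/
def Red_ideal (R M : Type) [CommRing R] [AddCommGroup M] [Module R M] : Ideal R where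
  carrier := {s | Red_F R M (s • LinearMap.id)}
  add_mem' := by
    intro a b ha hb
    show Red_F R M ((a + b) • LinearMap.id)
    rw [add_smul]
    exact Red_add ha hb
  zero_mem' := by
    show Red_F R M ((0 : R) • LinearMap.id)
    rw [zero_smul]
    exact Red_zero R M
  smul_mem' := by
    rintro c a ⟨q, p, j, h⟩
    refine ⟨q, p, c • j, fun v => ?_⟩
    show c • j (p v) = (c * a) • v
    rw [mul_smul, h]
    rfl

theorem mem_Red_ideal {R M : Type} [CommRing R] [AddCommGroup M] [Module R M] {s : R} :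
    s ∈ Red_ideal R M ↔ Red_F R M (s • LinearMap.id) := Iff.rfl

/-- if `M` is free at `P` the ideal is not contained in `P` -/
theorem Red_ideal_not_le {R M : Type} [CommRing R] [IsNoetherianRing R] [AddCommGroup M]
    [Module R M] [Module.Finite R M] (P : Ideal R) [P.IsPrime]
    (h : Module.Free (Localization.AtPrime P) (Localization.AtPrime P ⊗[R] M)) :
    ¬ Red_ideal R M ≤ P := by
  obtain ⟨s, hs, hF⟩ := Min_loc (M := M) P h
  exact fun hle => hs (hle hF)

/-- generic freeness from freeness at the associated primes -/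
theorem Min_GF {R M : Type} [CommRing R] [IsNoetherianRing R] [AddCommGroup M]
    [Module R M] [Module.Finite R M]
    (h : ∀ (P : Ideal R) [P.IsPrime], P ∈ associatedPrimes R R →
      Module.Free (Localization.AtPrime P) (Localization.AtPrime P ⊗[R] M)) : GF R M := by
  let I : Ideal R := Red_ideal R M
  have hI : ¬ ((I : Set R) ⊆ (nonZeroDivisors R : Set R)ᶜ) := by
    intro hsub
    obtain ⟨P, hP, hle⟩ : ∃ P ∈ associatedPrimes R R, I ≤ P :=
      (I.subset_union_prime_finite (associatedPrimes.finite R R) (f := id) 0 0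
        fun _ h _ _ ↦ h.1).1 (by
          simp only [id]
          rw [biUnion_associatedPrimes_eq_compl_nonZeroDivisors]
          exact hsub)
    have : P.IsPrime := hP.1
    obtain ⟨s, hs, hF⟩ := Min_loc (M := M) P (h P hP)
    exact hs (hle hF)
  obtain ⟨s, hsI, hs⟩ := Set.not_subset.1 hI
  have hs' : s ∈ nonZeroDivisors R := not_not.1 hs
  obtain ⟨q, p, j, hj⟩ := hsI
  exact ⟨s, q, p, j, hs', hj⟩

/-- the final theorem: (ARC) for the localisations at the associated primes suffices -/
def St_ARFm : Prop := ∀ (K R S : Type) [Field K] [CharZero K] [CommRing R]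
  [IsLocalRing R] [IsNoetherianRing R] [CommRing S] [IsLocalRing S] [IsNoetherianRing S]
  [Algebra K S] [Algebra R S] [Module.Flat R S] [IsLocalHom (algebraMap R S)]
  (D : Derivation K S S) (L : List (S × ℕ)) (_ : QD K S D L),
  (∀ (P : Ideal R) [P.IsPrime], P ∈ associatedPrimes R R → ARC (Localization.AtPrime P)) → ARC R

theorem thm_ARFm (hARQr : St_ARQr) (hSYZ : St_SYZ) (hFRE : St_FRE)
    (hFLE : St_FLE) (hFLG : St_FLG) (hFLD : St_FLD) (hExt : ARS.St_Ext) : St_ARFm := by
  intro K R S _ _ _ _ _ _ _ _ _ _ _ _ D L hQ hmin _ M _ _ _ hM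
  have hEV : EV R M M := fun i hi => (hM i hi).1
  have hEV' : EV R M R := fun i hi => (hM i hi).2
  obtain ⟨n, p, hp⟩ := Module.Finite.exists_fin' R M
  obtain ⟨h1, h2⟩ := hSYZ R M (fun k => extAll_of_EV hExt R M k M hEV)
    (fun k => extAll_of_EV hExt R R k M hEV') n p hp
  have hGF : GF R (LinearMap.ker p) := by
    refine Min_GF fun P _ hP => ?_
    have : HasExt.{0} (ModuleCat.{0} (Localization.AtPrime P)) := hasExt_of_enoughProjectives _
    have : IsNoetherianRing (Localization.AtPrime P) :=
      IsLocalization.isNoetherianRing P.primeCompl _ inferInstance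
    have e1 := hFLE R (Localization.AtPrime P) (LinearMap.ker p) (LinearMap.ker p) h1
    have e2 : EA (Localization.AtPrime P) (Localization.AtPrime P ⊗[R] LinearMap.ker p)
        (Localization.AtPrime P) := fun k =>
      extAll_iso (TensorProduct.AlgebraTensorModule.rid R (Localization.AtPrime P)
        (Localization.AtPrime P)) k _ _ (LinearEquiv.refl _ _)
        (hFLE R (Localization.AtPrime P) (LinearMap.ker p) R h2 k)
    refine hmin P hP (Localization.AtPrime P ⊗[R] LinearMap.ker p) fun i hi => ?_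
    obtain ⟨k, rfl⟩ : ∃ k, i = k + 1 := ⟨i - 1, by omega⟩
    exact ⟨Min_EV _ _ k _ e1, Min_EV _ _ k _ e2⟩
  have h3 : GF S (S ⊗[R] LinearMap.ker p) := hFLG R S _ hGF
  have h4 : EA S (S ⊗[R] LinearMap.ker p) (S ⊗[R] LinearMap.ker p) := hFLE R S _ _ h1
  have h5 : EA S (S ⊗[R] LinearMap.ker p) S := fun k =>
    extAll_iso (TensorProduct.AlgebraTensorModule.rid R S S) k _ _ (LinearEquiv.refl S _)
      (hFLE R S _ _ h2 k)
  have h6 : Module.Free S (S ⊗[R] LinearMap.ker p) := hARQr K S D L hQ _ h3 h4 h5
  have h7 : Module.Free R (LinearMap.ker p) := hFLD R S _ h6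
  exact hFRE R M (hExt R M R hEV').1 n p hp h7

end Pool.Agent.ARD
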