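import Pool.Agent.ARD.StK
import Pool.Agent.ARD.Min

/-! helper11. [AGK] From torsionless modules to all modules, codimension one form, Gorenstein local
rings. -/

set_option autoImplicit false

namespace Pool.Agent.ARD

open ARS IsLocalRing

/-- generic freeness from `GP` at the associated primes -/
theorem AGK_GF {R M : Type} [CommRing R] [IsNoetherianRing R] [AddCommGroup M]
    [Module R M] (h : ∀ P ∈ associatedPrimes R R, GP R P M) : GF R M := by
  let I : Ideal R := Red_ideal R M
  have hI : ¬ ((I : Set R) ⊆ (nonZeroDivisors R : Set R)ᶜ) := by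
    intro hsub
    obtain ⟨P, hP, hle⟩ : ∃ P ∈ associatedPrimes R R, I ≤ P :=
      (I.subset_union_prime_finite (associatedPrimes.finite R R) (f := id) 0 0
        fun _ h _ _ ↦ h.1).1 (by
          simp only [id]
          rw [biUnion_associatedPrimes_eq_compl_nonZeroDivisors]
          exact hsub)
    obtain ⟨s, n, u, j, hs, hj⟩ := h P hP
    exact hs (hle (mem_Red_ideal.2 ⟨n, u, j, fun v => hj v⟩))
  obtain ⟨s, hsI, hs⟩ := Set.not_subset.1 hI
  have hs' : s ∈ nonZeroDivisors R := not_not.1 hs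
  obtain ⟨q, p, j, hj⟩ := hsI
  exact ⟨s, q, p, j, hs', hj⟩

/-- the syzygy is free at the primes of height at most one -/
private theorem AGK_pr (hGPZ : St_GPZ) {R : Type} [CommRing R]
    {X : Type} [AddCommGroup X] [Module R X] (n : ℕ)
    (f : (Fin n → R) →ₗ[R] X) (hf : Function.Surjective f)
    (hGP : ∀ p : Ideal R, p.IsPrime → p.height ≤ 1 → GP R p X) :
    (∀ p : Ideal R, p.IsPrime → p.height ≤ 1 → GP R p (LinearMap.ker f)) ∧
    (∀ p : Ideal R, p.IsPrime → p.height ≤ 1 → ∃ s : R, s ∉ p ∧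
      s • (LinearMap.id : LinearMap.ker f →ₗ[R] LinearMap.ker f) ∈
        trm R (LinearMap.ker f)) := by
  have h1 : ∀ p : Ideal R, p.IsPrime → p.height ≤ 1 → GP R p (LinearMap.ker f) :=
    fun p hp hh => (hGPZ R p X (hGP p hp hh)).1 n f hf
  exact ⟨h1, fun p hp hh => (hGPZ R p (LinearMap.ker f) (h1 p hp hh)).2.2⟩

/-- the induction -/
private theorem AGK_ind (hARK : St_ARK) (hUNK : St_UNK) (hRSQ : St_RSQ) (hSYZ : St_SYZ)
    (hFRE : St_FRE) (hGFZ : St_GFZ) (hGPZ : St_GPZ) {R : Type} [CommRing R]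
    [IsLocalRing R] [IsNoetherianRing R] (xs : List R) (h : GorL R xs)
    (hd : ((xs.length : ℕ∞) : WithBot ℕ∞) = ringKrullDim R) :
    ∀ (j i : ℕ), i + j = xs.length →
    ∀ (X : Type) [AddCommGroup X] [Module R X] [Module.Finite R X],
    Rg R (xs.take i) X → EA R X X → EA R X R →
    (∀ p : Ideal R, p.IsPrime → p.height ≤ 1 → GP R p X) → Module.Free R X := by
  have hU1 := (hUNK R xs h.mem h.reg hd).1
  intro j
  induction j with
  | zero =>
    intro i hi X _ _ _ hX hXX hXR hGP
    obtain ⟨n, p, hp⟩ := Module.Finite.exists_fin' R X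
    have hit : xs.take i = xs := List.take_of_length_le (by omega)
    rw [hit] at hX
    have hS := hRSQ R (LinearMap.ker p) (Fin n → R) X (LinearMap.ker p).subtype p
      (Submodule.subtype_injective _) hp (fun v => ⟨fun hv => ⟨⟨v, hv⟩, rfl⟩,
        fun ⟨u, hu⟩ => by rw [← hu]; exact u.2⟩) xs
    have hZr : Rg R xs (LinearMap.ker p) := hS.2.2.1 (hS.2.2.2.2 h.reg n) hX
    have hZf : Module.Finite R (LinearMap.ker p) := inferInstance
    have hZs := hSYZ R X hXX hXR n p hp
    have hP := AGK_pr hGPZ n p hp hGP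
    have hGF : GF R (LinearMap.ker p) := AGK_GF fun P hP' => hP.1 P hP'.isPrime (by
      rw [hU1 P hP']
      exact zero_le_one)
    have hfree := hARK R xs h hd (LinearMap.ker p) hZr hGF (hGFZ R X n p hp).1
      hZs.1 hP.2
    exact hFRE R X (hXR 1).1 n p hp hfree
  | succ j ih =>
    intro i hi X _ _ _ hX hXX hXR hGP
    obtain ⟨n, p, hp⟩ := Module.Finite.exists_fin' R X
    have hlt : i < xs.length := by omega
    have hit : xs.take (i + 1) = xs.take i ++ [xs[i]] := by
      rw [List.take_concat_get' xs i hlt]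
    have hR1 : Rg R (xs.take (i + 1)) R := by
      have h1 := h.reg
      rw [← List.take_append_drop (i + 1) xs] at h1
      exact ((RingTheory.Sequence.isWeaklyRegular_append_iff R _ _).1 h1).1
    have hS1 := hRSQ R (LinearMap.ker p) (Fin n → R) X (LinearMap.ker p).subtype p
      (Submodule.subtype_injective _) hp (fun v => ⟨fun hv => ⟨⟨v, hv⟩, rfl⟩,
        fun ⟨u, hu⟩ => by rw [← hu]; exact u.2⟩)
    have hZr : Rg R (xs.take (i + 1)) (LinearMap.ker p) := by
      have h2 := (hS1 (xs.take (i + 1))).2.2.2.2 hR1 n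
      rw [hit] at h2 ⊢
      exact (hS1 (xs.take i)).2.2.2.1 _ hX h2
    have hZs := hSYZ R X hXX hXR n p hp
    have hP := AGK_pr hGPZ n p hp hGP
    have hfree := ih (i + 1) (by omega) (LinearMap.ker p) hZr hZs.1 hZs.2 hP.1
    exact hFRE R X (hXR 1).1 n p hp hfree

theorem thm_AGK (hARK : St_ARK) (hUNK : St_UNK) (hRSQ : St_RSQ) (hSYZ : St_SYZ) (hFRE : St_FRE)
    (hGFZ : St_GFZ) (hGPZ : St_GPZ) : St_AGK := by
  intro R _ _ _ xs h hd M _ _ _ hMM hMR hGP
  refine AGK_ind hARK hUNK hRSQ hSYZ hFRE hGFZ hGPZ xs h hd xs.length 0 (Nat.zero_add _) M ?_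
    hMM hMR hGP
  rw [List.take_zero]
  exact RingTheory.Sequence.IsWeaklyRegular.nil R M

end Pool.Agent.ARD
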