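import Pool.Agent.ARD.StG
import Pool.Agent.ARS.END

/-!
helper82. Module ARE of ARD: `Good` rings satisfy (ARC) in terms of covers.
-/

set_option autoImplicit false

namespace Pool.Agent.ARD

open ARS IsLocalRing TensorProduct

theorem thm_ARE (hARQr : St_ARQr) (hSYZ : St_SYZ) (hFRE : St_FRE) (hGFD : St_GFD)
    (hFLE : St_FLE) (hFLG : St_FLG) (hFLD : St_FLD) : St_ARE := by
  intro R _ _ _ _ hG M _ _ _ hMM hMR
  obtain ⟨K, S, _, _, _, _, _, _, _, _, _, D, L, hQ⟩ := hG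
  obtain ⟨n, p, hp⟩ := Module.Finite.exists_fin' R M
  obtain ⟨h1, h2⟩ := hSYZ R M hMM hMR n p hp
  have h3 : GF S (S ⊗[R] LinearMap.ker p) := hFLG R S _ (hGFD R M n p)
  have h4 : EA S (S ⊗[R] LinearMap.ker p) (S ⊗[R] LinearMap.ker p) := hFLE R S _ _ h1
  have h5 : EA S (S ⊗[R] LinearMap.ker p) S := fun k =>
    extAll_iso (TensorProduct.AlgebraTensorModule.rid R S S) k _ _ (LinearEquiv.refl S _)
      (hFLE R S _ _ h2 k)
  have h6 : Module.Free S (S ⊗[R] LinearMap.ker p) := hARQr K S D L hQ _ h3 h4 h5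
  have h7 : Module.Free R (LinearMap.ker p) := hFLD R S _ h6
  exact hFRE R M (hMR 1).1 n p hp h7

end Pool.Agent.ARD
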