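import Pool.Agent.ARD.StG

/-! [ARY] Reduction to codimension one. -/

set_option autoImplicit false

namespace Pool.Agent.ARD

open ARS IsLocalRing TensorProduct

/-- an endomorphism in the trace part factors through a free module -/
theorem ARY_factor {R M : Type} [CommRing R] [AddCommGroup M] [Module R M] (φ : M →ₗ[R] M)
    (hφ : φ ∈ trm R M) :
    ∃ (F : Type) (_ : AddCommGroup F) (_ : Module R F) (_ : Module.Free R F)
      (p : M →ₗ[R] F) (j : F →ₗ[R] M), φ = j.comp p := by
  unfold trm at hφ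
  induction hφ using Submodule.span_induction with
  | mem φ h =>
    obtain ⟨f, x, rfl⟩ := h
    exact ⟨R, inferInstance, inferInstance, inferInstance, f, LinearMap.toSpanSingleton R M x,
      LinearMap.ext fun v => rfl⟩
  | zero =>
    exact ⟨R, inferInstance, inferInstance, inferInstance, 0, 0, LinearMap.ext fun v => rfl⟩
  | add φ ψ _ _ h1 h2 =>
    obtain ⟨F, _, _, _, p, j, rfl⟩ := h1
    obtain ⟨F', _, _, _, p', j', rfl⟩ := h2
    exact ⟨F × F', inferInstance, inferInstance, inferInstance, p.prod p', j.coprod j',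
      LinearMap.ext fun v => rfl⟩
  | smul r φ _ h2 =>
    obtain ⟨F, _, _, _, p, j, rfl⟩ := h2
    exact ⟨F, inferInstance, inferInstance, inferInstance, p, r • j,
      LinearMap.ext fun v => rfl⟩

theorem ARY_free {R M : Type} [CommRing R] [IsLocalRing R] [AddCommGroup M] [Module R M]
    [Module.Finite R M] (h : (LinearMap.id : M →ₗ[R] M) ∈ trm R M) : Module.Free R M := by
  obtain ⟨F, _, _, _, p, j, hpj⟩ := ARY_factor _ h
  have : Module.Projective R M := Module.Projective.of_split p j hpj.symm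
  exact Module.free_of_flat_of_isLocalRing

/-- division of a linear form by a nonzero element of a domain -/
theorem ARY_div {R N : Type} [CommRing R] [IsDomain R] [AddCommGroup N] [Module R N]
    (f : N →ₗ[R] R) {a : R} (ha : a ≠ 0) (h : ∀ x, a ∣ f x) : ∃ g : N →ₗ[R] R, f = a • g := by
  choose g hg using h
  refine ⟨{ toFun := g, map_add' := ?_, map_smul' := ?_ }, LinearMap.ext fun x => hg x⟩
  · intro x y
    apply mul_left_cancel₀ ha
    rw [mul_add, ← hg, ← hg, ← hg, map_add]
  · intro r x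
    apply mul_left_cancel₀ ha
    rw [← hg, map_smul, hg x, RingHom.id_apply, smul_eq_mul, smul_eq_mul]
    ring

theorem thm_ARY (hTRM : St_TRM) (hGR2 : St_GR2) : St_ARY := by
  intro R _ _ _ _ xs hG hdim M _ _ _ hreg hGF hTL hEA hp
  apply ARY_free
  let J : Ideal R := (trm R M).comap (LinearMap.toSpanSingleton R (M →ₗ[R] M) LinearMap.id)
  have hJ : ∀ s : R, s ∈ J ↔ s • (LinearMap.id : M →ₗ[R] M) ∈ trm R M := fun s => Iff.rfl
  by_cases hT : J = ⊤
  · have h1 : (1 : R) ∈ J := hT ▸ Submodule.mem_top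
    rw [hJ, one_smul] at h1
    exact h1
  have hJm : J ≤ maximalIdeal R := le_maximalIdeal hT
  obtain ⟨a, haJ, b, hbJ, ha0, hab⟩ := hGR2 R xs hG.mem hG.reg hdim J hJm (by
    intro p hp1 hp2 hle
    obtain ⟨s, hs, hsT⟩ := hp p hp1 hp2
    exact hs (hle ((hJ s).2 hsT)))
  obtain ⟨Φ⟩ := hTRM R xs hG M hreg hGF hTL hEA
  let A : trm R M := ⟨a • LinearMap.id, (hJ a).1 haJ⟩
  let B : trm R M := ⟨b • LinearMap.id, (hJ b).1 hbJ⟩
  have hAB : b • A = a • B := by
    apply Subtype.ext
    show b • (a • (LinearMap.id : M →ₗ[R] M)) = a • (b • LinearMap.id)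
    rw [smul_comm]
  have hf : ∀ x, b * Φ A x = a * Φ B x := by
    intro x
    have h1 : b • Φ A = a • Φ B := by rw [← map_smul, hAB, map_smul]
    exact LinearMap.congr_fun h1 x
  obtain ⟨g, hg⟩ := ARY_div (Φ A) ha0 (fun x => hab _ ⟨Φ B x, hf x⟩)
  have h2 : a • Φ.symm g = A := by
    rw [← map_smul, ← hg, LinearEquiv.symm_apply_apply]
  have h3 : ((Φ.symm g : trm R M) : M →ₗ[R] M) = LinearMap.id := by
    apply LinearMap.ext
    intro v
    have h4 : a • ((Φ.symm g : trm R M) : M →ₗ[R] M) v = a • v :=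
      LinearMap.congr_fun (congrArg Subtype.val h2) v
    rw [← sub_eq_zero]
    apply hTL
    intro k
    have h5 : a * k (((Φ.symm g : trm R M) : M →ₗ[R] M) v - (LinearMap.id : M →ₗ[R] M) v) = 0 := by
      rw [← smul_eq_mul, ← map_smul, smul_sub, h4, LinearMap.id_apply, sub_self, map_zero]
    exact (mul_eq_zero.1 h5).resolve_left ha0
  rw [← h3]
  exact (Φ.symm g).2

end Pool.Agent.ARD
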