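import Pool.Agent.ARD.StR
import Pool.Agent.ARS.END

/-! [ARQr] From modules with a connection to all modules. -/

set_option autoImplicit false

namespace Pool.Agent.ARD

open ARS IsLocalRing

private theorem ARQr_GF {R X Y : Type} [CommRing R] [AddCommGroup X] [Module R X]
    [AddCommGroup Y] [Module R Y] (e : X ≃ₗ[R] Y) (h : GF R Y) : GF R X := by
  obtain ⟨s, q, p, j, hs, hj⟩ := h
  refine ⟨s, q, p.comp e.toLinearMap, e.symm.toLinearMap.comp j, hs, fun v => ?_⟩
  show e.symm (j (p (e v))) = s • v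
  rw [hj, map_smul, LinearEquiv.symm_apply_apply]

private theorem ARQr_TL {R X Y : Type} [CommRing R] [AddCommGroup X] [Module R X]
    [AddCommGroup Y] [Module R Y] (e : X ≃ₗ[R] Y) (h : TL R Y) : TL R X := by
  intro m hm
  have h1 : e m = 0 := h (e m) fun g => hm (g.comp e.toLinearMap)
  exact e.map_eq_zero_iff.1 h1

/-- the module of a connection is free if it satisfies the hypotheses -/
private theorem ARQr_top (hENDr : St_ENDr) (hCON : ARS.St_CON) {K R : Type} [Field K] [CharZero K]
    [CommRing R] [IsLocalRing R] [IsNoetherianRing R] [Algebra K R] (D : Derivation K R R)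
    (L : List (R × ℕ)) (h : QD K R D L) (Z : Type) [AddCommGroup Z] [Module R Z]
    [Module.Finite R Z] (hreg : Rg R (el L) Z) (hGF : GF R Z) (hTL : TL R Z) (hE : EA R Z Z) :
    Module.Free R Z := by
  obtain ⟨A, ⟨e⟩⟩ := hCON K R D Z (hE 1).1
  have hfin : Module.Finite R A.X := Module.Finite.equiv e.symm
  have hr : Rg R (el L) A.X := (e.isWeaklyRegular_congr (el L)).2 hreg
  have hE' : EA R A.X A.X := fun k => extAll_iso e.symm k Z A.X e.symm (hE k)
  have hfree : Module.Free R A.X :=
    hENDr K R D L h A hfin hr (ARQr_GF e hGF) (ARQr_TL e hTL) hE'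
  exact Module.Free.of_equiv e

/-- the induction -/
private theorem ARQr_ind (hENDr : St_ENDr) (hRSQ : St_RSQ) (hSYZ : St_SYZ) (hFRE : St_FRE)
    (hGFZ : St_GFZ) (hCON : ARS.St_CON) {K R : Type} [Field K] [CharZero K]
    [CommRing R] [IsLocalRing R] [IsNoetherianRing R] [Algebra K R] (D : Derivation K R R)
    (L : List (R × ℕ)) (h : QD K R D L) : ∀ (j i : ℕ), i + j = (el L).length →
    ∀ (X : Type) [AddCommGroup X] [Module R X] [Module.Finite R X],
    Rg R ((el L).take i) X → GF R X → EA R X X → EA R X R → Module.Free R X := by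
  intro j
  induction j with
  | zero =>
    intro i hi X _ _ _ hX hGF hXX hXR
    obtain ⟨n, p, hp⟩ := Module.Finite.exists_fin' R X
    have hit : (el L).take i = el L := List.take_of_length_le (by omega)
    rw [hit] at hX
    have hS := hRSQ R (LinearMap.ker p) (Fin n → R) X (LinearMap.ker p).subtype p
      (Submodule.subtype_injective _) hp (fun v => ⟨fun hv => ⟨⟨v, hv⟩, rfl⟩,
        fun ⟨u, hu⟩ => by rw [← hu]; exact u.2⟩) (el L)
    have hZr : Rg R (el L) (LinearMap.ker p) := hS.2.2.1 (hS.2.2.2.2 h.reg n) hX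
    have hZf : Module.Finite R (LinearMap.ker p) := inferInstance
    have hZg := hGFZ R X n p hp
    have hZs := hSYZ R X hXX hXR n p hp
    have hfree := ARQr_top hENDr hCON D L h (LinearMap.ker p) hZr (hZg.2 hGF) hZg.1 hZs.1
    exact hFRE R X (hXR 1).1 n p hp hfree
  | succ j ih =>
    intro i hi X _ _ _ hX hGF hXX hXR
    obtain ⟨n, p, hp⟩ := Module.Finite.exists_fin' R X
    have hlt : i < (el L).length := by omega
    have hit : (el L).take (i + 1) = (el L).take i ++ [(el L)[i]] := by
      rw [List.take_concat_get' (el L) i hlt]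
    have hR1 : Rg R ((el L).take (i + 1)) R := by
      have h1 := h.reg
      rw [← List.take_append_drop (i + 1) (el L)] at h1
      exact ((RingTheory.Sequence.isWeaklyRegular_append_iff R _ _).1 h1).1
    have hS1 := hRSQ R (LinearMap.ker p) (Fin n → R) X (LinearMap.ker p).subtype p
      (Submodule.subtype_injective _) hp (fun v => ⟨fun hv => ⟨⟨v, hv⟩, rfl⟩,
        fun ⟨u, hu⟩ => by rw [← hu]; exact u.2⟩)
    have hZr : Rg R ((el L).take (i + 1)) (LinearMap.ker p) := by
      have h2 := (hS1 ((el L).take (i + 1))).2.2.2.2 hR1 n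
      rw [hit] at h2 ⊢
      exact (hS1 ((el L).take i)).2.2.2.1 _ hX h2
    have hZg := hGFZ R X n p hp
    have hZs := hSYZ R X hXX hXR n p hp
    have hfree := ih (i + 1) (by omega) (LinearMap.ker p) hZr (hZg.2 hGF) hZs.1 hZs.2
    exact hFRE R X (hXR 1).1 n p hp hfree

theorem thm_ARQr (hENDr : St_ENDr) (hRSQ : St_RSQ) (hSYZ : St_SYZ) (hFRE : St_FRE)
    (hGFZ : St_GFZ) (hCON : ARS.St_CON) : St_ARQr := by
  intro K R _ _ _ _ _ _ D L h X _ _ _ hGF hXX hXR
  refine ARQr_ind hENDr hRSQ hSYZ hFRE hGFZ hCON D L h (el L).length 0 (Nat.zero_add _) X ?_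
    hGF hXX hXR
  rw [List.take_zero]
  exact RingTheory.Sequence.IsWeaklyRegular.nil R X

end Pool.Agent.ARD
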