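import Pool.Agent.ARD.StG

/-! `depth N ≤ dim R / q` for associated primes `q` of `N`. -/

set_option autoImplicit false

namespace Pool.Agent.ARD

open ARS IsLocalRing Submodule Pointwise

/-- the elements killed by `q` are not all divisible by a regular element of the maximal ideal -/
private theorem ASD_nak (R : Type) [CommRing R] [IsLocalRing R] [IsNoetherianRing R] (x : R)
    (N : Type) [AddCommGroup N] [Module R N] [Module.Finite R N] (hx : x ∈ maximalIdeal R)
    (hreg : IsSMulRegular N x) (q : Ideal R) (v : N) (hv : v ≠ 0) (hqv : ∀ a ∈ q, a • v = 0) :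
    ∃ u : N, (∀ a ∈ q, a • u = 0) ∧ ∀ w : N, u ≠ x • w := by
  by_contra hcon
  push Not at hcon
  set U : Submodule R N :=
    { carrier := {u | ∀ a ∈ q, a • u = 0}
      add_mem' := by
        intro u w hu hw a ha
        rw [smul_add, hu a ha, hw a ha, add_zero]
      zero_mem' := fun a _ => smul_zero a
      smul_mem' := by
        intro c u hu a ha
        rw [smul_comm, hu a ha, smul_zero] } with hU
  have hle : U ≤ Ideal.span {x} • U := by
    intro u hu
    obtain ⟨w, hw⟩ := hcon u hu
    rw [hw]
    refine Submodule.smul_mem_smul (Ideal.mem_span_singleton_self x) ?_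
    intro a ha
    have h1 : x • (a • w) = x • (0 : N) := by
      rw [smul_comm, ← hw, smul_zero]
      exact hu a ha
    exact hreg h1
  have hbot : U = ⊥ := by
    refine Submodule.eq_bot_of_le_smul_of_le_jacobson_bot (Ideal.span {x}) U
      (IsNoetherian.noetherian U) hle ?_
    rw [IsLocalRing.jacobson_eq_maximalIdeal ⊥ bot_ne_top]
    exact (Ideal.span_singleton_le_iff_mem _).2 hx
  have hvU : v ∈ U := hqv
  rw [hbot] at hvU
  exact hv ((Submodule.mem_bot R).1 hvU)

private theorem ASD_aux (R : Type) [CommRing R] [IsLocalRing R] [IsNoetherianRing R]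
    (xs : List R) : ∀ (N : Type) [AddCommGroup N] [Module R N] [Module.Finite R N],
    (∀ x ∈ xs, x ∈ maximalIdeal R) → Rg R xs N → ∀ q ∈ associatedPrimes R N,
    ((xs.length : ℕ∞) : WithBot ℕ∞) ≤ ringKrullDim (R ⧸ q) := by
  induction xs with
  | nil =>
    intro N _ _ _ _ _ q hq
    have hp : q.IsPrime := hq.1
    have : Nontrivial (R ⧸ q) := Ideal.Quotient.nontrivial_iff.mpr hp.ne_top
    exact ringKrullDim_nonneg_of_nontrivial
  | cons x xs ih =>
    intro N _ _ _ hmem hrg q hq
    have hp : q.IsPrime := hq.1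
    obtain ⟨hreg, hrg'⟩ := (RingTheory.Sequence.isWeaklyRegular_cons_iff N x xs).1 hrg
    obtain ⟨-, v, hv⟩ := isAssociatedPrime_iff.1 hq
    have hmemq : ∀ a, a ∈ q ↔ a • v = 0 := by
      intro a
      rw [hv, Submodule.mem_colon_singleton, Submodule.mem_bot]
    have hv0 : v ≠ 0 := by
      intro h0
      refine hp.ne_top ((Ideal.eq_top_iff_one q).2 ((hmemq 1).2 ?_))
      rw [h0, smul_zero]
    have hxq : x ∉ q := by
      intro hxq
      have h1 : x • v = x • (0 : N) := by rw [smul_zero]; exact (hmemq x).1 hxq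
      exact hv0 (hreg h1)
    obtain ⟨u, hu, hux⟩ := ASD_nak R x N (hmem x List.mem_cons_self) hreg q v hv0
      fun a ha => (hmemq a).1 ha
    have hu0 : (Submodule.mkQ (x • (⊤ : Submodule R N)) u : QuotSMulTop x N) ≠ 0 := by
      intro h0
      have h1 : u ∈ x • (⊤ : Submodule R N) := (Submodule.Quotient.mk_eq_zero _).1 h0
      obtain ⟨w, -, hw⟩ := (Submodule.mem_smul_pointwise_iff_exists _ _ _).1 h1
      exact hux w hw.symm
    obtain ⟨q', hq', hle⟩ := exists_le_isAssociatedPrime_of_isNoetherianRing R _ hu0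
    have hqq' : q ≤ q' := by
      intro a ha
      refine hle ?_
      rw [Submodule.mem_colon_singleton, Submodule.mem_bot, ← map_smul, hu a ha, map_zero]
    have hxq' : x ∈ q' := by
      refine hle ?_
      rw [Submodule.mem_colon_singleton, Submodule.mem_bot, ← map_smul]
      exact (Submodule.Quotient.mk_eq_zero _).2
        ((Submodule.mem_smul_pointwise_iff_exists _ _ _).2 ⟨u, trivial, rfl⟩)
    have h2 := ih (QuotSMulTop x N) (fun y hy => hmem y (List.mem_cons_of_mem _ hy)) hrg' q' hq'
    have h3 : ringKrullDim (R ⧸ q') + 1 ≤ ringKrullDim (R ⧸ q) := by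
      have : IsDomain (R ⧸ q) := Ideal.Quotient.isDomain q
      refine ringKrullDim_succ_le_of_surjective (Ideal.Quotient.factor hqq')
        (Ideal.Quotient.factor_surjective hqq') (r := Ideal.Quotient.mk q x) ?_ ?_
      · refine mem_nonZeroDivisors_of_ne_zero ?_
        intro h
        exact hxq (Ideal.Quotient.eq_zero_iff_mem.1 h)
      · rw [Ideal.Quotient.factor_mk]
        exact Ideal.Quotient.eq_zero_iff_mem.2 hxq'
    refine le_trans ?_ h3
    rw [List.length_cons]
    push_cast
    gcongr
    exact_mod_cast h2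

/-- `depth N ≤ dim R / q` for associated primes `q` of `N` -/
theorem thm_ASD : St_ASD := by
  intro R _ _ _ xs N _ _ _ hmem hrg q hq
  exact ASD_aux R xs N hmem hrg q hq

end Pool.Agent.ARD
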