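import Pool.Agent.ARD.StN

/-!
# ARD : module CHFd, characters for free modules
-/

set_option autoImplicit false

namespace Pool.Agent.ARD

open ARS IsLocalRing

section CHFd

variable {K R : Type} [Field K] [CommRing R] [Algebra K R] {D : Derivation K R R}

/-- linear maps out of a free module with a connection -/
private theorem CHFd_hom (M : NM D) {n : ℕ} (a : Matrix (Fin n) (Fin n) R) :
    Iso (M.pow (-a.transpose)) (((NM.one D).pow a).hom M) := by
  refine ⟨Module.piEquiv (Fin n) R M.X, fun v => ?_⟩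
  apply LinearMap.ext
  intro (w : Fin n → R)
  have h1 : ∀ (v : Fin n → M.X) (w : Fin n → R),
      Module.piEquiv (Fin n) R M.X v w = ∑ i, w i • v i := fun v w =>
    Module.piEquiv_apply_apply (Fin n) R M.X v w
  refine Eq.trans (h1 _ w) ?_
  obtain ⟨W, hW⟩ : ∃ W : Fin n → R, W = ((NM.one D).pow a).N w := ⟨_, rfl⟩
  refine Eq.trans ?_ (congrArg₂ (fun s t : M.X => s - t) (congrArg M.N (h1 v w)).symm
    ((h1 v W).symm.trans (congrArg (Module.piEquiv (Fin n) R M.X v) hW)))
  have h2 : ∀ i, (M.pow (-a.transpose)).N v i = M.N (v i) + ∑ j, (-a.transpose) i j • v j :=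
    fun i => rfl
  have h3 : ∀ i, W i = D (w i) + ∑ j, a i j * w j := fun i => congrFun hW i
  have h4 : ∑ i, w i • ∑ j, (-a.transpose) i j • v j = -∑ i, (∑ j, a i j * w j) • v i := by
    simp only [Finset.smul_sum, Finset.sum_smul]
    rw [Finset.sum_comm, ← Finset.sum_neg_distrib]
    refine Finset.sum_congr rfl fun i _ => ?_
    rw [← Finset.sum_neg_distrib]
    refine Finset.sum_congr rfl fun j _ => ?_
    rw [smul_smul, ← neg_smul]
    congr 1
    show w j * -(a i j) = -(a i j * w j)
    ring
  have h5 : ∑ i, w i • (M.pow (-a.transpose)).N v i =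
      ∑ i, w i • M.N (v i) + ∑ i, w i • ∑ j, (-a.transpose) i j • v j := by
    rw [← Finset.sum_add_distrib]
    refine Finset.sum_congr rfl fun i _ => ?_
    rw [h2, smul_add]
  have h6 : ∑ i, W i • v i =
      ∑ i, D (w i) • v i + ∑ i, (∑ j, a i j * w j) • v i := by
    rw [← Finset.sum_add_distrib]
    refine Finset.sum_congr rfl fun i _ => ?_
    rw [h3, add_smul]
  have h7 : M.N (∑ i, w i • v i) = ∑ i, D (w i) • v i + ∑ i, w i • M.N (v i) := by
    rw [map_sum, ← Finset.sum_add_distrib]
    exact Finset.sum_congr rfl fun i _ => M.leib (w i) (v i)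
  rw [h5, h4, h7, h6]
  abel

/-- members of `I • ⊤` in a finite power -/
private theorem CHFd_mem (I : Ideal R) {X : Type} [AddCommGroup X] [Module R X] {n : ℕ}
    (v : Fin n → X) : v ∈ (I • ⊤ : Submodule R (Fin n → X)) ↔
      ∀ i, v i ∈ (I • ⊤ : Submodule R X) := by
  constructor
  · intro h i
    have h1 : (LinearMap.proj i : (Fin n → X) →ₗ[R] X) v ∈
        (I • ⊤ : Submodule R (Fin n → X)).map (LinearMap.proj i) := Submodule.mem_map_of_mem h
    rw [Submodule.map_smul''] at h1
    exact Submodule.smul_mono le_rfl le_top h1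
  · intro h
    have h1 : v = ∑ i, (LinearMap.single R (fun _ : Fin n => X) i) (v i) := by
      funext j
      simp [Finset.sum_apply, LinearMap.single_apply, Pi.single_apply]
    rw [h1]
    refine Submodule.sum_mem _ fun i _ => ?_
    have h2 : (LinearMap.single R (fun _ : Fin n => X) i) (v i) ∈
        (I • ⊤ : Submodule R X).map (LinearMap.single R (fun _ : Fin n => X) i) :=
      Submodule.mem_map_of_mem (h i)
    rw [Submodule.map_smul''] at h2
    exact Submodule.smul_mono le_rfl le_top h2

/-- reduction of a power -/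
private theorem CHFd_red (M : NM D) {I : Ideal R} (hI : ∀ a ∈ I, D a ∈ I) {n : ℕ}
    (b : Matrix (Fin n) (Fin n) R) : Iso (rd (M.pow b) hI) ((rd M hI).pow b) := by
  let f : (Fin n → M.X) →ₗ[R] (Fin n → (rd M hI).X) := (md M hI).compLeft (Fin n)
  have hf : ∀ v i, f v i = md M hI (v i) := fun v i => rfl
  have hk : ∀ v : Fin n → M.X, f v = 0 ↔ v ∈ (I • ⊤ : Submodule R (Fin n → M.X)) := by
    intro v
    rw [CHFd_mem]
    constructor
    · intro h i
      have h2 : md M hI (v i) = 0 := by
        rw [← hf, h]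
        rfl
      exact (Submodule.Quotient.mk_eq_zero _).1 h2
    · intro h
      funext i
      rw [hf]
      exact (Submodule.Quotient.mk_eq_zero _).2 (h i)
  have hle : (I • ⊤ : Submodule R (Fin n → M.X)) ≤ LinearMap.ker f :=
    fun v hv => (hk v).2 hv
  let F : (rd (M.pow b) hI).X →ₗ[R] (Fin n → (rd M hI).X) :=
    (I • ⊤ : Submodule R (Fin n → M.X)).liftQ f hle
  have hinj : Function.Injective F := by
    rw [injective_iff_map_eq_zero]
    intro x hx
    obtain ⟨v, rfl⟩ := (I • ⊤ : Submodule R (Fin n → M.X)).mkQ_surjective x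
    exact (Submodule.Quotient.mk_eq_zero _).2 ((hk v).1 hx)
  have hsurj : Function.Surjective F := by
    intro x
    choose w hw using fun i => (I • ⊤ : Submodule R M.X).mkQ_surjective (x i)
    exact ⟨(I • ⊤ : Submodule R (Fin n → M.X)).mkQ w, funext hw⟩
  refine ⟨LinearEquiv.ofBijective F ⟨hinj, hsurj⟩, fun x => ?_⟩
  obtain ⟨v, rfl⟩ := (I • ⊤ : Submodule R (Fin n → M.X)).mkQ_surjective x
  funext i
  show md M hI (M.N (v i) + ∑ j, b i j • v j) =
    (rd M hI).N (md M hI (v i)) + ∑ j, b i j • md M hI (v j)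
  rw [map_add, map_sum]
  refine congrArg₂ _ rfl ?_
  exact Finset.sum_congr rfl fun j _ => map_smul _ _ _

end CHFd

/-- [CHFd] Characters for the free module `F = one.pow a`. -/
theorem thm_CHFd (hPOWd : St_POWd) (hISOd : St_ISOd) (hRFNd : St_RFNd) (hNEG : ARS.St_NEG)
    (hISO : ARS.St_ISO) : St_CHFd := by
  intro K R _ _ _ _ _ D L h M hM n a a0 ha
  have ired : ∀ A B : NM D, Iso A B → Iso (rd A h.stab) (rd B h.stab) := fun A B =>
    hISOd K R D (idl L) h.stab A B
  have ich : ∀ A B : NM D, Iso A B → A.ch = B.ch := fun A B =>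
    (hISO K R D 0 0 (by simp) A B A).2.2.2.1
  constructor
  · have h1 := ich _ _ (ired _ _ (CHFd_hom M a))
    have h2 := ich _ _ (CHFd_red M h.stab (-a.transpose))
    have h3 := hPOWd K R D h.max (rd M h.stab)
      ((hRFNd K R D (idl L) h.stab h.fin M M).1 hM) n (-a.transpose)
      (-a0.transpose) (fun i j => by
        have h4 : (-a.transpose) i j - algebraMap K R ((-a0.transpose) i j) =
            -(a j i - algebraMap K R (a0 j i)) := by
          show -(a j i) - algebraMap K R (-(a0 j i)) = _
          rw [map_neg]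
          ring
        rw [h4]
        exact neg_mem (ha j i))
    rw [← h1, h2, h3, hNEG]
  · have h2 := ich _ _ (CHFd_red (NM.one D) h.stab a)
    have h3 := hPOWd K R D h.max (rd (NM.one D) h.stab)
      ((hRFNd K R D (idl L) h.stab h.fin (NM.one D) M).1 (inferInstanceAs (Module.Finite R R)))
      n a a0 ha
    rw [h2, h3]

end Pool.Agent.ARD
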