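import Pool.Agent.ARD.StI
import Pool.Agent.ARS.END

/-! helper52. Module COD of ARD: the codimension one principle. -/

set_option autoImplicit false

namespace Pool.Agent.ARD

open ARS IsLocalRing TensorProduct

/-- [COD] The codimension one principle. -/
theorem thm_COD (hARG : St_ARG) (hFLE : St_FLE) (hLCF : St_LCF) (hGPZ : St_GPZ) : St_COD := by
  intro R _ _ _ _ xs hG hd hloc M _ _ _ h1 h2
  refine hARG R xs hG hd M h1 h2 fun p hp hpt => ?_
  obtain ⟨q, hq, hpq, hgood⟩ := hloc p hp hpt
  have hnoeth : IsNoetherianRing (Localization.AtPrime q) :=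
    IsLocalization.isNoetherianRing q.primeCompl _ inferInstance
  have hflat : Module.Flat R (Localization.AtPrime q) :=
    IsLocalization.flat (Localization.AtPrime q) q.primeCompl
  have h4 : EA (Localization.AtPrime q) (Localization.AtPrime q ⊗[R] M)
      (Localization.AtPrime q ⊗[R] M) := hFLE R (Localization.AtPrime q) _ _ h1
  have h5 : EA (Localization.AtPrime q) (Localization.AtPrime q ⊗[R] M)
      (Localization.AtPrime q) := fun k =>
    extAll_iso (TensorProduct.AlgebraTensorModule.rid R (Localization.AtPrime q)
      (Localization.AtPrime q)) k _ _ (LinearEquiv.refl (Localization.AtPrime q) _)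
      (hFLE R (Localization.AtPrime q) _ _ h2 k)
  exact (hGPZ R q M (hLCF R q M (hgood _ h4 h5))).2.1 p hpq

end Pool.Agent.ARD
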