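import Pool.Agent.ARD.StH

/-! Module DEP of ARD (MP_7dc157_al): if there is a regular sequence longer than `ys`, the quotient
by `ys` has no socle element. -/

set_option autoImplicit false

namespace Pool.Agent.ARD

open ARS IsLocalRing
open scoped Pointwise

/-- membership in `(a :: ys) N` is membership of the class in `ys (N / a N)` -/
theorem DEP_mem {R : Type} [CommRing R] {N : Type} [AddCommGroup N] [Module R N] (a : R)
    (ys : List R) (v : N) :
    v ∈ (Ideal.ofList (a :: ys) • ⊤ : Submodule R N) ↔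
      (Submodule.mkQ (a • (⊤ : Submodule R N)) v : QuotSMulTop a N) ∈
        (Ideal.ofList ys • ⊤ : Submodule R (QuotSMulTop a N)) := by
  have h1 : (Ideal.ofList ys • ⊤ : Submodule R (QuotSMulTop a N)) =
      Submodule.map (Submodule.mkQ (a • (⊤ : Submodule R N)))
        (Ideal.ofList ys • ⊤ : Submodule R N) := by
    rw [Submodule.map_smul'', Submodule.map_top, Submodule.range_mkQ]
  rw [h1, ← Submodule.mem_comap, Submodule.comap_map_mkQ, Ideal.ofList_cons_smul]

theorem DEP_aux (hEXC : St_EXC) (R : Type) [CommRing R] [IsLocalRing R] [IsNoetherianRing R] :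
    ∀ (ys : List R) (N : Type) [AddCommGroup N] [Module R N] [Module.Finite R N] (xs : List R),
    (∀ x ∈ xs, x ∈ maximalIdeal R) → (∀ x ∈ ys, x ∈ maximalIdeal R) → ys.length < xs.length →
    Rg R xs N → Rg R ys N → ∀ v : N,
    (∀ t ∈ maximalIdeal R, t • v ∈ (Ideal.ofList ys • ⊤ : Submodule R N)) →
    v ∈ (Ideal.ofList ys • ⊤ : Submodule R N) := by
  intro ys
  induction ys with
  | nil =>
    intro N _ _ _ xs hxs _ hlen hreg _ v hv
    cases xs with
    | nil => exact absurd hlen (lt_irrefl _)
    | cons x xs =>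
      have hx : x ∈ maximalIdeal R := hxs x List.mem_cons_self
      have h1 := ((RingTheory.Sequence.isWeaklyRegular_cons_iff N x xs).1 hreg).1
      have h2 := hv x hx
      rw [Ideal.ofList_nil, Submodule.bot_smul, Submodule.mem_bot] at h2 ⊢
      exact isSMulRegular_iff_right_eq_zero_of_smul.1 h1 v h2
  | cons a ys ih =>
    intro N _ _ _ xs hxs hys hlen hreg hregy v hv
    have ha : a ∈ maximalIdeal R := hys a List.mem_cons_self
    obtain ⟨ha1, ha2⟩ := (RingTheory.Sequence.isWeaklyRegular_cons_iff N a ys).1 hregy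
    have hlen' : ys.length + 1 < xs.length := hlen
    obtain ⟨zs, hz1, hz2, hz3⟩ := hEXC R N xs hxs (by omega) hreg a ha
      (fun w hw => isSMulRegular_iff_right_eq_zero_of_smul.1 ha1 w hw)
    obtain ⟨_, hz4⟩ := (RingTheory.Sequence.isWeaklyRegular_cons_iff N a zs).1 hz3
    rw [DEP_mem]
    refine ih (QuotSMulTop a N) zs hz1 (fun x hx => hys x (List.mem_cons_of_mem a hx))
      (by omega) hz4 ha2 _ ?_
    intro t ht
    have h3 := (DEP_mem a ys (t • v)).1 (hv t ht)
    rw [map_smul] at h3
    exact h3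

theorem thm_DEP (hEXC : St_EXC) : St_DEP := by
  intro R _ _ _ N _ _ _ xs ys hxs hys hlen hreg hregy v hv
  exact DEP_aux hEXC R ys N xs hxs hys hlen hreg hregy v hv

end Pool.Agent.ARD
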