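import Pool.Agent.ARD.StI
import Pool.Agent.ARS.END

/-! Module DES of ARD: flat descent of (ARC), in terms of covers. -/

set_option autoImplicit false

namespace Pool.Agent.ARD

open ARS IsLocalRing TensorProduct

theorem thm_DES (hFLE : St_FLE) (hFLD : St_FLD) : St_DES := by
  intro R S _ _ _ _ _ _ _ _ _ hS M _ _ _ h1 h2
  have h4 : EA S (S ⊗[R] M) (S ⊗[R] M) := hFLE R S M M h1
  have h5 : EA S (S ⊗[R] M) S := fun k =>
    extAll_iso (TensorProduct.AlgebraTensorModule.rid R S S) k _ _ (LinearEquiv.refl S _)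
      (hFLE R S M R h2 k)
  exact hFLD R S M (hS (S ⊗[R] M) h4 h5)

end Pool.Agent.ARD
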