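import Pool.Agent.ARD.StS
import Pool.Agent.ARD.ARY
import Pool.Agent.ARS.END

/-! helper11. Module DIF of ARD: the differential principle. -/

set_option autoImplicit false

namespace Pool.Agent.ARD

open ARS IsLocalRing TensorProduct

section

variable {K R M : Type} [Field K] [CommRing R] [Algebra K R] [AddCommGroup M] [Module R M]
  (D : Derivation K R R)

/-- a rigid module has a connection -/
theorem DIF_con (hCON : St_CON) [Module.Finite R M] (hE : ExtProp R M M) :
    ∃ N : M → M, (∀ x y, N (x + y) = N x + N y) ∧ ∀ (r : R) x, N (r • x) = D r • x + r • N x := by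
  obtain ⟨A, ⟨e⟩⟩ := hCON K R D M hE
  refine ⟨fun m => e (A.N (e.symm m)), fun x y => ?_, fun r x => ?_⟩
  · show e (A.N (e.symm (x + y))) = e (A.N (e.symm x)) + e (A.N (e.symm y))
    rw [map_add, map_add, map_add]
  · show e (A.N (e.symm (r • x))) = D r • x + r • e (A.N (e.symm x))
    rw [map_smul, A.leib, map_add, map_smul, map_smul, LinearEquiv.apply_symm_apply]

/-- commutators with a connection preserve the trace part -/
theorem DIF_comm (N : M → M) (hadd : ∀ x y, N (x + y) = N x + N y)
    (hleib : ∀ (r : R) x, N (r • x) = D r • x + r • N x) (φ : M →ₗ[R] M) (hφ : φ ∈ trm R M) :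
    ∃ ψ ∈ trm R M, ∀ m, ψ m = N (φ m) - φ (N m) := by
  unfold trm at hφ
  induction hφ using Submodule.span_induction with
  | mem φ h =>
    obtain ⟨f, x, rfl⟩ := h
    let f' : M →ₗ[R] R :=
      { toFun := fun m => D (f m) - f (N m)
        map_add' := by
          intro u v
          rw [map_add, map_add, hadd, map_add]
          ring
        map_smul' := by
          intro r u
          rw [map_smul, smul_eq_mul, D.leibniz, hleib, map_add, map_smul, map_smul,
            RingHom.id_apply]
          simp only [smul_eq_mul]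
          ring }
    refine ⟨f'.smulRight x + f.smulRight (N x), Submodule.add_mem _
      (Submodule.subset_span ⟨f', x, rfl⟩) (Submodule.subset_span ⟨f, N x, rfl⟩), fun m => ?_⟩
    show (D (f m) - f (N m)) • x + f m • N x = N (f m • x) - f (N m) • x
    rw [hleib, sub_smul]
    abel
  | zero =>
    have h0 : N 0 = 0 := by
      have h1 := hadd 0 0
      rw [add_zero] at h1
      exact (left_eq_add.1 h1)
    exact ⟨0, Submodule.zero_mem _, fun m => by
      rw [LinearMap.zero_apply, LinearMap.zero_apply, h0, sub_zero]⟩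
  | add φ φ' _ _ h1 h2 =>
    obtain ⟨ψ, hψ, h3⟩ := h1
    obtain ⟨ψ', hψ', h4⟩ := h2
    refine ⟨ψ + ψ', Submodule.add_mem _ hψ hψ', fun m => ?_⟩
    rw [LinearMap.add_apply, LinearMap.add_apply, LinearMap.add_apply, h3, h4, hadd]
    abel
  | smul r φ h h2 =>
    obtain ⟨ψ, hψ, h3⟩ := h2
    refine ⟨D r • φ + r • ψ, Submodule.add_mem _ (Submodule.smul_mem _ _ h)
      (Submodule.smul_mem _ _ hψ), fun m => ?_⟩
    rw [LinearMap.add_apply, LinearMap.smul_apply, LinearMap.smul_apply, LinearMap.smul_apply,
      LinearMap.smul_apply, h3, hleib, smul_sub]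
    abel

end

/-- [DIF] The differential principle: the locus where a rigid module is not free is stable under
all derivations. -/
theorem thm_DIF (hCON : St_CON) (hFLE : St_FLE) (hLCF : St_LCF) (hGPZ : St_GPZ) : St_DIF := by
  intro K R _ _ _ _ _ q _ hq hgood M _ _ _ h1 h2
  apply ARY_free
  let J : Ideal R := (trm R M).comap (LinearMap.toSpanSingleton R (M →ₗ[R] M) LinearMap.id)
  have hJ : ∀ s : R, s ∈ J ↔ s • (LinearMap.id : M →ₗ[R] M) ∈ trm R M := fun s => Iff.rfl
  by_cases hT : J = ⊤
  · have h1 : (1 : R) ∈ J := hT ▸ Submodule.mem_top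
    rw [hJ, one_smul] at h1
    exact h1
  exfalso
  have hle : J ≤ q := by
    refine hq J hT fun D s hs => ?_
    obtain ⟨N, hadd, hleib⟩ := DIF_con D hCON (h1 1).1
    obtain ⟨ψ, hψ, h3⟩ := DIF_comm D N hadd hleib _ ((hJ s).1 hs)
    rw [hJ]
    have h4 : D s • (LinearMap.id : M →ₗ[R] M) = ψ := by
      apply LinearMap.ext
      intro m
      rw [h3]
      show D s • m = N (s • m) - s • N m
      rw [hleib]
      abel
    rw [h4]
    exact hψ
  have hnoeth : IsNoetherianRing (Localization.AtPrime q) :=
    IsLocalization.isNoetherianRing q.primeCompl _ inferInstance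
  have hflat : Module.Flat R (Localization.AtPrime q) :=
    IsLocalization.flat (Localization.AtPrime q) q.primeCompl
  have h4 : EA (Localization.AtPrime q) (Localization.AtPrime q ⊗[R] M)
      (Localization.AtPrime q ⊗[R] M) := hFLE R (Localization.AtPrime q) _ _ h1
  have h5 : EA (Localization.AtPrime q) (Localization.AtPrime q ⊗[R] M)
      (Localization.AtPrime q) := fun k =>
    extAll_iso (TensorProduct.AlgebraTensorModule.rid R (Localization.AtPrime q)
      (Localization.AtPrime q)) k _ _ (LinearEquiv.refl (Localization.AtPrime q) _)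
      (hFLE R (Localization.AtPrime q) _ _ h2 k)
  obtain ⟨s, hs, hs'⟩ := (hGPZ R q M (hLCF R q M (hgood _ h4 h5))).2.2
  exact hs (hle ((hJ s).2 hs'))

end Pool.Agent.ARD
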