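import Pool.Agent.ARD.StC

/-!
helper82. Module DIM of ARD: the quotient of a Noetherian local ring by a regular sequence of length
`dim R` is Artinian.
-/

set_option autoImplicit false

namespace Pool.Agent.ARD

open ARS IsLocalRing

private theorem DIM_cancel (x : WithBot ℕ∞) (n : ℕ) (h : x + (n : WithBot ℕ∞) = ((n : ℕ∞) : WithBot ℕ∞)) :
    x ≤ 0 := by
  induction x using WithBot.recBotCoe with
  | bot => exact bot_le
  | coe x =>
    have h1 : x + (n : ℕ∞) = (n : ℕ∞) := by exact_mod_cast h
    induction x using ENat.recTopCoe with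
    | top =>
      rw [top_add] at h1
      exact absurd h1.symm (ENat.natCast_ne_top n)
    | coe m =>
      have h2 : m + n = n := by exact_mod_cast h1
      have h3 : m = 0 := by omega
      rw [h3]
      exact le_rfl

theorem thm_DIM : St_DIM := by
  intro R _ _ _ xs hreg hdim
  have h1 := ringKrullDim_add_length_eq_ringKrullDim_of_isRegular xs hreg
  rw [← hdim] at h1
  have h2 := DIM_cancel _ _ h1
  have h3 : Ring.KrullDimLE 0 (R ⧸ Ideal.ofList xs) := by
    rw [Ring.KrullDimLE, Order.krullDimLE_iff]
    exact h2
  exact isArtinianRing_iff_krullDimLE_zero.2 h3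

end Pool.Agent.ARD
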