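import Pool.Agent.ARD.StC

/-! Module DUA: all `Ext ^ i (A, R)` vanish for regular `A`. -/

set_option autoImplicit false

namespace Pool.Agent.ARD

open ARS IsLocalRing

theorem thm_DUA (hRSQ : St_RSQ) (hESA : St_ESA) : St_DUA := by
  intro R _ _ _ xs hG
  have key : ∀ (k : ℕ) (A : Type) [AddCommGroup A] [Module R A] [Module.Finite R A],
      Rg R xs A → ExtAll R R k A := by
    intro k
    induction k with
    | zero =>
      intro A _ _ _ _
      trivial
    | succ k ih =>
      intro A _ _ _ hA
      refine ⟨hESA R xs hG A hA, fun n p hp => ?_⟩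
      refine ih (LinearMap.ker p) ?_
      have h := hRSQ R (LinearMap.ker p) (Fin n → R) A (LinearMap.ker p).subtype p
        (LinearMap.ker p).injective_subtype hp
        (fun v => ⟨fun hv => ⟨⟨v, hv⟩, rfl⟩, fun ⟨u, hu⟩ => by rw [← hu]; exact u.2⟩) xs
      exact h.2.2.1 (h.2.2.2.2 hG.reg n) hA
  intro A _ _ _ hA k
  exact key k A hA

end Pool.Agent.ARD
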