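import Pool.Agent.ARD.StN

/-! ARD DURd: duality for regular modules -/

set_option autoImplicit false

namespace Pool.Agent.ARD

open ARS IsLocalRing

/-- the reduction of a functional -/
private def DURd_F {R : Type} [CommRing R] (X : Type) [AddCommGroup X] [Module R X] (I : Ideal R) :
    (X →ₗ[R] R) →ₗ[R] ((X ⧸ (I • ⊤ : Submodule R X)) →ₗ[R]
      (R ⧸ (I • ⊤ : Submodule R R))) where
  toFun f := Submodule.liftQ _ ((Submodule.mkQ (I • ⊤ : Submodule R R)).comp f) (by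
    intro x hx
    rw [LinearMap.mem_ker, LinearMap.comp_apply, Submodule.mkQ_apply,
      Submodule.Quotient.mk_eq_zero]
    exact Submodule.smul_top_le_comap_smul_top I f hx)
  map_add' f g := by
    ext v
    rfl
  map_smul' r f := by
    ext v
    rfl

private theorem DURd_F_apply {R : Type} [CommRing R] (X : Type) [AddCommGroup X] [Module R X]
    (I : Ideal R) (f : X →ₗ[R] R) (v : X) :
    DURd_F X I f ((I • ⊤ : Submodule R X).mkQ v) = (I • ⊤ : Submodule R R).mkQ (f v) := rfl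

private theorem DURd_ker {R : Type} [CommRing R] (X : Type) [AddCommGroup X]
    [Module R X] (I : Ideal R)
    (h3 : ∀ φ : X →ₗ[R] R, (∀ a, φ a ∈ (I • ⊤ : Submodule R R)) →
      φ ∈ (I • ⊤ : Submodule R (X →ₗ[R] R))) :
    (I • ⊤ : Submodule R (X →ₗ[R] R)) = LinearMap.ker (DURd_F X I) := by
  ext f
  rw [LinearMap.mem_ker]
  constructor
  · intro hf
    apply LinearMap.ext
    intro q
    obtain ⟨v, rfl⟩ := Submodule.mkQ_surjective _ q
    rw [DURd_F_apply, Submodule.mkQ_apply, LinearMap.zero_apply, Submodule.Quotient.mk_eq_zero]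
    exact Submodule.smul_top_le_comap_smul_top I (LinearMap.applyₗ v : (X →ₗ[R] R) →ₗ[R] R) hf
  · intro hf
    apply h3
    intro v
    have h1 := LinearMap.congr_fun hf ((I • ⊤ : Submodule R X).mkQ v)
    rw [DURd_F_apply, Submodule.mkQ_apply, LinearMap.zero_apply,
      Submodule.Quotient.mk_eq_zero] at h1
    exact h1

private theorem DURd_surj {R : Type} [CommRing R] (X : Type) [AddCommGroup X] [Module R X]
    (I : Ideal R)
    (h2 : ∀ χ : X →ₗ[R] (R ⧸ (I • ⊤ : Submodule R R)), ∃ φ : X →ₗ[R] R,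
      ∀ a, (I • ⊤ : Submodule R R).mkQ (φ a) = χ a) :
    Function.Surjective (DURd_F X I) := by
  intro φ
  obtain ⟨ψ, hψ⟩ := h2 (φ.comp (I • ⊤ : Submodule R X).mkQ)
  refine ⟨ψ, ?_⟩
  apply LinearMap.ext
  intro q
  obtain ⟨v, rfl⟩ := Submodule.mkQ_surjective _ q
  exact hψ v

private theorem DURd_equiv {R : Type} [CommRing R] (X : Type) [AddCommGroup X] [Module R X]
    (I : Ideal R)
    (h2 : ∀ χ : X →ₗ[R] (R ⧸ (I • ⊤ : Submodule R R)), ∃ φ : X →ₗ[R] R,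
      ∀ a, (I • ⊤ : Submodule R R).mkQ (φ a) = χ a)
    (h3 : ∀ φ : X →ₗ[R] R, (∀ a, φ a ∈ (I • ⊤ : Submodule R R)) →
      φ ∈ (I • ⊤ : Submodule R (X →ₗ[R] R))) :
    ∃ e : ((X →ₗ[R] R) ⧸ (I • ⊤ : Submodule R (X →ₗ[R] R))) ≃ₗ[R]
      ((X ⧸ (I • ⊤ : Submodule R X)) →ₗ[R] (R ⧸ (I • ⊤ : Submodule R R))),
      ∀ (f : X →ₗ[R] R) (v : X),
        e ((I • ⊤ : Submodule R (X →ₗ[R] R)).mkQ f) ((I • ⊤ : Submodule R X).mkQ v) =
        (I • ⊤ : Submodule R R).mkQ (f v) := by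
  refine ⟨(Submodule.quotEquivOfEq _ _ (DURd_ker X I h3)).trans
    ((DURd_F X I).quotKerEquivOfSurjective (DURd_surj X I h2)), ?_⟩
  intro f v
  rfl

/-- duality for regular modules -/
theorem thm_DURd (hGORd : St_GORd) (hHMR : St_HMR) (hDUA : St_DUA) (hRFNd : St_RFNd)
    (hISO : ARS.St_ISO) : St_DURd := by
  intro K R _ _ _ _ _ D L h
  obtain ⟨c, hc⟩ := hGORd K R D L h
  refine ⟨c, ?_⟩
  intro A hfin hreg
  have hEA : EA R A.X R := hDUA R (el L) h.gor A.X hreg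
  obtain ⟨-, h2, h3⟩ := hHMR R (el L) A.X R h.reg hEA
  have h1 := hc (rd A h.stab) ((hRFNd K R D (idl L) h.stab h.fin A A).1 hfin) (by
    intro a ha q
    obtain ⟨x, rfl⟩ := Submodule.mkQ_surjective _ q
    show a • (idl L • ⊤ : Submodule R A.X).mkQ x = 0
    rw [← map_smul, Submodule.mkQ_apply, Submodule.Quotient.mk_eq_zero]
    exact Submodule.smul_mem_smul ha trivial)
  rw [← h1]
  refine (hISO K R D 0 0 (by rw [map_zero, mul_zero]) _ _ (NM.one D)).2.2.2.1 ?_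
  obtain ⟨e, he⟩ := DURd_equiv A.X (idl L) h2 h3
  refine ⟨e, ?_⟩
  intro u
  obtain ⟨f, rfl⟩ : ∃ f : A.X →ₗ[R] R,
    (idl L • ⊤ : Submodule R (A.X →ₗ[R] R)).mkQ f = u := Submodule.mkQ_surjective _ u
  apply LinearMap.ext
  intro q
  obtain ⟨v, rfl⟩ : ∃ v : A.X, (idl L • ⊤ : Submodule R A.X).mkQ v = q :=
    Submodule.mkQ_surjective _ q
  let Z : NM D := rd (NM.one D) h.stab
  let π : R → Z.X := fun r => (idl L • ⊤ : Submodule R R).mkQ r
  obtain ⟨g, hg⟩ : ∃ g : A.X →ₗ[R] R, g = (A.hom (NM.one D)).N f := ⟨_, rfl⟩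
  have hgv : g v = D (f v) - f (A.N v) := by
    rw [hg]
    rfl
  have e1 : e ((idl L • ⊤ : Submodule R (A.X →ₗ[R] R)).mkQ g)
      ((idl L • ⊤ : Submodule R A.X).mkQ v) = π (g v) := he g v
  have e2 : e ((idl L • ⊤ : Submodule R (A.X →ₗ[R] R)).mkQ f)
      ((idl L • ⊤ : Submodule R A.X).mkQ v) = π (f v) := he f v
  have e3 : e ((idl L • ⊤ : Submodule R (A.X →ₗ[R] R)).mkQ f)
      ((idl L • ⊤ : Submodule R A.X).mkQ (A.N v)) = π (f (A.N v)) := he f (A.N v)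
  have e4 : π (g v) = Z.N (π (f v)) - π (f (A.N v)) := by
    rw [hgv]
    exact map_sub (Submodule.mkQ (idl L • ⊤ : Submodule R R)) (D (f v)) (f (A.N v))
  have e5 := e1.trans e4
  rw [← e2, ← e3, hg] at e5
  exact e5

end Pool.Agent.ARD
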