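import Pool.Agent.ARD.StR

/-! ARD: the end of the argument for quasi-homogeneous rings of any dimension, for modules which
are generically free and torsionless (the ring need not be a domain). -/

set_option autoImplicit false

namespace Pool.Agent.ARD

open ARS IsLocalRing

theorem thm_ENDr (hISOd : St_ISOd) (hRFNd : St_RFNd) (hDURd : St_DURd) (hABSd : St_ABSd)
    (hPALd : St_PALd) (hTRSd : St_TRSd) (hTREr : St_TREr) (hFIND : St_FIND) (hHMR : St_HMR)
    (hREG : St_REG) (hISO : ARS.St_ISO) : St_ENDr := by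
  intro K R _ _ _ _ _ _ D L h M hM hR hG hT hE
  obtain ⟨c, hc⟩ := hDURd K R D L h
  have habs := hABSd K R D L h M hM hR hE
  have hpal := hPALd K R D L h c hc M habs
  obtain ⟨hst, hfree⟩ := hTRSd K R D M hM
  have hEf : Module.Finite R (M.hom M).X := (hRFNd K R D (idl L) h.stab h.fin M M).2.1 hM hM
  have hEr : Rg R (el L) (M.hom M).X := (hHMR R (el L) M.X M.X hR hE).1
  have hDr : Rg R (el L) ((M.hom M).hom (NM.one D)).X :=
    (hREG R (el L) h.gor (M.hom M).X (M.hom M).X).1 hEr
  have hiso : Iso ((M.hom M).sub (trc M) hst) ((M.hom M).hom (NM.one D)) :=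
    hTREr K R D L h M hM hR hG hT hE hst
  have hDf : Module.Finite R ((M.hom M).hom (NM.one D)).X :=
    (hRFNd K R D (idl L) h.stab h.fin (M.hom M) (NM.one D)).2.1 hEf
      (inferInstance : Module.Finite R R)
  have hTr : Rg R (el L) ((M.hom M).sub (trc M) hst).X := by
    obtain ⟨e, -⟩ := hiso
    exact (hREG R (el L) h.gor ((M.hom M).hom (NM.one D)).X ((M.hom M).sub (trc M) hst).X).2
      e.symm hDr
  have h0 : D 1 = ((0 : ℕ) : R) * 1 := by
    rw [Derivation.map_one_eq_zero]
    simp
  have h2 : (rd ((M.hom M).sub (trc M) hst) h.stab).ch =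
      (rd ((M.hom M).hom (NM.one D)) h.stab).ch :=
    (hISO K R D 1 0 h0 _ _ (M.hom M)).2.2.2.1 (hISOd K R D (idl L) h.stab _ _ hiso)
  have h7 : (rd ((M.hom M).sub (trc M) hst) h.stab).ch = (rd (M.hom M) h.stab).ch := by
    rw [h2, hc (M.hom M) hEf hEr]
    exact hpal.symm
  have h9 := hFIND K R D L h (M.hom M) hEf hEr (trc M) hst hTr h7
  apply hfree
  rw [h9]
  trivial

end Pool.Agent.ARD
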