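import Pool.Agent.ARD.StC
import Pool.Agent.HWC.Baer

/-!
# ARD / ESA : `Ext ^ 1 (A, R) = 0` for regular `A` over a Gorenstein local ring
-/

set_option autoImplicit false

namespace Pool.Agent.ARD

open ARS IsLocalRing
open scoped Pointwise

section ESA

private theorem ESA_irr (R : Type) [CommRing R] [IsLocalRing R] (I : Ideal R)
    (hI : I ≤ maximalIdeal R) (h : InfIrred I) : InfIrred (⊥ : Ideal (R ⧸ I)) := by
  have hne : I ≠ ⊤ := by
    rintro rfl
    exact (maximalIdeal.isMaximal R).ne_top (top_le_iff.1 hI)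
  have hnt : Nontrivial (R ⧸ I) := Ideal.Quotient.nontrivial_iff.2 hne
  refine ⟨?_, ?_⟩
  · rw [isMax_iff_eq_top]
    exact bot_ne_top
  · intro b c hbc
    have h1 : b.comap (Ideal.Quotient.mk I) ⊓ c.comap (Ideal.Quotient.mk I) = I := by
      rw [← Ideal.comap_inf, hbc]
      have h2 : (⊥ : Ideal (R ⧸ I)).comap (Ideal.Quotient.mk I) =
          RingHom.ker (Ideal.Quotient.mk I) := rfl
      rw [h2, Ideal.mk_ker]
    have h3 : ∀ d : Ideal (R ⧸ I), d.comap (Ideal.Quotient.mk I) = I → d = ⊥ := by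
      intro d hd
      rw [← Ideal.map_comap_of_surjective (Ideal.Quotient.mk I)
        Ideal.Quotient.mk_surjective d, hd, Ideal.map_quotient_self]
    rcases h.2 h1 with h4 | h4
    · exact Or.inl (h3 b h4)
    · exact Or.inr (h3 c h4)

private theorem ESA_baer (R : Type) [CommRing R] [IsLocalRing R] (I : Ideal R)
    (hI : I ≤ maximalIdeal R) (h : InfIrred I) (ha : IsArtinianRing (R ⧸ I)) :
    Module.Baer (R ⧸ I) (R ⧸ I) := by
  have hne : I ≠ ⊤ := by
    rintro rfl
    exact (maximalIdeal.isMaximal R).ne_top (top_le_iff.1 hI)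
  have hnt : Nontrivial (R ⧸ I) := Ideal.Quotient.nontrivial_iff.2 hne
  have hloc : IsLocalRing (R ⧸ I) :=
    IsLocalRing.of_surjective' (Ideal.Quotient.mk I) Ideal.Quotient.mk_surjective
  exact @HWC.baer (R ⧸ I) _ hloc ha (ESA_irr R I hI h)

/-- the step: from `W / y W` to `W` -/
private theorem ESA_step (R : Type) [CommRing R] [IsLocalRing R] [IsNoetherianRing R]
    (F W : Type) [AddCommGroup F] [Module R F] [Module.Finite R F] [Module.Projective R F]
    [AddCommGroup W] [Module R W] [Module.Finite R W] (Z : Submodule R F) (y : R)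
    (hy : y ∈ maximalIdeal R) (hreg : IsSMulRegular W y)
    (hE : ∀ g : Z →ₗ[R] QuotSMulTop y W, ∃ h : F →ₗ[R] QuotSMulTop y W, ∀ z : Z, h z = g z)
    (g : Z →ₗ[R] W) : ∃ h : F →ₗ[R] W, ∀ z : Z, h z = g z := by
  have hex : ∀ g : Z →ₗ[R] W, ∃ (h0 : F →ₗ[R] W) (g' : Z →ₗ[R] W),
      ∀ z : Z, g z = h0 z + y • g' z := by
    intro g
    obtain ⟨h1, hh1⟩ := hE ((y • ⊤ : Submodule R W).mkQ.comp g)
    obtain ⟨h0, hh0⟩ := Module.projective_lifting_property (y • ⊤ : Submodule R W).mkQ h1
      (Submodule.mkQ_surjective _)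
    have hd : ∀ z : Z, ∃ w : W, y • w = g z - h0 z := by
      intro z
      have h2 : (y • ⊤ : Submodule R W).mkQ (g z - h0 z) = 0 := by
        rw [map_sub]
        have h3 : (y • ⊤ : Submodule R W).mkQ (h0 z) = h1 z := by
          rw [← hh0]
          rfl
        rw [h3, hh1 z]
        exact sub_self _
      rw [Submodule.mkQ_apply, Submodule.Quotient.mk_eq_zero,
        Submodule.mem_smul_pointwise_iff_exists] at h2
      obtain ⟨w, _, hw⟩ := h2
      exact ⟨w, hw⟩
    choose φ hφ using hd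
    refine ⟨h0, { toFun := φ, map_add' := fun u v => hreg ?_, map_smul' := fun r u => hreg ?_ },
      fun z => ?_⟩
    · show y • φ (u + v) = y • (φ u + φ v)
      rw [smul_add, hφ, hφ, hφ, map_add, Submodule.coe_add, map_add]
      abel
    · show y • φ (r • u) = y • (RingHom.id R r • φ u)
      rw [RingHom.id_apply, smul_comm, hφ, hφ, map_smul, Submodule.coe_smul, map_smul, smul_sub]
    · show g z = h0 z + y • φ z
      rw [hφ]
      abel
  let res : (F →ₗ[R] W) →ₗ[R] (Z →ₗ[R] W) :=
    { toFun := fun h => h.comp Z.subtype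
      map_add' := fun _ _ => rfl
      map_smul' := fun _ _ => rfl }
  have hfin : Module.Finite R (Z →ₗ[R] W) := by
    obtain ⟨n, p, hp⟩ := Module.Finite.exists_fin' R Z
    let Φ : (Z →ₗ[R] W) →ₗ[R] ((Fin n → R) →ₗ[R] W) :=
      { toFun := fun f => f.comp p
        map_add' := fun f g => LinearMap.add_comp _ _ _
        map_smul' := fun r f => LinearMap.smul_comp _ _ _ }
    have hΦ : Function.Injective Φ := by
      intro f g hfg
      apply LinearMap.ext
      intro x
      obtain ⟨v, rfl⟩ := hp x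
      exact LinearMap.congr_fun hfg v
    exact Module.Finite.of_injective Φ hΦ
  have hle : (⊤ : Submodule R (Z →ₗ[R] W)) ≤ LinearMap.range res := by
    refine Submodule.le_of_le_smul_of_le_jacobson_bot (I := Ideal.span {y}) hfin.fg_top ?_ ?_
    · rw [IsLocalRing.jacobson_eq_maximalIdeal _ bot_ne_top, Ideal.span_singleton_le_iff_mem]
      exact hy
    · intro g _
      obtain ⟨h0, g', hg⟩ := hex g
      have h8 : g = res h0 + y • g' := by
        ext z
        exact hg z
      rw [h8]
      refine Submodule.add_mem_sup ⟨h0, rfl⟩ ?_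
      exact Submodule.smul_mem_smul (Ideal.mem_span_singleton_self y) trivial
  obtain ⟨h, hh⟩ := hle (show g ∈ (⊤ : Submodule R (Z →ₗ[R] W)) from trivial)
  exact ⟨h, fun z => by rw [← hh]; rfl⟩

/-- from the quotient by a regular sequence to the module -/
private theorem ESA_list (R : Type) [CommRing R] [IsLocalRing R] [IsNoetherianRing R]
    (F : Type) [AddCommGroup F] [Module R F] [Module.Finite R F] [Module.Projective R F]
    (Z : Submodule R F) (Q : Type) [AddCommGroup Q] [Module R Q]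
    (hE : ∀ g : Z →ₗ[R] Q, ∃ h : F →ₗ[R] Q, ∀ z : Z, h z = g z) :
    ∀ (xs : List R) (W : Type) [AddCommGroup W] [Module R W] [Module.Finite R W],
      (∀ x ∈ xs, x ∈ maximalIdeal R) → Rg R xs W → ∀ π : W →ₗ[R] Q, Function.Surjective π →
      (∀ w, π w = 0 ↔ w ∈ (Ideal.ofList xs • ⊤ : Submodule R W)) →
      ∀ g : Z →ₗ[R] W, ∃ h : F →ₗ[R] W, ∀ z : Z, h z = g z := by
  intro xs
  induction xs with
  | nil =>
    intro W _ _ _ _ _ π hπ hker g
    have hinj : Function.Injective π := by
      rw [injective_iff_map_eq_zero]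
      intro w hw
      have h1 := (hker w).1 hw
      rw [Ideal.ofList_nil, Submodule.bot_smul] at h1
      exact (Submodule.mem_bot R).1 h1
    obtain ⟨h, hh⟩ := hE (π.comp g)
    let e := LinearEquiv.ofBijective π ⟨hinj, hπ⟩
    refine ⟨e.symm.toLinearMap.comp h, fun z => ?_⟩
    show e.symm (h z) = g z
    rw [hh z, LinearEquiv.symm_apply_eq]
    rfl
  | cons y ys ih =>
    intro W _ _ _ hm hW π hπ hker g
    have hcons := (RingTheory.Sequence.isWeaklyRegular_cons_iff W y ys).1 hW
    refine ESA_step R F W Z y (hm y List.mem_cons_self) hcons.1 ?_ g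
    have hyπ : (y • ⊤ : Submodule R W) ≤ LinearMap.ker π := by
      intro w hw
      rw [LinearMap.mem_ker, hker, Ideal.ofList_cons_smul]
      exact Submodule.mem_sup_left hw
    refine ih (QuotSMulTop y W) (fun x hx => hm x (List.mem_cons_of_mem _ hx)) hcons.2
      ((y • ⊤ : Submodule R W).liftQ π hyπ) ?_ ?_
    · intro q
      obtain ⟨w, rfl⟩ := hπ q
      exact ⟨(y • ⊤ : Submodule R W).mkQ w, rfl⟩
    · intro x
      obtain ⟨w, rfl⟩ := (y • ⊤ : Submodule R W).mkQ_surjective x
      have h1 : (Ideal.ofList ys • ⊤ : Submodule R (QuotSMulTop y W)) =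
          (Ideal.ofList ys • ⊤ : Submodule R W).map (y • ⊤ : Submodule R W).mkQ := by
        rw [Submodule.map_smul'', Submodule.map_top, Submodule.range_mkQ]
      rw [h1, ← Submodule.mem_comap, Submodule.comap_map_eq, Submodule.ker_mkQ]
      show π w = 0 ↔ _
      rw [hker, Ideal.ofList_cons_smul, sup_comm]

end ESA

/-- [ESA] `Ext ^ 1 (A, R) = 0` for regular (maximal Cohen-Macaulay) `A`. -/
theorem thm_ESA (hRSQ : St_RSQ) : St_ESA := by
  intro R _ _ _ xs hG A _ _ _ hA n p hp ψ
  have hIle : Ideal.ofList xs ≤ maximalIdeal R := Ideal.span_le.2 fun x hx => hG.mem x hx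
  have hbaer := ESA_baer R (Ideal.ofList xs) hIle hG.irr hG.art
  obtain ⟨I, hI⟩ : ∃ I : Ideal R, I = Ideal.ofList xs := ⟨_, rfl⟩
  rw [← hI] at hbaer hIle
  have hinj := (hRSQ R (LinearMap.ker p) (Fin n → R) A (LinearMap.ker p).subtype p
    Subtype.val_injective hp (fun v => ⟨fun hv => ⟨⟨v, hv⟩, rfl⟩, fun ⟨u, hu⟩ => by
      rw [← hu]
      exact u.2⟩) xs).1 hA
  rw [← hI] at hinj
  have hsurj : Function.Surjective (algebraMap R (R ⧸ I)) := Ideal.Quotient.mk_surjective
  have hE : ∀ g : LinearMap.ker p →ₗ[R] R ⧸ I, ∃ h : (Fin n → R) →ₗ[R] R ⧸ I,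
      ∀ z : LinearMap.ker p, h z = g z := by
    intro g
    have hle : (I • ⊤ : Submodule R (LinearMap.ker p)) ≤
        (I • ⊤ : Submodule R (Fin n → R)).comap (LinearMap.ker p).subtype := by
      rw [← Submodule.map_le_iff_le_comap, Submodule.map_smul'']
      exact Submodule.smul_mono le_rfl le_top
    let f1 : (LinearMap.ker p ⧸ (I • ⊤ : Submodule R (LinearMap.ker p))) →ₗ[R]
        ((Fin n → R) ⧸ (I • ⊤ : Submodule R (Fin n → R))) :=
      Submodule.mapQ _ _ (LinearMap.ker p).subtype hle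
    let f : (LinearMap.ker p ⧸ (I • ⊤ : Submodule R (LinearMap.ker p))) →ₗ[R ⧸ I]
        ((Fin n → R) ⧸ (I • ⊤ : Submodule R (Fin n → R))) :=
      LinearMap.extendScalarsOfSurjective hsurj f1
    have hf1 : Function.Injective f1 := by
      rw [injective_iff_map_eq_zero]
      intro a ha
      obtain ⟨z, rfl⟩ := Submodule.Quotient.mk_surjective _ a
      have h1 : ((LinearMap.ker p).subtype z) ∈ (I • ⊤ : Submodule R (Fin n → R)) :=
        (Submodule.Quotient.mk_eq_zero _).1 ha
      exact (Submodule.Quotient.mk_eq_zero _).2 (hinj z h1)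
    have hf : Function.Injective f := hf1
    have hle2 : (I • ⊤ : Submodule R (LinearMap.ker p)) ≤ LinearMap.ker g := by
      intro z hz
      refine Submodule.smul_induction_on hz ?_ ?_
      · intro r hr u _
        rw [LinearMap.mem_ker, map_smul]
        obtain ⟨t, ht⟩ := Ideal.Quotient.mk_surjective (g u)
        rw [← ht]
        exact Ideal.Quotient.eq_zero_iff_mem.2 (Ideal.mul_mem_right t I hr)
      · intro u v hu hv
        exact Submodule.add_mem _ hu hv
    let g1 : (LinearMap.ker p ⧸ (I • ⊤ : Submodule R (LinearMap.ker p))) →ₗ[R] (R ⧸ I) :=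
      Submodule.liftQ _ g hle2
    obtain ⟨hq, hhq⟩ := hbaer.extension_property f hf
      (LinearMap.extendScalarsOfSurjective hsurj g1)
    refine ⟨(hq.restrictScalars R).comp (Submodule.mkQ (I • ⊤ : Submodule R (Fin n → R))),
      fun z => ?_⟩
    have h2 : hq (f (Submodule.Quotient.mk z)) =
        LinearMap.extendScalarsOfSurjective hsurj g1 (Submodule.Quotient.mk z) := by
      rw [← hhq]
      rfl
    exact h2
  refine ESA_list R (Fin n → R) (LinearMap.ker p) (R ⧸ I) hE xs R hG.mem hG.reg I.mkQ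
    I.mkQ_surjective (fun w => ?_) ψ
  rw [Submodule.mkQ_apply, Submodule.Quotient.mk_eq_zero, hI, smul_eq_mul, Ideal.mul_top]

end Pool.Agent.ARD
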