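import Pool.Agent.ARD.StG

/-! [EXC] exchange: a regular element begins a regular sequence of the same length (helper69) -/

set_option autoImplicit false

namespace Pool.Agent.ARD

open ARS IsLocalRing

private theorem EXC_na {R M : Type} [CommRing R] [IsLocalRing R] [IsNoetherianRing R]
    [AddCommGroup M] [Module R M]
    (h : ∀ v : M, (∀ r ∈ maximalIdeal R, r • v = 0) → v = 0) :
    ∀ p ∈ associatedPrimes R M, ¬ maximalIdeal R ≤ p := by
  intro p hp hle
  rw [AssociatedPrimes.mem_iff, isAssociatedPrime_iff] at hp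
  obtain ⟨hp1, x, hx⟩ := hp
  have h0 : x = 0 := by
    apply h
    intro r hr
    have h1 := hle hr
    rw [hx, Submodule.mem_colon_singleton, Submodule.mem_bot] at h1
    exact h1
  apply hp1.ne_top
  rw [hx, h0, Ideal.eq_top_iff_one, Submodule.mem_colon_singleton, smul_zero]
  exact Submodule.zero_mem _

private theorem EXC_reg {R M : Type} [CommRing R] [IsNoetherianRing R]
    [AddCommGroup M] [Module R M] {y : R} (h : ∀ p ∈ associatedPrimes R M, y ∉ p) :
    IsSMulRegular M y := by
  rw [isSMulRegular_iff_right_eq_zero_of_smul]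
  intro v hv
  by_contra hne
  have h1 : y ∈ ⋃ p ∈ associatedPrimes R M, (p : Set R) := by
    rw [biUnion_associatedPrimes_eq_zero_divisors]
    exact ⟨v, hne, hv⟩
  obtain ⟨p, hp, hy⟩ := Set.mem_iUnion₂.1 h1
  exact h p hp hy

private theorem EXC_avoid {R : Type} [CommRing R] [IsLocalRing R] {S : Set (Ideal R)}
    (hS : S.Finite) (hp : ∀ p ∈ S, p.IsPrime) (h : ∀ p ∈ S, ¬ maximalIdeal R ≤ p) :
    ∃ y ∈ maximalIdeal R, ∀ p ∈ S, y ∉ p := by
  by_contra hcon
  push Not at hcon
  have h1 : (maximalIdeal R : Set R) ⊆ ⋃ p ∈ S, (p : Set R) := by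
    intro y hy
    obtain ⟨p, hpS, hyp⟩ := hcon y hy
    exact Set.mem_iUnion₂.2 ⟨p, hpS, hyp⟩
  obtain ⟨p, hpS, hle⟩ :=
    (Ideal.subset_union_prime_finite hS (f := id) 0 0 fun p hpS _ _ => hp p hpS).1 h1
  exact h p hpS hle

private theorem EXC_main {R : Type} [CommRing R] [IsLocalRing R] [IsNoetherianRing R] (n : ℕ) :
    ∀ (N : Type) [AddCommGroup N] [Module R N] [Module.Finite R N] (xs : List R),
    xs.length = n + 1 → (∀ x ∈ xs, x ∈ maximalIdeal R) → Rg R xs N →
    ∀ a ∈ maximalIdeal R, IsSMulRegular N a →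
    ∃ ys : List R, (∀ y ∈ ys, y ∈ maximalIdeal R) ∧ ys.length = n ∧ Rg R (a :: ys) N := by
  induction n with
  | zero =>
    intro N _ _ _ xs _ _ _ a _ hreg
    refine ⟨[], ?_, rfl, ?_⟩
    · intro y hy
      simp at hy
    · exact (RingTheory.Sequence.isWeaklyRegular_cons_iff N a []).2
        ⟨hreg, RingTheory.Sequence.IsWeaklyRegular.nil R _⟩
  | succ n ih =>
    intro N _ _ _ xs hlen hmem hxs a ha hreg
    obtain ⟨x1, xs1, rfl⟩ : ∃ x1 xs1, xs = x1 :: xs1 := by
      cases xs with
      | nil => simp at hlen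
      | cons x l => exact ⟨x, l, rfl⟩
    obtain ⟨x2, xs2, rfl⟩ : ∃ x2 xs2, xs1 = x2 :: xs2 := by
      cases xs1 with
      | nil => simp at hlen
      | cons x l => exact ⟨x, l, rfl⟩
    have hlen2 : (x2 :: xs2).length = n + 1 := by simpa using hlen
    have hx1 : x1 ∈ maximalIdeal R := hmem x1 (by simp)
    have hx2 : x2 ∈ maximalIdeal R := hmem x2 (by simp)
    obtain ⟨hr1, hr2⟩ := (RingTheory.Sequence.isWeaklyRegular_cons_iff N x1 (x2 :: xs2)).1 hxs
    obtain ⟨hr3, -⟩ := (RingTheory.Sequence.isWeaklyRegular_cons_iff _ x2 xs2).1 hr2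
    have z1 := isSMulRegular_iff_right_eq_zero_of_smul.1 hr1
    have z3 := isSMulRegular_iff_right_eq_zero_of_smul.1 hr3
    -- membership in `x N` in terms of the quotient
    have hq : ∀ (c : R) (v : N),
        (Submodule.Quotient.mk v : QuotSMulTop c N) = 0 ↔ ∃ w : N, c • w = v := by
      intro c v
      rw [Submodule.Quotient.mk_eq_zero, Submodule.mem_smul_pointwise_iff_exists]
      constructor
      · rintro ⟨w, -, hw⟩
        exact ⟨w, hw⟩
      · rintro ⟨w, hw⟩
        exact ⟨w, trivial, hw⟩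
    have b1 : ∀ v : N, (∀ r ∈ maximalIdeal R, r • v = 0) → v = 0 := fun v hv =>
      z1 v (hv x1 hx1)
    have b2 : ∀ v : QuotSMulTop x1 N, (∀ r ∈ maximalIdeal R, r • v = 0) → v = 0 := fun v hv =>
      z3 v (hv x2 hx2)
    have b3 : ∀ v : QuotSMulTop a N, (∀ r ∈ maximalIdeal R, r • v = 0) → v = 0 := by
      intro v hv
      obtain ⟨u, rfl⟩ := Submodule.Quotient.mk_surjective _ v
      have c1 := hv x1 hx1
      have c2 := hv x2 hx2
      rw [← Submodule.Quotient.mk_smul, hq] at c1 c2
      obtain ⟨w1, hw1⟩ := c1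
      obtain ⟨w2, hw2⟩ := c2
      have c3 : x1 • w2 = x2 • w1 := by
        apply hreg
        show a • (x1 • w2) = a • (x2 • w1)
        rw [smul_comm a x1 w2, hw2, smul_comm a x2 w1, hw1, smul_comm]
      have c4 : (Submodule.Quotient.mk w1 : QuotSMulTop x1 N) = 0 := by
        apply z3
        rw [← Submodule.Quotient.mk_smul, hq]
        exact ⟨w2, c3⟩
      obtain ⟨w0, hw0⟩ := (hq x1 w1).1 c4
      rw [hq]
      refine ⟨w0, ?_⟩
      apply hr1
      show x1 • (a • w0) = x1 • u
      rw [smul_comm, hw0, hw1]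
    obtain ⟨y, hy, hyS⟩ := EXC_avoid (S := associatedPrimes R N ∪
        (associatedPrimes R (QuotSMulTop x1 N) ∪ associatedPrimes R (QuotSMulTop a N)))
      ((associatedPrimes.finite R N).union ((associatedPrimes.finite R _).union
        (associatedPrimes.finite R _)))
      (by
        rintro p (hp | hp | hp)
        · exact IsAssociatedPrime.isPrime hp
        · exact IsAssociatedPrime.isPrime hp
        · exact IsAssociatedPrime.isPrime hp)
      (by
        rintro p (hp | hp | hp)
        · exact EXC_na b1 p hp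
        · exact EXC_na b2 p hp
        · exact EXC_na b3 p hp)
    have y1 : IsSMulRegular N y := EXC_reg fun p hp => hyS p (Or.inl hp)
    have y2 : IsSMulRegular (QuotSMulTop x1 N) y := EXC_reg fun p hp => hyS p (Or.inr (Or.inl hp))
    have y3 : IsSMulRegular (QuotSMulTop a N) y := EXC_reg fun p hp => hyS p (Or.inr (Or.inr hp))
    obtain ⟨zs, hz1, hz2, hz3⟩ := ih (QuotSMulTop x1 N) (x2 :: xs2) hlen2
      (fun x hx => hmem x (List.mem_cons_of_mem _ hx)) hr2 y hy y2
    have e1 : Rg R (x1 :: y :: zs) N :=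
      (RingTheory.Sequence.isWeaklyRegular_cons_iff N x1 (y :: zs)).2 ⟨hr1, hz3⟩
    have e2 : Rg R (y :: x1 :: zs) N := by
      refine IsLocalRing.isWeaklyRegular_of_perm_of_subset_maximalIdeal e1
        (List.Perm.swap y x1 zs) ?_
      intro r hr
      rcases List.mem_cons.1 hr with h | h
      · exact h ▸ hx1
      · rcases List.mem_cons.1 h with h | h
        · exact h ▸ hy
        · exact hz1 r h
    obtain ⟨-, e3⟩ := (RingTheory.Sequence.isWeaklyRegular_cons_iff N y (x1 :: zs)).1 e2
    have e4 : Rg R [a, y] N :=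
      (RingTheory.Sequence.isWeaklyRegular_cons_iff N a [y]).2
        ⟨hreg, (RingTheory.Sequence.isWeaklyRegular_cons_iff _ y []).2
          ⟨y3, RingTheory.Sequence.IsWeaklyRegular.nil R _⟩⟩
    have e5 : Rg R [y, a] N := by
      refine IsLocalRing.isWeaklyRegular_of_perm_of_subset_maximalIdeal e4
        (List.Perm.swap y a []) ?_
      intro r hr
      rcases List.mem_cons.1 hr with h | h
      · exact h ▸ ha
      · rcases List.mem_cons.1 h with h | h
        · exact h ▸ hy
        · simp at h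
    have e6 : IsSMulRegular (QuotSMulTop y N) a :=
      ((RingTheory.Sequence.isWeaklyRegular_cons_iff _ a []).1
        ((RingTheory.Sequence.isWeaklyRegular_cons_iff N y [a]).1 e5).2).1
    obtain ⟨ys, hs1, hs2, hs3⟩ := ih (QuotSMulTop y N) (x1 :: zs) (by simp [hz2])
      (by
        intro r hr
        rcases List.mem_cons.1 hr with h | h
        · exact h ▸ hx1
        · exact hz1 r h) e3 a ha e6
    have e7 : Rg R (y :: a :: ys) N :=
      (RingTheory.Sequence.isWeaklyRegular_cons_iff N y (a :: ys)).2 ⟨y1, hs3⟩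
    refine ⟨y :: ys, ?_, by simp [hs2], ?_⟩
    · intro r hr
      rcases List.mem_cons.1 hr with h | h
      · exact h ▸ hy
      · exact hs1 r h
    · refine IsLocalRing.isWeaklyRegular_of_perm_of_subset_maximalIdeal e7
        (List.Perm.swap a y ys) ?_
      intro r hr
      rcases List.mem_cons.1 hr with h | h
      · exact h ▸ hy
      · rcases List.mem_cons.1 h with h | h
        · exact h ▸ ha
        · exact hs1 r h

theorem thm_EXC : St_EXC := by
  intro R _ _ _ N _ _ _ xs hmem hlen hxs a ha hreg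
  obtain ⟨n, hn⟩ : ∃ n, xs.length = n + 1 := ⟨xs.length - 1, by omega⟩
  obtain ⟨ys, h1, h2, h3⟩ := EXC_main n N xs hn hmem hxs a ha
    (isSMulRegular_iff_right_eq_zero_of_smul.2 hreg)
  exact ⟨ys, h1, by omega, h3⟩

end Pool.Agent.ARD
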