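import Pool.Agent.ARD.StC

/-! helper78. Extension of maps along injections with a cokernel without `Ext ^ 1`. -/

set_option autoImplicit false

namespace Pool.Agent.ARD

open ARS

theorem thm_EXE : St_EXE := by
  intro R _ A B C N _ _ _ _ _ _ _ _ _ f g hf hg hfg hE θ
  obtain ⟨n, p, hp⟩ := Module.Finite.exists_fin' R C
  -- lift the cover of `C` to `B`
  obtain ⟨h, hh⟩ : ∃ h : (Fin n → R) →ₗ[R] B, ∀ v, g (h v) = p v := by
    choose e he using fun i : Fin n => hg (p (Pi.single i 1))
    refine ⟨(Pi.basisFun R (Fin n)).constr R e, fun v => ?_⟩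
    have h1 : g.comp ((Pi.basisFun R (Fin n)).constr R e) = p := by
      apply (Pi.basisFun R (Fin n)).ext
      intro i
      rw [LinearMap.comp_apply, Module.Basis.constr_basis, he, Pi.basisFun_apply]
    exact congrArg (fun z => z v) h1
  have hk : ∀ k : LinearMap.ker p, ∃ u, f u = h k := fun k => (hfg _).1 (by
    rw [hh]; exact k.2)
  choose l0 hl0 using hk
  let l : LinearMap.ker p →ₗ[R] A :=
    { toFun := l0
      map_add' := fun a b => hf (by
        rw [map_add, hl0, hl0, hl0, Submodule.coe_add, map_add])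
      map_smul' := fun r a => hf (by
        rw [RingHom.id_apply, map_smul, hl0, hl0, Submodule.coe_smul, map_smul]) }
  obtain ⟨φ, hφ⟩ := hE n p hp (θ.comp l)
  have hex : ∀ b : B, ∃ z : A × (Fin n → R), f z.1 + h z.2 = b := by
    intro b
    obtain ⟨v, hv⟩ := hp (g b)
    obtain ⟨a, ha⟩ := (hfg (b - h v)).1 (by rw [map_sub, hh, hv, sub_self])
    exact ⟨(a, v), by
      show f a + h v = b
      rw [ha, sub_add_cancel]⟩
  choose z hz using hex
  have key : ∀ (b : B) (a : A) (v : Fin n → R), f a + h v = b →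
      θ (z b).1 + φ (z b).2 = θ a + φ v := by
    intro b a v hb
    have h1 : f ((z b).1 - a) = h (v - (z b).2) := by
      rw [map_sub, map_sub, sub_eq_sub_iff_add_eq_add, hz b, add_comm, hb]
    have h2 : p (v - (z b).2) = 0 := by
      rw [← hh, ← h1]
      exact (hfg _).2 ⟨_, rfl⟩
    have h3 : l ⟨v - (z b).2, h2⟩ = (z b).1 - a := hf ((hl0 _).trans h1.symm)
    have h4 := hφ ⟨v - (z b).2, h2⟩
    rw [LinearMap.comp_apply, h3, map_sub, map_sub] at h4
    have h5 : φ v - φ (z b).2 = θ (z b).1 - θ a := h4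
    exact (sub_eq_sub_iff_add_eq_add.1 h5).symm.trans (add_comm _ _)
  refine ⟨{ toFun := fun b => θ (z b).1 + φ (z b).2, map_add' := ?_, map_smul' := ?_ }, ?_⟩
  · intro x y
    rw [key (x + y) ((z x).1 + (z y).1) ((z x).2 + (z y).2) (by
      rw [map_add, map_add, ← hz x, ← hz y, hz x, hz y]
      rw [add_add_add_comm, hz x, hz y]), map_add, map_add]
    abel
  · intro r x
    rw [RingHom.id_apply, key (r • x) (r • (z x).1) (r • (z x).2) (by
      rw [map_smul, map_smul, ← smul_add, hz x]), map_smul, map_smul, smul_add]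
  · intro a
    show θ (z (f a)).1 + φ (z (f a)).2 = θ a
    rw [key (f a) a 0 (by rw [map_zero, add_zero]), map_zero, add_zero]

end Pool.Agent.ARD
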