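import Pool.Agent.ARD.StN

/-!
# ARD: module FIND, equal characters imply equality of submodules
-/

set_option autoImplicit false

namespace Pool.Agent.ARD

open ARS IsLocalRing

private theorem FIND_inj (hADD : ARS.St_ADD) (hNON : ARS.St_NON) (hGRD : ARS.St_GRD)
    {K A B : Type} [Field K] [CharZero K] [AddCommGroup A] [Module K A] [AddCommGroup B]
    [Module K B] [Module.Finite K B] (a : A →ₗ[K] A) (b : B →ₗ[K] B) (f : A →ₗ[K] B)
    (hf : Function.Injective f) (hc : ∀ u, f (a u) = b (f u)) (ν : AlgebraicClosure K) :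
    cf (ch a) ν ≤ cf (ch b) ν := by
  have hle : LinearMap.range f ≤ (LinearMap.range f).comap b := by
    rintro x ⟨u, rfl⟩
    exact ⟨a u, hc u⟩
  let C := B ⧸ LinearMap.range f
  let c : C →ₗ[K] C := (LinearMap.range f).mapQ (LinearMap.range f) b hle
  have hex : ExK a b c := by
    refine ⟨f, (LinearMap.range f).mkQ, hf, Submodule.mkQ_surjective _, ?_, hc, fun v => rfl⟩
    intro v
    rw [Submodule.mkQ_apply, Submodule.Quotient.mk_eq_zero]
    rfl
  obtain ⟨h1, h2, h3⟩ := (hADD.2 K A B C a b c hex).1 inferInstance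
  have h4 := (hNON K C C c c).1 ν
  obtain ⟨-, -, -, -, -, -, -, -, g9, -, -⟩ := hGRD K
  rw [h3, g9]
  linarith

private theorem FIND_sur (hADD : ARS.St_ADD) (hNON : ARS.St_NON) (hGRD : ARS.St_GRD)
    {K B C : Type} [Field K] [CharZero K] [AddCommGroup B]
    [Module K B] [Module.Finite K B] [AddCommGroup C] [Module K C]
    (b : B →ₗ[K] B) (c : C →ₗ[K] C) (g : B →ₗ[K] C)
    (hg : Function.Surjective g) (hc : ∀ u, g (b u) = c (g u)) (ν : AlgebraicClosure K) :
    cf (ch c) ν ≤ cf (ch b) ν := by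
  have hle : ∀ x ∈ LinearMap.ker g, b x ∈ LinearMap.ker g := by
    intro x hx
    rw [LinearMap.mem_ker] at hx ⊢
    rw [hc, hx, map_zero]
  let A := LinearMap.ker g
  let a : A →ₗ[K] A := b.restrict hle
  have hex : ExK a b c := by
    refine ⟨(LinearMap.ker g).subtype, g, Subtype.val_injective, hg, ?_, fun u => rfl, hc⟩
    intro v
    constructor
    · intro h
      exact ⟨⟨v, h⟩, rfl⟩
    · rintro ⟨u, rfl⟩
      exact u.2
  obtain ⟨h1, h2, h3⟩ := (hADD.2 K A B C a b c hex).1 inferInstance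
  have h4 := (hNON K A A a a).1 ν
  obtain ⟨-, -, -, -, -, -, -, -, g9, -, -⟩ := hGRD K
  rw [h3, g9]
  linarith

variable {K R : Type} [Field K] [CommRing R] [Algebra K R] {D : Derivation K R R}

private theorem FIND_le {E : Type} [AddCommGroup E] [Module R E] (J : Ideal R)
    (T : Submodule R E) : (J • ⊤ : Submodule R T) ≤ (J • ⊤ : Submodule R E).comap T.subtype :=
  Submodule.smul_le.2 fun _ hr _ _ => Submodule.smul_mem_smul hr trivial

private theorem FIND_st1 (E : NM D) {J : Ideal R} (hJ : ∀ a ∈ J, D a ∈ J)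
    (T : Submodule R E.X) (hT : ∀ x ∈ T, E.N x ∈ T) :
    ∀ x ∈ ((J • ⊤ : Submodule R E.X).comap T.subtype),
      (E.sub T hT).N x ∈ ((J • ⊤ : Submodule R E.X).comap T.subtype) := by
  intro x hx
  exact stable_I E hJ _ hx

/-- `(T ∩ J E) / J T` -/
private theorem FIND_st2 (A : NM D) {J : Ideal R} (hJ : ∀ a ∈ J, D a ∈ J)
    (P : Submodule R A.X) (hP : ∀ x ∈ P, A.N x ∈ P) :
    ∀ x ∈ (P.map (J • ⊤ : Submodule R A.X).mkQ : Submodule R (rd A hJ).X),
      (rd A hJ).N x ∈ (P.map (J • ⊤ : Submodule R A.X).mkQ : Submodule R (rd A hJ).X) := by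
  rintro x ⟨p, hp, rfl⟩
  exact ⟨A.N p, hP p hp, rfl⟩

private def FIND_Q (A : NM D) {J : Ideal R} (hJ : ∀ a ∈ J, D a ∈ J)
    (P : Submodule R A.X) (hP : ∀ x ∈ P, A.N x ∈ P) : NM D :=
  (rd A hJ).sub (P.map (J • ⊤ : Submodule R A.X).mkQ) (FIND_st2 A hJ P hP)

private theorem FIND_ex1 (A : NM D) {J : Ideal R} (hJ : ∀ a ∈ J, D a ∈ J)
    (P : Submodule R A.X) (hP : ∀ x ∈ P, A.N x ∈ P) (hJP : (J • ⊤ : Submodule R A.X) ≤ P) :
    ExK (FIND_Q A hJ P hP).N (rd A hJ).N (A.quo P hP).N := by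
  let JA : Submodule R A.X := J • ⊤
  let S : Submodule R (A.X ⧸ JA) := P.map JA.mkQ
  let g : (A.X ⧸ JA) →ₗ[R] (A.X ⧸ P) := JA.mapQ P LinearMap.id hJP
  refine ⟨S.subtype.restrictScalars K, g.restrictScalars K, ?_, ?_, ?_, ?_, ?_⟩
  · intro a b hab
    exact Subtype.ext hab
  · intro b
    obtain ⟨b, rfl⟩ := P.mkQ_surjective b
    exact ⟨JA.mkQ b, rfl⟩
  · intro b
    obtain ⟨b, rfl⟩ := JA.mkQ_surjective b
    constructor
    · intro h
      have h1 : P.mkQ b = 0 := h
      have h2 : b ∈ P := (Submodule.Quotient.mk_eq_zero P).1 h1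
      exact ⟨⟨JA.mkQ b, b, h2, rfl⟩, rfl⟩
    · rintro ⟨⟨u, p, hp, rfl⟩, hu⟩
      have h1 : JA.mkQ p = JA.mkQ b := hu
      have h2 : p - b ∈ JA := (Submodule.Quotient.eq JA).1 h1
      have h3 : b ∈ P := by
        have h4 := P.sub_mem hp (hJP h2)
        rwa [sub_sub_cancel] at h4
      exact (Submodule.Quotient.mk_eq_zero P).2 h3
  · intro u
    rfl
  · intro u
    obtain ⟨u, rfl⟩ := JA.mkQ_surjective u
    rfl

private theorem FIND_ex2 (E : NM D) {J : Ideal R} (hJ : ∀ a ∈ J, D a ∈ J)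
    (T : Submodule R E.X) (hT : ∀ x ∈ T, E.N x ∈ T) :
    ExK ((E.sub T hT).quo _ (FIND_st1 E hJ T hT)).N (rd E hJ).N (rd (E.quo T hT) hJ).N := by
  let JE : Submodule R E.X := J • ⊤
  let P : Submodule R T := JE.comap T.subtype
  let JC : Submodule R (E.X ⧸ T) := J • ⊤
  have hmap : JE.map T.mkQ = JC := by
    show (J • ⊤ : Submodule R E.X).map T.mkQ = J • ⊤
    rw [Submodule.map_smul'', Submodule.map_top, Submodule.range_mkQ]
  have hle : JE ≤ JC.comap T.mkQ := by
    rw [← Submodule.map_le_iff_le_comap, hmap]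
  let f : (T ⧸ P) →ₗ[R] (E.X ⧸ JE) := P.mapQ JE T.subtype le_rfl
  let g : (E.X ⧸ JE) →ₗ[R] ((E.X ⧸ T) ⧸ JC) := JE.mapQ JC T.mkQ hle
  refine ⟨f.restrictScalars K, g.restrictScalars K, ?_, ?_, ?_, ?_, ?_⟩
  · intro a b hab
    obtain ⟨a, rfl⟩ := P.mkQ_surjective a
    obtain ⟨b, rfl⟩ := P.mkQ_surjective b
    have h1 : JE.mkQ (T.subtype a) = JE.mkQ (T.subtype b) := hab
    have h2 : (a : E.X) - b ∈ JE := (Submodule.Quotient.eq JE).1 h1
    exact (Submodule.Quotient.eq P).2 h2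
  · intro b
    obtain ⟨b, rfl⟩ := JC.mkQ_surjective b
    obtain ⟨b, rfl⟩ := T.mkQ_surjective b
    exact ⟨JE.mkQ b, rfl⟩
  · intro b
    obtain ⟨b, rfl⟩ := JE.mkQ_surjective b
    constructor
    · intro h
      have h1 : JC.mkQ (T.mkQ b) = 0 := h
      have h2 : T.mkQ b ∈ JC := (Submodule.Quotient.mk_eq_zero JC).1 h1
      rw [← hmap] at h2
      obtain ⟨e, he, h3⟩ := h2
      have h4 : b - e ∈ T := (Submodule.Quotient.eq T).1 h3.symm
      refine ⟨P.mkQ ⟨b - e, h4⟩, ?_⟩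
      show JE.mkQ (b - e) = JE.mkQ b
      have h5 : b - e - b ∈ JE := by
        rw [sub_sub_cancel_left]
        exact JE.neg_mem he
      exact (Submodule.Quotient.eq JE).2 h5
    · rintro ⟨u, hu⟩
      obtain ⟨u, rfl⟩ := P.mkQ_surjective u
      have h1 : JE.mkQ (T.subtype u) = JE.mkQ b := hu
      have h2 : g (JE.mkQ b) = JC.mkQ (T.mkQ (T.subtype u)) := by
        rw [← h1]
        rfl
      show g (JE.mkQ b) = 0
      rw [h2]
      have h3 : T.mkQ (T.subtype u) = 0 := (Submodule.Quotient.mk_eq_zero T).2 u.2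
      rw [h3, map_zero]
  · intro u
    obtain ⟨u, rfl⟩ := P.mkQ_surjective u
    rfl
  · intro u
    obtain ⟨u, rfl⟩ := JE.mkQ_surjective u
    rfl

private theorem FIND_fac (A : NM D) {I J : Ideal R} (hI : ∀ a ∈ I, D a ∈ I)
    (hJ : ∀ a ∈ J, D a ∈ J) (hJI : J ≤ I) :
    ∃ g : (rd A hJ).X →ₗ[K] (rd A hI).X, Function.Surjective g ∧
      ∀ u, g ((rd A hJ).N u) = (rd A hI).N (g u) := by
  let JA : Submodule R A.X := J • ⊤
  let IA : Submodule R A.X := I • ⊤
  let g : (A.X ⧸ JA) →ₗ[R] (A.X ⧸ IA) := JA.mapQ IA LinearMap.id (Submodule.smul_mono_left hJI)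
  refine ⟨g.restrictScalars K, ?_, ?_⟩
  · intro b
    obtain ⟨b, rfl⟩ := IA.mkQ_surjective b
    exact ⟨JA.mkQ b, rfl⟩
  · intro u
    obtain ⟨u, rfl⟩ := JA.mkQ_surjective u
    rfl

private theorem FIND_inc (A : NM D) {J : Ideal R} (hJ : ∀ a ∈ J, D a ∈ J)
    (P P' : Submodule R A.X) (hP : ∀ x ∈ P, A.N x ∈ P) (hP' : ∀ x ∈ P', A.N x ∈ P')
    (hPP : P ≤ P') :
    ∃ f : (FIND_Q A hJ P hP).X →ₗ[K] (FIND_Q A hJ P' hP').X, Function.Injective f ∧
      ∀ u, f ((FIND_Q A hJ P hP).N u) = (FIND_Q A hJ P' hP').N (f u) := by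
  let JA : Submodule R A.X := J • ⊤
  have hS : P.map JA.mkQ ≤ P'.map JA.mkQ := Submodule.map_mono hPP
  refine ⟨(Submodule.inclusion hS).restrictScalars K, ?_, ?_⟩
  · exact Submodule.inclusion_injective hS
  · intro u
    rfl

private theorem FIND_incd (A : NM D) {J : Ideal R} (hJ : ∀ a ∈ J, D a ∈ J)
    (P : Submodule R A.X) (hP : ∀ x ∈ P, A.N x ∈ P) :
    ∃ f : (FIND_Q A hJ P hP).X →ₗ[K] (rd A hJ).X, Function.Injective f := by
  let JA : Submodule R A.X := J • ⊤
  exact ⟨(P.map JA.mkQ).subtype.restrictScalars K, Subtype.val_injective⟩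

private theorem FIND_pr (A : NM D) {J : Ideal R} (hJ : ∀ a ∈ J, D a ∈ J)
    (P : Submodule R A.X) (hP : ∀ x ∈ P, A.N x ∈ P) :
    ∃ g : P →ₗ[R] (FIND_Q A hJ P hP).X, Function.Surjective g ∧
      ∀ x y : P, (y : A.X) = A.N x → g y = (FIND_Q A hJ P hP).N (g x) := by
  let JA : Submodule R A.X := J • ⊤
  let S : Submodule R (A.X ⧸ JA) := P.map JA.mkQ
  let g : P →ₗ[R] S := LinearMap.codRestrict S (JA.mkQ.comp P.subtype)
    fun x => ⟨x, x.2, rfl⟩
  refine ⟨g, ?_, ?_⟩
  · rintro ⟨_, p, hp, rfl⟩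
    exact ⟨⟨p, hp⟩, rfl⟩
  · intro x y hxy
    apply Subtype.ext
    show JA.mkQ (y : A.X) = (rd A hJ).N (JA.mkQ (x : A.X))
    rw [hxy]
    rfl

theorem thm_FIND (hPWRb : St_PWRb) (hWTB : St_WTB) (hRFNd : St_RFNd) (hADD : ARS.St_ADD)
    (hNON : ARS.St_NON) (hGRD : ARS.St_GRD) : St_FIND := by
  intro K R _ _ _ _ _ _ D L h E hE hER T hT hTR hch
  by_contra hne
  obtain ⟨-, -, -, -, -, -, -, -, g9, -, g11⟩ := hGRD K
  have hnoeth : IsNoetherian R E.X := isNoetherian_of_isNoetherianRing_of_finite R E.X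
  have hTfin : Module.Finite R (E.sub T hT).X := by
    have h2 : IsNoetherian R T := inferInstance
    exact (inferInstance : Module.Finite R T)
  have hCfin : Module.Finite R (E.quo T hT).X := (inferInstance : Module.Finite R (E.X ⧸ T))
  have finT : Module.Finite K (rd (E.sub T hT) h.stab).X :=
    (hRFNd K R D (idl L) h.stab h.fin (E.sub T hT) E).1 hTfin
  have finE : Module.Finite K (rd E h.stab).X :=
    (hRFNd K R D (idl L) h.stab h.fin E E).1 hE
  have finC : Module.Finite K (rd (E.quo T hT) h.stab).X :=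
    (hRFNd K R D (idl L) h.stab h.fin (E.quo T hT) E).1 hCfin
  -- a weight of `C / I C`
  obtain ⟨ν, hν⟩ : ∃ ν, cf (rd (E.quo T hT) h.stab).ch ν ≠ 0 := by
    by_contra hcon
    push Not at hcon
    have h1 : (rd (E.quo T hT) h.stab).ch = 0 := g11 _ hcon
    have h2 : Subsingleton (rd (E.quo T hT) h.stab).X :=
      (hNON K _ (rd (E.quo T hT) h.stab).X (rd (E.quo T hT) h.stab).N
        (rd (E.quo T hT) h.stab).N).2.2.1 h1
    have h3 := (hRFNd K R D (idl L) h.stab h.fin (E.quo T hT) E).2.2 h.le hCfin h2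
    apply hne
    rw [eq_top_iff]
    intro x _
    exact (Submodule.Quotient.mk_eq_zero T).1 (@Subsingleton.elim (E.X ⧸ T) h3 (T.mkQ x) 0)
  -- Artin and Rees
  obtain ⟨c, hc⟩ := Ideal.exists_pow_inf_eq_pow_smul (I := idl L) (M := E.X) T
  -- the main step
  have key : ∀ k : ℕ, ∃ (l : AlgebraicClosure K) (k' : ℕ), k ≤ k' ∧
      cf (rd (E.sub T hT) h.stab).ch l ≠ 0 ∧ ν = l + (k' : AlgebraicClosure K) := by
    intro k
    let n := k + c + 1
    obtain ⟨G, hG⟩ := hPWRb K R D L h.eig n (by omega)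
    have hJ := h.stabp n
    obtain ⟨fT, cT⟩ := hG (E.sub T hT) hTR finT
    obtain ⟨fE, cE⟩ := hG E hER finE
    have hJT : (rd (E.sub T hT) hJ).ch = (rd E hJ).ch := by
      have e1 : (rd (E.sub T hT) hJ).ch = G * (rd (E.sub T hT) h.stab).ch := cT
      have e2 : (rd E hJ).ch = G * (rd E h.stab).ch := cE
      rw [e1, e2, hch]
    have hJn : idl (pw n L) ≤ idl L ^ n := by
      refine Ideal.span_le.2 ?_
      intro x hx
      obtain ⟨p, hp, rfl⟩ := List.mem_map.1 (show x ∈ el (pw n L) from hx)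
      obtain ⟨q, hq, rfl⟩ := List.mem_map.1 hp
      have hq1 : q.1 ∈ el L := List.mem_map.2 ⟨q, hq, rfl⟩
      have hq2 : q.1 ∈ idl L := Ideal.subset_span hq1
      exact Ideal.pow_mem_pow hq2 n
    have hJI : idl (pw n L) ≤ idl L := hJn.trans (Ideal.pow_le_self (by omega))
    have ex1 := FIND_ex1 (E.sub T hT) hJ _ (FIND_st1 E hJ T hT) (FIND_le _ T)
    have ex2 := FIND_ex2 E hJ T hT
    obtain ⟨fQ, fM, a1⟩ := (hADD.2 _ _ _ _ _ _ _ ex1).1 fT
    obtain ⟨-, fC, a2⟩ := (hADD.2 _ _ _ _ _ _ _ ex2).1 fE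
    have a3 : ch (rd (E.quo T hT) hJ).N =
        ch (FIND_Q (E.sub T hT) hJ _ (FIND_st1 E hJ T hT)).N := by
      have e0 : ch (rd (E.sub T hT) hJ).N = ch (rd E hJ).N := hJT
      rw [a1, a2] at e0
      rw [add_comm] at e0
      exact (add_left_cancel e0).symm
    -- `ν` is a weight of `(T ∩ J E) / J T`
    obtain ⟨g, hg, hgN⟩ := FIND_fac (E.quo T hT) h.stab hJ hJI
    have b1 := FIND_sur hADD hNON hGRD (rd (E.quo T hT) hJ).N (rd (E.quo T hT) h.stab).N g hg hgN ν
    have b2 := (hNON K _ (rd (E.quo T hT) h.stab).X (rd (E.quo T hT) h.stab).N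
        (rd (E.quo T hT) h.stab).N).1 ν
    rw [a3] at b1
    -- `T ∩ J E ≤ I ^ k T`
    have hst : ∀ x ∈ (idl L ^ k • ⊤ : Submodule R (E.sub T hT).X),
        (E.sub T hT).N x ∈ (idl L ^ k • ⊤ : Submodule R (E.sub T hT).X) := by
      refine stable_I (E.sub T hT) ?_
      have : ∀ j : ℕ, ∀ a ∈ idl L ^ j, D a ∈ idl L ^ j := by
        intro j
        induction j with
        | zero => intro a _; rw [pow_zero, Ideal.one_eq_top]; trivial
        | succ j ih =>
          intro a ha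
          rw [pow_succ] at ha ⊢
          refine Submodule.mul_induction_on ha ?_ ?_
          · intro r hr s hs
            rw [D.leibniz, smul_eq_mul, smul_eq_mul]
            refine add_mem (Ideal.mul_mem_mul hr (h.stab s hs)) ?_
            have h5 : s * D r = D r * s := mul_comm _ _
            rw [h5]
            exact Ideal.mul_mem_mul (ih r hr) hs
          · intro x y hx hy
            rw [map_add]
            exact add_mem hx hy
      exact this k
    have hle : ((idl (pw n L) • ⊤ : Submodule R E.X).comap T.subtype) ≤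
        (idl L ^ k • ⊤ : Submodule R T) := by
      intro x hx
      have h1 : (x : E.X) ∈ (idl L ^ n • ⊤ ⊓ T : Submodule R E.X) :=
        ⟨Submodule.smul_mono_left hJn hx, x.2⟩
      rw [hc n (by omega)] at h1
      have h2 : (x : E.X) ∈ (idl L ^ k • T : Submodule R E.X) :=
        Submodule.smul_mono (Ideal.pow_le_pow_right (by omega)) inf_le_right h1
      have h3 : (idl L ^ k • ⊤ : Submodule R T).map T.subtype = idl L ^ k • T := by
        rw [Submodule.map_smul'', Submodule.map_top, Submodule.range_subtype]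
      rw [← h3] at h2
      obtain ⟨y, hy, hyx⟩ := h2
      have h4 : y = x := Subtype.ext hyx
      rwa [← h4]
    obtain ⟨f, hf, hfN⟩ := FIND_inc (E.sub T hT) hJ _ _ (FIND_st1 E hJ T hT) hst hle
    obtain ⟨f', hf'⟩ := FIND_incd (E.sub T hT) hJ _ hst
    have fQ' : Module.Finite K (FIND_Q (E.sub T hT) hJ _ hst).X :=
      Module.Finite.of_injective f' hf'
    have b3 := FIND_inj hADD hNON hGRD _ (FIND_Q (E.sub T hT) hJ _ hst).N f hf hfN ν
    obtain ⟨p, hp, hpN⟩ := FIND_pr (E.sub T hT) hJ _ hst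
    refine hWTB K R D L h (E.sub T hT) (FIND_Q (E.sub T hT) hJ _ hst) hTfin fQ' k p hp hpN ν ?_
    have b4 : cf (rd (E.quo T hT) h.stab).ch ν ≤ cf (FIND_Q (E.sub T hT) hJ _ hst).ch ν :=
      b1.trans b3
    have b5 : 0 ≤ cf (rd (E.quo T hT) h.stab).ch ν := b2
    have b6 : 0 < cf (rd (E.quo T hT) h.stab).ch ν := lt_of_le_of_ne b5 (Ne.symm hν)
    exact (b6.trans_le b4).ne'
  -- finitely many `l`
  have hchar : CharZero (AlgebraicClosure K) := inferInstance
  classical
  let S : Finset (AlgebraicClosure K) := (rd (E.sub T hT) h.stab).ch.coeff.support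
  have hS : ∀ l, cf (rd (E.sub T hT) h.stab).ch l ≠ 0 → l ∈ S := fun l hl =>
    Finsupp.mem_support_iff.2 hl
  have hB : ∃ B : ℕ, ∀ l ∈ S, ∀ k : ℕ, ν = l + (k : AlgebraicClosure K) → k ≤ B := by
    have : ∀ S : Finset (AlgebraicClosure K), ∃ B : ℕ, ∀ l ∈ S, ∀ k : ℕ,
        ν = l + (k : AlgebraicClosure K) → k ≤ B := by
      intro S
      induction S using Finset.induction_on with
      | empty => exact ⟨0, fun l hl => absurd hl (Finset.notMem_empty l)⟩
      | insert a S _ ih =>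
        obtain ⟨B, hB⟩ := ih
        by_cases ha : ∃ k : ℕ, ν = a + (k : AlgebraicClosure K)
        · obtain ⟨k, hk⟩ := ha
          refine ⟨max B k, ?_⟩
          intro l hl k' hk'
          rcases Finset.mem_insert.1 hl with rfl | hl
          · have h1 : (k' : AlgebraicClosure K) = k := by
              rw [hk] at hk'
              exact (add_left_cancel hk').symm
            have h2 : k' = k := Nat.cast_injective h1
            rw [h2]
            exact le_max_right _ _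
          · exact (hB l hl k' hk').trans (le_max_left _ _)
        · refine ⟨B, ?_⟩
          intro l hl k' hk'
          rcases Finset.mem_insert.1 hl with rfl | hl
          · exact absurd ⟨k', hk'⟩ ha
          · exact hB l hl k' hk'
    exact this S
  obtain ⟨B, hB⟩ := hB
  obtain ⟨l, k', h1, h2, h3⟩ := key (B + 1)
  have h4 := hB l (hS l h2) k' h3
  omega

end Pool.Agent.ARD
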