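import Pool.Agent.ARD.StR

/-! ARD FLD: descent of freeness along flat local homomorphisms -/

set_option autoImplicit false

namespace Pool.Agent.ARD

open ARS IsLocalRing TensorProduct

/-- descent of flatness -/
private theorem FLD_flat (R S M : Type) [CommRing R] [CommRing S] [Algebra R S]
    [Module.FaithfullyFlat R S] [AddCommGroup M] [Module R M] (h : Module.Flat S (S ⊗[R] M)) :
    Module.Flat R M := by
  have h1 : Module.Flat R (S ⊗[R] M) := Module.Flat.trans R S (S ⊗[R] M)
  rw [Module.Flat.iff_lTensor_preserves_injective_linearMap] at h1 ⊢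
  intro N N' _ _ _ _ f hf
  have h2 := h1 f hf
  rw [← Module.FaithfullyFlat.lTensor_injective_iff_injective R S]
  rw [LinearMap.lTensor_tensor] at h2
  have h3 : Function.Injective
      ((TensorProduct.assoc R S M N').symm ∘ (LinearMap.lTensor S (LinearMap.lTensor M f)) ∘
        (TensorProduct.assoc R S M N)) := h2
  have h4 : Function.Injective ((LinearMap.lTensor S (LinearMap.lTensor M f)) ∘
        (TensorProduct.assoc R S M N)) := h3.of_comp
  intro x y hxy
  obtain ⟨x, rfl⟩ := (TensorProduct.assoc R S M N).surjective x
  obtain ⟨y, rfl⟩ := (TensorProduct.assoc R S M N).surjective y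
  rw [h4 hxy]

/-- descent of freeness along flat local homomorphisms -/
theorem thm_FLD : St_FLD := by
  intro R S _ _ _ _ _ _ _ _ M _ _ _ h
  have hf : Module.FaithfullyFlat R S := Module.FaithfullyFlat.of_flat_of_isLocalHom
  have h1 : Module.Flat S (S ⊗[R] M) := inferInstance
  have h2 : Module.Flat R M := FLD_flat R S M h1
  exact Module.free_of_flat_of_isLocalRing

end Pool.Agent.ARD
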