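import Pool.Agent.ARD.StR

/-! [FLE] Flat base change of the Ext conditions. -/

set_option autoImplicit false

namespace Pool.Agent.ARD

open ARS IsLocalRing TensorProduct

/-- maps from the kernel of `p` extend -/
def FLE_E {S P Y : Type} [CommRing S] [AddCommGroup P] [Module S P] [AddCommGroup Y] [Module S Y]
    (p : P →ₗ[S] Y) (N : Type) [AddCommGroup N] [Module S N] : Prop :=
  ∀ ψ : LinearMap.ker p →ₗ[S] N, ∃ φ : P →ₗ[S] N, ∀ k : LinearMap.ker p, φ k = ψ k

section

variable {S P Y Q W F G N : Type} [CommRing S] [AddCommGroup P] [Module S P] [AddCommGroup Y]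
  [Module S Y] [AddCommGroup Q] [Module S Q] [AddCommGroup W] [Module S W]
  [AddCommGroup F] [Module S F] [AddCommGroup G] [Module S G] [AddCommGroup N] [Module S N]

/-- independence of the cover -/
theorem FLE_indep [Module.Projective S P] [Module.Projective S Q] (p : P →ₗ[S] Y)
    (q : Q →ₗ[S] W) (e : Y ≃ₗ[S] W) (hp : Function.Surjective p) (hq : Function.Surjective q)
    (h : FLE_E p N) : FLE_E q N := by
  intro ψ
  obtain ⟨a, ha⟩ := Module.projective_lifting_property q ((e : Y →ₗ[S] W).comp p) hq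
  obtain ⟨b, hb⟩ := Module.projective_lifting_property ((e : Y →ₗ[S] W).comp p) q
    (e.surjective.comp hp)
  have ha' : ∀ x, q (a x) = e (p x) := fun x => LinearMap.congr_fun ha x
  have hb' : ∀ y, e (p (b y)) = q y := fun y => LinearMap.congr_fun hb y
  have hk : ∀ x ∈ LinearMap.ker p, a x ∈ LinearMap.ker q := by
    intro x hx
    rw [LinearMap.mem_ker, ha', LinearMap.mem_ker.1 hx, map_zero]
  obtain ⟨Φ, hΦ⟩ := h (ψ.comp (a.restrict hk))
  have hr : ∀ y, (LinearMap.id - a.comp b : Q →ₗ[S] Q) y ∈ LinearMap.ker q := by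
    intro y
    show q (y - a (b y)) = 0
    rw [map_sub, ha', hb', sub_self]
  refine ⟨ψ.comp ((LinearMap.id - a.comp b).codRestrict _ hr) + Φ.comp b, fun k => ?_⟩
  have hbk : b k ∈ LinearMap.ker p := by
    rw [LinearMap.mem_ker]
    apply e.injective
    rw [hb', LinearMap.mem_ker.1 k.2, map_zero]
  have h1 : Φ (b k) = ψ ⟨a (b k), hk _ hbk⟩ := hΦ ⟨b k, hbk⟩
  rw [LinearMap.add_apply, LinearMap.comp_apply, LinearMap.comp_apply, h1, ← map_add]
  congr 1
  apply Subtype.ext
  show ((k : Q) - a (b k)) + a (b k) = k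
  rw [sub_add_cancel]

theorem FLE_stab (p : P →ₗ[S] Y) (h : FLE_E p N) :
    FLE_E (p.prodMap (LinearMap.id : F →ₗ[S] F)) N := by
  intro ψ
  have hk : ∀ x : LinearMap.ker p, (LinearMap.inl S P F).comp (LinearMap.ker p).subtype x ∈
      LinearMap.ker (p.prodMap (LinearMap.id : F →ₗ[S] F)) := by
    intro x
    show (p x, (0 : F)) = 0
    rw [LinearMap.mem_ker.1 x.2]
    rfl
  obtain ⟨φ, hφ⟩ := h (ψ.comp (LinearMap.codRestrict _ _ hk))
  refine ⟨φ.comp (LinearMap.fst S P F), fun k => ?_⟩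
  have h0 : (p k.1.1, k.1.2) = (0 : Y × F) := k.2
  have h1 : p k.1.1 = 0 := (Prod.ext_iff.1 h0).1
  have h2 : k.1.2 = 0 := (Prod.ext_iff.1 h0).2
  show φ k.1.1 = ψ k
  rw [hφ ⟨k.1.1, h1⟩, LinearMap.comp_apply]
  congr 1
  apply Subtype.ext
  show (k.1.1, (0 : F)) = k.1
  rw [← h2]

theorem FLE_unst (p : P →ₗ[S] Y) (h : FLE_E (p.prodMap (LinearMap.id : F →ₗ[S] F)) N) :
    FLE_E p N := by
  intro ψ
  have hk : ∀ x : LinearMap.ker (p.prodMap (LinearMap.id : F →ₗ[S] F)),
      (LinearMap.fst S P F).comp (LinearMap.ker _).subtype x ∈ LinearMap.ker p := by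
    intro x
    have h0 : (p x.1.1, x.1.2) = (0 : Y × F) := x.2
    exact (Prod.ext_iff.1 h0).1
  obtain ⟨φ, hφ⟩ := h (ψ.comp (LinearMap.codRestrict _ _ hk))
  refine ⟨φ.comp (LinearMap.inl S P F), fun k => ?_⟩
  have h0 : ((k : P), (0 : F)) ∈ LinearMap.ker (p.prodMap (LinearMap.id : F →ₗ[S] F)) := by
    show (p k, (0 : F)) = 0
    rw [LinearMap.mem_ker.1 k.2]
    rfl
  exact hφ ⟨_, h0⟩

/-- the kernel does not change -/
def FLE_ker (p : P →ₗ[S] Y) (e : (Y × F) ≃ₗ[S] W) :
    LinearMap.ker p ≃ₗ[S]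
      LinearMap.ker ((e : (Y × F) →ₗ[S] W).comp (p.prodMap (LinearMap.id : F →ₗ[S] F))) where
  toFun x := ⟨(x.1, 0), by
    show e (p x.1, (0 : F)) = 0
    rw [LinearMap.mem_ker.1 x.2]
    exact map_zero e⟩
  invFun x := ⟨x.1.1, by
    have h0 : e (p x.1.1, x.1.2) = 0 := x.2
    have h1 : (p x.1.1, x.1.2) = (0 : Y × F) := by
      apply e.injective
      rw [h0, map_zero]
    exact (Prod.ext_iff.1 h1).1⟩
  map_add' x y := by
    apply Subtype.ext
    show ((x.1 + y.1 : P), (0 : F)) = (x.1, 0) + (y.1, 0)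
    rw [Prod.mk_add_mk, add_zero]
  map_smul' r x := by
    apply Subtype.ext
    show ((r • x.1 : P), (0 : F)) = r • (x.1, 0)
    rw [Prod.smul_mk, smul_zero]
  left_inv x := rfl
  right_inv x := by
    have h0 : e (p x.1.1, x.1.2) = 0 := x.2
    have h1 : (p x.1.1, x.1.2) = (0 : Y × F) := by
      apply e.injective
      rw [h0, map_zero]
    have h2 : x.1.2 = 0 := (Prod.ext_iff.1 h1).2
    apply Subtype.ext
    show (x.1.1, (0 : F)) = x.1
    rw [← h2]

/-- Schanuel -/
theorem FLE_sch [Module.Projective S P] [Module.Projective S Q] (p : P →ₗ[S] Y)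
    (q : Q →ₗ[S] Y) (hp : Function.Surjective p) (hq : Function.Surjective q) :
    Nonempty ((LinearMap.ker q × P) ≃ₗ[S] (LinearMap.ker p × Q)) := by
  obtain ⟨a, ha⟩ := Module.projective_lifting_property q p hq
  obtain ⟨b, hb⟩ := Module.projective_lifting_property p q hp
  have ha' : ∀ x, q (a x) = p x := fun x => LinearMap.congr_fun ha x
  have hb' : ∀ y, p (b y) = q y := fun y => LinearMap.congr_fun hb y
  have k1 : ∀ z : LinearMap.ker q × P, z.2 - b (z.1.1 + a z.2) ∈ LinearMap.ker p := by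
    intro z
    rw [LinearMap.mem_ker, map_sub, hb', map_add, ha', LinearMap.mem_ker.1 z.1.2, zero_add,
      sub_self]
  have k2 : ∀ z : LinearMap.ker p × Q, z.2 - a (z.1.1 + b z.2) ∈ LinearMap.ker q := by
    intro z
    rw [LinearMap.mem_ker, map_sub, ha', map_add, hb', LinearMap.mem_ker.1 z.1.2, zero_add,
      sub_self]
  refine ⟨
    { toFun := fun z => (⟨z.2 - b (z.1.1 + a z.2), k1 z⟩, z.1.1 + a z.2)
      invFun := fun z => (⟨z.2 - a (z.1.1 + b z.2), k2 z⟩, z.1.1 + b z.2)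
      map_add' := ?_
      map_smul' := ?_
      left_inv := ?_
      right_inv := ?_ }⟩
  · intro x y
    refine Prod.ext (Subtype.ext ?_) ?_
    · show (x.2 + y.2) - b ((x.1.1 + y.1.1) + a (x.2 + y.2)) =
        (x.2 - b (x.1.1 + a x.2)) + (y.2 - b (y.1.1 + a y.2))
      simp only [map_add]
      abel
    · show (x.1.1 + y.1.1) + a (x.2 + y.2) = (x.1.1 + a x.2) + (y.1.1 + a y.2)
      simp only [map_add]
      abel
  · intro r x
    refine Prod.ext (Subtype.ext ?_) ?_
    · show (r • x.2) - b ((r • x.1.1) + a (r • x.2)) = r • (x.2 - b (x.1.1 + a x.2))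
      simp only [map_add, map_smul, smul_sub, smul_add]
    · show (r • x.1.1) + a (r • x.2) = r • (x.1.1 + a x.2)
      simp only [map_smul, smul_add]
  · intro z
    refine Prod.ext (Subtype.ext ?_) ?_
    · show (z.1.1 + a z.2) - a ((z.2 - b (z.1.1 + a z.2)) + b (z.1.1 + a z.2)) = z.1.1
      rw [sub_add_cancel, add_sub_cancel_right]
    · show (z.2 - b (z.1.1 + a z.2)) + b (z.1.1 + a z.2) = z.2
      rw [sub_add_cancel]
  · intro z
    refine Prod.ext (Subtype.ext ?_) ?_
    · show (z.1.1 + b z.2) - b ((z.2 - a (z.1.1 + b z.2)) + a (z.1.1 + b z.2)) = z.1.1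
      rw [sub_add_cancel, add_sub_cancel_right]
    · show (z.2 - a (z.1.1 + b z.2)) + a (z.1.1 + b z.2) = z.2
      rw [sub_add_cancel]

/-- stable isomorphism -/
def FLE_R (S Y W : Type) [CommRing S] [AddCommGroup Y] [Module S Y] [AddCommGroup W]
    [Module S W] : Prop :=
  ∃ (F : Type) (_ : AddCommGroup F) (_ : Module S F) (G : Type) (_ : AddCommGroup G)
    (_ : Module S G), Module.Projective S F ∧ Module.Projective S G ∧
      Nonempty ((Y × F) ≃ₗ[S] (W × G))

theorem FLE_ext [Module.Projective S P] [Module.Projective S Q] (p : P →ₗ[S] W)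
    (q : Q →ₗ[S] Y) (hp : Function.Surjective p) (hq : Function.Surjective q)
    (h : FLE_R S Y W) (hE : FLE_E p N) : FLE_E q N := by
  obtain ⟨F, _, _, G, _, _, _, _, ⟨e⟩⟩ := h
  have h1 : FLE_E (p.prodMap (LinearMap.id : G →ₗ[S] G)) N := FLE_stab p hE
  have h2 : FLE_E (q.prodMap (LinearMap.id : F →ₗ[S] F)) N :=
    FLE_indep _ _ e.symm (hp.prodMap Function.surjective_id)
      (hq.prodMap Function.surjective_id) h1
  exact FLE_unst q h2

theorem FLE_syz [Module.Projective S P] [Module.Projective S Q] (p : P →ₗ[S] W)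
    (q : Q →ₗ[S] Y) (hp : Function.Surjective p) (hq : Function.Surjective q)
    (h : FLE_R S Y W) : FLE_R S (LinearMap.ker q) (LinearMap.ker p) := by
  obtain ⟨F, _, _, G, _, _, _, _, ⟨e⟩⟩ := h
  obtain ⟨s⟩ := FLE_sch
    (((LinearEquiv.refl S (W × G) : (W × G) ≃ₗ[S] (W × G)) : (W × G) →ₗ[S] (W × G)).comp
      (p.prodMap (LinearMap.id : G →ₗ[S] G)))
    ((e : (Y × F) →ₗ[S] (W × G)).comp (q.prodMap (LinearMap.id : F →ₗ[S] F)))
    (hp.prodMap Function.surjective_id) (e.surjective.comp (hq.prodMap Function.surjective_id))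
  exact ⟨P × G, inferInstance, inferInstance, Q × F, inferInstance, inferInstance,
    inferInstance, inferInstance,
    ⟨((FLE_ker q e).prodCongr (LinearEquiv.refl S (P × G))).trans
      (s.trans ((FLE_ker p (LinearEquiv.refl S (W × G))).symm.prodCongr
        (LinearEquiv.refl S (Q × F))))⟩⟩

theorem FLE_trans (h : FLE_R S Y W) (e : W ≃ₗ[S] Q) : FLE_R S Y Q := by
  obtain ⟨F, _, _, G, _, _, h1, h2, ⟨s⟩⟩ := h
  exact ⟨F, inferInstance, inferInstance, G, inferInstance, inferInstance, h1, h2,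
    ⟨s.trans (e.prodCongr (LinearEquiv.refl S G))⟩⟩

end

section

variable {R S X M F : Type} [CommRing R] [CommRing S] [Algebra R S] [Module.Flat R S]
  [AddCommGroup X] [Module R X] [AddCommGroup M] [Module R M] [AddCommGroup F] [Module R F]

/-- the kernel of the base change -/
theorem FLE_kb (p : F →ₗ[R] X) (hp : Function.Surjective p) :
    ∃ e : (S ⊗[R] LinearMap.ker p) ≃ₗ[S] LinearMap.ker (p.baseChange S),
      ∀ z, (e z : S ⊗[R] F) = ((LinearMap.ker p).subtype.baseChange S) z := by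
  have hi : Function.Injective ((LinearMap.ker p).subtype.baseChange S) :=
    Module.Flat.lTensor_preserves_injective_linearMap _ (LinearMap.ker p).injective_subtype
  have hx : LinearMap.range ((LinearMap.ker p).subtype.baseChange S) =
      LinearMap.ker (p.baseChange S) := by
    have h1 : Function.Exact ((LinearMap.ker p).subtype.lTensor S) (p.lTensor S) :=
      lTensor_exact S (LinearMap.exact_subtype_ker_map p) hp
    ext z
    exact (h1 z).symm
  refine ⟨(LinearEquiv.ofInjective _ hi).trans (LinearEquiv.ofEq _ _ hx), fun z => rfl⟩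

theorem FLE_bc (p : F →ₗ[R] X) (hp : Function.Surjective p)
    [Module.FinitePresentation R (LinearMap.ker p)] (h : FLE_E p M) :
    FLE_E (p.baseChange S) (S ⊗[R] M) := by
  intro ψ
  obtain ⟨e, he⟩ := FLE_kb (S := S) p hp
  have key : ∀ θ : (S ⊗[R] LinearMap.ker p) →ₗ[S] (S ⊗[R] M),
      ∃ Φ : (S ⊗[R] F) →ₗ[S] (S ⊗[R] M),
        Φ.comp ((LinearMap.ker p).subtype.baseChange S) = θ := by
    intro θ
    refine (Module.FinitePresentation.isBaseChange_map R (LinearMap.ker p) M S).inductionOn θ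
      (fun θ => ∃ Φ : (S ⊗[R] F) →ₗ[S] (S ⊗[R] M),
        Φ.comp ((LinearMap.ker p).subtype.baseChange S) = θ) ?_ ?_ ?_ ?_
    · exact ⟨0, LinearMap.zero_comp _⟩
    · intro φ
      obtain ⟨Φ, hΦ⟩ := h φ
      refine ⟨Φ.baseChange S, ?_⟩
      have h1 : Φ.comp (LinearMap.ker p).subtype = φ := LinearMap.ext hΦ
      show (Φ.baseChange S).comp ((LinearMap.ker p).subtype.baseChange S) = φ.baseChange S
      rw [← LinearMap.baseChange_comp, h1]
    · rintro s _ ⟨Φ, rfl⟩
      exact ⟨s • Φ, LinearMap.smul_comp _ _ _⟩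
    · rintro _ _ ⟨Φ, rfl⟩ ⟨Φ', rfl⟩
      exact ⟨Φ + Φ', LinearMap.add_comp _ _ _⟩
  obtain ⟨Φ, hΦ⟩ := key (ψ.comp (e : (S ⊗[R] LinearMap.ker p) →ₗ[S] _))
  refine ⟨Φ, fun k => ?_⟩
  obtain ⟨z, rfl⟩ := e.surjective k
  rw [he]
  exact LinearMap.congr_fun hΦ z

end

theorem thm_FLE : St_FLE := by
  intro R S _ _ _ _ _ _ X M _ _ _ _ _ hE k
  suffices H : ∀ (k : ℕ) (X : Type) [AddCommGroup X] [Module R X] [Module.Finite R X],
      EA R X M → ∀ (Y : Type) [AddCommGroup Y] [Module S Y], FLE_R S Y (S ⊗[R] X) →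
        ExtAll S (S ⊗[R] M) k Y from
    H k X hE _ ⟨PUnit, inferInstance, inferInstance, PUnit, inferInstance, inferInstance,
      inferInstance, inferInstance, ⟨LinearEquiv.refl _ _⟩⟩
  intro k
  induction k with
  | zero => intros; trivial
  | succ k ih =>
    intro X _ _ _ hE Y _ _ hR
    obtain ⟨n, p, hp⟩ := Module.Finite.exists_fin' R X
    have hfp : Module.FinitePresentation R (LinearMap.ker p) :=
      Module.finitePresentation_of_finite R _
    have h1 : FLE_E (p.baseChange S) (S ⊗[R] M) := FLE_bc p hp ((hE 1).1 n p hp)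
    have hs : Function.Surjective (p.baseChange S) := LinearMap.lTensor_surjective S hp
    refine ⟨fun m q hq => FLE_ext _ q hs hq hR h1, fun m q hq => ?_⟩
    obtain ⟨e, _⟩ := FLE_kb (S := S) p hp
    exact ih (LinearMap.ker p) (fun j => (hE (j + 1)).2 n p hp) _
      (FLE_trans (FLE_syz _ q hs hq hR) e.symm)

end Pool.Agent.ARD
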