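import Pool.Agent.ARD.StR

/-! ARD module FLG: flat base change of generic freeness. -/

set_option autoImplicit false

namespace Pool.Agent.ARD

open ARS IsLocalRing TensorProduct

/-- Flat base change of generic freeness. -/
theorem thm_FLG : St_FLG := by
  intro R S _ _ _ _ X _ _ h
  obtain ⟨s, q, p, j, hs, hj⟩ := h
  have hreg : IsSMulRegular S s := Module.Flat.isSMulRegular_of_nonZeroDivisors hs
  let e : S ⊗[R] (Fin q → R) ≃ₗ[S] (Fin q → S) := piScalarRight R S S (Fin q)
  refine ⟨algebraMap R S s, q, e.toLinearMap ∘ₗ p.baseChange S,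
    j.baseChange S ∘ₗ e.symm.toLinearMap, ?_, ?_⟩
  · rw [mem_nonZeroDivisors_iff_right]
    intro x hx
    refine hreg.right_eq_zero_of_smul ?_
    rw [Algebra.smul_def, mul_comm]
    exact hx
  · intro v
    have hcomp : j ∘ₗ p = s • LinearMap.id := by
      ext v
      exact hj v
    show j.baseChange S (e.symm (e (p.baseChange S v))) = algebraMap R S s • v
    rw [LinearEquiv.symm_apply_apply, ← LinearMap.comp_apply, ← LinearMap.baseChange_comp, hcomp,
      LinearMap.baseChange_smul, LinearMap.baseChange_id, algebraMap_smul]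
    rfl

end Pool.Agent.ARD
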