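import Pool.Agent.ARD.Defs
import Pool.Agent.ARS.FND

/-! ARD: an Artinian quotient is finite dimensional over the residue field; `QD` from the
hypotheses of the final theorem. -/

set_option autoImplicit false

namespace Pool.Agent.ARD

open ARS IsLocalRing

theorem FNDd {K R : Type} [Field K] [CommRing R] [IsLocalRing R] [IsNoetherianRing R]
    [Algebra K R] (hres : ∀ a : R, ∃ k : K, a - algebraMap K R k ∈ maximalIdeal R)
    (I : Ideal R) (hart : IsArtinianRing (R ⧸ I)) : Module.Finite K (R ⧸ I) := by
  have h1 : IsFiniteLength R (R ⧸ I) := by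
    rw [isFiniteLength_iff_isNoetherian_isArtinian]
    refine ⟨inferInstance, ?_⟩
    have h2 : IsArtinian (R ⧸ I) (R ⧸ I) := hart
    exact isArtinian_of_surjective_algebraMap (R := R ⧸ I) Ideal.Quotient.mk_surjective
  exact finite_of_length hres _ h1

/-- a list of elements with weights from a list of eigenvectors -/
theorem exists_weights {R : Type} [CommRing R] (D : R → R) (xs : List R)
    (h : ∀ x ∈ xs, ∃ d : ℕ, 0 < d ∧ D x = (d : R) * x) :
    ∃ L : List (R × ℕ), el L = xs ∧ ∀ p ∈ L, 0 < p.2 ∧ D p.1 = (p.2 : R) * p.1 := by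
  induction xs with
  | nil => exact ⟨[], rfl, by simp⟩
  | cons x xs ih =>
    obtain ⟨L, hL, hp⟩ := ih fun y hy => h y (List.mem_cons_of_mem _ hy)
    obtain ⟨d, hd, he⟩ := h x List.mem_cons_self
    refine ⟨(x, d) :: L, ?_, ?_⟩
    · show x :: el L = x :: xs
      rw [hL]
    · intro p hp'
      rcases List.mem_cons.1 hp' with rfl | h1
      · exact ⟨hd, he⟩
      · exact hp p h1

end Pool.Agent.ARD
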