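import Pool.Agent.ARD.StC

/-! Module FRE of ARD: a module with free syzygy and without Ext^1 into the ring is free. -/

set_option autoImplicit false

namespace Pool.Agent.ARD

open ARS IsLocalRing

theorem thm_FRE : St_FRE := by
  intro R _ _ _ X _ _ _ hX n p hp hZ
  have hfin : Module.Finite R (LinearMap.ker p) := inferInstance
  set b := Module.Free.chooseBasis R (LinearMap.ker p) with hb
  have h1 : ∀ i, ∃ φ : (Fin n → R) →ₗ[R] R, ∀ k : LinearMap.ker p, φ k = b.coord i k :=
    fun i => hX n p hp (b.coord i)
  choose φ hφ using h1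
  set r : (Fin n → R) →ₗ[R] (Fin n → R) :=
    ∑ i, (φ i).smulRight ((b i : LinearMap.ker p) : Fin n → R) with hr
  have hr1 : ∀ k : LinearMap.ker p, r (k : Fin n → R) = k := by
    intro k
    have h2 := b.sum_repr k
    calc r (k : Fin n → R) = ∑ i, φ i k • ((b i : LinearMap.ker p) : Fin n → R) := by
          rw [hr, LinearMap.sum_apply]
          rfl
      _ = ∑ i, b.repr k i • ((b i : LinearMap.ker p) : Fin n → R) := by
          refine Finset.sum_congr rfl fun i _ => ?_
          rw [hφ]
          rfl
      _ = ((∑ i, b.repr k i • b i : LinearMap.ker p) : Fin n → R) := by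
          rw [Submodule.coe_sum]
          rfl
      _ = k := by rw [h2]
  have hr2 : ∀ v, r v ∈ LinearMap.ker p := by
    intro v
    rw [hr, LinearMap.sum_apply]
    exact Submodule.sum_mem _ fun i _ => Submodule.smul_mem _ _ (b i).2
  have hker : LinearMap.ker p ≤ LinearMap.ker (LinearMap.id - r) := by
    intro v hv
    rw [LinearMap.mem_ker, LinearMap.sub_apply, LinearMap.id_apply, hr1 ⟨v, hv⟩, sub_self]
  set s : X →ₗ[R] (Fin n → R) :=
    ((LinearMap.ker p).liftQ (LinearMap.id - r) hker) ∘ₗ
      ((p.quotKerEquivOfSurjective hp).symm : X →ₗ[R] _) with hs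
  have hs1 : ∀ v, s (p v) = v - r v := by
    intro v
    have h5 : (p.quotKerEquivOfSurjective hp).symm (p v) = (LinearMap.ker p).mkQ v := by
      rw [LinearEquiv.symm_apply_eq]
      rfl
    rw [hs, LinearMap.comp_apply]
    show ((LinearMap.ker p).liftQ (LinearMap.id - r) hker)
      ((p.quotKerEquivOfSurjective hp).symm (p v)) = v - r v
    rw [h5, Submodule.mkQ_apply, Submodule.liftQ_apply]
    rfl
  have hps : p ∘ₗ s = LinearMap.id := by
    ext x
    obtain ⟨v, rfl⟩ := hp x
    rw [LinearMap.comp_apply, hs1, map_sub, LinearMap.id_apply,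
      LinearMap.mem_ker.1 (hr2 v), sub_zero]
  have hproj : Module.Projective R X := Module.Projective.of_split s p hps
  exact Module.free_of_flat_of_isLocalRing

end Pool.Agent.ARD
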