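import Pool.Agent.ARD.StR

/-! Module GFD of ARD: over a Noetherian domain syzygies are generically free. -/

set_option autoImplicit false

namespace Pool.Agent.ARD

open ARS IsLocalRing

theorem thm_GFD (hGFR : St_GFR) : St_GFD := by
  intro R _ _ _ X _ _ n p
  have htf : HWC.TF R (LinearMap.ker p) := by
    intro s m hm
    by_cases hs : s = 0
    · exact Or.inl hs
    · refine Or.inr (Subtype.ext ?_)
      funext i
      have h2 : s • (m : Fin n → R) = 0 := by
        have h3 := congrArg Subtype.val hm
        simpa using h3
      have h1 : s * (m : Fin n → R) i = 0 := congrFun h2 i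
      rcases mul_eq_zero.1 h1 with h | h
      · exact absurd h hs
      · exact h
  obtain ⟨s, q, P, j, hs, hj⟩ := hGFR R (LinearMap.ker p) htf
  exact ⟨s, q, P, j, mem_nonZeroDivisors_of_ne_zero hs, hj⟩

end Pool.Agent.ARD
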