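import Pool.Agent.ARD.StC

/-! Module GFR of ARD: generic freeness of finitely generated modules over domains. -/

set_option autoImplicit false

namespace Pool.Agent.ARD

open ARS IsLocalRing

theorem thm_GFR : St_GFR := by
  classical
  intro R _ _ M _ _ _ _
  obtain ⟨n, g, hg⟩ := Module.Finite.exists_fin (R := R) (M := M)
  obtain ⟨S, hS, hmax⟩ := exists_maximal_linearIndepOn R g
  have hli : LinearIndependent R (fun i : S => g i) := hS
  have him : g '' S = Set.range (fun i : S => g i) := by
    ext x
    constructor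
    · rintro ⟨i, hi, rfl⟩
      exact ⟨⟨i, hi⟩, rfl⟩
    · rintro ⟨i, rfl⟩
      exact ⟨i.1, i.2, rfl⟩
  have h1 : ∀ i, ∃ a : R, a ≠ 0 ∧ a • g i ∈ Submodule.span R (Set.range fun i : S => g i) := by
    intro i
    by_cases hi : i ∈ S
    · exact ⟨1, one_ne_zero, by
        rw [one_smul]
        exact Submodule.subset_span ⟨⟨i, hi⟩, rfl⟩⟩
    · obtain ⟨a, ha, hm⟩ := hmax i hi
      rw [him] at hm
      exact ⟨a, ha, hm⟩
  choose a ha hmem using h1
  have hall : ∀ v, ((∏ i, a i) • LinearMap.id : M →ₗ[R] M) v ∈
      Submodule.span R (Set.range fun i : S => g i) := by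
    intro v
    have hv : v ∈ Submodule.span R (Set.range g) := by
      rw [hg]
      trivial
    refine Submodule.span_induction ?_ ?_ ?_ ?_ hv
    · rintro x ⟨i, rfl⟩
      rw [LinearMap.smul_apply, LinearMap.id_apply,
        ← Finset.mul_prod_erase Finset.univ a (Finset.mem_univ i), mul_comm, mul_smul]
      exact Submodule.smul_mem _ _ (hmem i)
    · rw [map_zero]
      exact Submodule.zero_mem _
    · intro x y _ _ hx hy
      rw [map_add]
      exact Submodule.add_mem _ hx hy
    · intro r x _ hx
      rw [map_smul]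
      exact Submodule.smul_mem _ _ hx
  let b : Module.Basis (Fin (Fintype.card S)) R (Submodule.span R (Set.range fun i : S => g i)) :=
    (Module.Basis.span hli).reindex (Fintype.equivFin S)
  refine ⟨∏ i, a i, Fintype.card S,
    b.equivFun.toLinearMap ∘ₗ LinearMap.codRestrict _ ((∏ i, a i) • LinearMap.id) hall,
    (Submodule.span R (Set.range fun i : S => g i)).subtype ∘ₗ b.equivFun.symm.toLinearMap,
    Finset.prod_ne_zero_iff.2 fun i _ => ha i, ?_⟩
  intro v
  rw [LinearMap.comp_apply, LinearMap.comp_apply, LinearEquiv.coe_coe, LinearEquiv.coe_coe,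
    LinearEquiv.symm_apply_apply]
  rfl

end Pool.Agent.ARD
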