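import Pool.Agent.ARD.StR

/-! Module GFZ of ARD: syzygies are torsionless, and generically free if the module is. -/

set_option autoImplicit false

namespace Pool.Agent.ARD

open ARS IsLocalRing

theorem thm_GFZ : St_GFZ := by
  intro R _ X _ _ n p hp
  refine ⟨?_, ?_⟩
  · intro m hm
    refine Subtype.ext (funext fun i => ?_)
    exact hm ((LinearMap.proj i : (Fin n → R) →ₗ[R] R) ∘ₗ (LinearMap.ker p).subtype)
  · rintro ⟨s, q, p', j, hs, hj⟩
    obtain ⟨j', hj'⟩ := Module.projective_lifting_property p j hp
    have hj'' : ∀ w, p (j' w) = j w := fun w => by rw [← hj', LinearMap.comp_apply]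
    have hmem : ∀ v, (s • LinearMap.id - j' ∘ₗ p' ∘ₗ p : (Fin n → R) →ₗ[R] (Fin n → R)) v ∈
        LinearMap.ker p := by
      intro v
      rw [LinearMap.mem_ker, LinearMap.sub_apply, map_sub, LinearMap.smul_apply, map_smul,
        LinearMap.comp_apply, LinearMap.comp_apply, hj'', hj, LinearMap.id_apply, sub_self]
    refine ⟨s, n, (LinearMap.ker p).subtype, LinearMap.codRestrict _ _ hmem, hs, ?_⟩
    intro v
    apply Subtype.ext
    have hv : p v.1 = 0 := v.2
    show s • v.1 - j' (p' (p v.1)) = s • v.1
    rw [hv, map_zero, map_zero, sub_zero]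

end Pool.Agent.ARD
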