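import Pool.Agent.ARD.Defs

/-! Statements of the modules of ARD, part C: commutative algebra (no connections).
`Rg R xs X` = `RingTheory.Sequence.IsWeaklyRegular X xs`; the recursion is
`RingTheory.Sequence.isWeaklyRegular_cons_iff` with `QuotSMulTop`. `I = Ideal.ofList xs`
(`Ideal.ofList_cons`, `Ideal.ofList_cons_smul`). Do not change this file. -/

set_option autoImplicit false

namespace Pool.Agent.ARD

open ARS IsLocalRing

/-- [RSQ] Regular sequences in an exact sequence `0 → A → B → C → 0`.
Proof by induction on the list, generalizing the modules; for `xs = y :: ys` the sequence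
`A / y A → B / y B → C / y C` is again exact because `y` is regular on `C` (`f u = y w` implies
`y (g w) = 0`, `g w = 0`, `w = f u'`, `u = y u'`). (1) reduction is exact on the left.
(2) middle term. (3), (4) kernels: `y` is regular on `A ⊆ B`; (4) says that a kernel has one more
regular element. (5) finite powers. -/
def St_RSQ : Prop := ∀ (R : Type) [CommRing R] (A B C : Type) [AddCommGroup A] [Module R A]
  [AddCommGroup B] [Module R B] [AddCommGroup C] [Module R C] (f : A →ₗ[R] B) (g : B →ₗ[R] C),
  Function.Injective f → Function.Surjective g → (∀ v, g v = 0 ↔ ∃ u, f u = v) →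
  ∀ xs : List R,
  (Rg R xs C → ∀ u, f u ∈ (Ideal.ofList xs • ⊤ : Submodule R B) →
    u ∈ (Ideal.ofList xs • ⊤ : Submodule R A)) ∧
  (Rg R xs A → Rg R xs C → Rg R xs B) ∧
  (Rg R xs B → Rg R xs C → Rg R xs A) ∧
  (∀ y, Rg R xs C → Rg R (xs ++ [y]) B → Rg R (xs ++ [y]) A) ∧
  (Rg R xs R → ∀ n : ℕ, Rg R xs (Fin n → R))

/-- [ESA] `Ext ^ 1 (A, R) = 0` for regular (maximal Cohen-Macaulay) `A`. Proof. Let
`0 → Z → F → A → 0` be a cover, `ψ : Z → R`. Write `W k = R / (x_1, .., x_k)`. Claim by descending
induction on `k`: every `R`-linear map `Z → W k` extends to `F`. `k = d`: `W d = R / I` is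
self-injective (`HWC.baer`; `R / I` is local Artinian with irreducible zero ideal); the map kills
`I Z`, and `Z / I Z → F / I F` is injective (`St_RSQ` (1)), so it extends. `k + 1 → k`: compose
`ψ : Z → W k` with `W k → W (k+1)`, extend to `F` and lift to `Φ : F → W k` (`F` free); `ψ - Φ` has
values in `x_(k+1) W k ≅ W k`, so `ψ = Φ + x_(k+1) ψ'`; hence the finitely generated module
`Hom(Z, W k) / restrictions` is `x_(k+1)` times itself, so zero (Nakayama). (Or by induction on a
suffix of the list: for every suffix.) -/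
def St_ESA : Prop := ∀ (R : Type) [CommRing R] [IsLocalRing R] [IsNoetherianRing R]
  (xs : List R), GorL R xs → ∀ (A : Type) [AddCommGroup A] [Module R A] [Module.Finite R A],
  Rg R xs A → ExtProp R A R

/-- [HMR] `Hom(A, M)` and its reduction, if `Ext ^ i (A, M) = 0` for `i ≥ 1` and `M` is regular.
Proof by induction on the list, generalizing `M`. For `y` regular on `M`, `M' = M / y M`
(`QuotSMulTop y M`): (a) every `χ : A → M'` lifts to `A → M`: for a cover `p : F → A` with kernel `Z`
lift `χ p` to `g : F → M`; on `Z` it is `y h`, `h : Z → M`, which extends to `H : F → M`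
(`ExtProp R A M`); `g - y H` factors through `p`. (b) `EA R A M'`: for every cover `p : F → A` and
`ψ : Z → M'` take a cover `q : G → Z` with kernel `Z2` (`R` Noetherian), lift `ψ q` to
`g : G → M`; on `Z2` it is `y h`, `h` extends to `G` (`ExtProp R Z M`), so `g - y H = ψ' q` with
`ψ' : Z → M` lifting `ψ`; `ψ'` extends to `F`. The same for all syzygies. (c) `y` is regular on
`Hom(A, M)` and `Hom(A, M) / y = Hom(A, M')` by (a) (a map with values in `y M` is `y` times a map). -/
def St_HMR : Prop := ∀ (R : Type) [CommRing R] [IsNoetherianRing R] (xs : List R)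
  (A M : Type) [AddCommGroup A] [Module R A] [Module.Finite R A] [AddCommGroup M] [Module R M],
  Rg R xs M → EA R A M →
  Rg R xs (A →ₗ[R] M) ∧
  (∀ χ : A →ₗ[R] (M ⧸ (Ideal.ofList xs • ⊤ : Submodule R M)), ∃ φ : A →ₗ[R] M,
    ∀ a, (Ideal.ofList xs • ⊤ : Submodule R M).mkQ (φ a) = χ a) ∧
  (∀ φ : A →ₗ[R] M, (∀ a, φ a ∈ (Ideal.ofList xs • ⊤ : Submodule R M)) →
    φ ∈ (Ideal.ofList xs • ⊤ : Submodule R (A →ₗ[R] M)))

/-- [DUA] (uses RSQ, ESA) `Ext ^ i (A, R) = 0` for all `i ≥ 1` if `A` is regular: syzygies are
regular (`St_RSQ` (3), (5)). -/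
def St_DUA : Prop := ∀ (R : Type) [CommRing R] [IsLocalRing R] [IsNoetherianRing R]
  (xs : List R), GorL R xs → ∀ (A : Type) [AddCommGroup A] [Module R A] [Module.Finite R A],
  Rg R xs A → EA R A R

/-- [EXE] Extension of maps along injections with a cokernel without `Ext ^ 1`. Proof: a cover
`p : F → C`, lifted to `h : F → B`; for `θ : A → N` the map on `ker p` given by
`v ↦ θ (f⁻¹ (h v))` extends to `φ : F → N`; `b = f a + h v ↦ θ a + φ v` is well defined.
(Compare `ARS.thm_Split`, `Pool/Agent/ARS/Ext.lean`.) -/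
def St_EXE : Prop := ∀ (R : Type) [CommRing R] (A B C N : Type) [AddCommGroup A] [Module R A]
  [AddCommGroup B] [Module R B] [AddCommGroup C] [Module R C] [Module.Finite R C]
  [AddCommGroup N] [Module R N] (f : A →ₗ[R] B) (g : B →ₗ[R] C),
  Function.Injective f → Function.Surjective g → (∀ v, g v = 0 ↔ ∃ u, f u = v) →
  ExtProp R C N → ∀ θ : A →ₗ[R] N, ∃ Θ : B →ₗ[R] N, ∀ a, Θ (f a) = θ a

/-- [GFR] Generic freeness: `s • id` is a sum of rank one maps. Proof: choose a maximal linearly
independent finite family `b` in the finitely generated torsionfree `M` (for instance from the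
vector space `M ⊗ Frac R`, or a maximal independent subfamily of generators); for each generator
`x` there is `s_x ≠ 0` with `s_x • x` in the span of `b`; `s` the product; the coordinates of
`s • v` in `b` are linear forms `f k`, and `s • v = ∑ k, f k v • b k`. -/
def St_GFR : Prop := ∀ (R : Type) [CommRing R] [IsDomain R] (M : Type) [AddCommGroup M]
  [Module R M] [Module.Finite R M], HWC.TF R M →
  ∃ (s : R) (q : ℕ) (p : M →ₗ[R] (Fin q → R)) (j : (Fin q → R) →ₗ[R] M), s ≠ 0 ∧
    ∀ v, j (p v) = s • v

/-- [SYZ] The first syzygy `Z` of `X` satisfies the hypotheses if `X` does. Proof. The second claim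
is part of the definition (`ExtAll`). Lemma: if `W'` is the kernel of a cover `q : G → W`,
`ExtProp R W X` and `ExtProp R W' R`, then `ExtProp R W' Z`: let `ψ : Z' → Z`, `Z'` the kernel of a
cover `G' → W'`; compose with `Z → F = (Fin n → R)` and extend to `g : G' → F` (componentwise,
`ExtProp R W' R`); `p g` kills `Z'`, so it is a map `W' → X`, which extends to `G → X`
(`ExtProp R W X`) and lifts to `Ψ : G → F`; `g - Ψ (G' → W' → G)` has values in `Z` and restricts
to `ψ`. Apply it to all syzygies `W` of `X`. -/
def St_SYZ : Prop := ∀ (R : Type) [CommRing R] [IsNoetherianRing R] (X : Type) [AddCommGroup X]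
  [Module R X] [Module.Finite R X], EA R X X → EA R X R →
  ∀ (n : ℕ) (p : (Fin n → R) →ₗ[R] X), Function.Surjective p →
    EA R (LinearMap.ker p) (LinearMap.ker p) ∧ EA R (LinearMap.ker p) R

/-- [FRE] If the syzygy `Z` of `X` is free and `Ext ^ 1 (X, R) = 0` then `X` is free. Proof: the
coordinates `Z → R` extend to `F`, so `Z → F` has a retraction, `X` is projective, and free over
the local ring. -/
def St_FRE : Prop := ∀ (R : Type) [CommRing R] [IsLocalRing R] [IsNoetherianRing R] (X : Type)
  [AddCommGroup X] [Module R X] [Module.Finite R X], ExtProp R X R →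
  ∀ (n : ℕ) (p : (Fin n → R) →ₗ[R] X), Function.Surjective p →
    Module.Free R (LinearMap.ker p) → Module.Free R X

/-- [DIM] The quotient by a regular sequence of length `dim R` is Artinian. Proof:
`ringKrullDim_add_length_eq_ringKrullDim_of_isRegular` (Mathlib/RingTheory/KrullDimension/Regular),
so `ringKrullDim (R / I) = 0`; `isArtinianRing_iff_isNoetherianRing_krullDimLE_zero` (or similar). -/
def St_DIM : Prop := ∀ (R : Type) [CommRing R] [IsLocalRing R] [IsNoetherianRing R]
  (xs : List R), RingTheory.Sequence.IsRegular R xs →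
  ((xs.length : ℕ∞) : WithBot ℕ∞) = ringKrullDim R → IsArtinianRing (R ⧸ Ideal.ofList xs)

end Pool.Agent.ARD
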