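import Pool.Agent.ARD.StH
import Pool.Agent.ARD.StC

/-!
# ARD / GII : maximal regular sequences of a Gorenstein local ring
-/

set_option autoImplicit false

namespace Pool.Agent.ARD

open ARS IsLocalRing

private theorem GII_reg (R : Type) [CommRing R] [IsLocalRing R] (xs : List R)
    (hm : ∀ x ∈ xs, x ∈ maximalIdeal R) (h : Rg R xs R) : RingTheory.Sequence.IsRegular R xs := by
  refine ⟨h, ?_⟩
  rw [smul_eq_mul, Ideal.mul_top]
  intro he
  have hle : Ideal.ofList xs ≤ maximalIdeal R := Ideal.span_le.2 fun x hx => hm x hx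
  rw [← he] at hle
  exact (maximalIdeal.isMaximal R).ne_top (top_le_iff.1 hle)

/-- [GII] every maximal regular sequence of a Gorenstein local ring generates an irreducible
ideal. -/
theorem thm_GII (hTYP : St_TYP) (hIRT : St_IRT) (hDIM : St_DIM) : St_GII := by
  intro R _ _ _ xs ys hG hys hlen hy
  have hregx := GII_reg R xs hG.mem hG.reg
  have hregy := GII_reg R ys hys hy
  have hdim := ringKrullDim_add_length_eq_ringKrullDim_of_isRegular xs hregx
  have hne : Ideal.ofList xs ≠ ⊤ := by
    intro he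
    have hle : Ideal.ofList xs ≤ maximalIdeal R := Ideal.span_le.2 fun x hx => hG.mem x hx
    rw [he] at hle
    exact (maximalIdeal.isMaximal R).ne_top (top_le_iff.1 hle)
  have hnt : Nontrivial (R ⧸ Ideal.ofList xs) := Ideal.Quotient.nontrivial_iff.2 hne
  have hart := hG.art
  have h0 : ringKrullDim (R ⧸ Ideal.ofList xs) = 0 := by
    refine le_antisymm ?_ ringKrullDim_nonneg_of_nontrivial
    have h3 : Ring.KrullDimLE 0 (R ⧸ Ideal.ofList xs) := isArtinianRing_iff_krullDimLE_zero.1 hart
    rw [Ring.KrullDimLE, Order.krullDimLE_iff] at h3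
    exact h3
  rw [h0, zero_add] at hdim
  have hay := hDIM R ys hregy (by
    rw [hlen, ← hdim]
    rfl)
  exact ⟨hys, hy, (hIRT R ys hay).2 (hTYP R R xs ys hG.mem hys hlen hG.reg hy
    ((hIRT R xs hG.art).1 hG.irr)), hay⟩

end Pool.Agent.ARD
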