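import Pool.Agent.ARD.StS

/-!
# ARD / GLD : the length of the sequence is the dimension
-/

set_option autoImplicit false

namespace Pool.Agent.ARD

open ARS IsLocalRing

/-- [GLD] the length of the sequence is the dimension. -/
theorem thm_GLD : St_GLD := by
  intro R _ _ _ xs hG
  have hle : Ideal.ofList xs ≤ maximalIdeal R := Ideal.span_le.2 fun x hx => hG.mem x hx
  have hne : Ideal.ofList xs ≠ ⊤ := by
    intro he
    rw [he] at hle
    exact (maximalIdeal.isMaximal R).ne_top (top_le_iff.1 hle)
  have hregx : RingTheory.Sequence.IsRegular R xs := by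
    refine ⟨hG.reg, ?_⟩
    rw [smul_eq_mul, Ideal.mul_top]
    exact fun he => hne he.symm
  have hdim := ringKrullDim_add_length_eq_ringKrullDim_of_isRegular xs hregx
  have hnt : Nontrivial (R ⧸ Ideal.ofList xs) := Ideal.Quotient.nontrivial_iff.2 hne
  have hart := hG.art
  have h0 : ringKrullDim (R ⧸ Ideal.ofList xs) = 0 := by
    refine le_antisymm ?_ ringKrullDim_nonneg_of_nontrivial
    have h3 : Ring.KrullDimLE 0 (R ⧸ Ideal.ofList xs) := isArtinianRing_iff_krullDimLE_zero.1 hart
    rw [Ring.KrullDimLE, Order.krullDimLE_iff] at h3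
    exact h3
  rw [h0, zero_add] at hdim
  exact ⟨hregx, hdim⟩

end Pool.Agent.ARD
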