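import Pool.Agent.ARD.StG

/-! helper8, module GPZ: `GP` passes to syzygies, to smaller primes, and implies that a multiple of
the identity is a sum of rank one maps. -/

set_option autoImplicit false

namespace Pool.Agent.ARD

open ARS IsLocalRing TensorProduct

private theorem GPZ_lift {R X : Type} [CommRing R] [AddCommGroup X] [Module R X] (n m : ℕ)
    (p : (Fin n → R) →ₗ[R] X) (hp : Function.Surjective p) (j : (Fin m → R) →ₗ[R] X) :
    ∃ h : (Fin m → R) →ₗ[R] (Fin n → R), ∀ v, p (h v) = j v := by
  obtain ⟨h, hh⟩ := Module.projective_lifting_property p j hp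
  exact ⟨h, fun v => by rw [← hh]; rfl⟩

theorem thm_GPZ : St_GPZ := by
  intro R _ q X _ _ hX
  obtain ⟨s, m, u, j, hs, huj⟩ := hX
  refine ⟨fun n p hp => ?_, fun p hpq => ⟨s, m, u, j, fun h => hs (hpq h), huj⟩, s, hs, ?_⟩
  · obtain ⟨h, hh⟩ := GPZ_lift n m p hp j
    have hk : ∀ v : Fin n → R, (s • LinearMap.id - h ∘ₗ u ∘ₗ p : (Fin n → R) →ₗ[R] (Fin n → R)) v ∈
        LinearMap.ker p := by
      intro v
      rw [LinearMap.mem_ker]
      show p (s • v - h (u (p v))) = 0
      rw [map_sub, map_smul, hh, huj, sub_self]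
    refine ⟨s, n, (LinearMap.ker p).subtype,
      LinearMap.codRestrict (LinearMap.ker p) (s • LinearMap.id - h ∘ₗ u ∘ₗ p) hk, hs, ?_⟩
    intro v
    apply Subtype.ext
    show s • (v : Fin n → R) - h (u (p (v : Fin n → R))) = s • (v : Fin n → R)
    have hv : p (v : Fin n → R) = 0 := v.2
    rw [hv, map_zero, map_zero, sub_zero]
  · have hsum : s • (LinearMap.id : X →ₗ[R] X) =
        ∑ i : Fin m, ((LinearMap.proj i).comp u : X →ₗ[R] R).smulRight
          (j (Pi.single i 1)) := by
      ext v
      rw [LinearMap.sum_apply]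
      show s • v = ∑ i : Fin m, (u v i) • j (Pi.single i 1)
      rw [← huj v, LinearMap.pi_apply_eq_sum_univ j (u v)]
      refine Finset.sum_congr rfl fun i _ => ?_
      congr 2
      funext k
      by_cases hik : i = k
      · subst hik
        simp
      · simp [hik, Ne.symm hik]
    rw [hsum]
    exact Submodule.sum_mem _ fun i _ => Submodule.subset_span ⟨_, _, rfl⟩

end Pool.Agent.ARD
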