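import Pool.Agent.ARD.StG

/-! [GR2] An ideal in no prime of height at most one contains a regular sequence of length two. -/

set_option autoImplicit false

namespace Pool.Agent.ARD

open ARS IsLocalRing

theorem thm_GR2 (hUNM : St_UNM) : St_GR2 := by
  intro R _ _ _ _ xs hx hreg hdim J hJ hp
  -- a nonzero element of J
  obtain ⟨a, haJ, ha0⟩ : ∃ a ∈ J, a ≠ 0 := by
    by_contra hcon
    push Not at hcon
    refine hp ⊥ Ideal.isPrime_bot ?_ fun a ha => ?_
    · rw [Ideal.height_bot]
      exact zero_le_one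
    · rw [hcon a ha]
      exact Submodule.zero_mem _
  have hU := hUNM R xs hx hreg hdim a (hJ haJ) ha0
  have hfin : (associatedPrimes R (R ⧸ Ideal.span {a})).Finite := associatedPrimes.finite R _
  -- an element of J outside the associated primes
  obtain ⟨b, hbJ, hb⟩ : ∃ b ∈ J, ∀ q ∈ associatedPrimes R (R ⧸ Ideal.span {a}), b ∉ q := by
    by_contra hcon
    push Not at hcon
    have hsub : (J : Set R) ⊆ ⋃ q ∈ associatedPrimes R (R ⧸ Ideal.span {a}), ((q : Ideal R) : Set R) := by
      intro b hbJ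
      obtain ⟨q, hq, hbq⟩ := hcon b hbJ
      exact Set.mem_biUnion hq hbq
    obtain ⟨q, hq, hJq⟩ := (Ideal.subset_union_prime_finite hfin (f := fun q => q) ⊥ ⊥
      (fun q hq _ _ => hq.isPrime)).1 hsub
    exact hp q hq.isPrime (hU q hq) hJq
  refine ⟨a, haJ, b, hbJ, ha0, fun c hc => ?_⟩
  by_contra hac
  have hne : (Ideal.Quotient.mk (Ideal.span {a}) c) ≠ 0 := by
    rw [Ne, Ideal.Quotient.eq_zero_iff_mem, Ideal.mem_span_singleton]
    exact hac
  have hz : b • (Ideal.Quotient.mk (Ideal.span {a}) c) = 0 := by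
    have h1 : b • (Ideal.Quotient.mk (Ideal.span {a}) c) =
        Ideal.Quotient.mk (Ideal.span {a}) (b * c) := by
      rw [map_mul]
      rfl
    rw [h1, Ideal.Quotient.eq_zero_iff_mem, Ideal.mem_span_singleton]
    exact hc
  have hmem : b ∈ ⋃ q ∈ associatedPrimes R (R ⧸ Ideal.span {a}), ((q : Ideal R) : Set R) := by
    rw [biUnion_associatedPrimes_eq_zero_divisors R (R ⧸ Ideal.span {a})]
    exact ⟨_, hne, hz⟩
  obtain ⟨q, hq, hbq⟩ := Set.mem_iUnion₂.1 hmem
  exact hb q hq hbq

end Pool.Agent.ARD
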