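import Pool.Agent.ARD.StK

/-! helper11. [GRK] An ideal in no prime of height at most one contains a regular sequence of
length two. -/

set_option autoImplicit false

namespace Pool.Agent.ARD

open ARS IsLocalRing

private theorem GRK_avoid {R M : Type} [CommRing R] [IsNoetherianRing R] [AddCommGroup M]
    [Module R M] [Module.Finite R M] (J : Ideal R)
    (h : ∀ q ∈ associatedPrimes R M, ¬ J ≤ q) : ∃ b ∈ J, ∀ q ∈ associatedPrimes R M, b ∉ q := by
  by_contra hcon
  push Not at hcon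
  have hsub : (J : Set R) ⊆ ⋃ q ∈ associatedPrimes R M, ((q : Ideal R) : Set R) := by
    intro b hbJ
    obtain ⟨q, hq, hbq⟩ := hcon b hbJ
    exact Set.mem_biUnion hq hbq
  obtain ⟨q, hq, hJq⟩ := (Ideal.subset_union_prime_finite (associatedPrimes.finite R M)
    (f := fun q => q) ⊥ ⊥ (fun q hq _ _ => hq.isPrime)).1 hsub
  exact h q hq hJq

theorem thm_GRK (hUNK : St_UNK) : St_GRK := by
  intro R _ _ _ xs hx hreg hdim J hJ hp
  obtain ⟨hU1, hU2⟩ := hUNK R xs hx hreg hdim
  -- a nonzerodivisor in J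
  obtain ⟨a, haJ, ha⟩ := GRK_avoid (M := R) J (fun q hq => hp q hq.isPrime (by
    rw [hU1 q hq]
    exact zero_le_one))
  have ha0 : a ∈ nonZeroDivisors R := by
    by_contra hna
    have h1 : a ∈ (nonZeroDivisors R : Set R)ᶜ := hna
    rw [← biUnion_associatedPrimes_eq_compl_nonZeroDivisors] at h1
    obtain ⟨q, hq, haq⟩ := Set.mem_iUnion₂.1 h1
    exact ha q hq haq
  have hU := hU2 a (hJ haJ) ha0
  -- an element of J outside the associated primes
  obtain ⟨b, hbJ, hb⟩ := GRK_avoid (M := R ⧸ Ideal.span {a}) J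
    (fun q hq => hp q hq.isPrime (hU q hq))
  refine ⟨a, haJ, b, hbJ, ha0, fun c hc => ?_⟩
  by_contra hac
  have hne : (Ideal.Quotient.mk (Ideal.span {a}) c) ≠ 0 := by
    rw [Ne, Ideal.Quotient.eq_zero_iff_mem, Ideal.mem_span_singleton]
    exact hac
  have hz : b • (Ideal.Quotient.mk (Ideal.span {a}) c) = 0 := by
    have h1 : b • (Ideal.Quotient.mk (Ideal.span {a}) c) =
        Ideal.Quotient.mk (Ideal.span {a}) (b * c) := by
      rw [map_mul]
      rfl
    rw [h1, Ideal.Quotient.eq_zero_iff_mem, Ideal.mem_span_singleton]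
    exact hc
  have hmem : b ∈ ⋃ q ∈ associatedPrimes R (R ⧸ Ideal.span {a}), ((q : Ideal R) : Set R) := by
    rw [biUnion_associatedPrimes_eq_zero_divisors R (R ⧸ Ideal.span {a})]
    exact ⟨_, hne, hz⟩
  obtain ⟨q, hq, hbq⟩ := Set.mem_iUnion₂.1 hmem
  exact hb q hq hbq

end Pool.Agent.ARD
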