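import Pool.Agent.ARD.StC

/-! [HMR] `Hom(A, M)` and its reduction modulo a regular sequence, if `Ext ^ i (A, M) = 0` for all
`i ≥ 1` (helper95, for helper9's ARD). -/

set_option autoImplicit false

namespace Pool.Agent.ARD

open ARS
open scoped Pointwise

section

variable {R : Type} [CommRing R]

/-- division by a regular element -/
theorem HMR_div {V M : Type} [AddCommGroup V] [Module R V] [AddCommGroup M] [Module R M] {y : R}
    (hy : IsSMulRegular M y) (g : V →ₗ[R] M) (hg : ∀ v, ∃ w, y • w = g v) :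
    ∃ h : V →ₗ[R] M, ∀ v, y • h v = g v := by
  let L : M →ₗ[R] M := LinearMap.lsmul R M y
  have hL : Function.Injective L := hy
  let e := LinearEquiv.ofInjective L hL
  have hc : ∀ v, g v ∈ LinearMap.range L := by
    intro v
    obtain ⟨w, hw⟩ := hg v
    exact ⟨w, hw⟩
  refine ⟨e.symm.toLinearMap.comp (g.codRestrict (LinearMap.range L) hc), fun v => ?_⟩
  have h := congrArg Subtype.val (e.apply_symm_apply (g.codRestrict (LinearMap.range L) hc v))
  exact h

/-- factorisation through a surjection -/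
theorem HMR_fac {G Z M : Type} [AddCommGroup G] [Module R G] [AddCommGroup Z] [Module R Z]
    [AddCommGroup M] [Module R M] (q : G →ₗ[R] Z) (hq : Function.Surjective q) (f : G →ₗ[R] M)
    (h : ∀ u, q u = 0 → f u = 0) : ∃ f' : Z →ₗ[R] M, ∀ u, f' (q u) = f u := by
  have hk : LinearMap.ker q ≤ LinearMap.ker f := fun u hu => h u hu
  refine ⟨((LinearMap.ker q).liftQ f hk).comp
    (q.quotKerEquivOfSurjective hq).symm.toLinearMap, fun u => ?_⟩
  have hu : (q.quotKerEquivOfSurjective hq).symm (q u) = (LinearMap.ker q).mkQ u := by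
    rw [LinearEquiv.symm_apply_eq]
    rfl
  show (LinearMap.ker q).liftQ f hk ((q.quotKerEquivOfSurjective hq).symm (q u)) = f u
  rw [hu]
  rfl

theorem HMR_mem {M : Type} [AddCommGroup M] [Module R M] (y : R) (m : M) :
    (y • (⊤ : Submodule R M)).mkQ m = 0 ↔ ∃ w, y • w = m := by
  rw [Submodule.mkQ_apply, Submodule.Quotient.mk_eq_zero, Submodule.mem_smul_pointwise_iff_exists]
  constructor
  · rintro ⟨w, _, hw⟩
    exact ⟨w, hw⟩
  · rintro ⟨w, hw⟩
    exact ⟨w, trivial, hw⟩

/-- (a) maps to `M / y M` lift to `M` -/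
theorem HMR_a {A M : Type} [AddCommGroup A] [Module R A] [Module.Finite R A] [AddCommGroup M]
    [Module R M] {y : R} (hy : IsSMulRegular M y) (hA : ExtProp R A M)
    (χ : A →ₗ[R] QuotSMulTop y M) :
    ∃ φ : A →ₗ[R] M, ∀ a, (y • (⊤ : Submodule R M)).mkQ (φ a) = χ a := by
  obtain ⟨n, p, hp⟩ := Module.Finite.exists_fin' R A
  obtain ⟨g, hg⟩ := Module.projective_lifting_property (y • (⊤ : Submodule R M)).mkQ (χ.comp p)
    (Submodule.mkQ_surjective _)
  have hg' : ∀ u, (y • (⊤ : Submodule R M)).mkQ (g u) = χ (p u) := fun u =>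
    LinearMap.congr_fun hg u
  obtain ⟨h, hh⟩ := HMR_div hy (g.comp (LinearMap.ker p).subtype) (by
    intro v
    refine (HMR_mem y (g v)).1 ?_
    have hv : p v = 0 := v.2
    rw [hg', hv, map_zero])
  obtain ⟨H, hH⟩ := hA n p hp h
  obtain ⟨φ, hφ⟩ := HMR_fac p hp (g - y • H) (by
    intro u hu
    have h1 := hH ⟨u, hu⟩
    have h2 := hh ⟨u, hu⟩
    show g u - y • H u = 0
    have h3 : H u = h ⟨u, hu⟩ := h1
    have h4 : y • h ⟨u, hu⟩ = g u := h2
    rw [h3, h4, sub_self])
  refine ⟨φ, fun a => ?_⟩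
  obtain ⟨u, rfl⟩ := hp a
  rw [hφ]
  show (y • (⊤ : Submodule R M)).mkQ (g u - y • H u) = χ (p u)
  rw [map_sub, hg', (HMR_mem y (y • H u)).2 ⟨H u, rfl⟩, sub_zero]

/-- (b) `Ext ^ 1 (A, M / y M) = 0` -/
theorem HMR_b [IsNoetherianRing R] {A M : Type} [AddCommGroup A] [Module R A] [AddCommGroup M]
    [Module R M] {y : R} (hy : IsSMulRegular M y) (hA : ExtProp R A M)
    (hZ : ∀ (n : ℕ) (p : (Fin n → R) →ₗ[R] A), Function.Surjective p →
      ExtProp R (LinearMap.ker p) M) : ExtProp R A (QuotSMulTop y M) := by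
  intro n p hp ψ
  have : Module.Finite R (LinearMap.ker p) := Module.IsNoetherian.finite R (LinearMap.ker p)
  obtain ⟨ψ', hψ'⟩ := HMR_a hy (hZ n p hp) ψ
  obtain ⟨Φ, hΦ⟩ := hA n p hp ψ'
  refine ⟨(y • (⊤ : Submodule R M)).mkQ.comp Φ, fun k => ?_⟩
  rw [LinearMap.comp_apply, hΦ, hψ']

theorem HMR_EA [IsNoetherianRing R] {M : Type} [AddCommGroup M] [Module R M] {y : R}
    (hy : IsSMulRegular M y) (k : ℕ) : ∀ (A : Type) [AddCommGroup A] [Module R A], EA R A M →
    ExtAll R (QuotSMulTop y M) k A := by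
  induction k with
  | zero =>
    intro A _ _ _
    trivial
  | succ k ih =>
    intro A _ _ h
    have hk : ∀ (n : ℕ) (p : (Fin n → R) →ₗ[R] A), Function.Surjective p →
        EA R (LinearMap.ker p) M := fun n p hp j => (h (j + 1)).2 n p hp
    exact ⟨HMR_b hy (h 1).1 fun n p hp => (hk n p hp 1).1, fun n p hp => ih _ (hk n p hp)⟩

/-- the map `Hom(A, M) → Hom(A, M')` -/
def HMR_T {M M' : Type} (A : Type) [AddCommGroup A] [Module R A] [AddCommGroup M] [Module R M]
    [AddCommGroup M'] [Module R M'] (π : M →ₗ[R] M') : (A →ₗ[R] M) →ₗ[R] (A →ₗ[R] M') where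
  toFun φ := π.comp φ
  map_add' φ ψ := by
    ext a
    simp
  map_smul' r φ := by
    ext a
    simp

end

theorem thm_HMR : St_HMR := by
  intro R _ _ xs
  induction xs with
  | nil =>
    intro A M _ _ _ _ _ _ _
    have h0 : (Ideal.ofList ([] : List R) • ⊤ : Submodule R M) = ⊥ := by
      rw [Ideal.ofList_nil, Submodule.bot_smul]
    refine ⟨RingTheory.Sequence.IsWeaklyRegular.nil _ _, ?_, ?_⟩
    · intro χ
      obtain ⟨φ, hφ⟩ : ∃ φ : A →ₗ[R] M,
          φ = (Submodule.quotEquivOfEqBot _ h0).toLinearMap.comp χ := ⟨_, rfl⟩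
      refine ⟨φ, fun a => ?_⟩
      obtain ⟨m, hm⟩ := Submodule.mkQ_surjective (Ideal.ofList ([] : List R) • ⊤ : Submodule R M)
        (χ a)
      have h1 : φ a = m := by
        rw [hφ, LinearMap.comp_apply, ← hm]
        rfl
      rw [h1, hm]
    · intro φ h
      have h1 : φ = 0 := by
        ext a
        have h2 := h a
        rw [h0, Submodule.mem_bot] at h2
        rw [h2, LinearMap.zero_apply]
      rw [h1]
      exact Submodule.zero_mem _
  | cons y ys ih =>
    intro A M _ _ _ _ _ hreg hEA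
    obtain ⟨hy, hys⟩ := (RingTheory.Sequence.isWeaklyRegular_cons_iff M y ys).1 hreg
    obtain ⟨i1, i2, i3⟩ := ih A (QuotSMulTop y M) hys (fun k => HMR_EA hy k A hEA)
    let π : M →ₗ[R] QuotSMulTop y M := (y • (⊤ : Submodule R M)).mkQ
    let T := HMR_T A π
    have hT : ∀ φ a, T φ a = π (φ a) := fun _ _ => rfl
    have hTs : Function.Surjective T := by
      intro χ
      obtain ⟨φ, hφ⟩ := HMR_a hy (hEA 1).1 χ
      refine ⟨φ, ?_⟩
      ext a
      exact hφ a
    have hyH : IsSMulRegular (A →ₗ[R] M) y := by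
      intro φ ψ h
      ext a
      refine hy ?_
      exact LinearMap.congr_fun h a
    have hk : y • (⊤ : Submodule R (A →ₗ[R] M)) = LinearMap.ker T := by
      ext φ
      rw [LinearMap.mem_ker, Submodule.mem_smul_pointwise_iff_exists]
      constructor
      · rintro ⟨ψ, _, rfl⟩
        ext a
        rw [hT]
        exact (HMR_mem y _).2 ⟨ψ a, rfl⟩
      · intro h
        obtain ⟨ψ, hψ⟩ := HMR_div hy φ (fun a => (HMR_mem y (φ a)).1 (by
          show π (φ a) = 0
          rw [← hT, h, LinearMap.zero_apply]))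
        refine ⟨ψ, trivial, ?_⟩
        ext a
        exact hψ a
    refine ⟨?_, ?_, ?_⟩
    · refine (RingTheory.Sequence.isWeaklyRegular_cons_iff _ y ys).2 ⟨hyH, ?_⟩
      exact (LinearEquiv.isWeaklyRegular_congr
        ((Submodule.quotEquivOfEq _ _ hk).trans (T.quotKerEquivOfSurjective hTs)) ys).2 i1
    · intro χ
      let e := Submodule.quotOfListConsSMulTopEquivQuotSMulTopInner M y ys
      obtain ⟨φ', hφ'⟩ := i2 (e.toLinearMap.comp χ)
      obtain ⟨φ, hφ⟩ := HMR_a hy (hEA 1).1 φ'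
      refine ⟨φ, fun a => ?_⟩
      refine e.injective ?_
      have h1 : e ((Ideal.ofList (y :: ys) • ⊤ : Submodule R M).mkQ (φ a)) =
          (Ideal.ofList ys • ⊤ : Submodule R (QuotSMulTop y M)).mkQ (π (φ a)) := rfl
      rw [h1]
      have h2 : π (φ a) = φ' a := hφ a
      rw [h2, hφ']
      rfl
    · intro φ h
      have hmap : ∀ m ∈ (Ideal.ofList (y :: ys) • ⊤ : Submodule R M),
          π m ∈ (Ideal.ofList ys • ⊤ : Submodule R (QuotSMulTop y M)) := by
        intro m hm
        rw [Ideal.ofList_cons_smul] at hm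
        obtain ⟨u, hu, v, hv, rfl⟩ := Submodule.mem_sup.1 hm
        rw [map_add]
        have h1 : π u = 0 := by
          obtain ⟨w, _, hw⟩ := (Submodule.mem_smul_pointwise_iff_exists _ _ _).1 hu
          exact (HMR_mem y u).2 ⟨w, hw⟩
        rw [h1, zero_add]
        have h2 : π v ∈ Submodule.map π (Ideal.ofList ys • ⊤ : Submodule R M) :=
          Submodule.mem_map_of_mem hv
        rw [Submodule.map_smul''] at h2
        exact Submodule.smul_mono le_rfl le_top h2
      have h1 := i3 (T φ) (fun a => hmap _ (h a))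
      have h2 : (Ideal.ofList ys • ⊤ : Submodule R (A →ₗ[R] QuotSMulTop y M)) =
          Submodule.map T (Ideal.ofList ys • ⊤ : Submodule R (A →ₗ[R] M)) := by
        rw [Submodule.map_smul'', Submodule.map_top, LinearMap.range_eq_top.2 hTs]
      rw [h2] at h1
      obtain ⟨ψ, hψ, hψ'⟩ := h1
      have h3 : φ - ψ ∈ y • (⊤ : Submodule R (A →ₗ[R] M)) := by
        rw [hk, LinearMap.mem_ker, map_sub, hψ', sub_self]
      rw [Ideal.ofList_cons_smul]
      have h4 : φ = (φ - ψ) + ψ := by abel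
      rw [h4]
      exact Submodule.add_mem_sup h3 hψ

end Pool.Agent.ARD
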