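import Pool.Agent.ARD.StH

/-!
# ARD / HPA : homogeneous prime avoidance
-/

set_option autoImplicit false

namespace Pool.Agent.ARD

open ARS IsLocalRing

section HPA

variable {K A : Type} [Field K] [CommRing A] [Algebra K A] (𝒜 : ℕ → Submodule K A)
  [GradedAlgebra 𝒜]

/-- a homogeneous element in finitely many ideals and outside a prime -/
private theorem HPA_prod (P : Ideal A) (hP : P.IsPrime) (h0 : ∃ n, 0 < n ∧ ∃ f ∈ 𝒜 n, f ∉ P)
    (T : Finset (Ideal A)) (hT : ∀ Q ∈ T, ∃ n, 0 < n ∧ ∃ g ∈ 𝒜 n, g ∈ Q ∧ g ∉ P) :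
    ∃ e, 0 < e ∧ ∃ g ∈ 𝒜 e, g ∉ P ∧ ∀ Q ∈ T, g ∈ Q := by
  classical
  induction T using Finset.induction_on with
  | empty =>
    obtain ⟨n, hn, f, hf, hfP⟩ := h0
    exact ⟨n, hn, f, hf, hfP, fun Q hQ => absurd hQ (Finset.notMem_empty Q)⟩
  | insert Q T _ ih =>
    obtain ⟨e, he, g, hg, hgP, hgT⟩ := ih fun Q' hQ' => hT Q' (Finset.mem_insert_of_mem hQ')
    obtain ⟨n, hn, g', hg', hgQ, hgP'⟩ := hT Q (Finset.mem_insert_self Q T)
    refine ⟨e + n, by omega, g * g', SetLike.mul_mem_graded hg hg', fun h => ?_, fun Q' hQ' => ?_⟩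
    · rcases hP.mem_or_mem h with h | h
      · exact hgP h
      · exact hgP' h
    · rcases Finset.mem_insert.1 hQ' with rfl | h
      · exact Ideal.mul_mem_left _ _ hgQ
      · exact Ideal.mul_mem_right _ _ (hgT Q' h)

private theorem HPA_aux (k : ℕ) : ∀ S : Finset (Ideal A), S.card ≤ k →
    (∀ P ∈ S, P.IsPrime ∧ ∃ n, 0 < n ∧ ∃ f ∈ 𝒜 n, f ∉ P) →
    ∃ n, 0 < n ∧ ∃ f ∈ 𝒜 n, ∀ P ∈ S, f ∉ P := by
  classical
  induction k with
  | zero =>
    intro S hS _
    have : S = ∅ := Finset.card_eq_zero.1 (Nat.le_zero.1 hS)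
    subst this
    exact ⟨1, one_pos, 0, Submodule.zero_mem _, fun P hP => absurd hP (Finset.notMem_empty P)⟩
  | succ k ih =>
    intro S hS h
    rcases S.eq_empty_or_nonempty with rfl | ⟨P, hPS⟩
    · exact ⟨1, one_pos, 0, Submodule.zero_mem _, fun P hP => absurd hP (Finset.notMem_empty P)⟩
    obtain ⟨hP, h0⟩ := h P hPS
    by_cases hA : ∃ Q ∈ S.erase P, ∀ n, 0 < n → ∀ g ∈ 𝒜 n, g ∈ Q → g ∈ P
    · obtain ⟨Q, hQ, hQP⟩ := hA
      rw [Finset.mem_erase] at hQ
      have hc : (S.erase Q).card ≤ k := by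
        rw [Finset.card_erase_of_mem hQ.2]
        omega
      obtain ⟨n, hn, f, hf, hfS⟩ := ih (S.erase Q) hc fun P' hP' => h P' (Finset.mem_of_mem_erase hP')
      refine ⟨n, hn, f, hf, fun P' hP' hfP' => ?_⟩
      by_cases hPQ : P' = Q
      · subst hPQ
        exact hfS P (Finset.mem_erase.2 ⟨hQ.1.symm, hPS⟩) (hQP n hn f hf hfP')
      · exact hfS P' (Finset.mem_erase.2 ⟨hPQ, hP'⟩) hfP'
    · have hB : ∀ Q ∈ S.erase P, ∃ n, 0 < n ∧ ∃ g ∈ 𝒜 n, g ∈ Q ∧ g ∉ P := by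
        intro Q hQ
        by_contra hcon
        refine hA ⟨Q, hQ, fun n hn g hg hgQ => ?_⟩
        by_contra hgP
        exact hcon ⟨n, hn, g, hg, hgQ, hgP⟩
      have hc : (S.erase P).card ≤ k := by
        rw [Finset.card_erase_of_mem hPS]
        omega
      obtain ⟨n, hn, f, hf, hfS⟩ := ih (S.erase P) hc fun P' hP' => h P' (Finset.mem_of_mem_erase hP')
      by_cases hfP : f ∈ P
      · obtain ⟨e, he, g, hg, hgP, hgS⟩ := HPA_prod 𝒜 P hP h0 (S.erase P) hB
        have m1 : f ^ e ∈ 𝒜 (n * e) := by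
          have := SetLike.pow_mem_graded e hf
          rwa [smul_eq_mul, mul_comm] at this
        have m2 : g ^ n ∈ 𝒜 (n * e) := by
          have := SetLike.pow_mem_graded n hg
          rwa [smul_eq_mul] at this
        refine ⟨n * e, Nat.mul_pos hn he, f ^ e + g ^ n, Submodule.add_mem _ m1 m2, ?_⟩
        intro P' hP' hmem
        by_cases hPP : P' = P
        · subst hPP
          have h1 : f ^ e ∈ P' := Ideal.pow_mem_of_mem _ hfP e he
          have h2 : g ^ n ∈ P' := by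
            have := Ideal.sub_mem _ hmem h1
            rwa [add_sub_cancel_left] at this
          exact hgP (hP.mem_of_pow_mem n h2)
        · have hP'e : P' ∈ S.erase P := Finset.mem_erase.2 ⟨hPP, hP'⟩
          have h1 : g ^ n ∈ P' := Ideal.pow_mem_of_mem _ (hgS P' hP'e) n hn
          have h2 : f ^ e ∈ P' := by
            have := Ideal.sub_mem _ hmem h1
            rwa [add_sub_cancel_right] at this
          exact hfS P' hP'e ((h P' hP').1.mem_of_pow_mem e h2)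
      · refine ⟨n, hn, f, hf, fun P' hP' hfP' => ?_⟩
        by_cases hPP : P' = P
        · subst hPP
          exact hfP hfP'
        · exact hfS P' (Finset.mem_erase.2 ⟨hPP, hP'⟩) hfP'

end HPA

/-- [HPA] homogeneous prime avoidance. -/
theorem thm_HPA : St_HPA := by
  intro K A _ _ _ 𝒜 _ S hS h
  obtain ⟨n, hn, f, hf, hfS⟩ := HPA_aux 𝒜 hS.toFinset.card hS.toFinset le_rfl
    (fun P hP => h P (hS.mem_toFinset.1 hP))
  exact ⟨n, hn, f, hf, fun P hP => hfS P (hS.mem_toFinset.2 hP)⟩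

end Pool.Agent.ARD
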