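import Pool.Agent.ARD.StH

/-! Module HSQ of ARD: homogeneous regular sequences. -/

set_option autoImplicit false

namespace Pool.Agent.ARD

open ARS IsLocalRing

/-- the step: a homogeneous regular element -/
private theorem HSQ_step (hDEP : St_DEP) (hHPA : St_HPA) (K A : Type) [Field K] [CommRing A]
    [Algebra K A] [IsNoetherianRing A]
    (𝒜 : ℕ → Submodule K A) [GradedAlgebra 𝒜] (m : Ideal A) [m.IsPrime]
    (hm : ∀ a, a ∈ m ↔ GradedRing.proj 𝒜 0 a = 0) (B : Type) [CommRing B] [IsLocalRing B]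
    [IsNoetherianRing B] [Algebra A B] (hmap : m.map (algebraMap A B) = maximalIdeal B)
    (xs : List B) (hx : ∀ x ∈ xs, x ∈ maximalIdeal B) (hr : Rg B xs B)
    (ys : List B) (hy : ∀ x ∈ ys, x ∈ maximalIdeal B) (hlen : ys.length < xs.length)
    (hys : Rg B ys B) :
    ∃ n, 0 < n ∧ ∃ f ∈ 𝒜 n, Rg B (ys ++ [algebraMap A B f]) B := by
  let N := B ⧸ (Ideal.ofList ys • ⊤ : Submodule B B)
  let S : Set (Ideal A) := (fun P => P.comap (algebraMap A B)) '' (associatedPrimes B N)
  have hSf : S.Finite := (associatedPrimes.finite B N).image _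
  have hS : ∀ P ∈ S, P.IsPrime ∧ ∃ n, 0 < n ∧ ∃ f ∈ 𝒜 n, f ∉ P := by
    rintro P ⟨Q, hQ, rfl⟩
    have hQ1 : IsAssociatedPrime Q N := hQ
    have hQp : Q.IsPrime := hQ1.isPrime
    refine ⟨Ideal.IsPrime.comap _, ?_⟩
    by_contra hcon
    push Not at hcon
    -- `m ≤ comap Q`
    have h1 : m ≤ Q.comap (algebraMap A B) := by
      intro a ha
      classical
      rw [← DirectSum.sum_support_decompose 𝒜 a]
      refine Ideal.sum_mem _ fun i _ => ?_
      rcases Nat.eq_zero_or_pos i with rfl | hi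
      · have h0 : ((DirectSum.decompose 𝒜 a 0 : 𝒜 0) : A) = 0 := (hm a).1 ha
        rw [h0]
        exact Ideal.zero_mem _
      · exact hcon i hi _ (SetLike.coe_mem _)
    have h2 : maximalIdeal B ≤ Q := by
      rw [← hmap]
      exact Ideal.map_le_iff_le_comap.2 h1
    obtain ⟨-, v, hv⟩ := isAssociatedPrime_iff.1 hQ1
    obtain ⟨w, rfl⟩ := (Ideal.ofList ys • ⊤ : Submodule B B).mkQ_surjective v
    have h3 : w ∈ (Ideal.ofList ys • ⊤ : Submodule B B) := by
      refine hDEP B B xs ys hx hy hlen hr hys w ?_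
      intro t ht
      have h4 : t ∈ Q := h2 ht
      rw [hv, Submodule.mem_colon_singleton, Submodule.mem_bot, ← map_smul,
        Submodule.mkQ_apply, Submodule.Quotient.mk_eq_zero] at h4
      exact h4
    apply hQp.ne_top
    rw [hv, Ideal.eq_top_iff_one, Submodule.mem_colon_singleton, Submodule.mem_bot, one_smul,
      Submodule.mkQ_apply, Submodule.Quotient.mk_eq_zero]
    exact h3
  obtain ⟨n, hn, f, hf, hfS⟩ := hHPA K A 𝒜 S hSf hS
  refine ⟨n, hn, f, hf, ?_⟩
  refine (RingTheory.Sequence.isWeaklyRegular_append_iff _ _ _).2 ⟨hys, ?_⟩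
  rw [RingTheory.Sequence.isWeaklyRegular_singleton_iff]
  by_contra hreg
  have h5 : algebraMap A B f ∈ ⋃ p ∈ associatedPrimes B N, (p : Set B) := by
    rw [biUnion_associatedPrimes_eq_compl_regular]
    exact hreg
  simp only [Set.mem_iUnion, SetLike.mem_coe, exists_prop] at h5
  obtain ⟨Q, hQ, hfQ⟩ := h5
  exact hfS _ ⟨Q, hQ, rfl⟩ hfQ

/-- [HSQ] Homogeneous regular sequences. -/
theorem thm_HSQ (hDEP : St_DEP) (hHPA : St_HPA) : St_HSQ := by
  intro K A _ _ _ _ 𝒜 _ m _ hm xs hx hr
  have hNB : IsNoetherianRing (Localization.AtPrime m) :=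
    IsLocalization.isNoetherianRing m.primeCompl (Localization.AtPrime m) inferInstance
  have hhom : ∀ n, 0 < n → ∀ f ∈ 𝒜 n, f ∈ m := by
    intro n hn f hf
    rw [hm, GradedRing.proj_apply, DirectSum.decompose_of_mem_ne 𝒜 hf hn.ne']
  have key : ∀ i, i ≤ xs.length → ∃ L : List (A × ℕ), (∀ p ∈ L, 0 < p.2 ∧ p.1 ∈ 𝒜 p.2) ∧
      L.length = i ∧ Rg (Localization.AtPrime m)
        (L.map fun p => algebraMap A (Localization.AtPrime m) p.1) (Localization.AtPrime m) := by
    intro i
    induction i with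
    | zero =>
      intro _
      refine ⟨[], ?_, rfl, ?_⟩
      · intro p hp
        exact absurd hp List.not_mem_nil
      · exact RingTheory.Sequence.IsWeaklyRegular.nil _ _
    | succ i ih =>
      intro hi
      obtain ⟨L, hL, hlen, hreg⟩ := ih (by omega)
      obtain ⟨n, hn, f, hf, hf'⟩ := HSQ_step hDEP hHPA K A 𝒜 m hm
        (Localization.AtPrime m) Localization.AtPrime.map_eq_maximalIdeal xs hx hr
        (L.map fun p => algebraMap A (Localization.AtPrime m) p.1) (by
          intro x hx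
          obtain ⟨p, hp, rfl⟩ := List.mem_map.1 hx
          rw [← Localization.AtPrime.map_eq_maximalIdeal]
          exact Ideal.mem_map_of_mem _ (hhom p.2 (hL p hp).1 p.1 (hL p hp).2))
        (by rw [List.length_map, hlen]; omega) hreg
      refine ⟨L ++ [(f, n)], ?_, ?_, ?_⟩
      · intro p hp
        rcases List.mem_append.1 hp with hp | hp
        · exact hL p hp
        · rw [List.mem_singleton.1 hp]
          exact ⟨hn, hf⟩
      · rw [List.length_append, hlen]
        rfl
      · rw [List.map_append]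
        exact hf'
  exact key xs.length le_rfl

end Pool.Agent.ARD
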