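import Pool.Agent.ARD.StN

/-!
# ARD : module HSUd, weights of the reduction of `Hom(A, M)` in any dimension
-/

set_option autoImplicit false

namespace Pool.Agent.ARD

open ARS IsLocalRing

/-- a stable subspace has fewer weights -/
private lemma HSUd_inj {K V W : Type} [Field K] [AddCommGroup V] [Module K V] [AddCommGroup W]
    [Module K W] (hADD : ARS.St_ADD) (hNON : ARS.St_NON) [Module.Finite K W] (a : V →ₗ[K] V)
    (b : W →ₗ[K] W) (φ : V →ₗ[K] W) (hφ : Function.Injective φ) (hc : ∀ v, φ (a v) = b (φ v))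
    (ν : AlgebraicClosure K) (h : cf (ch a) ν ≠ 0) : cf (ch b) ν ≠ 0 := by
  have hst : LinearMap.range φ ≤ (LinearMap.range φ).comap b := by
    rintro _ ⟨v, rfl⟩
    exact ⟨a v, hc v⟩
  have h1 : ExK a b ((LinearMap.range φ).mapQ (LinearMap.range φ) b hst) := by
    refine ⟨φ, (LinearMap.range φ).mkQ, hφ, Submodule.mkQ_surjective _, fun v => ?_, hc,
      fun v => rfl⟩
    rw [← LinearMap.mem_ker, Submodule.ker_mkQ]
    exact Iff.rfl
  obtain ⟨h2, h3, h4⟩ := (hADD.2 K V W _ a b _ h1).1 inferInstance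
  have h5 := (hNON K V V a a).1 ν
  have h6 := (hNON K _ V ((LinearMap.range φ).mapQ (LinearMap.range φ) b hst) a).1 ν
  have h7 : cf (ch b) ν = cf (ch a) ν +
      cf (ch ((LinearMap.range φ).mapQ (LinearMap.range φ) b hst)) ν := by
    rw [h4]
    rfl
  omega

private theorem HSUd_map {R X Y : Type} [CommRing R] [AddCommGroup X] [Module R X]
    [AddCommGroup Y] [Module R Y] (I : Ideal R) (φ : X →ₗ[R] Y) :
    (I • ⊤ : Submodule R X) ≤ (I • ⊤ : Submodule R Y).comap φ := by
  intro x hx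
  refine Submodule.smul_induction_on hx ?_ ?_
  · intro r hr q _
    rw [Submodule.mem_comap, map_smul]
    exact Submodule.smul_mem_smul hr trivial
  · intro u v hu hv
    exact Submodule.add_mem _ hu hv

/-- [HSUd] Weights of `Hom(A, M) / I`. -/
theorem thm_HSUd (hRFNd : St_RFNd) (hHMR : St_HMR) (hHOM : ARS.St_HOM) (hADD : ARS.St_ADD)
    (hNON : ARS.St_NON) (hGRD : ARS.St_GRD) : St_HSUd := by
  intro K R _ _ _ _ _ _ D L h A M hA hM hreg hEA ν hν
  have hAf : Module.Finite K (rd A h.stab).X := (hRFNd K R D (idl L) h.stab h.fin A M).1 hA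
  have hMf : Module.Finite K (rd M h.stab).X := (hRFNd K R D (idl L) h.stab h.fin M M).1 hM
  have hkey := (hHMR R (el L) A.X M.X hreg hEA).2.2
  let PA : Submodule R A.X := idl L • ⊤
  let PM : Submodule R M.X := idl L • ⊤
  let PH : Submodule R (A.X →ₗ[R] M.X) := idl L • ⊤
  have hmap : ∀ φ : A.X →ₗ[R] M.X, PA ≤ PM.comap φ := fun φ => HSUd_map (idl L) φ
  let j0 : (A.X →ₗ[R] M.X) →ₗ[R] ((A.X ⧸ PA) →ₗ[R] (M.X ⧸ PM)) :=
    { toFun := fun φ => PA.mapQ PM φ (hmap φ)
      map_add' := fun φ ψ => by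
        apply Submodule.linearMap_qext
        rfl
      map_smul' := fun r φ => by
        apply Submodule.linearMap_qext
        rfl }
  have hj0 : PH ≤ LinearMap.ker j0 := by
    intro φ hφ
    refine Submodule.smul_induction_on (p := fun φ => φ ∈ LinearMap.ker j0) hφ ?_ ?_
    · intro r hr q _
      rw [LinearMap.mem_ker]
      apply Submodule.linearMap_qext
      apply LinearMap.ext
      intro a
      show PM.mkQ (r • q a) = 0
      rw [← LinearMap.mem_ker, Submodule.ker_mkQ]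
      exact Submodule.smul_mem_smul hr trivial
    · intro u v hu hv
      exact Submodule.add_mem _ hu hv
  let j1 := PH.liftQ j0 hj0
  have hsm : ∀ (c : K) (q : (A.X →ₗ[R] M.X) ⧸ PH), j1 (c • q) = c • j1 q := by
    intro c q
    have h2 := j1.map_smul (algebraMap K R c) q
    rw [algebraMap_smul, algebraMap_smul] at h2
    exact h2
  let j : ((A.X →ₗ[R] M.X) ⧸ PH) →ₗ[K] ((A.X ⧸ PA) →ₗ[K] (M.X ⧸ PM)) :=
    { toFun := fun q => (j1 q).restrictScalars K
      map_add' := fun p q => by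
        rw [map_add]
        rfl
      map_smul' := fun c q => by
        rw [hsm]
        rfl }
  have hinj : Function.Injective j := by
    rw [injective_iff_map_eq_zero]
    intro q hq
    obtain ⟨(φ : A.X →ₗ[R] M.X), rfl⟩ := Submodule.mkQ_surjective _ q
    rw [← LinearMap.mem_ker, Submodule.ker_mkQ]
    refine hkey φ fun a => ?_
    have h2 := LinearMap.congr_fun hq (PA.mkQ a)
    have h3 : PM.mkQ (φ a) = 0 := h2
    rw [← LinearMap.mem_ker, Submodule.ker_mkQ] at h3
    exact h3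
  have hcom : ∀ q, j ((rd (A.hom M) h.stab).N q) = hm (rd A h.stab).N (rd M h.stab).N (j q) := by
    intro (q : (A.X →ₗ[R] M.X) ⧸ PH)
    obtain ⟨(φ : A.X →ₗ[R] M.X), rfl⟩ := Submodule.mkQ_surjective _ q
    apply LinearMap.ext
    intro (a : A.X ⧸ PA)
    obtain ⟨a, rfl⟩ := Submodule.mkQ_surjective _ a
    rfl
  have h1 := HSUd_inj hADD hNON (rd (A.hom M) h.stab).N (hm (rd A h.stab).N (rd M h.stab).N) j
    hinj hcom ν hν
  rw [hHOM] at h1
  obtain ⟨b, c, hb, hc, hbc⟩ := (hGRD K).2.2.2.2.2.2.2.1 _ _ _ h1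
  rw [(hGRD K).2.2.1] at hb
  exact ⟨c, -b, hc, hb, by rw [hbc]; ring⟩

end Pool.Agent.ARD
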