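import Pool.Agent.ARD.StH

/-! `St_IRT`: an ideal with Artinian quotient is irreducible if and only if the socle of the
quotient is simple. -/

set_option autoImplicit false

namespace Pool.Agent.ARD

open ARS IsLocalRing

/-- a multiple of an element outside `I` is a socle element outside `I` -/
private theorem IRT_soc {R : Type} [CommRing R] [IsLocalRing R] [IsNoetherianRing R] (I : Ideal R)
    [IsArtinianRing (R ⧸ I)] (a : R) (ha : a ∉ I) :
    ∃ y : R, y * a ∉ I ∧ ∀ t ∈ maximalIdeal R, t * (y * a) ∈ I := by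
  classical
  obtain ⟨n, hn⟩ := exists_maximalIdeal_pow_le_of_isArtinianRing_quotient I
  have hex : ∃ k : ℕ, ∀ y ∈ maximalIdeal R ^ k, y * a ∈ I :=
    ⟨n, fun y hy => I.mul_mem_right a (hn hy)⟩
  obtain ⟨k, hk, hmin⟩ : ∃ k : ℕ, (∀ y ∈ maximalIdeal R ^ k, y * a ∈ I) ∧
      ∀ j < k, ¬ ∀ y ∈ maximalIdeal R ^ j, y * a ∈ I :=
    ⟨Nat.find hex, Nat.find_spec hex, fun j hj => Nat.find_min hex hj⟩
  have hk0 : k ≠ 0 := by
    rintro rfl
    refine ha ?_
    have h := hk 1 (by rw [pow_zero, Ideal.one_eq_top]; exact trivial)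
    rwa [one_mul] at h
  obtain ⟨j, rfl⟩ := Nat.exists_eq_succ_of_ne_zero hk0
  have h1 := hmin j (Nat.lt_succ_self j)
  push Not at h1
  obtain ⟨y, hy, hya⟩ := h1
  refine ⟨y, hya, fun t ht => ?_⟩
  rw [← mul_assoc]
  refine hk _ ?_
  rw [pow_succ']
  exact Ideal.mul_mem_mul ht hy

theorem thm_IRT : St_IRT := by
  intro R _ _ _ xs hart
  simp only [TY, smul_eq_mul, Ideal.mul_top]
  set I : Ideal R := Ideal.ofList xs with hI
  constructor
  · rintro ⟨hmax, hirr⟩
    have h1 : (1 : R) ∉ I := fun h => hmax (by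
      rw [(Ideal.eq_top_iff_one I).2 h]
      exact isMax_top)
    refine ⟨?_, ?_⟩
    · obtain ⟨y, hy, hy'⟩ := IRT_soc I 1 h1
      exact ⟨y * 1, hy, hy'⟩
    · intro u v hu hmu hmv
      by_cases hv : v ∈ I
      · exact ⟨0, by rwa [zero_mul, sub_zero]⟩
      have hne : (Ideal.span {u} ⊔ I) ⊓ (Ideal.span {v} ⊔ I) ≠ I := by
        intro h
        rcases hirr h with h' | h'
        · exact hu (h' ▸ Ideal.mem_sup_left (Ideal.mem_span_singleton_self u))
        · exact hv (h' ▸ Ideal.mem_sup_left (Ideal.mem_span_singleton_self v))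
      have hle : I ≤ (Ideal.span {u} ⊔ I) ⊓ (Ideal.span {v} ⊔ I) := le_inf le_sup_right le_sup_right
      obtain ⟨z, hz, hzI⟩ : ∃ z ∈ (Ideal.span {u} ⊔ I) ⊓ (Ideal.span {v} ⊔ I), z ∉ I := by
        by_contra hcon
        push Not at hcon
        exact hne (le_antisymm hcon hle)
      obtain ⟨r, i, hi, hri⟩ := Ideal.mem_span_singleton_sup.1 hz.1
      obtain ⟨s, j, hj, hsj⟩ := Ideal.mem_span_singleton_sup.1 hz.2
      have hs : IsUnit s := by
        by_contra hs
        refine hzI ?_
        rw [← hsj]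
        exact I.add_mem (hmv s ((mem_maximalIdeal s).2 hs)) hj
      obtain ⟨s', hs'⟩ := hs.exists_left_inv
      refine ⟨s' * r, ?_⟩
      have he : v - s' * r * u = s' * (i - j) := by
        have h2 : r * u + i = s * v + j := hri.trans hsj.symm
        have h3 : s' * (s * v - r * u) = s' * (i - j) := by
          rw [show s * v - r * u = i - j by linear_combination -h2]
        rw [← h3]
        linear_combination (-v) * hs'
      rw [he]
      exact I.mul_mem_left s' (I.sub_mem hi hj)
  · rintro ⟨⟨u, hu, -⟩, huniq⟩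
    refine ⟨?_, ?_⟩
    · intro hmax
      refine hu ?_
      have h : I = ⊤ := hmax.eq_top
      rw [h]
      exact trivial
    · intro b c hbc
      by_contra hcon
      push Not at hcon
      have hIb : I ≤ b := hbc ▸ inf_le_left
      have hIc : I ≤ c := hbc ▸ inf_le_right
      obtain ⟨x, hx, hxI⟩ : ∃ x ∈ b, x ∉ I := by
        by_contra h
        push Not at h
        exact hcon.1 (le_antisymm h hIb)
      obtain ⟨y, hy, hyI⟩ : ∃ x ∈ c, x ∉ I := by
        by_contra h
        push Not at h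
        exact hcon.2 (le_antisymm h hIc)
      obtain ⟨p, hp, hp'⟩ := IRT_soc I x hxI
      obtain ⟨q, hq, hq'⟩ := IRT_soc I y hyI
      obtain ⟨r, hr⟩ := huniq (p * x) (q * y) hp hp' hq'
      refine hq ?_
      rw [← hbc]
      refine ⟨?_, c.mul_mem_left q hy⟩
      have h := b.add_mem (hIb hr) (b.mul_mem_left r (b.mul_mem_left p hx))
      rwa [sub_add_cancel] at h

end Pool.Agent.ARD
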