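import Pool.Agent.ARD.StN

/-! [ISOd] Isomorphisms and reductions. -/

set_option autoImplicit false

namespace Pool.Agent.ARD

open ARS

/-- an isomorphism induces an isomorphism of the reductions -/
theorem thm_ISOd : St_ISOd := by
  intro K R _ _ _ D I hI A B h
  obtain ⟨e, he⟩ := h
  have hmap : (I • ⊤ : Submodule R A.X).map (e : A.X →ₗ[R] B.X) =
      (I • ⊤ : Submodule R B.X) := by
    rw [Submodule.map_smul'', Submodule.map_top, LinearEquiv.range]
  refine ⟨Submodule.Quotient.equiv _ _ e hmap, fun u => ?_⟩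
  obtain ⟨x, rfl⟩ := (I • ⊤ : Submodule R A.X).mkQ_surjective u
  show (I • ⊤ : Submodule R B.X).mkQ (e (A.N x)) =
    (I • ⊤ : Submodule R B.X).mkQ (B.N (e x))
  rw [he]

end Pool.Agent.ARD
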