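import Pool.Agent.ARD.StG
import Pool.Agent.ARD.Min

/-! helper11. Module LCF of ARD. -/

set_option autoImplicit false

namespace Pool.Agent.ARD

open ARS IsLocalRing TensorProduct

theorem thm_LCF : St_LCF := by
  intro R _ _ q _ M _ _ _ h
  obtain ⟨s, hs, n, u, j, huj⟩ := Min_loc (M := M) q h
  exact ⟨s, n, u, j, hs, huj⟩

end Pool.Agent.ARD
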