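import Mathlib

/-! helper11. The Euler derivation of a graded algebra, and derivations of localisations. -/

set_option autoImplicit false

namespace Pool.Agent.ARD

open TrivSqZeroExt

section loc

variable {K A : Type} [Field K] [CommRing A] [Algebra K A] (S : Submonoid A)
  (B : Type) [CommRing B] [Algebra A B] [Algebra K B] [IsScalarTower K A B] [IsLocalization S B]

/-- the homomorphism `a ↦ (a, D a)` -/
private def Eul_h (D : Derivation K A A) : A →ₐ[K] TrivSqZeroExt B B :=
  { toFun := fun a => inl (algebraMap A B a) + inr (algebraMap A B (D a))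
    map_one' := by
      rw [Derivation.map_one_eq_zero, map_one, map_zero, inr_zero, add_zero, inl_one]
    map_mul' := fun a b => by
      ext
      · simp
      · simp only [snd_add, snd_inl, snd_inr, snd_mul, fst_add, fst_inl, fst_inr, zero_add, add_zero,
          D.leibniz, smul_eq_mul, map_add, map_mul, op_smul_eq_smul]
    map_zero' := by simp
    map_add' := fun a b => by
      ext
      · simp only [fst_add, fst_inl, fst_inr, add_zero, map_add]
      · simp only [snd_add, snd_inl, snd_inr, zero_add, map_add]
    commutes' := fun r => by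
      rw [D.map_algebraMap, map_zero, inr_zero, add_zero, ← IsScalarTower.algebraMap_apply]
      rfl }

private theorem Eul_unit (D : Derivation K A A) (y : S) : IsUnit (Eul_h B D y) := by
  rw [isUnit_iff_isUnit_fst]
  show IsUnit ((inl (algebraMap A B y) + inr (algebraMap A B (D y)) : TrivSqZeroExt B B)).fst
  rw [fst_add, fst_inl, fst_inr, add_zero]
  exact IsLocalization.map_units B y

/-- the extension of a derivation to a localisation -/
noncomputable def locDer (D : Derivation K A A) : Derivation K B B := by
  let φ : B →ₐ[K] TrivSqZeroExt B B := IsLocalization.liftAlgHom (M := S) (f := Eul_h B D)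
    (Eul_unit S B D)
  have hφ : ∀ a, φ (algebraMap A B a) = Eul_h B D a := fun a => by
    show IsLocalization.lift _ _ = _
    exact IsLocalization.lift_eq _ _
  have hfst : ∀ b, (φ b).fst = b := by
    have h : ((fstHom B B B).restrictScalars K).comp φ = AlgHom.id K B := by
      apply IsLocalization.algHom_ext S
      refine AlgHom.ext fun a => ?_
      show (φ (algebraMap A B a)).fst = algebraMap A B a
      rw [hφ]
      show ((inl (algebraMap A B a) + inr (algebraMap A B (D a)) : TrivSqZeroExt B B)).fst = _
      rw [fst_add, fst_inl, fst_inr, add_zero]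
    intro b
    exact congrArg (fun z : B →ₐ[K] B => z b) h
  exact Derivation.mk' ((sndHom B B).restrictScalars K ∘ₗ φ.toLinearMap) (by
    intro a b
    show (φ (a * b)).snd = a • (φ b).snd + b • (φ a).snd
    rw [map_mul, snd_mul, hfst, hfst, op_smul_eq_smul])

theorem locDer_algebraMap (D : Derivation K A A) (a : A) :
    locDer S B D (algebraMap A B a) = algebraMap A B (D a) := by
  show (IsLocalization.liftAlgHom (M := S) (f := Eul_h B D) (Eul_unit S B D)
    (algebraMap A B a)).snd = _
  have h : IsLocalization.liftAlgHom (M := S) (f := Eul_h B D) (Eul_unit S B D)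
      (algebraMap A B a) = Eul_h B D a := by
    show IsLocalization.lift _ _ = _
    exact IsLocalization.lift_eq _ _
  rw [h]
  show ((inl (algebraMap A B a) + inr (algebraMap A B (D a)) : TrivSqZeroExt B B)).snd = _
  rw [snd_add, snd_inl, snd_inr, zero_add]

end loc

section euler

variable {K A : Type} [Field K] [CommRing A] [Algebra K A] (𝒜 : ℕ → Submodule K A)
  [GradedAlgebra 𝒜]

/-- the linear map `a ↦ ∑ n, n a_n` -/
private noncomputable def Eul_lin : A →ₗ[K] A :=
  (DirectSum.toModule K ℕ A fun n => (n : K) • (𝒜 n).subtype) ∘ₗ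
    (DirectSum.decomposeLinearEquiv 𝒜).toLinearMap

private theorem Eul_lin_of (n : ℕ) (a : A) (ha : a ∈ 𝒜 n) : Eul_lin 𝒜 a = (n : A) * a := by
  show DirectSum.toModule K ℕ A (fun n => (n : K) • (𝒜 n).subtype)
    (DirectSum.decompose 𝒜 a) = _
  rw [DirectSum.decompose_of_mem 𝒜 ha]
  have h : DirectSum.toModule K ℕ A (fun n => (n : K) • (𝒜 n).subtype)
      (DirectSum.lof K ℕ (fun n => 𝒜 n) n ⟨a, ha⟩) = ((n : K) • (𝒜 n).subtype) ⟨a, ha⟩ :=
    DirectSum.toModule_lof K n _
  refine h.trans ?_
  show (n : K) • a = (n : A) * a
  rw [Algebra.smul_def, map_natCast]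

/-- the Euler derivation: multiplication by `n` in degree `n` -/
noncomputable def eulerDer : Derivation K A A :=
  Derivation.mk' (Eul_lin 𝒜) (by
    intro a b
    induction a using DirectSum.Decomposition.inductionOn 𝒜 with
    | zero => simp
    | add x y hx hy =>
      rw [add_mul, map_add, map_add, hx, hy, add_smul, smul_add]
      abel
    | @homogeneous m x =>
      induction b using DirectSum.Decomposition.inductionOn 𝒜 with
      | zero => simp
      | add u v hu hv =>
        rw [mul_add, map_add, map_add, hu, hv, add_smul, smul_add]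
        abel
      | @homogeneous n y =>
        rw [Eul_lin_of 𝒜 m x x.2, Eul_lin_of 𝒜 n y y.2,
          Eul_lin_of 𝒜 (m + n) _ (SetLike.mul_mem_graded x.2 y.2), smul_eq_mul, smul_eq_mul]
        push_cast
        ring)

theorem eulerDer_of (n : ℕ) (a : A) (ha : a ∈ 𝒜 n) : eulerDer 𝒜 a = (n : A) * a :=
  Eul_lin_of 𝒜 n a ha

end euler

end Pool.Agent.ARD
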