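import Pool.Agent.ARD.StH
import Pool.Agent.ARD.Eul

/-! helper11. Modules LDR and EUL of ARD. -/

set_option autoImplicit false

namespace Pool.Agent.ARD

theorem thm_LDR : St_LDR := fun _ _ _ _ _ M D =>
  ⟨locDer M _ D, locDer_algebraMap M _ D⟩

theorem thm_EUL : St_EUL := fun _ _ _ _ _ A_ _ => ⟨eulerDer A_, eulerDer_of A_⟩

end Pool.Agent.ARD
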