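import Pool.Agent.ARD.StS

/-! ARD LGO: Gorenstein local rings lift modulo a nonzerodivisor (MP_7dc157_al). -/

set_option autoImplicit false

namespace Pool.Agent.ARD

open ARS IsLocalRing

private theorem LGO_inj {R : Type} [CommRing R] {x : R} {J J' : Ideal (R ⧸ Ideal.span {x})}
    (h : J.comap (Ideal.Quotient.mk (Ideal.span {x})) =
      J'.comap (Ideal.Quotient.mk (Ideal.span {x}))) : J = J' :=
  Ideal.comap_injective_of_surjective _ Ideal.Quotient.mk_surjective h

private theorem LGO_ge {R : Type} [CommRing R] {x : R} {I : Ideal R}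
    (h : Ideal.span {x} ≤ I) :
    (I.map (Ideal.Quotient.mk (Ideal.span {x}))).comap (Ideal.Quotient.mk (Ideal.span {x})) = I := by
  rw [Ideal.comap_map_of_surjective _ Ideal.Quotient.mk_surjective]
  have : (⊥ : Ideal (R ⧸ Ideal.span {x})).comap (Ideal.Quotient.mk (Ideal.span {x})) =
      Ideal.span {x} := Ideal.mk_ker
  rw [this]
  exact sup_eq_left.2 h

private theorem LGO_irr {R : Type} [CommRing R] {x : R} {J : Ideal (R ⧸ Ideal.span {x})}
    (h : InfIrred J) : InfIrred (J.comap (Ideal.Quotient.mk (Ideal.span {x}))) := by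
  have hx : Ideal.span {x} ≤ J.comap (Ideal.Quotient.mk (Ideal.span {x})) := by
    rw [Ideal.span_singleton_le_iff_mem, Ideal.mem_comap,
      Ideal.Quotient.eq_zero_iff_mem.2 (Ideal.mem_span_singleton_self x)]
    exact J.zero_mem
  refine ⟨fun hm => h.1 ?_, fun a b hab => ?_⟩
  · have h1 : J.comap (Ideal.Quotient.mk (Ideal.span {x})) = ⊤ := isMax_iff_eq_top.1 hm
    have h2 : J = ⊤ := LGO_inj (by rw [h1, Ideal.comap_top])
    rw [h2]
    exact isMax_top
  · have ha : Ideal.span {x} ≤ a := hx.trans (hab ▸ inf_le_left)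
    have hb : Ideal.span {x} ≤ b := hx.trans (hab ▸ inf_le_right)
    have h3 : a.map (Ideal.Quotient.mk (Ideal.span {x})) ⊓
        b.map (Ideal.Quotient.mk (Ideal.span {x})) = J := by
      apply LGO_inj
      rw [Ideal.comap_inf, LGO_ge ha, LGO_ge hb, hab]
    rcases h.2 h3 with h4 | h4
    · left
      rw [← LGO_ge ha, h4]
    · right
      rw [← LGO_ge hb, h4]

open scoped Pointwise in
/-- [LGO] -/
theorem thm_LGO : St_LGO := by
  intro R _ _ _ x _ ys hx hreg hg
  obtain ⟨xs, rfl⟩ :=
    (List.map_surjective_iff.2 (Ideal.Quotient.mk_surjective (I := Ideal.span {x}))) ys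
  have hI : Ideal.ofList (x :: xs) = (Ideal.ofList
      (xs.map (Ideal.Quotient.mk (Ideal.span {x})))).comap (Ideal.Quotient.mk (Ideal.span {x})) := by
    rw [← Ideal.map_ofList, Ideal.ofList_cons,
      Ideal.comap_map_of_surjective _ Ideal.Quotient.mk_surjective, sup_comm]
    congr 1
    exact Ideal.mk_ker.symm
  refine ⟨xs, ?_, ?_, ?_, ?_⟩
  · intro z hz
    rcases List.mem_cons.1 hz with rfl | hz
    · exact hx
    · have h1 := hg.mem _ (List.mem_map_of_mem hz)
      rw [mem_maximalIdeal] at h1 ⊢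
      intro hu
      exact h1 (hu.map (Ideal.Quotient.mk (Ideal.span {x})))
  · show RingTheory.Sequence.IsWeaklyRegular R (x :: xs)
    rw [RingTheory.Sequence.isWeaklyRegular_cons_iff]
    refine ⟨fun a b hab => ?_, ?_⟩
    · have h1 : x * a = x * b := hab
      have h2 : x * (a - b) = 0 := by rw [mul_sub, h1, sub_self]
      exact sub_eq_zero.1 (hreg _ h2)
    · have h1 : RingTheory.Sequence.IsWeaklyRegular (R ⧸ Ideal.span {x})
          (xs.map (algebraMap R (R ⧸ Ideal.span {x}))) := hg.reg
      rw [RingTheory.Sequence.isWeaklyRegular_map_algebraMap_iff] at h1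
      have h2 : (x • (⊤ : Submodule R R)) = Ideal.span {x} := by
        rw [← Submodule.ideal_span_singleton_smul, smul_eq_mul, Ideal.mul_top]
      exact (LinearEquiv.isWeaklyRegular_congr (Submodule.quotEquivOfEq _ _ h2) xs).2 h1
  · rw [hI]
    exact LGO_irr hg.irr
  · have := hg.art
    have h1 : Ideal.span {x} ≤ Ideal.ofList (x :: xs) := by
      rw [Ideal.ofList_cons]
      exact le_sup_left
    have h2 : ∀ a ∈ Ideal.ofList (xs.map (Ideal.Quotient.mk (Ideal.span {x}))),
        Ideal.Quotient.factor h1 a = 0 := by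
      intro a ha
      obtain ⟨b, rfl⟩ := Ideal.Quotient.mk_surjective a
      rw [Ideal.Quotient.factor_mk, Ideal.Quotient.eq_zero_iff_mem, hI]
      exact ha
    have h3 : Function.Surjective (Ideal.Quotient.lift _ (Ideal.Quotient.factor h1) h2) :=
      Ideal.Quotient.lift_surjective_of_surjective _ h2 (Ideal.Quotient.factor_surjective h1)
    exact h3.isArtinianRing

end Pool.Agent.ARD
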