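import Pool.Agent.ARD.StI
import Pool.Agent.ARD.HMR
import Pool.Agent.ARS.END

/-! helper68. Module LIF of ARD: (ARC) lifts from `R / (x)` to `R`. -/

set_option autoImplicit false

namespace Pool.Agent.ARD

open ARS IsLocalRing TensorProduct
open scoped Pointwise

theorem thm_LIF (hQXR : St_QXR) (hSYZ : St_SYZ) (hFRE : St_FRE) : St_LIF := by
  intro R _ _ _ x hx hreg hA M _ _ _ hMM hMR
  obtain ⟨n, p, hp⟩ := Module.Finite.exists_fin' R M
  obtain ⟨h1, h2⟩ := hSYZ R M hMM hMR n p hp
  have hfin : Module.Finite R (LinearMap.ker p) := Module.IsNoetherian.finite R (LinearMap.ker p)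
  have hZ0 : ∀ v : LinearMap.ker p, x • v = 0 → v = 0 := by
    intro v hv
    apply Subtype.ext
    funext i
    exact hreg _ (congrFun (congrArg Subtype.val hv) i)
  have hZ : IsSMulRegular (LinearMap.ker p) x := by
    intro u v huv
    have h3 : x • (u - v) = 0 := by
      rw [smul_sub, sub_eq_zero]
      exact huv
    exact sub_eq_zero.1 (hZ0 _ h3)
  have hR : IsSMulRegular R x := by
    intro u v huv
    have h3 : x * (u - v) = 0 := by
      rw [mul_sub, sub_eq_zero]
      exact huv
    exact sub_eq_zero.1 (hreg _ h3)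
  have e1 : EA R (LinearMap.ker p) ((R ⧸ Ideal.span {x}) ⊗[R] LinearMap.ker p) := fun k =>
    extAll_iso (QuotSMulTop.equivQuotTensor x (LinearMap.ker p)) k _ _ (LinearEquiv.refl R _)
      (HMR_EA hZ k _ h1)
  have hs : (x • ⊤ : Submodule R R) = Ideal.span {x} := by
    ext v
    rw [Submodule.mem_smul_pointwise_iff_exists, Ideal.mem_span_singleton']
    constructor
    · rintro ⟨w, _, rfl⟩
      exact ⟨w, mul_comm w x⟩
    · rintro ⟨w, rfl⟩
      exact ⟨w, trivial, mul_comm x w⟩
  have e2 : EA R (LinearMap.ker p) (R ⧸ Ideal.span {x}) := fun k =>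
    extAll_iso (Submodule.quotEquivOfEq _ _ hs) k _ _ (LinearEquiv.refl R _)
      (HMR_EA hR k _ h2)
  have hfree : Module.Free (R ⧸ Ideal.span {x})
      ((R ⧸ Ideal.span {x}) ⊗[R] LinearMap.ker p) :=
    hA _ (hQXR R x _ _ hreg hZ0 e1) (hQXR R x _ _ hreg hZ0 e2)
  have hfree' : Module.Free (R ⧸ Ideal.span {x}) (QuotSMulTop x (LinearMap.ker p)) :=
    Module.Free.of_equiv ((QuotSMulTop.equivQuotTensor x (LinearMap.ker p)).extendScalarsOfSurjective
      Ideal.Quotient.mk_surjective).symm
  have hpres : Module.FinitePresentation R (LinearMap.ker p) :=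
    Module.finitePresentation_of_finite R _
  have hjac : x ∈ (⊥ : Ideal R).jacobson := by
    rw [IsLocalRing.jacobson_eq_maximalIdeal ⊥ bot_ne_top]
    exact hx
  have hZf : Module.Free R (LinearMap.ker p) :=
    (Module.free_quotSMulTop_iff_free R (LinearMap.ker p) hjac hZ).1 hfree'
  exact hFRE R M (hMR 1).1 n p hp hZf

end Pool.Agent.ARD
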