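import Pool.Agent.ARD.StI
import Pool.Agent.ARD.HMR

/-! helper11. Change of rings `R → R / x`: vanishing of Ext over `R / x` gives vanishing over `R`
for modules on which `x` is regular. -/

set_option autoImplicit false

namespace Pool.Agent.ARD

open ARS IsLocalRing

section chg

variable {R : Type} [CommRing R] {x : R}

/-- `Xb` is the reduction of `X` modulo `x`, and `x` is regular on `X` -/
structure Rdx (x : R) (X Xb : Type) [AddCommGroup X] [Module R X] [AddCommGroup Xb]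
    [Module (R ⧸ Ideal.span {x}) Xb] (ρ : X →ₛₗ[Ideal.Quotient.mk (Ideal.span {x})] Xb) :
    Prop where
  reg : ∀ v : X, x • v = 0 → v = 0
  sur : Function.Surjective ρ
  ker : ∀ v : X, ρ v = 0 → ∃ w, v = x • w

variable {X Xb N Nb : Type} [AddCommGroup X] [Module R X] [AddCommGroup Xb]
  [Module (R ⧸ Ideal.span {x}) Xb] [AddCommGroup N] [Module R N] [AddCommGroup Nb]
  [Module (R ⧸ Ideal.span {x}) Nb]

theorem mk_x : Ideal.Quotient.mk (Ideal.span {x}) x = 0 := by
  rw [Ideal.Quotient.eq_zero_iff_mem]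
  exact Ideal.mem_span_singleton_self x

theorem Rdx_smul (ρ : X →ₛₗ[Ideal.Quotient.mk (Ideal.span {x})] Xb) (v : X) :
    ρ (x • v) = 0 := by
  rw [LinearMap.map_smulₛₗ, mk_x, zero_smul]

/-- a map given on a basis -/
theorem lc_red (σ : N →ₛₗ[Ideal.Quotient.mk (Ideal.span {x})] Nb) {n : ℕ} (f : Fin n → N)
    (u : Fin n → R) : Fintype.linearCombination (R ⧸ Ideal.span {x}) (fun i => σ (f i))
      (fun i => Ideal.Quotient.mk (Ideal.span {x}) (u i)) =
    σ (Fintype.linearCombination R f u) := by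
  rw [Fintype.linearCombination_apply, Fintype.linearCombination_apply, map_sum]
  refine Finset.sum_congr rfl fun i _ => ?_
  rw [LinearMap.map_smulₛₗ]

theorem lc_self {n : ℕ} (π : (Fin n → R) →ₗ[R] X) (u : Fin n → R) :
    Fintype.linearCombination R (fun i => π (Pi.single i 1)) u = π u := by
  rw [Fintype.linearCombination_apply]
  conv_rhs => rw [pi_eq_sum_univ' u]
  rw [map_sum]
  refine Finset.sum_congr rfl fun i _ => ?_
  rw [← map_smul]

/-- the reduction of a cover -/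
noncomputable def rcov (ρ : X →ₛₗ[Ideal.Quotient.mk (Ideal.span {x})] Xb) {n : ℕ}
    (π : (Fin n → R) →ₗ[R] X) : (Fin n → (R ⧸ Ideal.span {x})) →ₗ[R ⧸ Ideal.span {x}] Xb :=
  Fintype.linearCombination (R ⧸ Ideal.span {x}) (fun i => ρ (π (Pi.single i 1)))

theorem rcov_apply (ρ : X →ₛₗ[Ideal.Quotient.mk (Ideal.span {x})] Xb) {n : ℕ}
    (π : (Fin n → R) →ₗ[R] X) (u : Fin n → R) :
    rcov ρ π (fun i => Ideal.Quotient.mk (Ideal.span {x}) (u i)) = ρ (π u) := by
  rw [rcov, lc_red, lc_self]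

/-- the reduction of the kernel -/
noncomputable def kred (ρ : X →ₛₗ[Ideal.Quotient.mk (Ideal.span {x})] Xb) {n : ℕ}
    (π : (Fin n → R) →ₗ[R] X) :
    LinearMap.ker π →ₛₗ[Ideal.Quotient.mk (Ideal.span {x})] LinearMap.ker (rcov ρ π) where
  toFun z := ⟨fun i => Ideal.Quotient.mk (Ideal.span {x}) (z.1 i), by
    rw [LinearMap.mem_ker, rcov_apply, show π z.1 = 0 from z.2, map_zero]⟩
  map_add' u v := by
    apply Subtype.ext
    funext i
    exact map_add _ _ _
  map_smul' r v := by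
    apply Subtype.ext
    funext i
    exact map_mul _ _ _

theorem vec_lift {n : ℕ} (v : Fin n → (R ⧸ Ideal.span {x})) :
    ∃ u : Fin n → R, (fun i => Ideal.Quotient.mk (Ideal.span {x}) (u i)) = v := by
  choose u hu using fun i => Ideal.Quotient.mk_surjective (v i)
  exact ⟨u, funext hu⟩

theorem vec_zero {n : ℕ} (u : Fin n → R)
    (h : (fun i => Ideal.Quotient.mk (Ideal.span {x}) (u i)) = 0) : ∃ w, u = x • w := by
  have h1 : ∀ i, ∃ c, u i = x * c := by
    intro i
    have h2 := Ideal.Quotient.eq_zero_iff_mem.1 (congrFun h i)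
    obtain ⟨c, hc⟩ := Ideal.mem_span_singleton'.1 h2
    exact ⟨c, by rw [← hc, mul_comm]⟩
  choose w hw using h1
  exact ⟨w, funext hw⟩

theorem rcov_surj {ρ : X →ₛₗ[Ideal.Quotient.mk (Ideal.span {x})] Xb} (h : Rdx x X Xb ρ) {n : ℕ}
    (π : (Fin n → R) →ₗ[R] X) (hπ : Function.Surjective π) :
    Function.Surjective (rcov ρ π) := by
  intro b
  obtain ⟨v, rfl⟩ := h.sur b
  obtain ⟨u, rfl⟩ := hπ v
  exact ⟨_, rcov_apply ρ π u⟩

theorem Rdx_ker (hx : ∀ c : R, x * c = 0 → c = 0)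
    {ρ : X →ₛₗ[Ideal.Quotient.mk (Ideal.span {x})] Xb} (h : Rdx x X Xb ρ) {n : ℕ}
    (π : (Fin n → R) →ₗ[R] X) (hπ : Function.Surjective π) :
    Rdx x (LinearMap.ker π) (LinearMap.ker (rcov ρ π)) (kred ρ π) where
  reg v hv := by
    apply Subtype.ext
    funext i
    exact hx _ (congrFun (congrArg Subtype.val hv) i)
  sur b := by
    obtain ⟨u, hu⟩ := vec_lift b.1
    have h1 : ρ (π u) = 0 := by
      rw [← rcov_apply ρ π u, hu]
      exact b.2
    obtain ⟨w, hw⟩ := h.ker _ h1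
    obtain ⟨w', rfl⟩ := hπ w
    refine ⟨⟨u - x • w', ?_⟩, ?_⟩
    · rw [LinearMap.mem_ker, map_sub, map_smul, hw, sub_self]
    · apply Subtype.ext
      funext i
      show Ideal.Quotient.mk (Ideal.span {x}) (u i - x * w' i) = b.1 i
      rw [map_sub, map_mul, mk_x, zero_mul, sub_zero]
      exact congrFun hu i
  ker v hv := by
    obtain ⟨w, hw⟩ := vec_zero (x := x) v.1 (congrArg Subtype.val hv)
    refine ⟨⟨w, ?_⟩, Subtype.ext hw⟩
    have h1 : x • π w = 0 := by
      rw [← map_smul, ← hw]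
      exact v.2
    exact h.reg _ h1

/-- factorisation through the reduction -/
theorem semifac {ρ : X →ₛₗ[Ideal.Quotient.mk (Ideal.span {x})] Xb} (h : Rdx x X Xb ρ)
    (τ : X →ₛₗ[Ideal.Quotient.mk (Ideal.span {x})] Nb) :
    ∃ τ' : Xb →ₗ[R ⧸ Ideal.span {x}] Nb, ∀ v, τ' (ρ v) = τ v := by
  have h0 : ∀ u v, ρ u = ρ v → τ u = τ v := by
    intro u v huv
    obtain ⟨w, hw⟩ := h.ker (u - v) (by rw [map_sub, huv, sub_self])
    have h1 : τ (u - v) = 0 := by rw [hw, Rdx_smul]
    rw [map_sub] at h1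
    exact sub_eq_zero.1 h1
  choose s hs using h.sur
  refine ⟨{ toFun := fun b => τ (s b), map_add' := ?_, map_smul' := ?_ }, fun v => ?_⟩
  · intro a b
    rw [← map_add]
    apply h0
    rw [map_add, hs, hs, hs]
  · intro l b
    obtain ⟨r, rfl⟩ := Ideal.Quotient.mk_surjective l
    show τ (s (Ideal.Quotient.mk (Ideal.span {x}) r • b)) =
      Ideal.Quotient.mk (Ideal.span {x}) r • τ (s b)
    rw [← LinearMap.map_smulₛₗ]
    apply h0
    rw [LinearMap.map_smulₛₗ, hs, hs]
  · exact h0 _ _ (hs _)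

theorem lft_nak [IsLocalRing R] [IsNoetherianRing R]
    (F W : Type) [AddCommGroup F] [Module R F] [Module.Finite R F]
    [AddCommGroup W] [Module R W] [Module.Finite R W] (Z : Submodule R F)
    (hy : x ∈ maximalIdeal R)
    (hex : ∀ g : Z →ₗ[R] W, ∃ (h0 : F →ₗ[R] W) (g' : Z →ₗ[R] W),
      ∀ z : Z, g z = h0 z + x • g' z)
    (g : Z →ₗ[R] W) : ∃ h : F →ₗ[R] W, ∀ z : Z, h z = g z := by
  let res : (F →ₗ[R] W) →ₗ[R] (Z →ₗ[R] W) :=
    { toFun := fun h => h.comp Z.subtype
      map_add' := fun _ _ => rfl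
      map_smul' := fun _ _ => rfl }
  have hfin : Module.Finite R (Z →ₗ[R] W) := by
    obtain ⟨n, p, hp⟩ := Module.Finite.exists_fin' R Z
    let Φ : (Z →ₗ[R] W) →ₗ[R] ((Fin n → R) →ₗ[R] W) :=
      { toFun := fun f => f.comp p
        map_add' := fun f g => LinearMap.add_comp _ _ _
        map_smul' := fun r f => LinearMap.smul_comp _ _ _ }
    have hΦ : Function.Injective Φ := by
      intro f g hfg
      apply LinearMap.ext
      intro x
      obtain ⟨v, rfl⟩ := hp x
      exact LinearMap.congr_fun hfg v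
    exact Module.Finite.of_injective Φ hΦ
  have hle : (⊤ : Submodule R (Z →ₗ[R] W)) ≤ LinearMap.range res := by
    refine Submodule.le_of_le_smul_of_le_jacobson_bot (I := Ideal.span {x}) hfin.fg_top ?_ ?_
    · rw [IsLocalRing.jacobson_eq_maximalIdeal _ bot_ne_top, Ideal.span_singleton_le_iff_mem]
      exact hy
    · intro g _
      obtain ⟨h0, g', hg⟩ := hex g
      have h8 : g = res h0 + x • g' := by
        ext z
        exact hg z
      rw [h8]
      refine Submodule.add_mem_sup ⟨h0, rfl⟩ ?_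
      exact Submodule.smul_mem_smul (Ideal.mem_span_singleton_self x) trivial
  obtain ⟨h, hh⟩ := hle (show g ∈ (⊤ : Submodule R (Z →ₗ[R] W)) from trivial)
  exact ⟨h, fun z => by rw [← hh]; rfl⟩

theorem chg_ext [IsLocalRing R] [IsNoetherianRing R] (hxm : x ∈ maximalIdeal R)
    (hx : ∀ c : R, x * c = 0 → c = 0)
    {ρ : X →ₛₗ[Ideal.Quotient.mk (Ideal.span {x})] Xb} (h : Rdx x X Xb ρ)
    {σ : N →ₛₗ[Ideal.Quotient.mk (Ideal.span {x})] Nb} (h' : Rdx x N Nb σ)
    [Module.Finite R N] (hE : ExtProp (R ⧸ Ideal.span {x}) Xb Nb) : ExtProp R X N := by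
  intro n π hπ ψ
  refine lft_nak (Fin n → R) N (LinearMap.ker π) hxm ?_ ψ
  intro g
  obtain ⟨gb, hgb⟩ := semifac (Rdx_ker hx h π hπ) (σ.comp g)
  obtain ⟨hb, hhb⟩ := hE n (rcov ρ π) (rcov_surj h π hπ) gb
  choose f hf using fun i : Fin n => h'.sur (hb (Pi.single i 1))
  have h1 : ∀ u : Fin n → R, σ (Fintype.linearCombination R f u) =
      hb (fun i => Ideal.Quotient.mk (Ideal.span {x}) (u i)) := by
    intro u
    rw [← lc_red, ← lc_self hb]
    simp only [hf]
  obtain ⟨g', hg'⟩ := HMR_div (R := R) (y := x)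
    (show IsSMulRegular N x from (isSMulRegular_iff_right_eq_zero_of_smul).2 h'.reg)
    (g - (Fintype.linearCombination R f).comp (LinearMap.ker π).subtype) (by
      intro z
      have h2 : σ (g z - Fintype.linearCombination R f z.1) = 0 := by
        rw [map_sub, h1]
        have h3 := hgb z
        have h4 := hhb (kred ρ π z)
        have h5 : hb (fun i => Ideal.Quotient.mk (Ideal.span {x}) (z.1 i)) = σ (g z) := by
          rw [← LinearMap.comp_apply, ← h3, ← h4]
          rfl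
        rw [h5, sub_self]
      obtain ⟨w, hw⟩ := h'.ker _ h2
      exact ⟨w, hw.symm⟩)
  refine ⟨Fintype.linearCombination R f, g', fun z => ?_⟩
  rw [hg']
  show g z = Fintype.linearCombination R f z.1 + (g z - Fintype.linearCombination R f z.1)
  abel

theorem chg_all [IsLocalRing R] [IsNoetherianRing R] (hxm : x ∈ maximalIdeal R)
    (hx : ∀ c : R, x * c = 0 → c = 0)
    {σ : N →ₛₗ[Ideal.Quotient.mk (Ideal.span {x})] Nb} (h' : Rdx x N Nb σ)
    [Module.Finite R N] (k : ℕ) : ∀ (X Xb : Type) [AddCommGroup X] [Module R X]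
      [AddCommGroup Xb] [Module (R ⧸ Ideal.span {x}) Xb]
      (ρ : X →ₛₗ[Ideal.Quotient.mk (Ideal.span {x})] Xb), Rdx x X Xb ρ →
      ExtAll (R ⧸ Ideal.span {x}) Nb k Xb → ExtAll R N k X := by
  induction k with
  | zero =>
    intro X Xb _ _ _ _ ρ _ _
    trivial
  | succ k ih =>
    intro X Xb _ _ _ _ ρ h hE
    refine ⟨chg_ext hxm hx h h' hE.1, fun n π hπ => ?_⟩
    exact ih _ _ (kred ρ π) (Rdx_ker hx h π hπ) (hE.2 n (rcov ρ π) (rcov_surj h π hπ))

theorem chg_EA [IsLocalRing R] [IsNoetherianRing R] (hxm : x ∈ maximalIdeal R)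
    (hx : ∀ c : R, x * c = 0 → c = 0)
    {ρ : X →ₛₗ[Ideal.Quotient.mk (Ideal.span {x})] Xb} (h : Rdx x X Xb ρ)
    {σ : N →ₛₗ[Ideal.Quotient.mk (Ideal.span {x})] Nb} (h' : Rdx x N Nb σ)
    [Module.Finite R N] (hE : EA (R ⧸ Ideal.span {x}) Xb Nb) : EA R X N :=
  fun k => chg_all hxm hx h' k X Xb ρ h (hE k)

/-- the ring itself -/
theorem Rdx_self (hx : ∀ c : R, x * c = 0 → c = 0) :
    Rdx x R (R ⧸ Ideal.span {x}) (Ideal.Quotient.mk (Ideal.span {x})).toSemilinearMap where
  reg v hv := hx v hv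
  sur := Ideal.Quotient.mk_surjective
  ker v hv := by
    obtain ⟨c, hc⟩ := Ideal.mem_span_singleton'.1 (Ideal.Quotient.eq_zero_iff_mem.1 hv)
    exact ⟨c, by rw [← hc, smul_eq_mul, mul_comm]⟩

/-- the reduction of a free module is free -/
theorem Rdx_free [Nontrivial R] (hx : ∀ c : R, x * c = 0 → c = 0)
    {ρ : X →ₛₗ[Ideal.Quotient.mk (Ideal.span {x})] Xb} (h : Rdx x X Xb ρ)
    [Module.Finite R X] [Module.Free R X] : Module.Free (R ⧸ Ideal.span {x}) Xb := by
  let b := Module.finBasis R X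
  let π : (Fin (Module.finrank R X) → R) →ₗ[R] X := b.equivFun.symm.toLinearMap
  have hπ : Function.Surjective π := b.equivFun.symm.surjective
  have hinj : Function.Injective (rcov ρ π) := by
    rw [injective_iff_map_eq_zero]
    intro v hv
    obtain ⟨z, hz⟩ := (Rdx_ker hx h π hπ).sur ⟨v, hv⟩
    have h1 : z = 0 := by
      apply Subtype.ext
      exact b.equivFun.symm.injective ((show π z.1 = 0 from z.2).trans (map_zero _).symm)
    have h2 : (⟨v, hv⟩ : LinearMap.ker (rcov ρ π)) = 0 := by rw [← hz, h1, map_zero]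
    exact congrArg Subtype.val h2
  exact Module.Free.of_equiv (LinearEquiv.ofBijective (rcov ρ π) ⟨hinj, rcov_surj h π hπ⟩)

end chg

end Pool.Agent.ARD
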