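import Pool.Agent.ARD.LftA
import Pool.Agent.ARD.LftB

/-! helper11. [LFT] Descent of (ARC) from `R` to `R / x` for `R` complete for the `x`-adic topology
(the converse of `St_LIF`), by lifting of resolutions. -/

set_option autoImplicit false

namespace Pool.Agent.ARD

open ARS IsLocalRing Matrix

section

variable {R : Type} [CommRing R] {x : R}

/-- reduction of vectors, semilinear -/
def rvL (x : R) (n : ℕ) :
    (Fin n → R) →ₛₗ[Ideal.Quotient.mk (Ideal.span {x})] (Fin n → (R ⧸ Ideal.span {x})) where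
  toFun := rv x
  map_add' u v := by
    funext i
    exact map_add _ _ _
  map_smul' r v := by
    funext i
    exact map_mul _ _ _

/-- the lifted module -/
theorem lft_mod [IsNoetherianRing R] (hx : ∀ c : R, x * c = 0 → c = 0)
    [IsAdicComplete (Ideal.span {x}) R] (M : Type) [AddCommGroup M]
    [Module (R ⧸ Ideal.span {x}) M] [Module.Finite (R ⧸ Ideal.span {x}) M]
    (hMM : EA (R ⧸ Ideal.span {x}) M M) :
    ∃ (X : Type) (_ : AddCommGroup X) (_ : Module R X) (_ : Module.Finite R X)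
      (ρ : X →ₛₗ[Ideal.Quotient.mk (Ideal.span {x})] M), Rdx x X M ρ := by
  obtain ⟨n0, p, hp⟩ := Module.Finite.exists_fin' (R ⧸ Ideal.span {x}) M
  obtain ⟨n1, q, hq⟩ := Module.Finite.exists_fin' (R ⧸ Ideal.span {x}) (LinearMap.ker p)
  obtain ⟨n2, w, hw⟩ := Module.Finite.exists_fin' (R ⧸ Ideal.span {x}) (LinearMap.ker q)
  obtain ⟨f1, hf1⟩ : ∃ f1 : (Fin n1 → (R ⧸ Ideal.span {x})) →ₗ[R ⧸ Ideal.span {x}]
      (Fin n0 → (R ⧸ Ideal.span {x})), ∀ v, f1 v = (q v).1 :=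
    ⟨(LinearMap.ker p).subtype.comp q, fun _ => rfl⟩
  obtain ⟨f2, hf2⟩ : ∃ f2 : (Fin n2 → (R ⧸ Ideal.span {x})) →ₗ[R ⧸ Ideal.span {x}]
      (Fin n1 → (R ⧸ Ideal.span {x})), ∀ v, f2 v = (w v).1 :=
    ⟨(LinearMap.ker q).subtype.comp w, fun _ => rfl⟩
  obtain ⟨Ab, hAb⟩ : ∃ Ab : Matrix (Fin n0) (Fin n1) (R ⧸ Ideal.span {x}),
      ∀ v, Ab *ᵥ v = (q v).1 := ⟨LinearMap.toMatrix' f1, fun v => by
        rw [LinearMap.toMatrix'_mulVec, hf1]⟩
  obtain ⟨Bb, hBb⟩ : ∃ Bb : Matrix (Fin n1) (Fin n2) (R ⧸ Ideal.span {x}),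
      ∀ v, Bb *ᵥ v = (w v).1 := ⟨LinearMap.toMatrix' f2, fun v => by
        rw [LinearMap.toMatrix'_mulVec, hf2]⟩
  have hq0 : ∀ v, Ab *ᵥ v = 0 ↔ q v = 0 := fun v => by
    rw [hAb]
    exact Submodule.coe_eq_zero
  have hw0 : ∀ v, Bb *ᵥ v = 0 ↔ w v = 0 := fun v => by
    rw [hBb]
    exact Submodule.coe_eq_zero
  have hAB : Ab * Bb = 0 := by
    rw [Matrix.ext_iff_mulVec]
    intro v
    rw [← Matrix.mulVec_mulVec, Matrix.zero_mulVec, hq0, hBb]
    exact (w v).2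
  have hE : ∀ e : Fin n1 → (R ⧸ Ideal.span {x}), Ab *ᵥ e = 0 →
      ∃ g : Fin n2 → (R ⧸ Ideal.span {x}), e = Bb *ᵥ g := by
    intro e he
    obtain ⟨g, hg⟩ := hw ⟨e, (hq0 e).1 he⟩
    exact ⟨g, by rw [hBb, hg]⟩
  have hpA : ∀ v, p v = 0 ↔ ∃ e, v = Ab *ᵥ e := by
    intro v
    constructor
    · intro hv
      obtain ⟨e, he⟩ := hq ⟨v, hv⟩
      exact ⟨e, by rw [hAb, he]⟩
    · rintro ⟨e, rfl⟩
      rw [hAb]
      exact (q e).2
  have hX : ∀ C : Matrix (Fin n0) (Fin n2) (R ⧸ Ideal.span {x}),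
      (∀ g : Fin n2 → (R ⧸ Ideal.span {x}), Bb *ᵥ g = 0 →
        ∃ e : Fin n1 → (R ⧸ Ideal.span {x}), C *ᵥ g = Ab *ᵥ e) →
      ∃ (V : Matrix (Fin n0) (Fin n1) (R ⧸ Ideal.span {x}))
        (U : Matrix (Fin n1) (Fin n2) (R ⧸ Ideal.span {x})), C = V * Bb + Ab * U := by
    intro C hC
    obtain ⟨ψ, hψ⟩ := HMR_fac w hw (p.comp C.mulVecLin) (by
      intro g hg
      obtain ⟨e, he⟩ := hC g ((hw0 g).2 hg)
      show p (C *ᵥ g) = 0
      exact (hpA _).2 ⟨e, he⟩)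
    obtain ⟨φ, hφ⟩ := ((hMM 2).2 n0 p hp).1 n1 q hq ψ
    obtain ⟨V, hV⟩ := Module.projective_lifting_property p φ hp
    have hV' : ∀ v, p (V v) = φ v := fun v => LinearMap.congr_fun hV v
    have h1 : ∀ g, p (C *ᵥ g - V (Bb *ᵥ g)) = 0 := by
      intro g
      rw [map_sub, hV']
      have h2 : p (C *ᵥ g) = ψ (w g) := (hψ g).symm
      have h3 : φ (Bb *ᵥ g) = ψ (w g) := by
        rw [hBb]
        exact hφ (w g)
      rw [h2, h3, sub_self]
    have h4 : ∀ j : Fin n2, ∃ e, C *ᵥ (Pi.single j 1) - V (Bb *ᵥ (Pi.single j 1)) = Ab *ᵥ e :=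
      fun j => (hpA _).1 (h1 _)
    choose e he using h4
    refine ⟨LinearMap.toMatrix' V, Matrix.of (fun i j => e j i), ?_⟩
    apply Matrix.ext_of_mulVec_single
    intro j
    rw [Matrix.add_mulVec, ← Matrix.mulVec_mulVec, ← Matrix.mulVec_mulVec,
      LinearMap.toMatrix'_mulVec]
    have h5 : (Matrix.of (fun i j => e j i) : Matrix (Fin n1) (Fin n2) (R ⧸ Ideal.span {x})) *ᵥ
        Pi.single j 1 = e j := by
      rw [Matrix.mulVec_single_one]
      rfl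
    rw [h5, ← he j]
    abel
  obtain ⟨A, B, hA, hB, hAB'⟩ := lift_exists hx Ab Bb hAB hE hX
  subst hA hB
  let f : (Fin n0 → R) →ₛₗ[Ideal.Quotient.mk (Ideal.span {x})] M := p.comp (rvL x n0)
  have hf : ∀ u, f u = p (rv x u) := fun _ => rfl
  have hle : LinearMap.range A.mulVecLin ≤ LinearMap.ker f := by
    rintro _ ⟨e, rfl⟩
    rw [LinearMap.mem_ker, hf, hpA]
    exact ⟨rv x e, rv_mulVec A e⟩
  refine ⟨(Fin n0 → R) ⧸ LinearMap.range A.mulVecLin, inferInstance, inferInstance, inferInstance,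
    (LinearMap.range A.mulVecLin).liftQ f hle, ?_, ?_, ?_⟩
  · intro v hv
    obtain ⟨u, rfl⟩ := Submodule.Quotient.mk_surjective _ v
    rw [← Submodule.Quotient.mk_smul, Submodule.Quotient.mk_eq_zero] at hv
    obtain ⟨e, he⟩ := hv
    have he' : A *ᵥ e = x • u := he
    obtain ⟨g, hg⟩ := hE (rv x e) (by
      rw [← rv_mulVec, he']
      exact rv_smul _)
    obtain ⟨g', rfl⟩ := rv_surj g
    rw [← rv_mulVec] at hg
    obtain ⟨e', he''⟩ := rv_eq_zero (x := x) (e - B *ᵥ g') (by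
      funext i
      show Ideal.Quotient.mk (Ideal.span {x}) (e i - (B *ᵥ g') i) = 0
      rw [map_sub, sub_eq_zero]
      exact congrFun hg i)
    have h2 : e = B *ᵥ g' + x • e' := by
      rw [← he'']
      abel
    rw [Submodule.Quotient.mk_eq_zero]
    refine ⟨e', ?_⟩
    apply vsmul_inj hx
    show x • (A *ᵥ e') = x • u
    rw [← he', h2, mulVec_add, mulVec_smul, mulVec_mulVec, hAB', zero_mulVec, zero_add]
  · intro b
    obtain ⟨v, rfl⟩ := hp b
    obtain ⟨u, rfl⟩ := rv_surj v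
    exact ⟨Submodule.Quotient.mk u, rfl⟩
  · intro v hv
    obtain ⟨u, rfl⟩ := Submodule.Quotient.mk_surjective _ v
    have hv' : p (rv x u) = 0 := hv
    obtain ⟨e, he⟩ := (hpA _).1 hv'
    obtain ⟨e', rfl⟩ := rv_surj e
    rw [← rv_mulVec] at he
    obtain ⟨w', hw'⟩ := rv_eq_zero (x := x) (u - A *ᵥ e') (by
      funext i
      show Ideal.Quotient.mk (Ideal.span {x}) (u i - (A *ᵥ e') i) = 0
      rw [map_sub, sub_eq_zero]
      exact congrFun he i)
    refine ⟨Submodule.Quotient.mk w', ?_⟩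
    rw [← Submodule.Quotient.mk_smul, ← hw', Submodule.Quotient.mk_sub]
    have h3 : (Submodule.Quotient.mk (A *ᵥ e') :
        (Fin n0 → R) ⧸ LinearMap.range A.mulVecLin) = 0 :=
      (Submodule.Quotient.mk_eq_zero _).2 ⟨e', rfl⟩
    rw [h3, sub_zero]

end

/-- [LFT] (ARC) descends from `R` to `R / x` if `R` is complete for the `x`-adic topology -/
theorem thm_LFT (R : Type) [CommRing R] [IsLocalRing R] [IsNoetherianRing R] (x : R)
    (hxm : x ∈ maximalIdeal R) (hx : ∀ c : R, x * c = 0 → c = 0)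
    [IsAdicComplete (Ideal.span {x}) R] (hR : ARCe R) : ARCe (R ⧸ Ideal.span {x}) := by
  intro M _ _ _ hMM hML
  obtain ⟨X, _, _, _, ρ, h⟩ := lft_mod hx M hMM
  have h1 : EA R X X := chg_EA hxm hx h h hMM
  have h2 : EA R X R := chg_EA hxm hx h (Rdx_self hx) hML
  have h3 : Module.Free R X := hR X h1 h2
  exact Rdx_free hx h

end Pool.Agent.ARD
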