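import Pool.Agent.ARD.StN

/-!
# ARD: module PALd, algebra in the group ring (helper3)
-/

set_option autoImplicit false

namespace Pool.Agent.ARD

open ARS IsLocalRing

private theorem PALd_alg {A : Type} [CommRing A] (i : A →+* A) (hi : ∀ f, i (i f) = f)
    (hd : ∀ f g : A, f * g = 0 → f = 0 ∨ g = 0) (x r e μ : A) (hr : r ≠ 0) (h1 : r = x * i r)
    (h2 : e * i r = i μ * μ) : e = x * i e := by
  have h3 : i e * r = μ * i μ := by
    have h4 := congrArg i h2
    rw [map_mul, map_mul, hi, hi] at h4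
    exact h4
  have h5 : (e - x * i e) * i r = 0 := by
    have h6 : i e * (x * i r) = e * i r := by
      rw [← h1, h3, h2, mul_comm]
    rw [sub_mul, ← h6]
    ring
  rcases hd _ _ h5 with h6 | h6
  · exact sub_eq_zero.1 h6
  · exfalso
    apply hr
    rw [← hi r, h6, map_zero]

theorem thm_PALd (hISOd : St_ISOd) (hRFNd : St_RFNd) (hGRD : ARS.St_GRD) (hNON : ARS.St_NON)
    (hISO : ARS.St_ISO) : St_PALd := by
  intro K R _ _ _ _ _ _ D L h c hc M hM
  obtain ⟨hd, hi, -⟩ := hGRD K
  have hfin : Module.Finite R (NM.one D).X := inferInstanceAs (Module.Finite R R)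
  have h1 := hc (NM.one D) hfin h.reg
  have hy : D (0 : R) = ((0 : ℕ) : R) * 0 := by
    rw [map_zero, mul_zero]
  have hiso := (hISO K R D 0 0 hy (NM.one D) (NM.one D) (NM.one D)).2.2.2.2.2.2.2
  have h2 := hISOd K R D (idl L) h.stab ((NM.one D).hom (NM.one D)) (NM.one D) hiso
  have h3 := (hISO K R D 0 0 hy (rd ((NM.one D).hom (NM.one D)) h.stab)
    (rd (NM.one D) h.stab) (NM.one D)).2.2.2.1 h2
  rw [h3] at h1
  have hF := hRFNd K R D (idl L) h.stab h.fin (NM.one D) (NM.one D)
  have hK := hF.1 hfin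
  have hr : (rd (NM.one D) h.stab).ch ≠ 0 := by
    intro h0
    have h4 := (hNON K (rd (NM.one D) h.stab).X (rd (NM.one D) h.stab).X
      (rd (NM.one D) h.stab).N (rd (NM.one D) h.stab).N).2.2.1 h0
    have h5 : Subsingleton R := hF.2.2 h.le hfin h4
    exact not_subsingleton R h5
  exact PALd_alg iv hi hd _ _ _ _ hr h1 hM

end Pool.Agent.ARD
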