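import Pool.Agent.ARD.StN

/-! Module PWRa of ARD: the character modulo a power of the first element. -/

set_option autoImplicit false

namespace Pool.Agent.ARD

open ARS IsLocalRing

private theorem PWRa_rg {R : Type} [CommRing R] {X : Type} [AddCommGroup X] [Module R X] (y : R)
    (xs : List R) (h : Rg R (y :: xs) X) :
    (∀ x : X, y • x = 0 → x = 0) ∧ Rg R xs (X ⧸ (Ideal.span {y} • ⊤ : Submodule R X)) := by
  have h1 := (RingTheory.Sequence.isWeaklyRegular_cons_iff X y xs).1 h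
  refine ⟨fun x hx => ?_, ?_⟩
  · apply h1.1
    show y • x = y • 0
    rw [hx, smul_zero]
  · have e : (X ⧸ (Ideal.span {y} • ⊤ : Submodule R X)) ≃ₗ[R] QuotSMulTop y X :=
      Submodule.quotEquivOfEq _ _ (Submodule.ideal_span_singleton_smul y ⊤)
    exact (e.isWeaklyRegular_congr xs).2 h1.2

variable {K R : Type} [Field K] [CommRing R] [Algebra K R] {D : Derivation K R R}

private theorem PWRa_stab (y : R) (m : ℕ) (hy : D y = (m : R) * y) (n : ℕ) :
    ∀ a ∈ Ideal.span {y ^ n}, D a ∈ Ideal.span {y ^ n} := by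
  have h1 : D (y ^ n) = ((n * m : ℕ) : R) * y ^ n := by
    induction n with
    | zero => simp
    | succ n ih =>
      rw [pow_succ, D.leibniz, ih, hy, smul_eq_mul, smul_eq_mul]
      push_cast
      ring
  intro a ha
  obtain ⟨r, rfl⟩ := Ideal.mem_span_singleton'.1 ha
  rw [D.leibniz, h1, smul_eq_mul, smul_eq_mul]
  apply Ideal.mem_span_singleton'.2
  exact ⟨r * ((n * m : ℕ) : R) + D r, by ring⟩

private theorem PWRa_mem {X : Type} [AddCommGroup X] [Module R X] (z : R) (x : X) :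
    x ∈ (Ideal.span {z} • ⊤ : Submodule R X) ↔ ∃ w : X, x = z • w := by
  rw [Submodule.ideal_span_singleton_smul, Submodule.mem_smul_pointwise_iff_exists]
  constructor
  · rintro ⟨w, _, rfl⟩
    exact ⟨w, rfl⟩
  · rintro ⟨w, rfl⟩
    exact ⟨w, trivial, rfl⟩

/-- multiplication by `y` -/
private def PWRa_f (X : Type) [AddCommGroup X] [Module R X] (y z z' : R) (hz : z' = y * z) :
    (X ⧸ (Ideal.span {z} • ⊤ : Submodule R X)) →ₗ[R] (X ⧸ (Ideal.span {z'} • ⊤ : Submodule R X)) :=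
  Submodule.mapQ _ _ (LinearMap.lsmul R X y) (by
    intro x hx
    obtain ⟨w, rfl⟩ := (PWRa_mem _ _).1 hx
    refine (PWRa_mem _ _).2 ⟨w, ?_⟩
    rw [LinearMap.lsmul_apply, smul_smul, hz])

/-- the projection -/
private def PWRa_g (X : Type) [AddCommGroup X] [Module R X] (y z z' : R) (hz : z' = y * z) :
    (X ⧸ (Ideal.span {z'} • ⊤ : Submodule R X)) →ₗ[R] (X ⧸ (Ideal.span {y} • ⊤ : Submodule R X)) :=
  Submodule.mapQ _ _ LinearMap.id (by
    intro x hx
    obtain ⟨w, rfl⟩ := (PWRa_mem _ _).1 hx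
    refine (PWRa_mem _ _).2 ⟨z • w, ?_⟩
    rw [smul_smul, hz])

section maps

variable (X : Type) [AddCommGroup X] [Module R X] (y z z' : R) (hz : z' = y * z)

private theorem PWRa_f_mk (a : X) :
    PWRa_f X y z z' hz ((Ideal.span {z} • ⊤ : Submodule R X).mkQ a) =
      (Ideal.span {z'} • ⊤ : Submodule R X).mkQ (y • a) := rfl

private theorem PWRa_g_mk (a : X) :
    PWRa_g X y z z' hz ((Ideal.span {z'} • ⊤ : Submodule R X).mkQ a) =
      (Ideal.span {y} • ⊤ : Submodule R X).mkQ a := rfl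

private theorem PWRa_zero (z : R) (a : X) :
    (Ideal.span {z} • ⊤ : Submodule R X).mkQ a = 0 ↔ ∃ w, a = z • w := by
  rw [Submodule.mkQ_apply, Submodule.Quotient.mk_eq_zero, PWRa_mem]

private theorem PWRa_inj (hreg : ∀ x : X, y • x = 0 → x = 0) :
    Function.Injective (PWRa_f X y z z' hz) := by
  rw [injective_iff_map_eq_zero]
  intro u hu
  obtain ⟨a, rfl⟩ := Submodule.mkQ_surjective _ u
  rw [PWRa_f_mk, PWRa_zero] at hu
  obtain ⟨w, hw⟩ := hu
  rw [PWRa_zero]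
  refine ⟨w, ?_⟩
  have h4 : y • (a - z • w) = 0 := by
    rw [smul_sub, hw, smul_smul, hz, sub_self]
  exact sub_eq_zero.1 (hreg _ h4)

private theorem PWRa_surj : Function.Surjective (PWRa_g X y z z' hz) := by
  intro v
  obtain ⟨b, rfl⟩ := Submodule.mkQ_surjective _ v
  exact ⟨_, PWRa_g_mk X y z z' hz b⟩

private theorem PWRa_exact (v : X ⧸ (Ideal.span {z'} • ⊤ : Submodule R X)) :
    PWRa_g X y z z' hz v = 0 ↔ ∃ u, PWRa_f X y z z' hz u = v := by
  obtain ⟨b, rfl⟩ := Submodule.mkQ_surjective _ v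
  rw [PWRa_g_mk, PWRa_zero]
  constructor
  · rintro ⟨w, rfl⟩
    exact ⟨_, PWRa_f_mk X y z z' hz w⟩
  · rintro ⟨u, hu⟩
    obtain ⟨a, rfl⟩ := Submodule.mkQ_surjective _ u
    rw [PWRa_f_mk, ← sub_eq_zero, ← map_sub, PWRa_zero] at hu
    obtain ⟨w, hw⟩ := hu
    refine ⟨a - z • w, ?_⟩
    rw [smul_sub, smul_smul, ← hz, ← hw]
    abel

end maps

private theorem PWRa_N (A : NM D) {I : Ideal R} (hI : ∀ a ∈ I, D a ∈ I) (a : A.X) :
    (rd A hI).N ((I • ⊤ : Submodule R A.X).mkQ a) = (I • ⊤ : Submodule R A.X).mkQ (A.N a) := rfl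

private theorem PWRa_shN (A : NM D) (m : ℕ) {I : Ideal R} (hI : ∀ a ∈ I, D a ∈ I) (a : A.X) :
    (sh (rd A hI) m).N ((I • ⊤ : Submodule R A.X).mkQ a) =
      (I • ⊤ : Submodule R A.X).mkQ (A.N a + (m : K) • a) := rfl

private theorem PWRa_fN (y z z' : R) (hz : z' = y * z) (m : ℕ) (hDy : D y = (m : R) * y)
    (h1 : ∀ a ∈ Ideal.span {z}, D a ∈ Ideal.span {z})
    (h2 : ∀ a ∈ Ideal.span {z'}, D a ∈ Ideal.span {z'}) (A : NM D)
    (u : A.X ⧸ (Ideal.span {z} • ⊤ : Submodule R A.X)) :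
    PWRa_f A.X y z z' hz ((sh (rd A h1) m).N u) =
      (rd A h2).N (PWRa_f A.X y z z' hz u) := by
  obtain ⟨a, rfl⟩ := Submodule.mkQ_surjective _ u
  rw [PWRa_shN, PWRa_f_mk, PWRa_f_mk, PWRa_N]
  have e : y • (A.N a + (m : K) • a) = A.N (y • a) := by
    rw [A.leib, hDy, smul_add, add_comm (y • A.N a), mul_smul, Nat.cast_smul_eq_nsmul,
      Nat.cast_smul_eq_nsmul, smul_comm]
  rw [e]

private theorem PWRa_gN (y z z' : R) (hz : z' = y * z)
    (hy : ∀ a ∈ Ideal.span {y}, D a ∈ Ideal.span {y})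
    (h2 : ∀ a ∈ Ideal.span {z'}, D a ∈ Ideal.span {z'}) (A : NM D)
    (v : A.X ⧸ (Ideal.span {z'} • ⊤ : Submodule R A.X)) :
    PWRa_g A.X y z z' hz ((rd A h2).N v) = (rd A hy).N (PWRa_g A.X y z z' hz v) := by
  obtain ⟨b, rfl⟩ := Submodule.mkQ_surjective _ v
  rw [PWRa_N, PWRa_g_mk, PWRa_g_mk, PWRa_N]

/-- the exact sequence of the powers -/
private theorem PWRa_ex (y z z' : R) (hz : z' = y * z) (m : ℕ) (hDy : D y = (m : R) * y)
    (hy : ∀ a ∈ Ideal.span {y}, D a ∈ Ideal.span {y})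
    (h1 : ∀ a ∈ Ideal.span {z}, D a ∈ Ideal.span {z})
    (h2 : ∀ a ∈ Ideal.span {z'}, D a ∈ Ideal.span {z'}) (A : NM D)
    (hreg : ∀ x : A.X, y • x = 0 → x = 0) :
    Ex (sh (rd A h1) m) (rd A h2) (rd A hy) :=
  ⟨PWRa_f A.X y z z' hz, PWRa_g A.X y z z' hz, PWRa_inj A.X y z z' hz hreg,
    PWRa_surj A.X y z z' hz, PWRa_exact A.X y z z' hz,
    fun u => PWRa_fN y z z' hz m hDy h1 h2 A u, fun v => PWRa_gN y z z' hz hy h2 A v⟩

private theorem PWRa_exk {A B C : NM D} (h : Ex A B C) : ExK A.N B.N C.N := by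
  obtain ⟨f, g, h1, h2, h3, h4, h5⟩ := h
  exact ⟨f.restrictScalars K, g.restrictScalars K, h1, h2, h3, h4, h5⟩

private theorem PWRa_sh (hSHF : ARS.St_SHF) {I : Ideal R} (hI : ∀ a ∈ I, D a ∈ I) (A : NM D)
    (m : ℕ) (hf : Module.Finite K (rd A hI).X) :
    Module.Finite K (rd (sh A m) hI).X ∧
      (rd (sh A m) hI).ch = xp ((m : ℕ) : AlgebraicClosure K) * (rd A hI).ch := by
  refine ⟨hf, ?_⟩
  have h1 : (rd (sh A m) hI).N = (rd A hI).N + (m : K) • LinearMap.id := by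
    apply LinearMap.ext
    intro x
    obtain ⟨a, rfl⟩ := Submodule.mkQ_surjective _ x
    rfl
  unfold NM.ch
  have h2 := hSHF K (rd A hI).X (rd A hI).N (m : K)
  rw [map_natCast] at h2
  rw [← h2]
  exact congrArg _ h1

/-- [PWRa] One power. -/
theorem thm_PWRa (hRSQ : St_RSQ) (hREXd : St_REXd) (hADD : ARS.St_ADD) (hSHF : ARS.St_SHF)
    (hNON : ARS.St_NON) : St_PWRa := by
  have _ := hNON
  intro K R _ _ _ D y m L' hL hDy n hn hy hyn A hA hfin
  obtain ⟨hreg, hrg⟩ := PWRa_rg y (el L') hA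
  revert hyn
  suffices H : ∀ z : R, z = y ^ n → ∀ hyn : ∀ a ∈ Ideal.span {z}, D a ∈ Ideal.span {z},
      Rg R (el L') (rd A hyn).X ∧ Module.Finite K (rd (rd A hyn) hL).X ∧
      (rd (rd A hyn) hL).ch =
        (∑ j ∈ Finset.range n, xp ((j * m : ℕ) : AlgebraicClosure K)) *
          (rd (rd A hy) hL).ch from H _ rfl
  induction n, hn using Nat.le_induction with
  | base =>
    intro z hz
    rw [pow_one] at hz
    subst hz
    intro hyn
    refine ⟨hrg, hfin, ?_⟩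
    rw [Finset.sum_range_one, Nat.zero_mul, Nat.cast_zero]
    have : (xp (0 : AlgebraicClosure K) : GR K) = 1 := by
      unfold xp
      rw [AddMonoidAlgebra.one_def]
    rw [this, one_mul]
  | succ n hn ih =>
    intro z hz
    subst hz
    intro hyn
    have hst := PWRa_stab y m hDy n
    obtain ⟨i1, i2, i3⟩ := ih _ rfl hst
    have hex := PWRa_ex y (y ^ n) (y ^ (n + 1)) (pow_succ' y n) m hDy hy hst hyn A hreg
    obtain ⟨f, g, hf, hg, hfg, hfN, hgN⟩ := id hex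
    have hB : Rg R (el L') (rd A hyn).X :=
      (hRSQ R (sh (rd A hst) m).X (rd A hyn).X (rd A hy).X f g hf hg hfg (el L')).2.1 i1 hrg
    have hexd := hREXd K R D (el L') hL _ _ _ hex hrg
    have hK := PWRa_exk hexd
    obtain ⟨s1, s2⟩ := PWRa_sh hSHF hL (rd A hst) m i2
    obtain ⟨a1, a2⟩ := hADD.2 K _ _ _ _ _ _ hK
    have hfB : Module.Finite K (rd (rd A hyn) hL).X := a2 s1 hfin
    obtain ⟨-, -, a3⟩ := a1 hfB
    refine ⟨hB, hfB, ?_⟩
    have e1 : (rd (rd A hyn) hL).ch = (rd (sh (rd A hst) m) hL).ch + (rd (rd A hy) hL).ch := a3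
    rw [e1, s2, i3, Finset.sum_range_succ']
    have hx0 : (xp (((0 * m : ℕ)) : AlgebraicClosure K) : GR K) = 1 := by
      rw [Nat.zero_mul, Nat.cast_zero]
      unfold xp
      rw [AddMonoidAlgebra.one_def]
    rw [hx0, add_mul, one_mul, ← mul_assoc, Finset.mul_sum]
    congr 2
    refine Finset.sum_congr rfl fun j _ => ?_
    unfold xp
    rw [AddMonoidAlgebra.single_mul_single, one_mul]
    congr 1
    push_cast
    ring

end Pool.Agent.ARD
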