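import Pool.Agent.ARD.StN

/-! [PWRb] All powers. -/

set_option autoImplicit false

namespace Pool.Agent.ARD

open ARS IsLocalRing

variable {K R : Type} [Field K] [CommRing R] [Algebra K R] {D : Derivation K R R}

/-- the reduction modulo a sum of two stable ideals -/
theorem PWRb_iso (A : NM D) {I J H : Ideal R} (hI : ∀ a ∈ I, D a ∈ I) (hJ : ∀ a ∈ J, D a ∈ J)
    (hH : ∀ a ∈ H, D a ∈ H) (e : H = I ⊔ J) : Iso (rd A hH) (rd (rd A hI) hJ) := by
  let f : A.X →ₗ[R] (rd (rd A hI) hJ).X := (md (rd A hI) hJ).comp (md A hI)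
  have hf : Function.Surjective f :=
    (Submodule.mkQ_surjective _).comp (Submodule.mkQ_surjective _)
  have hk : (H • ⊤ : Submodule R A.X) = LinearMap.ker f := by
    have h1 : LinearMap.ker f =
        (J • ⊤ : Submodule R (rd A hI).X).comap (md A hI) := by
      show LinearMap.ker ((md (rd A hI) hJ).comp (md A hI)) = _
      rw [LinearMap.ker_comp]
      congr 1
      exact Submodule.ker_mkQ _
    have h2 : (J • ⊤ : Submodule R (rd A hI).X) =
        (J • ⊤ : Submodule R A.X).map (md A hI) := by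
      rw [Submodule.map_smul'', Submodule.map_top]
      congr 1
      exact (LinearMap.range_eq_top.2 (Submodule.mkQ_surjective _)).symm
    rw [h1, h2, Submodule.comap_map_eq, e, Submodule.sup_smul, sup_comm]
    congr 1
    exact (Submodule.ker_mkQ _).symm
  refine ⟨(Submodule.quotEquivOfEq _ _ hk).trans (f.quotKerEquivOfSurjective hf), fun u => ?_⟩
  obtain ⟨x, rfl⟩ := (H • ⊤ : Submodule R A.X).mkQ_surjective u
  show f (A.N x) = (rd (rd A hI) hJ).N (f x)
  rfl

theorem PWRb_span {y : R} {m : ℕ} (h : D y = (m : R) * y) :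
    ∀ a ∈ Ideal.span {y}, D a ∈ Ideal.span {y} := by
  intro a ha
  obtain ⟨b, rfl⟩ := Ideal.mem_span_singleton'.1 ha
  rw [D.leibniz, h, smul_eq_mul, smul_eq_mul]
  exact Ideal.add_mem _ (Ideal.mul_mem_left _ _ (Ideal.mul_mem_left _ _ (Ideal.mem_span_singleton_self y)))
    (Ideal.mul_mem_right _ _ (Ideal.mem_span_singleton_self y))

theorem PWRb_fin {A B : NM D} (h : Iso A B) (hB : Module.Finite K B.X) : Module.Finite K A.X := by
  obtain ⟨e, _⟩ := h
  exact Module.Finite.equiv (e.restrictScalars K).symm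

theorem PWRb_chi (hISO : ARS.St_ISO) {A B : NM D} (h : Iso A B) : A.ch = B.ch :=
  (hISO K R D 0 0 (by rw [map_zero, mul_zero]) A B A).2.2.2.1 h

theorem thm_PWRb (hPWRa : St_PWRa) (hISO : ARS.St_ISO) : St_PWRb := by
  intro K R _ _ _ D L
  induction L with
  | nil =>
    intro hL n _
    refine ⟨1, fun A _ hf => ?_⟩
    rw [one_mul]
    exact ⟨hf, rfl⟩
  | cons p L' ih =>
    intro hL n hn
    have hL' : ∀ q ∈ L', D q.1 = (q.2 : R) * q.1 := fun q hq => hL q (List.mem_cons_of_mem _ hq)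
    have hp : D p.1 = (p.2 : R) * p.1 := hL p List.mem_cons_self
    have hpn : D (p.1 ^ n) = ((n * p.2 : ℕ) : R) * p.1 ^ n :=
      eig_pw (L := [p]) (fun q hq => by rw [List.mem_singleton.1 hq]; exact hp) n
        (p.1 ^ n, n * p.2) (List.mem_singleton.2 rfl)
    have hy := PWRb_span hp
    have hyn := PWRb_span hpn
    obtain ⟨G, hG⟩ := ih hL' n hn
    refine ⟨(∑ j ∈ Finset.range n, xp ((j * p.2 : ℕ) : AlgebraicClosure K)) * G,
      fun A hA hf => ?_⟩
    have i1 : Iso (rd A (stable_idl hL)) (rd (rd A hy) (stable_idl hL')) :=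
      PWRb_iso A hy (stable_idl hL') (stable_idl hL) (Ideal.ofList_cons p.1 (el L'))
    have i2 : Iso (rd A (stable_idl (eig_pw hL n))) (rd (rd A hyn) (stable_idl (eig_pw hL' n))) :=
      PWRb_iso A hyn (stable_idl (eig_pw hL' n)) (stable_idl (eig_pw hL n))
        (Ideal.ofList_cons (p.1 ^ n) (el (pw n L')))
    have f1 : Module.Finite K (rd (rd A hy) (stable_idl hL')).X := by
      obtain ⟨e, _⟩ := i1
      exact Module.Finite.equiv (e.restrictScalars K)
    obtain ⟨r, f2, c⟩ := hPWRa K R D p.1 p.2 L' (stable_idl hL') hp n hn hy hyn A hA f1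
    obtain ⟨f3, c3⟩ := hG (rd A hyn) r f2
    refine ⟨PWRb_fin i2 f3, ?_⟩
    rw [PWRb_chi hISO i2, PWRb_chi hISO i1, c3, c, mul_comm _ G, mul_assoc]

end Pool.Agent.ARD
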