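import Pool.Agent.ARD.StG
import Pool.Agent.ARS.END

/-! helper11. (ARC) for discrete valuation rings and the general form of the final theorem. -/

set_option autoImplicit false

namespace Pool.Agent.ARD

open ARS IsLocalRing TensorProduct

/-- local principal ideal domains satisfy (ARC) -/
theorem ARCe_of_pid (hFRE : St_FRE) (R : Type) [CommRing R] [IsDomain R] [IsLocalRing R]
    [IsPrincipalIdealRing R] : ARCe R := by
  intro M _ _ _ _ h
  obtain ⟨n, p, hp⟩ := Module.Finite.exists_fin' R M
  exact hFRE R M (h 1).1 n p hp inferInstance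

/-- `Good` or principal -/
def Good' (R : Type) [CommRing R] [IsLocalRing R] : Prop := Good R ∨ IsPrincipalIdealRing R

/-- the final theorem, where `R_q` may also be a discrete valuation ring (or a field) -/
def St_FNG' : Prop := ∀ (R : Type) [CommRing R] [IsDomain R] [IsLocalRing R] [IsNoetherianRing R]
  (xs : List R), GorL R xs → ((xs.length : ℕ∞) : WithBot ℕ∞) = ringKrullDim R →
  (∀ p : Ideal R, p.IsPrime → p.height = 1 → ∃ (q : Ideal R) (_ : q.IsPrime), p ≤ q ∧
    Good' (Localization.AtPrime q)) → ARC R

theorem thm_FNG' (hARG : St_ARG) (hARE : St_ARE) (hFLE : St_FLE) (hLCF : St_LCF)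
    (hGPZ : St_GPZ) (hFRE : St_FRE) (hExt : ARS.St_Ext) : St_FNG' := by
  intro R _ _ _ _ xs hG hd hq _ M _ _ _ hM
  have hEV : EV R M M := fun i hi => (hM i hi).1
  have hEV' : EV R M R := fun i hi => (hM i hi).2
  have h1 : EA R M M := fun k => extAll_of_EV hExt R M k M hEV
  have h2 : EA R M R := fun k => extAll_of_EV hExt R R k M hEV'
  refine hARG R xs hG hd M h1 h2 fun p hp hh => ?_
  obtain ⟨q, hqp, hle, hgood⟩ := hq p hp hh
  have hdom : IsDomain (Localization.AtPrime q) := inferInstance
  have hnoe : IsNoetherianRing (Localization.AtPrime q) :=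
    IsLocalization.isNoetherianRing q.primeCompl _ inferInstance
  have e1 := hFLE R (Localization.AtPrime q) M M h1
  have e2 : EA (Localization.AtPrime q) (Localization.AtPrime q ⊗[R] M)
      (Localization.AtPrime q) := fun k =>
    extAll_iso (TensorProduct.AlgebraTensorModule.rid R (Localization.AtPrime q)
      (Localization.AtPrime q)) k _ _ (LinearEquiv.refl _ _)
      (hFLE R (Localization.AtPrime q) M R h2 k)
  have hfree : Module.Free (Localization.AtPrime q) (Localization.AtPrime q ⊗[R] M) := by
    rcases hgood with h | h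
    · exact hARE _ h _ e1 e2
    · exact ARCe_of_pid hFRE _ _ e1 e2
  exact (hGPZ R q M (hLCF R q M hfree)).2.1 p hle

end Pool.Agent.ARD
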