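import Pool.Agent.ARD.Defs

/-! helper11. [QDC] The completion of a quasi-homogeneous Gorenstein local ring is one. -/

set_option autoImplicit false

namespace Pool.Agent.ARD

open ARS IsLocalRing

section noeth

/-- the completion of a Noetherian ring is Noetherian -/
theorem noeth_adic (S : Type) [CommRing S] [IsNoetherianRing S] (I : Ideal S) :
    IsNoetherianRing (AdicCompletion I S) := by
  classical
  have hIfg : I.FG := IsNoetherian.noetherian I
  obtain ⟨n, y, hy⟩ := Submodule.fg_iff_exists_fin_generating_family.1 hIfg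
  let P := MvPolynomial (Fin n) S
  let J : Ideal P := MvPolynomial.idealOfVars (Fin n) S
  let φ : P →+* S := (MvPolynomial.aeval y : P →ₐ[S] S).toRingHom
  have hφX : ∀ i, φ (MvPolynomial.X i) = y i := fun i => MvPolynomial.aeval_X y i
  have hφC : ∀ s, φ (MvPolynomial.C s) = s := fun s => by
    show MvPolynomial.aeval y (MvPolynomial.C s) = s
    rw [MvPolynomial.aeval_C]
    rfl
  have hJ : J.map φ = I := by
    show (Ideal.span (Set.range MvPolynomial.X)).map φ = I
    rw [Ideal.map_span, ← Set.range_comp]
    have : (φ ∘ MvPolynomial.X : Fin n → S) = y := funext hφX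
    rw [this]
    exact hy
  have hle : ∀ k, J ^ k ≤ (I ^ k).comap φ := by
    intro k
    rw [← Ideal.map_le_iff_le_comap, Ideal.map_pow, hJ]
  let f : (k : ℕ) → AdicCompletion J P →+* S ⧸ I ^ k := fun k =>
    (Ideal.quotientMap (I ^ k) φ (hle k)).comp (AdicCompletion.evalₐ J k).toRingHom
  have hf : ∀ {k l : ℕ} (h : k ≤ l), (Ideal.Quotient.factorPow I h).comp (f l) = f k := by
    intro k l h
    ext a
    induction a using AdicCompletion.induction_on with
    | _ a =>
      show Ideal.Quotient.factorPow I h (Ideal.quotientMap (I ^ l) φ (hle l)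
        (AdicCompletion.evalₐ J l (AdicCompletion.mk J P a))) =
        Ideal.quotientMap (I ^ k) φ (hle k) (AdicCompletion.evalₐ J k (AdicCompletion.mk J P a))
      rw [AdicCompletion.evalₐ_mk, AdicCompletion.evalₐ_mk]
      exact congrArg (Ideal.quotientMap (I ^ k) φ (hle k)) (AdicCompletion.Ideal.mk_eq_mk J h a)
  let F : AdicCompletion J P →+* AdicCompletion I S := AdicCompletion.liftRingHom I f hf
  have hF : ∀ p : P, F (algebraMap P (AdicCompletion J P) p) =
      algebraMap S (AdicCompletion I S) (φ p) := by
    intro p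
    refine AdicCompletion.ext_evalₐ fun k => ?_
    rw [AdicCompletion.evalₐ_liftRingHom, AdicCompletion.algebraMap_apply,
      AdicCompletion.algebraMap_apply, Algebra.algebraMap_self, RingHom.id_apply,
      AdicCompletion.evalₐ_of]
    show Ideal.quotientMap (I ^ k) φ (hle k)
      (AdicCompletion.evalₐ J k (AdicCompletion.of J P p)) = _
    rw [AdicCompletion.evalₐ_of]
    rfl
  have hJfg : J.FG := MvPolynomial.idealOfVars_fg (Fin n) S
  have h1 : IsAdicComplete (J.map (algebraMap P (AdicCompletion J P))) (AdicCompletion J P) :=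
    AdicCompletion.isAdicComplete_self J hJfg
  have h2 : (J.map (algebraMap P (AdicCompletion J P))).map F =
      I.map (algebraMap S (AdicCompletion I S)) := by
    have h3 : F.comp (algebraMap P (AdicCompletion J P)) =
        (algebraMap S (AdicCompletion I S)).comp φ := RingHom.ext hF
    rw [Ideal.map_map, h3, ← Ideal.map_map, hJ]
  have h4 : IsAdicComplete (I.map (algebraMap S (AdicCompletion I S))) (AdicCompletion I S) :=
    AdicCompletion.isAdicComplete_self I hIfg
  have h5 : IsHausdorff ((J.map (algebraMap P (AdicCompletion J P))).map F)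
      (AdicCompletion I S) := by
    rw [h2]
    exact h4.toIsHausdorff
  have hsurj : Function.Surjective F := by
    refine surjective_of_mk_map_comp_surjective
      (I := J.map (algebraMap P (AdicCompletion J P))) F ?_
    intro b
    obtain ⟨a, rfl⟩ := Ideal.Quotient.mk_surjective b
    obtain ⟨s, hs⟩ := Ideal.Quotient.mk_surjective (AdicCompletion.evalOneₐ I a)
    refine ⟨algebraMap P (AdicCompletion J P) (MvPolynomial.C s), ?_⟩
    show Ideal.Quotient.mk _ (F (algebraMap P (AdicCompletion J P) (MvPolynomial.C s))) = _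
    rw [hF, hφC, Ideal.Quotient.eq, h2, ← AdicCompletion.ker_evalOneₐ_eq_map I hIfg]
    show AdicCompletion.evalOneₐ I (algebraMap S (AdicCompletion I S) s - a) = 0
    rw [map_sub, ← hs, sub_eq_zero]
    rfl
  have hN : IsNoetherianRing (AdicCompletion J P) :=
    isNoetherianRing_of_ringEquiv (MvPowerSeries (Fin n) S)
      (MvPowerSeries.toAdicCompletionAlgEquiv (Fin n) S).toRingEquiv
  exact isNoetherianRing_of_surjective _ _ F hsurj

end noeth

section der

variable {K S : Type} [Field K] [CommRing S] [Algebra K S] (D : Derivation K S S) (I : Ideal S)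
  (hD : ∀ a ∈ I, D a ∈ I)

include hD in
theorem der_pow (k : ℕ) : ∀ a ∈ I ^ k, D a ∈ I ^ k := by
  induction k with
  | zero =>
    intro a _
    rw [pow_zero, Ideal.one_eq_top]
    exact Submodule.mem_top
  | succ k ih =>
    intro a ha
    rw [pow_succ] at ha ⊢
    refine Submodule.mul_induction_on ha ?_ ?_
    · intro u hu v hv
      rw [D.leibniz, smul_eq_mul, smul_eq_mul]
      refine Ideal.add_mem _ (Ideal.mul_mem_mul hu (hD v hv)) ?_
      rw [mul_comm v]
      exact Ideal.mul_mem_mul (ih u hu) hv
    · intro u v hu hv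
      rw [map_add]
      exact Ideal.add_mem _ hu hv

/-- the map induced on `S / I ^ k` -/
noncomputable def derQ (k : ℕ) : (S ⧸ (I ^ k • ⊤ : Submodule S S)) →+
    (S ⧸ (I ^ k • ⊤ : Submodule S S)) :=
  QuotientAddGroup.map (I ^ k • ⊤ : Submodule S S).toAddSubgroup
    (I ^ k • ⊤ : Submodule S S).toAddSubgroup D.toLinearMap.toAddMonoidHom (by
      intro a ha
      have h1 : (I ^ k • ⊤ : Submodule S S) = I ^ k := by rw [smul_eq_mul, Ideal.mul_top]
      show D a ∈ (I ^ k • ⊤ : Submodule S S)
      have ha' : a ∈ (I ^ k • ⊤ : Submodule S S) := ha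
      rw [h1] at ha' ⊢
      exact der_pow D I hD k a ha')

theorem derQ_mk (k : ℕ) (s : S) : derQ D I hD k (Submodule.Quotient.mk s) =
    Submodule.Quotient.mk (D s) := rfl

/-- the extension of a derivation to the completion, as a map -/
noncomputable def derCf (a : AdicCompletion I S) : AdicCompletion I S :=
  ⟨fun k => derQ D I hD k (a.val k), by
    intro k l h
    obtain ⟨s, hs⟩ := Submodule.Quotient.mk_surjective _ (a.val l)
    have h1 : a.val k = Submodule.Quotient.mk s := by
      rw [← a.property h]
      show AdicCompletion.transitionMap I S h (a.val l) = _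
      rw [← hs]
      rfl
    show AdicCompletion.transitionMap I S h (derQ D I hD l (a.val l)) = derQ D I hD k (a.val k)
    rw [← hs, h1, derQ_mk, derQ_mk]
    rfl⟩

theorem derCf_val (a : AdicCompletion I S) (k : ℕ) :
    (derCf D I hD a).val k = derQ D I hD k (a.val k) := rfl

/-- the extension of a derivation to the completion -/
noncomputable def derC : Derivation K (AdicCompletion I S) (AdicCompletion I S) :=
  Derivation.mk'
    { toFun := derCf D I hD
      map_add' := by
        intro a b
        ext k
        show derQ D I hD k (a.val k + b.val k) = derQ D I hD k (a.val k) + derQ D I hD k (b.val k)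
        rw [map_add]
      map_smul' := by
        intro c a
        ext k
        show derQ D I hD k (c • a.val k) = c • derQ D I hD k (a.val k)
        obtain ⟨s, hs⟩ := Submodule.Quotient.mk_surjective _ (a.val k)
        rw [← hs]
        show Submodule.Quotient.mk (D (c • s)) = Submodule.Quotient.mk (c • D s)
        rw [D.map_smul] }
    (by
      intro a b
      ext k
      obtain ⟨s, hs⟩ := Submodule.Quotient.mk_surjective _ (a.val k)
      obtain ⟨t, ht⟩ := Submodule.Quotient.mk_surjective _ (b.val k)
      show derQ D I hD k (a.val k * b.val k) =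
        a.val k * derQ D I hD k (b.val k) + b.val k * derQ D I hD k (a.val k)
      rw [← hs, ← ht]
      show Submodule.Quotient.mk (D (s * t)) = Submodule.Quotient.mk (s * D t + t * D s)
      rw [D.leibniz]
      rfl)

theorem derC_val (a : AdicCompletion I S) (k : ℕ) :
    (derC D I hD a).val k = derQ D I hD k (a.val k) := rfl

theorem derC_alg (s : S) : derC D I hD (algebraMap S (AdicCompletion I S) s) =
    algebraMap S (AdicCompletion I S) (D s) := by
  ext k
  rfl

end der

section main

variable {K S : Type} [Field K] [CommRing S] [IsLocalRing S] [IsNoetherianRing S] [Algebra K S]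
  {D : Derivation K S S} {L : List (S × ℕ)}

/-- the completion -/
abbrev Ch (S : Type) [CommRing S] [IsLocalRing S] : Type := AdicCompletion (maximalIdeal S) S

/-- the image of the list -/
noncomputable def cL (L : List (S × ℕ)) : List (Ch S × ℕ) :=
  L.map fun p => (algebraMap S (Ch S) p.1, p.2)

omit [IsNoetherianRing S] in
theorem el_cL (L : List (S × ℕ)) : el (cL L) = (el L).map (algebraMap S (Ch S)) := by
  simp only [el, cL, List.map_map]
  rfl

omit [IsNoetherianRing S] in
theorem idl_cL (L : List (S × ℕ)) : idl (cL L) = (idl L).map (algebraMap S (Ch S)) := by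
  rw [idl, idl, el_cL, Ideal.map_ofList]

omit [IsNoetherianRing S] in
theorem pow_le_idl {I : Ideal S} (h : IsArtinianRing (S ⧸ I)) : ∃ N, maximalIdeal S ^ N ≤ I :=
  IsLocalRing.exists_maximalIdeal_pow_le_of_isArtinianRing_quotient I

theorem Ch_surj {I : Ideal S} {N : ℕ} (hN : maximalIdeal S ^ N ≤ I) (a : Ch S) :
    ∃ s, a - algebraMap S (Ch S) s ∈ I.map (algebraMap S (Ch S)) := by
  obtain ⟨s, hs⟩ := Submodule.Quotient.mk_surjective _ (a.val N)
  refine ⟨s, Ideal.map_mono hN ?_⟩
  have h1 : a - algebraMap S (Ch S) s ∈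
      (AdicCompletion.eval (maximalIdeal S) S N).ker := by
    rw [LinearMap.mem_ker, map_sub, sub_eq_zero]
    exact hs.symm
  rw [← AdicCompletion.pow_smul_top_eq_ker_eval (IsNoetherian.noetherian (maximalIdeal S))] at h1
  rw [Ideal.smul_top_eq_map] at h1
  exact h1

omit [IsNoetherianRing S] in
theorem Ch_comap {I : Ideal S} {N : ℕ} (hN : maximalIdeal S ^ N ≤ I) {s : S}
    (hs : algebraMap S (Ch S) s ∈ I.map (algebraMap S (Ch S))) : s ∈ I := by
  have h1 := Ideal.mem_map_of_mem (AdicCompletion.evalₐ (maximalIdeal S) N).toRingHom hs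
  rw [Ideal.map_map] at h1
  have h2 : (AdicCompletion.evalₐ (maximalIdeal S) N).toRingHom.comp (algebraMap S (Ch S)) =
      Ideal.Quotient.mk (maximalIdeal S ^ N) := by
    ext t
    exact AdicCompletion.evalₐ_of _ N t
  rw [h2] at h1
  have h3 : Ideal.Quotient.mk (maximalIdeal S ^ N) s ∈
      I.map (Ideal.Quotient.mk (maximalIdeal S ^ N)) := by
    have h4 := congrArg (fun g : S →+* S ⧸ maximalIdeal S ^ N => g s) h2
    rw [← h4]
    exact h1
  rw [← Ideal.mem_comap, Ideal.comap_map_of_surjective _ Ideal.Quotient.mk_surjective] at h3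
  have h5 : Ideal.comap (Ideal.Quotient.mk (maximalIdeal S ^ N)) ⊥ ≤ I := by
    rw [← RingHom.ker_eq_comap_bot, Ideal.mk_ker]
    exact hN
  exact (sup_le le_rfl h5) h3

theorem aeval_comm {A B : Type} [CommRing A] [CommRing B] [Algebra K A] [Algebra K B]
    (f : Module.End K A) (g : Module.End K B) (u : A →ₗ[K] B) (h : ∀ a, g (u a) = u (f a))
    (p : Polynomial K) : ∀ a, Polynomial.aeval g p (u a) = u (Polynomial.aeval f p a) := by
  induction p using Polynomial.induction_on' with
  | add p q hp hq =>
    intro a
    rw [map_add, map_add, LinearMap.add_apply, LinearMap.add_apply, hp, hq, map_add]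
  | monomial n c =>
    intro a
    rw [Polynomial.aeval_monomial, Polynomial.aeval_monomial]
    have h1 : ∀ (n : ℕ) (a : A), (g ^ n) (u a) = u ((f ^ n) a) := by
      intro n
      induction n with
      | zero => intro a; rfl
      | succ n ih =>
        intro a
        rw [pow_succ, pow_succ]
        show (g ^ n) (g (u a)) = u ((f ^ n) (f a))
        rw [h, ih]
    show algebraMap K (Module.End K B) c ((g ^ n) (u a)) =
      u (algebraMap K (Module.End K A) c ((f ^ n) a))
    rw [h1, Module.algebraMap_end_apply, Module.algebraMap_end_apply, map_smul]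

theorem aeval_stab {A : Type} [CommRing A] [Algebra K A] (f : Module.End K A) (I : Ideal A)
    (h : ∀ a ∈ I, f a ∈ I) (p : Polynomial K) : ∀ a ∈ I, Polynomial.aeval f p a ∈ I := by
  induction p using Polynomial.induction_on' with
  | add p q hp hq =>
    intro a ha
    rw [map_add, LinearMap.add_apply]
    exact Ideal.add_mem _ (hp a ha) (hq a ha)
  | monomial n c =>
    intro a ha
    rw [Polynomial.aeval_monomial]
    have h1 : ∀ (n : ℕ) (a : A), a ∈ I → (f ^ n) a ∈ I := by
      intro n
      induction n with
      | zero => intro a ha; exact ha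
      | succ n ih =>
        intro a ha
        rw [pow_succ]
        exact ih _ (h a ha)
    show algebraMap K (Module.End K A) c ((f ^ n) a) ∈ I
    rw [Module.algebraMap_end_apply, Algebra.smul_def]
    exact Ideal.mul_mem_left _ _ (h1 n a ha)

/-- [QDC] the completion of a quasi-homogeneous Gorenstein local ring is one -/
theorem QDC (h : QD K S D L) : QD K (Ch S) (derC D (maximalIdeal S) h.max) (cL L) := by
  have hmm : maximalIdeal (Ch S) = (maximalIdeal S).map (algebraMap S (Ch S)) :=
    AdicCompletion.maximalIdeal_eq_map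
  obtain ⟨N, hN⟩ := pow_le_idl (show IsArtinianRing (S ⧸ idl L) from h.gor.art)
  have hcomap : ∀ s, algebraMap S (Ch S) s ∈ idl (cL L) → s ∈ idl L := by
    intro s hs
    rw [idl_cL] at hs
    exact Ch_comap hN hs
  have hsurj : ∀ a : Ch S, ∃ s, a - algebraMap S (Ch S) s ∈ idl (cL L) := by
    intro a
    rw [idl_cL]
    exact Ch_surj hN a
  have hmem : ∀ p ∈ cL L, p.1 ∈ maximalIdeal (Ch S) := by
    intro p hp
    obtain ⟨q, hq, rfl⟩ := List.mem_map.1 hp
    rw [hmm]
    exact Ideal.mem_map_of_mem _ (h.mem q hq)
  have heig : ∀ p ∈ cL L, derC D (maximalIdeal S) h.max p.1 = (p.2 : Ch S) * p.1 := by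
    intro p hp
    obtain ⟨q, hq, rfl⟩ := List.mem_map.1 hp
    show derC D (maximalIdeal S) h.max (algebraMap S (Ch S) q.1) =
      ((q.2 : ℕ) : Ch S) * algebraMap S (Ch S) q.1
    rw [derC_alg, h.eig q hq, map_mul, map_natCast]
  have hle : idl (cL L) ≤ maximalIdeal (Ch S) := by
    refine Ideal.span_le.2 ?_
    intro x hx
    obtain ⟨p, hp, rfl⟩ := List.mem_map.1 (show x ∈ el (cL L) from hx)
    exact hmem p hp
  refine ⟨?_, ?_, hmem, ?_, heig, ?_, ?_, ?_, ?_⟩
  · intro a ha
    rw [AdicCompletion.mem_maximalIdeal_iff_eval_one_eq_zero] at ha ⊢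
    rw [derC_val, ha, map_zero]
  · intro a
    obtain ⟨s, hs⟩ := hsurj a
    obtain ⟨k, hk⟩ := h.res s
    refine ⟨k, ?_⟩
    have h1 : a - algebraMap K (Ch S) k =
        (a - algebraMap S (Ch S) s) + algebraMap S (Ch S) (s - algebraMap K S k) := by
      rw [map_sub]
      have h2 : algebraMap S (Ch S) (algebraMap K S k) = algebraMap K (Ch S) k := rfl
      rw [h2]
      ring
    rw [h1]
    refine Ideal.add_mem _ (hle hs) ?_
    rw [hmm]
    exact Ideal.mem_map_of_mem _ hk
  · intro p hp
    obtain ⟨q, hq, rfl⟩ := List.mem_map.1 hp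
    exact h.pos q hq
  · show RingTheory.Sequence.IsWeaklyRegular (Ch S) (el (cL L))
    rw [el_cL]
    exact RingTheory.Sequence.IsWeaklyRegular.of_flat h.reg
  · refine ⟨?_, ?_⟩
    · intro hmax
      have h1 : idl (cL L) = ⊤ := isMax_iff_eq_top.1 hmax
      rw [h1] at hle
      exact (Ideal.IsPrime.ne_top inferInstance) (top_le_iff.1 hle)
    · intro b c hbc
      have key : ∀ b : Ideal (Ch S), idl (cL L) ≤ b → b.comap (algebraMap S (Ch S)) = idl L →
          b = idl (cL L) := by
        intro b hb1 hb2
        refine le_antisymm ?_ hb1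
        intro β hβ
        obtain ⟨s, hs⟩ := hsurj β
        have h1 : algebraMap S (Ch S) s ∈ b := by
          have h2 : algebraMap S (Ch S) s = β - (β - algebraMap S (Ch S) s) := by ring
          rw [h2]
          exact Ideal.sub_mem _ hβ (hb1 hs)
        have h3 : s ∈ idl L := by
          rw [← hb2]
          exact h1
        have h4 : algebraMap S (Ch S) s ∈ idl (cL L) := by
          rw [idl_cL]
          exact Ideal.mem_map_of_mem _ h3
        have h5 : β = (β - algebraMap S (Ch S) s) + algebraMap S (Ch S) s := by ring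
        rw [h5]
        exact Ideal.add_mem _ hs h4
      have h6 : b.comap (algebraMap S (Ch S)) ⊓ c.comap (algebraMap S (Ch S)) = idl L := by
        rw [← Ideal.comap_inf, hbc]
        refine le_antisymm (fun s hs => hcomap s hs) ?_
        rw [← Ideal.map_le_iff_le_comap, idl_cL]
      rcases h.irr.2 h6 with h7 | h7
      · exact Or.inl (key b (hbc ▸ inf_le_left) h7)
      · exact Or.inr (key c (hbc ▸ inf_le_right) h7)
  · have := h.fin
    let g : S →ₐ[K] Ch S := { algebraMap S (Ch S) with commutes' := fun _ => rfl }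
    have hg : idl L ≤ (idl (cL L)).comap g := by
      intro s hs
      show algebraMap S (Ch S) s ∈ idl (cL L)
      rw [idl_cL]
      exact Ideal.mem_map_of_mem _ hs
    refine Module.Finite.of_surjective (Ideal.quotientMapₐ (idl (cL L)) g hg).toLinearMap ?_
    intro b
    obtain ⟨a, rfl⟩ := Ideal.Quotient.mk_surjective b
    obtain ⟨s, hs⟩ := hsurj a
    refine ⟨Ideal.Quotient.mk _ s, ?_⟩
    show Ideal.Quotient.mk _ (algebraMap S (Ch S) s) = _
    exact (Ideal.Quotient.eq.2 hs).symm
  · obtain ⟨n, hn⟩ := h.wt
    refine ⟨n, ?_⟩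
    intro a ha
    obtain ⟨s, hs⟩ := hsurj a
    have hsm : s ∈ maximalIdeal S := by
      have h1 : algebraMap S (Ch S) s ∈ maximalIdeal (Ch S) := by
        have h2 : algebraMap S (Ch S) s = a - (a - algebraMap S (Ch S) s) := by ring
        rw [h2]
        exact Ideal.sub_mem _ ha (hle hs)
      have h3 : (maximalIdeal (Ch S)).comap (algebraMap S (Ch S)) = maximalIdeal S :=
        IsLocalRing.maximalIdeal_comap _
      rw [← h3]
      exact h1
    have h5 : a = (a - algebraMap S (Ch S) s) + algebraMap S (Ch S) s := by ring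
    let g : S →ₐ[K] Ch S := { algebraMap S (Ch S) with commutes' := fun _ => rfl }
    rw [h5, map_add]
    refine Ideal.add_mem _ (aeval_stab _ _ (stable_idl heig) _ _ hs) ?_
    have h6 := aeval_comm D.toLinearMap (derC D (maximalIdeal S) h.max).toLinearMap g.toLinearMap
      (fun s => derC_alg D (maximalIdeal S) h.max s)
      (∏ w ∈ Finset.Icc 1 n, (Polynomial.X - Polynomial.C (w : K))) s
    have h7 : Polynomial.aeval (derC D (maximalIdeal S) h.max).toLinearMap
        (∏ w ∈ Finset.Icc 1 n, (Polynomial.X - Polynomial.C (w : K)))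
        (algebraMap S (Ch S) s) = algebraMap S (Ch S) (Polynomial.aeval D.toLinearMap
        (∏ w ∈ Finset.Icc 1 n, (Polynomial.X - Polynomial.C (w : K))) s) := h6
    rw [h7, idl_cL]
    exact Ideal.mem_map_of_mem _ (hn s hsm)

end main

end Pool.Agent.ARD
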