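import Pool.Agent.ARD.StH

/-! [QDG] The localisation of a graded Gorenstein ring at the irrelevant ideal is quasi-homogeneous
(MP_7dc157_al). -/

set_option autoImplicit false

namespace Pool.Agent.ARD

open ARS IsLocalRing

/-- the maximal ideal of a local ring is nilpotent modulo a proper ideal with Artinian quotient -/
private theorem QDG_nil {B : Type} [CommRing B] [IsLocalRing B] (I : Ideal B)
    (hI : I ≤ maximalIdeal B) (hA : IsArtinianRing (B ⧸ I)) : ∃ k : ℕ, maximalIdeal B ^ k ≤ I := by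
  have hne : I ≠ ⊤ := fun h => (maximalIdeal.isMaximal B).ne_top (top_le_iff.1 (h ▸ hI))
  have : Nontrivial (B ⧸ I) := Ideal.Quotient.nontrivial_iff.2 hne
  have : IsLocalRing (B ⧸ I) :=
    IsLocalRing.of_surjective' (Ideal.Quotient.mk I) Ideal.Quotient.mk_surjective
  obtain ⟨k, hk⟩ := IsArtinianRing.isNilpotent_jacobson_bot (R := B ⧸ I)
  rw [IsLocalRing.jacobson_eq_maximalIdeal _ bot_ne_top] at hk
  refine ⟨k, ?_⟩
  have h1 : (maximalIdeal B).map (Ideal.Quotient.mk I) ≤ maximalIdeal (B ⧸ I) := by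
    rw [Ideal.map_le_iff_le_comap]
    intro x hx
    rw [Ideal.mem_comap, mem_maximalIdeal, mem_nonunits_iff]
    intro hu
    obtain ⟨y, hy⟩ := hu.exists_right_inv
    obtain ⟨z, rfl⟩ := Ideal.Quotient.mk_surjective y
    have h2 : x * z - 1 ∈ I := by
      rw [← Ideal.Quotient.eq_zero_iff_mem, map_sub, map_mul, map_one, hy, sub_self]
    have h3 : x * z - 1 ∈ maximalIdeal B := hI h2
    have h4 : (1 : B) ∈ maximalIdeal B := by
      have h5 := Ideal.sub_mem _ (Ideal.mul_mem_right z _ hx) h3
      rwa [sub_sub_cancel] at h5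
    exact (maximalIdeal.isMaximal B).ne_top ((Ideal.eq_top_iff_one _).2 h4)
  have h6 : (maximalIdeal B ^ k).map (Ideal.Quotient.mk I) ≤ ⊥ := by
    rw [Ideal.map_pow]
    calc ((maximalIdeal B).map (Ideal.Quotient.mk I)) ^ k ≤ maximalIdeal (B ⧸ I) ^ k :=
          Ideal.pow_right_mono h1 k
      _ = ⊥ := hk
  rw [Ideal.map_le_iff_le_comap] at h6
  intro x hx
  have h7 := h6 hx
  rw [Ideal.mem_comap, Ideal.mem_bot, Ideal.Quotient.eq_zero_iff_mem] at h7
  exact h7

/-- the irrelevant ideal is generated by finitely many homogeneous elements of positive degree -/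
private theorem QDG_gen {K A : Type} [Field K] [CommRing A] [Algebra K A] [IsNoetherianRing A]
    (𝒜 : ℕ → Submodule K A) [GradedAlgebra 𝒜] (m : Ideal A)
    (hm : ∀ a, a ∈ m ↔ GradedRing.proj 𝒜 0 a = 0) :
    ∃ G : Finset A, m = Ideal.span (G : Set A) ∧ ∀ g ∈ G, ∃ w : ℕ, 0 < w ∧ g ∈ 𝒜 w := by
  classical
  obtain ⟨S, hS⟩ := (isNoetherianRing_iff_ideal_fg A).1 inferInstance m
  refine ⟨S.biUnion fun s => (DirectSum.decompose 𝒜 s).support.image
    fun i => (DirectSum.decompose 𝒜 s i : A), ?_, ?_⟩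
  · refine le_antisymm ?_ ?_
    · rw [← hS]
      refine Ideal.span_le.2 fun s hs => ?_
      rw [SetLike.mem_coe, ← DirectSum.sum_support_decompose 𝒜 s]
      refine Ideal.sum_mem _ fun i hi => Ideal.subset_span ?_
      exact Finset.mem_coe.2 (Finset.mem_biUnion.2 ⟨s, hs, Finset.mem_image.2 ⟨i, hi, rfl⟩⟩)
    · refine Ideal.span_le.2 fun g hg => ?_
      obtain ⟨s, hs, hg'⟩ := Finset.mem_biUnion.1 (Finset.mem_coe.1 hg)
      obtain ⟨i, hi, rfl⟩ := Finset.mem_image.1 hg'
      have hsm : s ∈ m := hS ▸ Ideal.subset_span hs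
      have h0 : (DirectSum.decompose 𝒜 s 0 : A) = 0 := by
        rw [← GradedRing.proj_apply]
        exact (hm s).1 hsm
      rw [SetLike.mem_coe, hm, GradedRing.proj_apply]
      by_cases hi0 : i = 0
      · subst hi0
        rw [h0, DirectSum.decompose_zero]
        simp
      · exact DirectSum.decompose_of_mem_ne 𝒜 (DirectSum.decompose 𝒜 s i).2 hi0
  · intro g hg
    obtain ⟨s, hs, hg'⟩ := Finset.mem_biUnion.1 hg
    obtain ⟨i, hi, rfl⟩ := Finset.mem_image.1 hg'
    have hsm : s ∈ m := hS ▸ Ideal.subset_span hs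
    have h0 : (DirectSum.decompose 𝒜 s 0 : A) = 0 := by
      rw [← GradedRing.proj_apply]
      exact (hm s).1 hsm
    refine ⟨i, Nat.pos_of_ne_zero ?_, (DirectSum.decompose 𝒜 s i).2⟩
    rintro rfl
    have h1 := DFinsupp.mem_support_iff.1 hi
    exact h1 (Subtype.ext h0)

theorem thm_QDG (hHSQ : St_HSQ) (hGII : St_GII) (hLDR : St_LDR) (hEUL : St_EUL)
    (hQDF : St_QDF) : St_QDG := by
  classical
  intro K A _ _ _ _ 𝒜 _ h0 m _ hm xs hG
  obtain ⟨L₀, hL₀, hlen, hreg⟩ := hHSQ K A 𝒜 m hm xs hG.mem hG.reg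
  obtain ⟨DA, hDA⟩ := hEUL K A 𝒜
  obtain ⟨D, hD⟩ := hLDR K A m.primeCompl DA
  obtain ⟨G, hGm, hGw⟩ := QDG_gen 𝒜 m hm
  have hN : IsNoetherianRing (Localization.AtPrime m) :=
    IsLocalization.isNoetherianRing m.primeCompl _ inferInstance
  -- homogeneous elements of positive degree
  have hpos : ∀ (w : ℕ) (a : A), 0 < w → a ∈ 𝒜 w → a ∈ m := by
    intro w a hw ha
    rw [hm, GradedRing.proj_apply]
    exact DirectSum.decompose_of_mem_ne 𝒜 ha hw.ne'
  have hmax : ∀ a : A, a ∈ m →
      algebraMap A (Localization.AtPrime m) a ∈ maximalIdeal (Localization.AtPrime m) := by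
    intro a ha
    rw [← Localization.AtPrime.map_eq_maximalIdeal]
    exact Ideal.mem_map_of_mem _ ha
  have hDe : ∀ (w : ℕ) (a : A), a ∈ 𝒜 w → D (algebraMap A (Localization.AtPrime m) a) =
      (w : Localization.AtPrime m) * algebraMap A (Localization.AtPrime m) a := by
    intro w a ha
    rw [hD, hDA w a ha, map_mul, map_natCast]
  set L : List (Localization.AtPrime m × ℕ) :=
    L₀.map fun p => (algebraMap A (Localization.AtPrime m) p.1, p.2) with hL
  have hel : el L = L₀.map fun p => algebraMap A (Localization.AtPrime m) p.1 := by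
    rw [hL, el, List.map_map]
    rfl
  have hLm : ∀ p ∈ L, p.1 ∈ maximalIdeal (Localization.AtPrime m) := by
    intro p hp
    obtain ⟨q, hq, rfl⟩ := List.mem_map.1 hp
    exact hmax _ (hpos _ _ (hL₀ q hq).1 (hL₀ q hq).2)
  have helm : ∀ x ∈ el L, x ∈ maximalIdeal (Localization.AtPrime m) := by
    intro x hx
    obtain ⟨p, hp, rfl⟩ := List.mem_map.1 hx
    exact hLm p hp
  have hrg : Rg (Localization.AtPrime m) (el L) (Localization.AtPrime m) := by
    rw [hel]
    exact hreg
  have hgor : GorL (Localization.AtPrime m) (el L) := by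
    refine hGII (Localization.AtPrime m) xs (el L) hG helm ?_ hrg
    rw [hel, List.length_map, hlen]
  have hle : idl L ≤ maximalIdeal (Localization.AtPrime m) := by
    refine Ideal.span_le.2 ?_
    intro x hx
    exact helm x hx
  obtain ⟨k, hk⟩ := QDG_nil (idl L) hle hgor.art
  -- the residue field
  have hres : ∀ b : Localization.AtPrime m, ∃ c : K,
      b - algebraMap K (Localization.AtPrime m) c ∈ maximalIdeal (Localization.AtPrime m) := by
    intro b
    obtain ⟨⟨a, s⟩, has⟩ := IsLocalization.surj m.primeCompl b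
    have hs : (s : A) ∉ m := s.2
    obtain ⟨ca, hca⟩ := h0 _ (DirectSum.decompose 𝒜 a 0).2
    obtain ⟨cs, hcs⟩ := h0 _ (DirectSum.decompose 𝒜 (s : A) 0).2
    have hcs0 : cs ≠ 0 := by
      rintro rfl
      refine hs ?_
      rw [hm, GradedRing.proj_apply, ← hcs, map_zero]
    have hmem : a - algebraMap K A (ca / cs) * s ∈ m := by
      rw [hm, ← Algebra.smul_def, GradedRing.proj_apply, DirectSum.decompose_sub,
        DirectSum.decompose_smul, DirectSum.sub_apply, DirectSum.smul_apply, Submodule.coe_sub,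
        Submodule.coe_smul, ← hca, ← hcs, Algebra.smul_def, ← map_mul,
        div_mul_cancel₀ _ hcs0, sub_self]
    refine ⟨ca / cs, ?_⟩
    have hu : IsUnit (algebraMap A (Localization.AtPrime m) s) :=
      IsLocalization.map_units _ s
    have h1 : (b - algebraMap K (Localization.AtPrime m) (ca / cs)) *
        algebraMap A (Localization.AtPrime m) s ∈ maximalIdeal (Localization.AtPrime m) := by
      have h2 := hmax _ hmem
      rw [map_sub, map_mul, ← IsScalarTower.algebraMap_apply K A (Localization.AtPrime m),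
        ← has, ← sub_mul] at h2
      exact h2
    exact (Ideal.mul_unit_mem_iff_mem _ hu).1 h1
  have hspan : maximalIdeal (Localization.AtPrime m) =
      Ideal.span ((G.image (algebraMap A (Localization.AtPrime m)) :
        Finset (Localization.AtPrime m)) : Set (Localization.AtPrime m)) := by
    rw [Finset.coe_image, ← Ideal.map_span, ← hGm, Localization.AtPrime.map_eq_maximalIdeal]
  have hw : ∀ g ∈ G.image (algebraMap A (Localization.AtPrime m)), ∃ w : ℕ, 0 < w ∧
      D g = (w : Localization.AtPrime m) * g := by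
    intro g hg
    obtain ⟨a, ha, rfl⟩ := Finset.mem_image.1 hg
    obtain ⟨w, hw0, hwa⟩ := hGw a ha
    exact ⟨w, hw0, hDe w a hwa⟩
  obtain ⟨h1, h2, h3⟩ := hQDF K (Localization.AtPrime m) D
    (G.image (algebraMap A (Localization.AtPrime m))) (idl L) k hres hspan hw hk
  exact ⟨D, L,
    { max := h1
      res := hres
      mem := hLm
      pos := by
        intro p hp
        obtain ⟨q, hq, rfl⟩ := List.mem_map.1 hp
        exact (hL₀ q hq).1
      eig := by
        intro p hp
        obtain ⟨q, hq, rfl⟩ := List.mem_map.1 hp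
        exact hDe _ _ (hL₀ q hq).2
      reg := hrg
      irr := hgor.irr
      fin := h2
      wt := h3 }⟩

end Pool.Agent.ARD
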