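import Pool.Agent.ARD.StI
import Pool.Agent.ARD.FLE

/-! Module QXR of ARD: change of rings modulo a regular element. -/

set_option autoImplicit false

namespace Pool.Agent.ARD

open ARS IsLocalRing TensorProduct

section

variable {R X M F : Type} [CommRing R] [AddCommGroup X] [Module R X] [AddCommGroup M]
  [Module R M] [AddCommGroup F] [Module R F]

private theorem QXR_surj (x : R) (Z : Type) [AddCommGroup Z] [Module R Z] :
    Function.Surjective (TensorProduct.mk R (R ⧸ Ideal.span {x}) Z 1) :=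
  TensorProduct.mk_surjective _ _ _ Ideal.Quotient.mk_surjective

private theorem QXR_inj (x : R) (p : F →ₗ[R] X) (hX : ∀ v : X, x • v = 0 → v = 0) :
    Function.Injective ((LinearMap.ker p).subtype.baseChange (R ⧸ Ideal.span {x})) := by
  rw [injective_iff_map_eq_zero]
  intro t ht
  obtain ⟨z, rfl⟩ := QXR_surj x (LinearMap.ker p) t
  have h1 : (1 : R ⧸ Ideal.span {x}) ⊗ₜ[R] (z : F) = 0 := ht
  have h2 := congrArg (TensorProduct.quotTensorEquivQuotSMul F (Ideal.span {x})) h1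
  have h3 : (1 : R ⧸ Ideal.span {x}) = Ideal.Quotient.mk (Ideal.span {x}) 1 := rfl
  rw [map_zero, h3, TensorProduct.quotTensorEquivQuotSMul_mk_tmul, one_smul,
    Submodule.Quotient.mk_eq_zero, Submodule.ideal_span_singleton_smul,
    Submodule.mem_smul_pointwise_iff_exists] at h2
  obtain ⟨w, -, hw⟩ := h2
  have hwk : w ∈ LinearMap.ker p := by
    rw [LinearMap.mem_ker]
    apply hX
    rw [← map_smul, hw]
    exact LinearMap.mem_ker.1 z.2
  have h4 : z = x • (⟨w, hwk⟩ : LinearMap.ker p) := Subtype.ext hw.symm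
  show (1 : R ⧸ Ideal.span {x}) ⊗ₜ[R] z = 0
  rw [h4, TensorProduct.tmul_smul, TensorProduct.smul_tmul', Algebra.smul_def]
  have h5 : algebraMap R (R ⧸ Ideal.span {x}) x = 0 :=
    Ideal.Quotient.eq_zero_iff_mem.2 (Ideal.mem_span_singleton_self x)
  rw [h5, zero_mul, TensorProduct.zero_tmul]

private theorem QXR_kb (x : R) (p : F →ₗ[R] X) (hp : Function.Surjective p)
    (hX : ∀ v : X, x • v = 0 → v = 0) :
    ∃ e : ((R ⧸ Ideal.span {x}) ⊗[R] LinearMap.ker p) ≃ₗ[R ⧸ Ideal.span {x}]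
        LinearMap.ker (p.baseChange (R ⧸ Ideal.span {x})),
      ∀ z, (e z : (R ⧸ Ideal.span {x}) ⊗[R] F) =
        ((LinearMap.ker p).subtype.baseChange (R ⧸ Ideal.span {x})) z := by
  have hi := QXR_inj x p hX
  have hx : LinearMap.range ((LinearMap.ker p).subtype.baseChange (R ⧸ Ideal.span {x})) =
      LinearMap.ker (p.baseChange (R ⧸ Ideal.span {x})) := by
    have h1 : Function.Exact ((LinearMap.ker p).subtype.lTensor (R ⧸ Ideal.span {x}))
        (p.lTensor (R ⧸ Ideal.span {x})) :=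
      lTensor_exact _ (LinearMap.exact_subtype_ker_map p) hp
    ext z
    exact (h1 z).symm
  exact ⟨(LinearEquiv.ofInjective _ hi).trans (LinearEquiv.ofEq _ _ hx), fun z => rfl⟩

private theorem QXR_bc (x : R) [Module (R ⧸ Ideal.span {x}) M]
    [IsScalarTower R (R ⧸ Ideal.span {x}) M] (p : F →ₗ[R] X) (hp : Function.Surjective p)
    (hX : ∀ v : X, x • v = 0 → v = 0) (h : FLE_E p M) :
    FLE_E (p.baseChange (R ⧸ Ideal.span {x})) M := by
  intro ψ
  obtain ⟨e, he⟩ := QXR_kb x p hp hX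
  let θ : ((R ⧸ Ideal.span {x}) ⊗[R] LinearMap.ker p) →ₗ[R ⧸ Ideal.span {x}] M :=
    ψ.comp (e : ((R ⧸ Ideal.span {x}) ⊗[R] LinearMap.ker p) →ₗ[R ⧸ Ideal.span {x}] _)
  obtain ⟨Φ, hΦ⟩ := h ((LinearMap.liftBaseChangeEquiv (R ⧸ Ideal.span {x})).symm θ)
  refine ⟨Φ.liftBaseChange (R ⧸ Ideal.span {x}), fun k => ?_⟩
  obtain ⟨z, rfl⟩ := e.surjective k
  rw [he]
  obtain ⟨z0, rfl⟩ := QXR_surj x (LinearMap.ker p) z
  show Φ.liftBaseChange (R ⧸ Ideal.span {x}) ((1 : R ⧸ Ideal.span {x}) ⊗ₜ[R] (z0 : F)) = _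
  rw [LinearMap.liftBaseChange_one_tmul, hΦ]
  rfl

end

/-- [QXR] Change of rings modulo a regular element. -/
theorem thm_QXR : St_QXR := by
  intro R _ _ x X M _ _ _ _ _ _ _ hx hX hE k
  suffices H : ∀ (k : ℕ) (X : Type) [AddCommGroup X] [Module R X] [Module.Finite R X],
      (∀ v : X, x • v = 0 → v = 0) → EA R X M → ∀ (Y : Type) [AddCommGroup Y]
        [Module (R ⧸ Ideal.span {x}) Y],
        FLE_R (R ⧸ Ideal.span {x}) Y ((R ⧸ Ideal.span {x}) ⊗[R] X) →
        ExtAll (R ⧸ Ideal.span {x}) M k Y from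
    H k X hX hE _ ⟨PUnit, inferInstance, inferInstance, PUnit, inferInstance, inferInstance,
      inferInstance, inferInstance, ⟨LinearEquiv.refl _ _⟩⟩
  intro k
  induction k with
  | zero => intros; trivial
  | succ k ih =>
    intro X _ _ _ hX hE Y _ _ hR
    obtain ⟨n, p, hp⟩ := Module.Finite.exists_fin' R X
    have h1 : FLE_E (p.baseChange (R ⧸ Ideal.span {x})) M :=
      QXR_bc x p hp hX ((hE 1).1 n p hp)
    have hs : Function.Surjective (p.baseChange (R ⧸ Ideal.span {x})) :=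
      LinearMap.lTensor_surjective _ hp
    refine ⟨fun m q hq => FLE_ext _ q hs hq hR h1, fun m q hq => ?_⟩
    obtain ⟨e, _⟩ := QXR_kb x p hp hX
    refine ih (LinearMap.ker p) ?_ (fun j => (hE (j + 1)).2 n p hp) _
      (FLE_trans (FLE_syz _ q hs hq hR) e.symm)
    intro v hv
    apply Subtype.ext
    funext i
    have h2 : x • (v : Fin n → R) = 0 := congrArg Subtype.val hv
    exact hx _ (congrFun h2 i)

end Pool.Agent.ARD
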