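import Pool.Agent.ARD.StI

/-! [RDF] (ARC) for the localisations of a reduced ring at its associated primes, which are fields
(helper26, for helper9's ARD). -/

set_option autoImplicit false

namespace Pool.Agent.ARD

open ARS IsLocalRing

private theorem RDF_free (K : Type) [CommRing K] (h : IsField K) (M : Type) [AddCommGroup M]
    [Module K M] : Module.Free K M := by
  letI := h.toField
  exact Module.Free.of_divisionRing K M

theorem thm_RDF : St_RDF := by
  intro R _ _ _ P hP hA M _ _ _ _ _
  refine RDF_free _ ?_ M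
  obtain ⟨-, x, hx⟩ := isAssociatedPrime_iff.1 hA
  have hmem : ∀ a, a ∈ P ↔ a * x = 0 := by
    intro a
    rw [hx, Submodule.mem_colon_singleton, Submodule.mem_bot, smul_eq_mul]
  have hx0 : x ∉ P := by
    intro h
    have h1 : x * x = 0 := (hmem x).1 h
    have h2 : x = 0 := by
      have h3 : x ^ 2 = 0 := by rw [pow_two, h1]
      exact pow_eq_zero_iff (two_ne_zero) |>.1 h3
    exact hP.ne_top ((Ideal.eq_top_iff_one _).2 ((hmem 1).2 (by rw [h2, mul_zero])))
  rw [IsLocalRing.isField_iff_maximalIdeal_eq, ← Localization.AtPrime.map_eq_maximalIdeal,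
    Ideal.map_eq_bot_iff_le_ker]
  intro a ha
  rw [RingHom.mem_ker]
  exact (IsLocalization.map_eq_zero_iff P.primeCompl _ a).2
    ⟨⟨x, hx0⟩, by rw [mul_comm]; exact (hmem a).1 ha⟩

end Pool.Agent.ARD
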