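import Pool.Agent.ARD.StN

/-! helper8, module REG: the dual of a regular module is regular, and regularity is invariant
under isomorphisms. -/

set_option autoImplicit false

namespace Pool.Agent.ARD

open ARS IsLocalRing

theorem thm_REG (hDUA : St_DUA) (hHMR : St_HMR) : St_REG := by
  intro R _ _ _ xs hG A B _ _ _ _ _
  refine ⟨fun hA => ?_, fun e hA => ?_⟩
  · exact (hHMR R xs A R hG.reg (hDUA R xs hG A hA)).1
  · exact (LinearEquiv.isWeaklyRegular_congr e xs).1 hA

end Pool.Agent.ARD
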