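import Pool.Agent.ARD.StN

/-!
# ARD [REXd]: reduction modulo a regular sequence is exact
-/

set_option autoImplicit false

namespace Pool.Agent.ARD

open ARS IsLocalRing

section

variable {K R : Type} [Field K] [CommRing R] [Algebra K R] {D : Derivation K R R}

private theorem REXd_le {A B : NM D} (f : A.X →ₗ[R] B.X) (I : Ideal R) :
    (I • ⊤ : Submodule R A.X) ≤ (I • ⊤ : Submodule R B.X).comap f := by
  intro x hx
  rw [Submodule.mem_comap]
  refine Submodule.smul_induction_on hx ?_ ?_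
  · intro r hr q _
    rw [map_smul]
    exact Submodule.smul_mem_smul hr trivial
  · intro u v hu hv
    rw [map_add]
    exact Submodule.add_mem _ hu hv

private theorem REXd_lift {B C : NM D} (g : B.X →ₗ[R] C.X) (hg : Function.Surjective g)
    (I : Ideal R) (c : C.X) (hc : c ∈ (I • ⊤ : Submodule R C.X)) :
    ∃ w ∈ (I • ⊤ : Submodule R B.X), g w = c := by
  refine Submodule.smul_induction_on hc ?_ ?_
  · intro r hr q _
    obtain ⟨w, rfl⟩ := hg q
    exact ⟨r • w, Submodule.smul_mem_smul hr trivial, map_smul g r w⟩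
  · rintro u v ⟨w, hw, rfl⟩ ⟨w', hw', rfl⟩
    exact ⟨w + w', Submodule.add_mem _ hw hw', map_add g w w'⟩

private theorem REXd_zero (A : NM D) (I : Ideal R) (x : A.X) :
    (I • ⊤ : Submodule R A.X).mkQ x = 0 ↔ x ∈ (I • ⊤ : Submodule R A.X) := by
  rw [Submodule.mkQ_apply, Submodule.Quotient.mk_eq_zero]

end

theorem thm_REXd (hRSQ : St_RSQ) : St_REXd := by
  intro K R _ _ _ D xs hI A B C hE hreg
  obtain ⟨f, g, h1, h2, h3, h4, h5⟩ := hE
  have hinj : Function.Injective (Submodule.mapQ (Ideal.ofList xs • ⊤ : Submodule R A.X)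
      (Ideal.ofList xs • ⊤ : Submodule R B.X) f (REXd_le f (Ideal.ofList xs))) := by
    rw [injective_iff_map_eq_zero]
    intro u hu
    obtain ⟨u, rfl⟩ := (Ideal.ofList xs • ⊤ : Submodule R A.X).mkQ_surjective u
    have hu' : (Ideal.ofList xs • ⊤ : Submodule R B.X).mkQ (f u) = 0 := hu
    rw [REXd_zero] at hu'
    rw [REXd_zero]
    exact (hRSQ R A.X B.X C.X f g h1 h2 h3 xs).1 hreg u hu'
  refine ⟨Submodule.mapQ _ _ f (REXd_le f (Ideal.ofList xs)),
    Submodule.mapQ _ _ g (REXd_le g (Ideal.ofList xs)), hinj, ?_, ?_, ?_, ?_⟩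
  · intro c
    obtain ⟨c, rfl⟩ := (Ideal.ofList xs • ⊤ : Submodule R C.X).mkQ_surjective c
    obtain ⟨v, rfl⟩ := h2 c
    exact ⟨(Ideal.ofList xs • ⊤ : Submodule R B.X).mkQ v, rfl⟩
  · intro v
    obtain ⟨v, rfl⟩ := (Ideal.ofList xs • ⊤ : Submodule R B.X).mkQ_surjective v
    constructor
    · intro hv
      have hv' : (Ideal.ofList xs • ⊤ : Submodule R C.X).mkQ (g v) = 0 := hv
      rw [REXd_zero] at hv'
      obtain ⟨w, hw, hc⟩ := REXd_lift g h2 (Ideal.ofList xs) (g v) hv'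
      have h6 : g (v - w) = 0 := by
        rw [map_sub, hc, sub_self]
      obtain ⟨u, hu⟩ := (h3 _).1 h6
      refine ⟨(Ideal.ofList xs • ⊤ : Submodule R A.X).mkQ u, ?_⟩
      show (Ideal.ofList xs • ⊤ : Submodule R B.X).mkQ (f u) =
        (Ideal.ofList xs • ⊤ : Submodule R B.X).mkQ v
      rw [hu, map_sub, sub_eq_self, REXd_zero]
      exact hw
    · rintro ⟨u, hu⟩
      obtain ⟨u, rfl⟩ := (Ideal.ofList xs • ⊤ : Submodule R A.X).mkQ_surjective u
      rw [← hu]
      show (Ideal.ofList xs • ⊤ : Submodule R C.X).mkQ (g (f u)) = 0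
      rw [(h3 (f u)).2 ⟨u, rfl⟩, map_zero]
  · intro u
    obtain ⟨u, rfl⟩ := (Ideal.ofList xs • ⊤ : Submodule R A.X).mkQ_surjective u
    show (Ideal.ofList xs • ⊤ : Submodule R B.X).mkQ (f (A.N u)) =
      (Ideal.ofList xs • ⊤ : Submodule R B.X).mkQ (B.N (f u))
    rw [h4]
  · intro v
    obtain ⟨v, rfl⟩ := (Ideal.ofList xs • ⊤ : Submodule R B.X).mkQ_surjective v
    show (Ideal.ofList xs • ⊤ : Submodule R C.X).mkQ (g (B.N v)) =
      (Ideal.ofList xs • ⊤ : Submodule R C.X).mkQ (C.N (g v))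
    rw [h5]

end Pool.Agent.ARD
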