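import Pool.Agent.ARD.StC

/-! [RSQ] Regular sequences in an exact sequence (helper74, for helper9's ARD). -/

set_option autoImplicit false

namespace Pool.Agent.ARD

open ARS
open scoped Pointwise

section

variable {R : Type} [CommRing R]

private theorem RSQ_mk {M : Type} [AddCommGroup M] [Module R M] (y : R) (m : M) :
    (y • (⊤ : Submodule R M)).mkQ m = 0 ↔ ∃ w, y • w = m := by
  rw [Submodule.mkQ_apply, Submodule.Quotient.mk_eq_zero, Submodule.mem_smul_pointwise_iff_exists]
  constructor
  · rintro ⟨w, _, hw⟩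
    exact ⟨w, hw⟩
  · rintro ⟨w, hw⟩
    exact ⟨w, trivial, hw⟩

private theorem RSQ_mem {M : Type} [AddCommGroup M] [Module R M] (y : R) (ys : List R) (m : M) :
    m ∈ (Ideal.ofList (y :: ys) • ⊤ : Submodule R M) ↔
      (y • (⊤ : Submodule R M)).mkQ m ∈
        (Ideal.ofList ys • ⊤ : Submodule R (QuotSMulTop y M)) := by
  let e := Submodule.quotOfListConsSMulTopEquivQuotSMulTopInner M y ys
  have h1 : e ((Ideal.ofList (y :: ys) • ⊤ : Submodule R M).mkQ m) =
      (Ideal.ofList ys • ⊤ : Submodule R (QuotSMulTop y M)).mkQ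
        ((y • (⊤ : Submodule R M)).mkQ m) := rfl
  rw [← Submodule.Quotient.mk_eq_zero, ← Submodule.mkQ_apply, ← e.map_eq_zero_iff, h1,
    Submodule.mkQ_apply, Submodule.Quotient.mk_eq_zero]

variable {A B C : Type} [AddCommGroup A] [Module R A] [AddCommGroup B] [Module R B]
  [AddCommGroup C] [Module R C]

private theorem RSQ_inj (f : A →ₗ[R] B) (g : B →ₗ[R] C) (hf : Function.Injective f)
    (hfg : ∀ v, g v = 0 ↔ ∃ u, f u = v) {y : R}
    (hy : IsSMulRegular C y) :
    Function.Injective (QuotSMulTop.map y f) := by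
  rw [injective_iff_map_eq_zero]
  intro a ha
  obtain ⟨u, rfl⟩ := Submodule.mkQ_surjective (y • (⊤ : Submodule R A)) a
  have h1 : (y • (⊤ : Submodule R B)).mkQ (f u) = 0 := ha
  obtain ⟨w, hw⟩ := (RSQ_mk y _).1 h1
  have h2 : g w = 0 := by
    have h3 : y • g w = y • (0 : C) := by
      rw [← map_smul, hw, smul_zero]
      exact (hfg _).2 ⟨u, rfl⟩
    exact hy h3
  obtain ⟨u', hu'⟩ := (hfg w).1 h2
  refine (RSQ_mk y _).2 ⟨u', hf ?_⟩
  rw [map_smul, hu', hw]

private theorem RSQ_ex (f : A →ₗ[R] B) (g : B →ₗ[R] C)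
    (hg : Function.Surjective g) (hfg : ∀ v, g v = 0 ↔ ∃ u, f u = v) (y : R) :
    ∀ v, QuotSMulTop.map y g v = 0 ↔ ∃ u, QuotSMulTop.map y f u = v := by
  have h : Function.Exact f g := fun v => by
    rw [hfg v]
    rfl
  intro v
  rw [QuotSMulTop.map_exact y h hg v]
  rfl

end

theorem thm_RSQ : St_RSQ := by
  intro R _ A B C _ _ _ _ _ _ f g hf hg hfg xs
  refine ⟨?_, ?_, ?_, ?_, ?_⟩
  · induction xs generalizing A B C with
    | nil =>
      intro _ u hu
      rw [Ideal.ofList_nil, Submodule.bot_smul, Submodule.mem_bot] at hu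
      have h0 : u = 0 := hf (by rw [hu, map_zero])
      rw [h0]
      exact Submodule.zero_mem _
    | cons y ys ih =>
      intro hC u hu
      obtain ⟨hy, hys⟩ := (RingTheory.Sequence.isWeaklyRegular_cons_iff C y ys).1 hC
      rw [RSQ_mem]
      refine ih (QuotSMulTop y A) (QuotSMulTop y B) (QuotSMulTop y C) (QuotSMulTop.map y f)
        (QuotSMulTop.map y g) (RSQ_inj f g hf hfg hy) (QuotSMulTop.map_surjective y hg)
        (RSQ_ex f g hg hfg y) hys _ ?_
      exact (RSQ_mem y ys (f u)).1 hu
  · induction xs generalizing A B C with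
    | nil =>
      intro _ _
      exact RingTheory.Sequence.IsWeaklyRegular.nil _ _
    | cons y ys ih =>
      intro hA hC
      obtain ⟨hy, hys⟩ := (RingTheory.Sequence.isWeaklyRegular_cons_iff C y ys).1 hC
      obtain ⟨hyA, hysA⟩ := (RingTheory.Sequence.isWeaklyRegular_cons_iff A y ys).1 hA
      refine (RingTheory.Sequence.isWeaklyRegular_cons_iff B y ys).2 ⟨?_, ?_⟩
      · have h : LinearMap.range f = LinearMap.ker g := by
          ext v
          rw [LinearMap.mem_ker, hfg v]
          rfl
        exact isSMulRegular_of_range_eq_ker hf h hyA hy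
      · exact ih (QuotSMulTop y A) (QuotSMulTop y B) (QuotSMulTop y C) (QuotSMulTop.map y f)
          (QuotSMulTop.map y g) (RSQ_inj f g hf hfg hy) (QuotSMulTop.map_surjective y hg)
          (RSQ_ex f g hg hfg y) hysA hys
  · induction xs generalizing A B C with
    | nil =>
      intro _ _
      exact RingTheory.Sequence.IsWeaklyRegular.nil _ _
    | cons y ys ih =>
      intro hB hC
      obtain ⟨hy, hys⟩ := (RingTheory.Sequence.isWeaklyRegular_cons_iff C y ys).1 hC
      obtain ⟨hyB, hysB⟩ := (RingTheory.Sequence.isWeaklyRegular_cons_iff B y ys).1 hB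
      refine (RingTheory.Sequence.isWeaklyRegular_cons_iff A y ys).2 ⟨?_, ?_⟩
      · intro a b hab
        refine hf (hyB ?_)
        have hab' : y • a = y • b := hab
        show y • f a = y • f b
        rw [← map_smul, hab', map_smul]
      · exact ih (QuotSMulTop y A) (QuotSMulTop y B) (QuotSMulTop y C) (QuotSMulTop.map y f)
          (QuotSMulTop.map y g) (RSQ_inj f g hf hfg hy) (QuotSMulTop.map_surjective y hg)
          (RSQ_ex f g hg hfg y) hysB hys
  · intro z
    induction xs generalizing A B C with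
    | nil =>
      intro _ hB
      rw [List.nil_append] at hB ⊢
      have h := (RingTheory.Sequence.isWeaklyRegular_singleton_iff B z).1 hB
      refine (RingTheory.Sequence.isWeaklyRegular_singleton_iff A z).2 ?_
      intro a b hab
      refine hf (h ?_)
      have hab' : z • a = z • b := hab
      show z • f a = z • f b
      rw [← map_smul, hab', map_smul]
    | cons y ys ih =>
      intro hC hB
      rw [List.cons_append] at hB ⊢
      obtain ⟨hy, hys⟩ := (RingTheory.Sequence.isWeaklyRegular_cons_iff C y ys).1 hC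
      obtain ⟨hyB, hysB⟩ := (RingTheory.Sequence.isWeaklyRegular_cons_iff B y (ys ++ [z])).1 hB
      refine (RingTheory.Sequence.isWeaklyRegular_cons_iff A y (ys ++ [z])).2 ⟨?_, ?_⟩
      · intro a b hab
        refine hf (hyB ?_)
        have hab' : y • a = y • b := hab
        show y • f a = y • f b
        rw [← map_smul, hab', map_smul]
      · exact ih (QuotSMulTop y A) (QuotSMulTop y B) (QuotSMulTop y C) (QuotSMulTop.map y f)
          (QuotSMulTop.map y g) (RSQ_inj f g hf hfg hy) (QuotSMulTop.map_surjective y hg)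
          (RSQ_ex f g hg hfg y) hys hysB
  · intro h n
    have h1 := RingTheory.Sequence.IsWeaklyRegular.isWeaklyRegular_lTensor (M₂ := Fin n → R) h
    exact (LinearEquiv.isWeaklyRegular_congr (TensorProduct.rid R (Fin n → R)) xs).1 h1

end Pool.Agent.ARD
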