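import Pool.Agent.ARD.StN

/-!
# ARD / STPd : one step of the resolution, any dimension
-/

set_option autoImplicit false

namespace Pool.Agent.ARD

open ARS IsLocalRing

/-- [STPd] One step of the resolution. -/
theorem thm_STPd (hRFNd : St_RFNd) (hREXd : St_REXd) (hRSQ : St_RSQ) (hCOVd : St_COVd)
    (hSUPd : St_SUPd) (hCHFd : St_CHFd) (hHMR : St_HMR) (hISO : ARS.St_ISO) (hHEX : ARS.St_HEX)
    (hADD : ARS.St_ADD) : St_STPd := by
  intro K R _ _ _ _ _ _ D L h A M hAf hAt hMf hMt hExt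
  obtain ⟨n, a, a0, p, hp, hpN, hpm, haa⟩ := hCOVd K R D h.res A hAf
  let F : NM D := (NM.one D).pow a
  have hker : ∀ x ∈ LinearMap.ker p, ((NM.one D).pow a).N x ∈ LinearMap.ker p := by
    intro x hx
    have hx' : p x = 0 := hx
    show p (((NM.one D).pow a).N x) = 0
    rw [hpN, hx', map_zero]
  let B : NM D := F.sub (LinearMap.ker p) hker
  -- finiteness, regularity
  have hFf : Module.Finite R F.X := by
    show Module.Finite R (Fin n → R)
    infer_instance
  have hBf : Module.Finite R B.X := by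
    show Module.Finite R (LinearMap.ker p)
    infer_instance
  -- the exact sequence
  let f : B.X →ₗ[R] F.X := (LinearMap.ker p).subtype
  let g : F.X →ₗ[R] A.X := p
  have hE : IsEx f g :=
    { inj := Subtype.val_injective
      surj := hp
      exact := by
        intro v
        constructor
        · intro hv
          exact ⟨⟨v, hv⟩, rfl⟩
        · rintro ⟨u, rfl⟩
          exact u.2
      eqf := fun u => rfl
      eqg := hpN }
  have hr := hRSQ R B.X F.X A.X f g hE.inj hE.surj hE.exact (el L)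
  have hFt : Rg R (el L) F.X := hr.2.2.2.2 h.reg n
  have hBt : Rg R (el L) B.X := hr.2.2.1 hFt hAt
  have hEB : EA R B.X M.X := fun k => (hExt (k + 1)).2 n p hp
  have hD0 : D (0 : R) = ((0 : ℕ) : R) * 0 := by
    rw [map_zero, mul_zero]
  have iso := fun A B C : NM D => hISO K R D 0 0 hD0 A B C
  have hE1 : Ex B F A := (iso B F A).2.2.2.2.2.2.1 f g hE
  have hE2 : Ex (rd B h.stab) (rd F h.stab) (rd A h.stab) :=
    hREXd K R D (el L) h.stab B F A hE1 hAt
  have hH : Ex (A.hom M) (F.hom M) (B.hom M) := hHEX K R D B F A M f g hE (by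
    intro ψ
    obtain ⟨φ, hφ⟩ := (hExt 1).1 n p hp ψ
    exact ⟨φ, hφ⟩)
  have hBM : Rg R (el L) (B.hom M).X := (hHMR R (el L) B.X M.X hMt hEB).1
  have hH2 : Ex (rd (A.hom M) h.stab) (rd (F.hom M) h.stab) (rd (B.hom M) h.stab) :=
    hREXd K R D (el L) h.stab _ _ _ hH hBM
  have rfn := fun A B : NM D => hRFNd K R D (idl L) h.stab h.fin A B
  have e1 : (rd F h.stab).ch = (rd B h.stab).ch + (rd A h.stab).ch :=
    ((hADD.2 K _ _ _ _ _ _ ((iso _ _ _).2.2.2.2.2.1 hE2)).1 ((rfn F F).1 hFf)).2.2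
  have e2 : (rd (F.hom M) h.stab).ch = (rd (A.hom M) h.stab).ch + (rd (B.hom M) h.stab).ch :=
    ((hADD.2 K _ _ _ _ _ _ ((iso _ _ _).2.2.2.2.2.1 hH2)).1
      ((rfn (F.hom M) F).1 ((rfn F M).2.1 hFf hMf))).2.2
  obtain ⟨c1, c2⟩ := hCHFd K R D L h M hMf n a a0 haa
  refine ⟨B, hBf, hBt, ?_, ?_, hEB⟩
  · have e3 : (rd (A.hom M) h.stab).ch =
        iv (ch (Matrix.toLin' a0)) * (rd M h.stab).ch - (rd (B.hom M) h.stab).ch := by
      rw [← c1]
      exact eq_sub_of_add_eq e2.symm
    have e4 : (rd A h.stab).ch =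
        ch (Matrix.toLin' a0) * (rd (NM.one D) h.stab).ch - (rd B h.stab).ch := by
      rw [← c2]
      exact eq_sub_of_add_eq' e1.symm
    unfold Dl
    rw [e3, e4, map_sub, map_mul]
    ring
  · exact hSUPd K R D L h A hAf hAt n a a0 p hp hpN hpm haa B f hE.inj hE.exact hE.eqf

end Pool.Agent.ARD
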