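import Pool.Agent.ARD.StN

/-!
# ARD: weights of the kernel of a minimal cover
-/

set_option autoImplicit false

namespace Pool.Agent.ARD

open ARS IsLocalRing

/-! ### linear algebra -/

section

variable {K V W : Type} [Field K] [AddCommGroup V] [Module K V] [AddCommGroup W] [Module K W]

/-- Subspaces. -/
private lemma SUPd_inj (hADD : St_ADD) (hNON : St_NON) [Module.Finite K W] (a : V →ₗ[K] V)
    (b : W →ₗ[K] W) (φ : V →ₗ[K] W) (hφ : Function.Injective φ) (hc : ∀ v, φ (a v) = b (φ v))
    (ν : AlgebraicClosure K) (h : cf (ch a) ν ≠ 0) : cf (ch b) ν ≠ 0 := by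
  have hst : LinearMap.range φ ≤ (LinearMap.range φ).comap b := by
    rintro _ ⟨v, rfl⟩
    exact ⟨a v, hc v⟩
  have h1 : ExK a b ((LinearMap.range φ).mapQ (LinearMap.range φ) b hst) := by
    refine ⟨φ, (LinearMap.range φ).mkQ, hφ, Submodule.mkQ_surjective _, fun v => ?_, hc,
      fun v => rfl⟩
    rw [← LinearMap.mem_ker, Submodule.ker_mkQ]
    exact Iff.rfl
  obtain ⟨h2, h3, h4⟩ := (hADD.2 K V W _ a b _ h1).1 inferInstance
  have h5 := (hNON K V V a a).1 ν
  have h6 := (hNON K _ V ((LinearMap.range φ).mapQ (LinearMap.range φ) b hst) a).1 ν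
  have h7 : cf (ch b) ν = cf (ch a) ν +
      cf (ch ((LinearMap.range φ).mapQ (LinearMap.range φ) b hst)) ν := by
    rw [h4]
    rfl
  omega

/-- Quotients. -/
private lemma SUPd_surj (hADD : St_ADD) (hNON : St_NON) [Module.Finite K V] (a : V →ₗ[K] V)
    (b : W →ₗ[K] W) (φ : V →ₗ[K] W) (hφ : Function.Surjective φ) (hc : ∀ v, φ (a v) = b (φ v))
    (ν : AlgebraicClosure K) (h : cf (ch b) ν ≠ 0) : cf (ch a) ν ≠ 0 := by
  have hst : ∀ v ∈ LinearMap.ker φ, a v ∈ LinearMap.ker φ := by
    intro v hv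
    rw [LinearMap.mem_ker] at hv ⊢
    rw [hc, hv, map_zero]
  have h1 : ExK (a.restrict hst) a b := by
    refine ⟨(LinearMap.ker φ).subtype, φ, Subtype.val_injective, hφ, fun v => ?_, fun _ => rfl,
      hc⟩
    exact ⟨fun h => ⟨⟨v, h⟩, rfl⟩, fun ⟨u, hu⟩ => by rw [← hu]; exact u.2⟩
  obtain ⟨h2, h3, h4⟩ := (hADD.2 K _ V W _ a b h1).1 inferInstance
  have h5 := (hNON K _ V (a.restrict hst) a).1 ν
  have h6 := (hNON K W V b a).1 ν
  have h7 : cf (ch a) ν = cf (ch (a.restrict hst)) ν + cf (ch b) ν := by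
    rw [h4]
    rfl
  omega

/-- Polynomials in intertwined operators. -/
private lemma SUPd_aeval (a : V →ₗ[K] V) (b : W →ₗ[K] W) (φ : V →ₗ[K] W)
    (hc : ∀ v, φ (a v) = b (φ v)) (q : Polynomial K) (v : V) :
    φ (Polynomial.aeval (a : Module.End K V) q v) =
      Polynomial.aeval (b : Module.End K W) q (φ v) := by
  induction q using Polynomial.induction_on' with
  | add q r hq hr =>
    rw [map_add, map_add, LinearMap.add_apply, LinearMap.add_apply, map_add, hq, hr]
  | monomial k c =>
    rw [Polynomial.aeval_monomial, Polynomial.aeval_monomial]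
    have h1 : ∀ (k : ℕ), φ ((a ^ k : Module.End K V) v) = (b ^ k : Module.End K W) (φ v) := by
      intro k
      induction k with
      | zero => rfl
      | succ k ih =>
        rw [pow_succ', pow_succ', Module.End.mul_apply, Module.End.mul_apply, hc, ih]
    rw [Module.End.mul_apply, Module.End.mul_apply, Module.algebraMap_end_apply,
      Module.algebraMap_end_apply, map_smul, h1]

/-- Factorization. -/
private lemma SUPd_factor {U : Type} [AddCommGroup U] [Module K U] (P : V →ₗ[K] W)
    (hP : Function.Surjective P) (ρ : V →ₗ[K] U) (h : ∀ v, P v = 0 → ρ v = 0) :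
    ∃ σ : W →ₗ[K] U, ∀ v, σ (P v) = ρ v := by
  obtain ⟨s, hs⟩ := P.exists_rightInverse_of_surjective (LinearMap.range_eq_top.2 hP)
  refine ⟨ρ.comp s, fun v => ?_⟩
  have h1 : P (s (P v) - v) = 0 := by
    rw [map_sub, sub_eq_zero]
    exact LinearMap.congr_fun hs (P v)
  have h2 := h _ h1
  rw [map_sub, sub_eq_zero] at h2
  exact h2

end

/-! ### modules with a connection -/

section

variable {K R : Type} [Field K] [CommRing R] [Algebra K R] {D : Derivation K R R}

private lemma SUPd_mod (A : NM D) {I : Ideal R} (hI : ∀ a ∈ I, D a ∈ I) (x : A.X) :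
    md A hI x = 0 ↔ x ∈ (I • ⊤ : Submodule R A.X) :=
  Submodule.Quotient.mk_eq_zero _

private lemma SUPd_modR {I : Ideal R} (hI : ∀ a ∈ I, D a ∈ I) (x : R) :
    md (NM.one D) hI x = 0 ↔ x ∈ I := by
  refine (SUPd_mod (NM.one D) hI x).trans ?_
  have h1 : (I • ⊤ : Submodule R R) = I := by
    rw [smul_eq_mul, Ideal.mul_top]
  exact Iff.of_eq (congrArg (fun P : Submodule R R => x ∈ P) h1)

/-- Elements of `I F`. -/
private lemma SUPd_pi {I : Ideal R} {n : ℕ} (v : Fin n → R)  :
    v ∈ (I • ⊤ : Submodule R (Fin n → R)) ↔ ∀ i, v i ∈ I := by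
  constructor
  · intro hv i
    refine Submodule.smul_induction_on (p := fun v : Fin n → R => v i ∈ I) hv ?_ ?_
    · intro r hr w _
      exact Ideal.mul_mem_right _ _ hr
    · intro v w hv hw
      exact I.add_mem hv hw
  · intro hv
    have h1 : v = ∑ i, v i • (Pi.single i 1 : Fin n → R) := pi_eq_sum_univ' v
    rw [h1]
    exact Submodule.sum_mem _ fun i _ => Submodule.smul_mem_smul (hv i) trivial

variable [IsLocalRing R] {L : List (R × ℕ)}

/-- The ideal `max / I`. -/
private noncomputable def SUPd_P (h : QD K R D L) : NM D :=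
  (rd (NM.one D) h.stab).sub (Submodule.map (md (NM.one D) h.stab) (maximalIdeal R)) (by
    rintro _ ⟨r, hr, rfl⟩
    exact ⟨D r, h.max r hr, rfl⟩)

private noncomputable def SUPd_ι (h : QD K R D L) :
    (SUPd_P h).X →ₗ[K] (rd (NM.one D) h.stab).X :=
  (Submodule.subtype (Submodule.map (md (NM.one D) h.stab) (maximalIdeal R))).restrictScalars K

private lemma SUPd_P_finite (h : QD K R D L)
    (hfin : Module.Finite K (rd (NM.one D) h.stab).X) : Module.Finite K (SUPd_P h).X :=
  Module.Finite.of_injective (SUPd_ι h) Subtype.val_injective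

/-- The kernel modulo `I`. -/
private lemma SUPd_ker (hRSQ : St_RSQ) (h : QD K R D L) (A : NM D) (hA : Rg R (el L) A.X) (n : ℕ)
    (a : Matrix (Fin n) (Fin n) R) (p : (Fin n → R) →ₗ[R] A.X) (hp : Function.Surjective p)
    (B : NM D) (f : B.X →ₗ[R] (Fin n → R)) (hf : Function.Injective f)
    (hfp : ∀ v, p v = 0 ↔ ∃ u, f u = v) (hfN : ∀ u, f (B.N u) = ((NM.one D).pow a).N (f u))
    (hfm : ∀ u i, f u i ∈ maximalIdeal R) :
    ∃ g : (rd B h.stab).X →ₗ[K] ((SUPd_P h).pow a).X, Function.Injective g ∧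
      ∀ q, g ((rd B h.stab).N q) = ((SUPd_P h).pow a).N (g q) := by
  let g0 : B.X →ₗ[K] ((SUPd_P h).pow a).X :=
    { toFun := fun u i => (⟨md (NM.one D) h.stab (f u i), f u i, hfm u i, rfl⟩ :
        Submodule.map (md (NM.one D) h.stab) (maximalIdeal R))
      map_add' := fun u u' => by
        funext i
        apply Subtype.ext
        show md (NM.one D) h.stab (f (u + u') i) =
          md (NM.one D) h.stab (f u i) + md (NM.one D) h.stab (f u' i)
        rw [map_add, Pi.add_apply]
        exact map_add (md (NM.one D) h.stab) _ _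
      map_smul' := fun c u => by
        funext i
        apply Subtype.ext
        show md (NM.one D) h.stab (f (c • u) i) = c • md (NM.one D) h.stab (f u i)
        have h1 : f (c • u) = c • f u := by
          rw [← algebraMap_smul R c u, map_smul, algebraMap_smul]
        rw [h1]
        exact ((md (NM.one D) h.stab).restrictScalars K).map_smul c (f u i) }
  have hBs : Function.Surjective ((md B h.stab).restrictScalars K) := fun q =>
    Submodule.mkQ_surjective (idl L • ⊤ : Submodule R B.X) q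
  obtain ⟨g, hg⟩ := SUPd_factor ((md B h.stab).restrictScalars K) hBs g0 (by
    intro u hu
    have hu' := (SUPd_mod B h.stab u).1 hu
    funext i
    apply Subtype.ext
    show md (NM.one D) h.stab (f u i) = 0
    refine (SUPd_modR h.stab _).2 ?_
    refine Submodule.smul_induction_on (p := fun u : B.X => f u i ∈ idl L) hu' ?_ ?_
    · intro r hr w _
      rw [map_smul]
      exact Ideal.mul_mem_right _ _ hr
    · intro v w hv hw
      rw [map_add]
      exact (idl L).add_mem hv hw)
  have hgi : Function.Injective g := by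
    rw [injective_iff_map_eq_zero]
    intro q hq
    obtain ⟨u, rfl⟩ : ∃ u, md B h.stab u = q := Submodule.mkQ_surjective _ q
    have h1 : g0 u = 0 := (hg u).symm.trans hq
    have h2 : ∀ i, f u i ∈ idl L := by
      intro i
      exact (SUPd_modR h.stab _).1 (congrArg Subtype.val (congrFun h1 i))
    have h3 : f u ∈ (idl L • ⊤ : Submodule R (Fin n → R)) := (SUPd_pi _).2 h2
    exact (SUPd_mod B h.stab u).2
      ((hRSQ R B.X (Fin n → R) A.X f p hf hp hfp (el L)).1 hA u h3)
  have hgN : ∀ q, g ((rd B h.stab).N q) = ((SUPd_P h).pow a).N (g q) := by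
    intro q
    obtain ⟨u, rfl⟩ : ∃ u, md B h.stab u = q := Submodule.mkQ_surjective _ q
    have h1 : g (md B h.stab u) = g0 u := hg u
    have h2 : g ((rd B h.stab).N (md B h.stab u)) = g0 (B.N u) := hg (B.N u)
    rw [h1, h2]
    funext i
    apply Subtype.ext
    have e1 : ∀ (z : R) (c w : Fin n → R), md (NM.one D) h.stab (D z + ∑ j, c j * w j) =
        (rd (NM.one D) h.stab).N (md (NM.one D) h.stab z) +
          ∑ j, c j • md (NM.one D) h.stab (w j) := by
      intro z c w
      refine (map_add (md (NM.one D) h.stab) _ _).trans ?_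
      refine congrArg₂ (· + ·) rfl ?_
      refine (map_sum (md (NM.one D) h.stab) _ _).trans ?_
      exact Finset.sum_congr rfl fun j _ => map_smul (md (NM.one D) h.stab) (c j) (w j)
    have e2 : SUPd_ι h (((SUPd_P h).pow a).N (g0 u) i) =
        (rd (NM.one D) h.stab).N (md (NM.one D) h.stab (f u i)) +
          ∑ j, a i j • md (NM.one D) h.stab (f u j) := by
      refine (map_add (SUPd_ι h) _ _).trans ?_
      refine congrArg₂ (· + ·) rfl ?_
      exact map_sum (SUPd_ι h) _ _
    refine Eq.trans ?_ e2.symm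
    refine Eq.trans ?_ (e1 (f u i) (a i) (f u))
    exact congrArg (fun v => md (NM.one D) h.stab (v i)) (hfN u)
  exact ⟨g, hgi, hgN⟩

end

theorem thm_SUPd (hPOWd : St_POWd) (hRFNd : St_RFNd) (hRSQ : St_RSQ) (hADD : ARS.St_ADD)
    (hNON : ARS.St_NON) (hANN : ARS.St_ANN) (hGRD : ARS.St_GRD) : St_SUPd := by
  classical
  intro K R _ _ _ _ _ _ D L h A hAf hAt n a a0 p hp hpN hpm ha B f hf hfp hfN ν hν
  -- the residue map
  have hK : ∀ k : K, algebraMap K R k ∈ maximalIdeal R → k = 0 := by
    intro k hk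
    by_contra hk0
    exact (mem_maximalIdeal _).1 hk ((isUnit_iff_ne_zero.2 hk0).map (algebraMap K R))
  choose r hr using h.res
  have hru : ∀ x k, x - algebraMap K R k ∈ maximalIdeal R → r x = k := by
    intro x k hx
    have h1 := (maximalIdeal R).sub_mem hx (hr x)
    rw [sub_sub_sub_cancel_left, ← map_sub] at h1
    exact sub_eq_zero.1 (hK _ h1)
  have hradd : ∀ x x', r (x + x') = r x + r x' := by
    intro x x'
    apply hru
    rw [map_add, add_sub_add_comm]
    exact (maximalIdeal R).add_mem (hr x) (hr x')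
  have hrmul : ∀ x x', r (x * x') = r x * r x' := by
    intro x x'
    apply hru
    rw [map_mul]
    have h1 : x * x' - algebraMap K R (r x) * algebraMap K R (r x') =
        x * (x' - algebraMap K R (r x')) + algebraMap K R (r x') * (x - algebraMap K R (r x)) := by
      ring
    rw [h1]
    exact (maximalIdeal R).add_mem (Ideal.mul_mem_left _ _ (hr x'))
      (Ideal.mul_mem_left _ _ (hr x))
  have hrmax : ∀ x ∈ maximalIdeal R, r x = 0 := by
    intro x hx
    apply hru
    rwa [map_zero, sub_zero]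
  have hrD : ∀ x, r (D x) = 0 := by
    intro x
    apply hrmax
    have h1 := h.max _ (hr x)
    rwa [map_sub, Derivation.map_algebraMap, sub_zero] at h1
  have hralg : ∀ k : K, r (algebraMap K R k) = k := by
    intro k
    apply hru
    rw [sub_self]
    exact Submodule.zero_mem _
  let ρ : (Fin n → R) →ₗ[K] (Fin n → K) :=
    { toFun := fun v i => r (v i)
      map_add' := fun v w => funext fun i => hradd _ _
      map_smul' := fun c v => funext fun i => by
        show r (c • v i) = c * r (v i)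
        rw [Algebra.smul_def, hrmul, hralg] }
  have hρ : Function.Surjective ρ := fun w => ⟨fun i => algebraMap K R (w i), funext fun i =>
    hralg _⟩
  -- the quotient of `A / I A`
  let P1 : (Fin n → R) →ₗ[K] (rd A h.stab).X := ((md A h.stab).comp p).restrictScalars K
  have hP1 : Function.Surjective P1 := (Submodule.mkQ_surjective _).comp hp
  obtain ⟨σ, hσ⟩ := SUPd_factor P1 hP1 ρ (by
    intro v hv
    have hv' : p v ∈ (idl L • ⊤ : Submodule R A.X) := (SUPd_mod A h.stab (p v)).1 hv
    have h0 : (idl L • ⊤ : Submodule R A.X) =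
        Submodule.map p (idl L • ⊤ : Submodule R (Fin n → R)) := by
      rw [Submodule.map_smul'', Submodule.map_top, LinearMap.range_eq_top.2 hp]
    rw [h0] at hv'
    obtain ⟨w, hw, hwv⟩ := hv'
    have h1 : p (v - w) = 0 := by
      rw [map_sub, hwv, sub_self]
    funext i
    apply hrmax
    have h2 := hpm _ h1 i
    have h3 : v i = (v - w) i + w i := by
      rw [Pi.sub_apply]
      ring
    rw [h3]
    exact (maximalIdeal R).add_mem h2 (h.le ((SUPd_pi w).1 hw i)))
  have hσs : Function.Surjective σ := by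
    intro w
    obtain ⟨v, hv⟩ := hρ w
    exact ⟨P1 v, (hσ v).trans hv⟩
  have hσN : ∀ q, σ ((rd A h.stab).N q) = Matrix.toLin' a0 (σ q) := by
    intro q
    obtain ⟨v, rfl⟩ := hP1 q
    have h1 : (rd A h.stab).N (P1 v) = P1 (((NM.one D).pow a).N v) := by
      show md A h.stab (A.N (p v)) = md A h.stab (p (((NM.one D).pow a).N v))
      rw [hpN]
    refine ((congrArg σ h1).trans (hσ _)).trans ?_
    rw [hσ]
    funext i
    show r (D (v i) + ∑ j, a i j * v j) = (Matrix.toLin' a0 (ρ v)) i
    rw [hradd, hrD, zero_add, Matrix.toLin'_apply]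
    show r (∑ j, a i j * v j) = ∑ j, a0 i j * r (v j)
    have h2 : ∀ s : Finset (Fin n), r (∑ j ∈ s, a i j * v j) = ∑ j ∈ s, a0 i j * r (v j) := by
      intro s
      induction s using Finset.induction_on with
      | empty =>
        rw [Finset.sum_empty, Finset.sum_empty]
        exact hrmax _ (Submodule.zero_mem _)
      | insert j s hj ih =>
        rw [Finset.sum_insert hj, Finset.sum_insert hj, hradd, hrmul, ih, hru _ _ (ha i j)]
    exact h2 _
  have hfA : Module.Finite K (rd A h.stab).X :=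
    (hRFNd K R D (idl L) h.stab h.fin A A).1 hAf
  have hsup1 : ∀ l, cf (ch (Matrix.toLin' a0)) l ≠ 0 → cf (rd A h.stab).ch l ≠ 0 :=
    fun l hl => SUPd_surj hADD hNON _ _ σ hσs hσN l hl
  -- the ideal `max / I`
  have hf1 : Module.Finite K (rd (NM.one D) h.stab).X :=
    (hRFNd K R D (idl L) h.stab h.fin (NM.one D) (NM.one D)).1
      (inferInstanceAs (Module.Finite R R))
  have hfP : Module.Finite K (SUPd_P h).X := SUPd_P_finite h hf1
  have hsup2 : ∀ l, cf (SUPd_P h).ch l ≠ 0 → ∃ k : ℕ, 1 ≤ k ∧ l = (k : AlgebraicClosure K) := by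
    intro l hl
    obtain ⟨N, hN⟩ := h.wt
    have h1 : Polynomial.aeval l (SUPd_P h).N.charpoly = 0 :=
      ((hNON K _ K (SUPd_P h).N 0).2.1 l).1 hl
    have h2 := hANN K _ (SUPd_P h).N (∏ w ∈ Finset.Icc 1 N, (Polynomial.X - Polynomial.C (w : K)))
      (by
        refine LinearMap.ext fun x => ?_
        obtain ⟨x, s, hs, rfl⟩ := x
        have h3 := SUPd_aeval (SUPd_P h).N (rd (NM.one D) h.stab).N (SUPd_ι h) (fun _ => rfl)
          (∏ w ∈ Finset.Icc 1 N, (Polynomial.X - Polynomial.C (w : K)))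
          ⟨md (NM.one D) h.stab s, s, hs, rfl⟩
        have h4 := SUPd_aeval D.toLinearMap (rd (NM.one D) h.stab).N
          ((md (NM.one D) h.stab).restrictScalars K) (fun _ => rfl)
          (∏ w ∈ Finset.Icc 1 N, (Polynomial.X - Polynomial.C (w : K))) s
        apply Subtype.ext
        refine (h3.trans h4.symm).trans ?_
        exact (SUPd_modR h.stab _).2 (hN s hs)) l h1
    rw [map_prod, Finset.prod_eq_zero_iff] at h2
    obtain ⟨k, hk, hk0⟩ := h2
    refine ⟨k, (Finset.mem_Icc.1 hk).1, ?_⟩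
    rw [map_sub, Polynomial.aeval_X, Polynomial.aeval_C, map_natCast, sub_eq_zero] at hk0
    exact hk0
  -- the kernel
  have hfm : ∀ u i, f u i ∈ maximalIdeal R := fun u i => hpm _ ((hfp _).2 ⟨u, rfl⟩) i
  obtain ⟨g, hgi, hgN⟩ := SUPd_ker hRSQ h A hAt n a p hp B f hf hfp hfN hfm
  have hfPn : Module.Finite K ((SUPd_P h).pow a).X :=
    inferInstanceAs (Module.Finite K (Fin n → (SUPd_P h).X))
  have h1 : cf ((SUPd_P h).pow a).ch ν ≠ 0 := SUPd_inj hADD hNON _ _ g hgi hgN ν hν
  rw [hPOWd K R D h.max (SUPd_P h) hfP n a a0 ha] at h1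
  obtain ⟨b, c, hb, hc, hbc⟩ := (hGRD K).2.2.2.2.2.2.2.1 _ _ _ h1
  obtain ⟨k, hk, hck⟩ := hsup2 c hc
  exact ⟨b, k, hk, hsup1 b hb, by rw [hbc, hck]⟩

end Pool.Agent.ARD
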