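import Pool.Agent.ARD.StS

/-! ARD SWC: completeness of `V[[G]]` -/

set_option autoImplicit false

namespace Pool.Agent.ARD

open ARS IsLocalRing TensorProduct

private theorem SWC_mem {A : Type} [CommRing A] (c : A) (n : ℕ) (x : A) :
    x ∈ (Ideal.span {c} ^ n • ⊤ : Submodule A A) ↔ c ^ n ∣ x := by
  rw [smul_eq_mul, Ideal.mul_top, Ideal.span_singleton_pow, Ideal.mem_span_singleton]

private theorem SWC_dvd (S : HWG.SG) (V : Type) [CommRing V] (v : V) (x : SV S V) :
    cst S V v ∣ x ↔ ∀ k, v ∣ PowerSeries.coeff k (x : PowerSeries V) := by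
  classical
  constructor
  · rintro ⟨w, rfl⟩ k
    have h : ((cst S V v * w : SV S V) : PowerSeries V) =
        PowerSeries.C v * (w : PowerSeries V) := rfl
    rw [h, PowerSeries.coeff_C_mul]
    exact dvd_mul_right _ _
  · intro h
    choose w hw using h
    let w' : ℕ → V := fun k => if S.G k then w k else 0
    have hmem : PowerSeries.mk w' ∈ SV S V := by
      intro n hn
      by_contra hG
      apply hn
      rw [PowerSeries.coeff_mk]
      exact if_neg hG
    refine ⟨⟨PowerSeries.mk w', hmem⟩, ?_⟩
    apply Subtype.ext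
    have h1 : ((cst S V v * ⟨PowerSeries.mk w', hmem⟩ : SV S V) : PowerSeries V) =
        PowerSeries.C v * PowerSeries.mk w' := rfl
    rw [h1]
    ext k
    rw [PowerSeries.coeff_C_mul, PowerSeries.coeff_mk]
    by_cases hG : S.G k
    · have h2 : w' k = w k := if_pos hG
      rw [h2]
      exact hw k
    · have h2 : w' k = 0 := if_neg hG
      rw [h2, mul_zero]
      by_contra hne
      exact hG (x.2 k hne)

/-- completeness of `V[[G]]` -/
theorem thm_SWC : St_SWC := by
  intro S V _ c hV
  classical
  have hH : IsHausdorff (Ideal.span {cst S V c}) (SV S V) := by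
    constructor
    intro x hx
    apply Subtype.ext
    ext k
    rw [show ((0 : SV S V) : PowerSeries V) = 0 from rfl, map_zero]
    refine hV.toIsHausdorff.haus' _ fun n => ?_
    rw [SModEq.zero, SWC_mem]
    have h1 := hx n
    rw [SModEq.zero, SWC_mem, ← map_pow, SWC_dvd] at h1
    exact h1 k
  have hP : IsPrecomplete (Ideal.span {cst S V c}) (SV S V) := by
    constructor
    intro f hf
    have hc : ∀ k, ∀ {m n : ℕ}, m ≤ n → PowerSeries.coeff k (f m : PowerSeries V) ≡
        PowerSeries.coeff k (f n : PowerSeries V)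
        [SMOD (Ideal.span {c} ^ m • ⊤ : Submodule V V)] := by
      intro k m n hmn
      have h1 := hf hmn
      rw [SModEq.sub_mem, SWC_mem, ← map_pow, SWC_dvd] at h1
      rw [SModEq.sub_mem, SWC_mem]
      have h2 := h1 k
      rw [show ((f m - f n : SV S V) : PowerSeries V) = (f m : PowerSeries V) - f n from rfl,
        map_sub] at h2
      exact h2
    choose L hL using fun k => hV.toIsPrecomplete.prec' _ (hc k)
    let L' : ℕ → V := fun k => if S.G k then L k else 0
    have hmem : PowerSeries.mk L' ∈ SV S V := by
      intro n hn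
      by_contra hG
      apply hn
      rw [PowerSeries.coeff_mk]
      exact if_neg hG
    refine ⟨⟨PowerSeries.mk L', hmem⟩, fun n => ?_⟩
    rw [SModEq.sub_mem, SWC_mem, ← map_pow, SWC_dvd]
    intro k
    rw [show ((f n - ⟨PowerSeries.mk L', hmem⟩ : SV S V) : PowerSeries V) =
      (f n : PowerSeries V) - PowerSeries.mk L' from rfl, map_sub, PowerSeries.coeff_mk]
    by_cases hG : S.G k
    · have h2 : L' k = L k := if_pos hG
      rw [h2]
      have h3 := hL k n
      rw [SModEq.sub_mem, SWC_mem] at h3
      exact h3
    · have h2 : L' k = 0 := if_neg hG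
      have h3 : PowerSeries.coeff k (f n : PowerSeries V) = 0 := by
        by_contra hne
        exact hG ((f n).2 k hne)
      rw [h2, h3, sub_zero]
      exact dvd_zero _
  exact { toIsHausdorff := hH, toIsPrecomplete := hP }

end Pool.Agent.ARD
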