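import Pool.Agent.ARD.StS

/-! SWD (helper37): at the primes of height one of `V[[G]]` which do not contain `p` and are not `PV`
there are no stable ideals. -/

set_option autoImplicit false

namespace Pool.Agent.ARD

open ARS IsLocalRing

section loc

open TrivSqZeroExt

variable {A : Type} [CommRing A] (S : Submonoid A) (B : Type) [CommRing B] [Algebra A B]
  [IsLocalization S B]

/-- the homomorphism `a ↦ (a, D a)` -/
private def SWD_h (D : A →+ A) (hD : ∀ a b, D (a * b) = a * D b + b * D a) :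
    A →+* TrivSqZeroExt B B where
  toFun a := inl (algebraMap A B a) + inr (algebraMap A B (D a))
  map_one' := by
    have h1 : D 1 = 0 := by
      have h := hD 1 1
      rw [one_mul, one_mul] at h
      exact left_eq_add.mp h
    rw [h1, map_one, map_zero, inr_zero, add_zero, inl_one]
  map_mul' a b := by
    ext
    · simp
    · simp only [snd_add, snd_inl, snd_inr, snd_mul, fst_add, fst_inl, fst_inr, zero_add, add_zero,
          hD, smul_eq_mul, map_add, map_mul, op_smul_eq_smul]
  map_zero' := by simp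
  map_add' a b := by
    ext
    · simp only [fst_add, fst_inl, fst_inr, add_zero, map_add]
    · simp only [snd_add, snd_inl, snd_inr, zero_add, map_add]

private theorem SWD_unit (D : A →+ A) (hD : ∀ a b, D (a * b) = a * D b + b * D a) (y : S) :
    IsUnit (SWD_h B D hD y) := by
  rw [isUnit_iff_isUnit_fst]
  show IsUnit ((inl (algebraMap A B y) + inr (algebraMap A B (D y)) : TrivSqZeroExt B B)).fst
  rw [fst_add, fst_inl, fst_inr, add_zero]
  exact IsLocalization.map_units B y

include S in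
/-- the extension of a derivation to a localisation -/
private theorem SWD_ext (D : A →+ A) (hD : ∀ a b, D (a * b) = a * D b + b * D a) :
    ∃ DB : B →+ B, (∀ a b, DB (a * b) = a * DB b + b * DB a) ∧
      ∀ a, DB (algebraMap A B a) = algebraMap A B (D a) := by
  obtain ⟨φ, hφ⟩ : ∃ φ : B →+* TrivSqZeroExt B B, ∀ a, φ (algebraMap A B a) = SWD_h B D hD a :=
    ⟨IsLocalization.lift (M := S) (g := SWD_h B D hD) (SWD_unit S B D hD),
      fun a => IsLocalization.lift_eq _ _⟩
  have hfst : ∀ b, (φ b).fst = b := by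
    have h : ((fstHom B B B : TrivSqZeroExt B B →ₐ[B] B) : TrivSqZeroExt B B →+* B).comp φ =
        RingHom.id B := by
      apply IsLocalization.ringHom_ext S
      refine RingHom.ext fun a => ?_
      show (φ (algebraMap A B a)).fst = algebraMap A B a
      rw [hφ]
      show ((inl (algebraMap A B a) + inr (algebraMap A B (D a)) : TrivSqZeroExt B B)).fst = _
      rw [fst_add, fst_inl, fst_inr, add_zero]
    intro b
    exact congrArg (fun z : B →+* B => z b) h
  refine ⟨⟨⟨fun b => (φ b).snd, by simp⟩, fun a b => by simp⟩, ?_, ?_⟩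
  · intro a b
    show (φ (a * b)).snd = a * (φ b).snd + b * (φ a).snd
    rw [map_mul, snd_mul, hfst, hfst, op_smul_eq_smul, smul_eq_mul, smul_eq_mul]
  · intro a
    show (φ (algebraMap A B a)).snd = _
    rw [hφ]
    show ((inl (algebraMap A B a) + inr (algebraMap A B (D a)) : TrivSqZeroExt B B)).snd = _
    rw [snd_add, snd_inl, snd_inr, zero_add]

end loc

section ring

variable (S : HWG.SG) (V : Type) [CommRing V]

/-- `X f'` -/
private noncomputable def SWD_D : SV S V →+ SV S V where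
  toFun f := ⟨PowerSeries.mk fun j => (j : V) * PowerSeries.coeff j (f : PowerSeries V), by
    intro j hj
    rw [PowerSeries.coeff_mk] at hj
    exact f.2 j (right_ne_zero_of_mul hj)⟩
  map_zero' := by
    apply Subtype.ext
    ext j
    simp
  map_add' f g := by
    apply Subtype.ext
    ext j
    simp [mul_add]

variable {S V}

private theorem SWD_D_coeff (f : SV S V) (j : ℕ) :
    PowerSeries.coeff j ((SWD_D S V f : SV S V) : PowerSeries V) =
      (j : V) * PowerSeries.coeff j (f : PowerSeries V) := by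
  show PowerSeries.coeff j (PowerSeries.mk fun j => (j : V) *
    PowerSeries.coeff j (f : PowerSeries V)) = _
  rw [PowerSeries.coeff_mk]

private theorem SWD_D_leib (f g : SV S V) :
    SWD_D S V (f * g) = f * SWD_D S V g + g * SWD_D S V f := by
  apply Subtype.ext
  ext j
  rw [SWD_D_coeff]
  rw [Subring.coe_add, Subring.coe_mul, Subring.coe_mul, Subring.coe_mul, mul_comm (g : PowerSeries V),
    map_add, PowerSeries.coeff_mul, PowerSeries.coeff_mul, PowerSeries.coeff_mul, Finset.mul_sum,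
    ← Finset.sum_add_distrib]
  refine Finset.sum_congr rfl fun q hq => ?_
  rw [SWD_D_coeff, SWD_D_coeff, ← Finset.HasAntidiagonal.mem_antidiagonal.1 hq]
  push_cast
  ring

private theorem SWD_big (f : PowerSeries V) : PowerSeries.X ^ (S.F + 1) * f ∈ SV S V := by
  intro n hn
  rw [PowerSeries.coeff_X_pow_mul'] at hn
  split_ifs at hn with h
  · exact S.big n (by omega)
  · exact absurd rfl hn

private theorem SWD_mono (n : ℕ) (hn : S.G n) (a : V) :
    PowerSeries.C a * PowerSeries.X ^ n ∈ SV S V := by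
  intro m hm
  rw [PowerSeries.coeff_C_mul, PowerSeries.coeff_X_pow] at hm
  split_ifs at hm with h
  · rw [h]; exact hn
  · rw [mul_zero] at hm
    exact absurd rfl hm

private theorem SWD_X (n : ℕ) (hn : S.G n) : (PowerSeries.X : PowerSeries V) ^ n ∈ SV S V := by
  have := SWD_mono (V := V) n hn 1
  rwa [map_one, one_mul] at this

/-- the operators -/
private theorem SWD_op (I : Ideal (SV S V)) (hI : ∀ f ∈ I, SWD_D S V f ∈ I) (s : SV S V)
    (hs : s ∈ I) (n m : ℕ) : ∃ t ∈ I, ∀ j : ℕ,
      PowerSeries.coeff j ((t : SV S V) : PowerSeries V) =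
        ((∏ i ∈ Finset.range m, (((j : ℤ) - n - m) + i) : ℤ) : V) *
          PowerSeries.coeff j (s : PowerSeries V) := by
  induction m with
  | zero => exact ⟨s, hs, fun j => by simp⟩
  | succ m ih =>
    obtain ⟨t, ht, h⟩ := ih
    refine ⟨SWD_D S V t - ((n + m + 1 : ℕ) : SV S V) * t,
      I.sub_mem (hI t ht) (I.mul_mem_left _ ht), fun j => ?_⟩
    rw [AddSubgroupClass.coe_sub, Subring.coe_mul, map_sub, SWD_D_coeff]
    have e : (((n + m + 1 : ℕ) : SV S V) : PowerSeries V) = PowerSeries.C ((n + m + 1 : ℕ) : V) := by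
      rw [Subring.coe_natCast, map_natCast]
    rw [e, PowerSeries.coeff_C_mul, h, Finset.prod_range_succ']
    have e2 : ∏ i ∈ Finset.range m, (((j : ℤ) - n - m) + i) =
        ∏ i ∈ Finset.range m, (((j : ℤ) - n - ((m + 1 : ℕ) : ℤ)) + ((i + 1 : ℕ) : ℤ)) := by
      refine Finset.prod_congr rfl fun i _ => ?_
      push_cast
      ring
    rw [e2]
    push_cast
    ring

/-- divided operators -/
private theorem SWD_div (I : Ideal (SV S V)) (hI : ∀ f ∈ I, SWD_D S V f ∈ I)
    (hN : ∀ (m : ℕ) (f : SV S V), m ≠ 0 → (m : SV S V) * f ∈ I → f ∈ I) (s : SV S V)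
    (hs : s ∈ I) (n m : ℕ) (hlt : ∀ j < n, PowerSeries.coeff j (s : PowerSeries V) = 0) :
    ∃ g ∈ I, ∀ j : ℕ, j ≤ n + m → PowerSeries.coeff j ((g : SV S V) : PowerSeries V) =
      if j = n then PowerSeries.coeff n (s : PowerSeries V) else 0 := by
  obtain ⟨t, ht, h⟩ := SWD_op I hI s hs n m
  have hdvd : ∀ j : ℕ, ∃ q : ℤ, ∏ i ∈ Finset.range m, (((j : ℤ) - n - m) + i) =
      (m.factorial : ℤ) * q := by
    intro j
    obtain ⟨q, hq⟩ := Nat.factorial_coe_dvd_prod m ((j : ℤ) - n - m)
    exact ⟨q, hq⟩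
  choose q hq using hdvd
  have hfac : (m.factorial : ℤ) ≠ 0 := by exact_mod_cast m.factorial_ne_zero
  have hq0 : ∀ j, n < j → j ≤ n + m → q j = 0 := by
    intro j h1 h2
    have h3 : ∏ i ∈ Finset.range m, (((j : ℤ) - n - m) + i) = 0 := by
      refine Finset.prod_eq_zero (i := n + m - j) (Finset.mem_range.2 (by omega)) ?_
      omega
    rw [hq j] at h3
    exact (mul_eq_zero.mp h3).resolve_left hfac
  have hqn : q n = (-1) ^ m := by
    have h3 : ∏ i ∈ Finset.range m, (((n : ℤ) - n - m) + i) = (m.factorial : ℤ) * (-1) ^ m := by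
      have h4 : ∏ i ∈ Finset.range m, (((n : ℤ) - n - m) + i) =
          ∏ i ∈ Finset.range m, (-1 * ((m - i : ℕ) : ℤ)) := by
        refine Finset.prod_congr rfl fun i hi => ?_
        have := Finset.mem_range.1 hi
        omega
      have h5 : ∏ i ∈ Finset.range m, (m - i) = m.factorial := by
        rw [← Nat.descFactorial_self, Nat.descFactorial_eq_prod_range]
      rw [h4, Finset.prod_mul_distrib, Finset.prod_const, Finset.card_range, ← Nat.cast_prod, h5,
        mul_comm]
    rw [hq n] at h3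
    exact mul_left_cancel₀ hfac h3
  obtain ⟨g, hg⟩ : ∃ g : SV S V, (g : PowerSeries V) =
      PowerSeries.mk fun j => (q j : V) * PowerSeries.coeff j (s : PowerSeries V) :=
    ⟨⟨PowerSeries.mk fun j => (q j : V) * PowerSeries.coeff j (s : PowerSeries V), by
      intro j hj
      rw [PowerSeries.coeff_mk] at hj
      exact s.2 j (right_ne_zero_of_mul hj)⟩, rfl⟩
  refine ⟨(-1) ^ m * g, ?_, ?_⟩
  · refine I.mul_mem_left _ (hN m.factorial _ m.factorial_ne_zero ?_)
    have e : ((m.factorial : ℕ) : SV S V) * g = t := by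
      apply Subtype.ext
      ext j
      rw [Subring.coe_mul, Subring.coe_natCast, ← map_natCast (PowerSeries.C (R := V)),
        PowerSeries.coeff_C_mul, hg, PowerSeries.coeff_mk, h, hq]
      push_cast
      ring
    rw [e]
    exact ht
  · intro j hj
    have e : (((-1) ^ m : SV S V) : PowerSeries V) = PowerSeries.C ((-1) ^ m : V) := by
      simp
    rw [Subring.coe_mul, e, PowerSeries.coeff_C_mul, hg, PowerSeries.coeff_mk]
    split_ifs with h1
    · rw [h1, hqn]
      push_cast
      rw [← mul_assoc, ← mul_pow]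
      simp
    · rcases lt_or_gt_of_ne h1 with h2 | h2
      · rw [hlt j h2, mul_zero, mul_zero]
      · rw [hq0 j h2 hj]
        simp

/-- the limit: `a X ^ n` lies in the ideal -/
private theorem SWD_lim [IsLocalRing (SV S V)] [IsNoetherianRing (SV S V)]
    (hm : ∀ f : SV S V, ev S V f = 0 → f ∈ maximalIdeal (SV S V))
    (I : Ideal (SV S V)) (hI : ∀ f ∈ I, SWD_D S V f ∈ I)
    (hN : ∀ (m : ℕ) (f : SV S V), m ≠ 0 → (m : SV S V) * f ∈ I → f ∈ I) (s : SV S V)
    (hs : s ∈ I) (n : ℕ) (hlt : ∀ j < n, PowerSeries.coeff j (s : PowerSeries V) = 0)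
    (w : SV S V) (hw : (w : PowerSeries V) =
      PowerSeries.C (PowerSeries.coeff n (s : PowerSeries V)) * PowerSeries.X ^ n) : w ∈ I := by
  obtain ⟨y, hy⟩ : ∃ y : SV S V, (y : PowerSeries V) = PowerSeries.X ^ (S.F + 1) :=
    ⟨⟨_, SWD_X _ (S.big _ (Nat.lt_succ_self _))⟩, rfl⟩
  have hym : y ∈ maximalIdeal (SV S V) := by
    apply hm
    show PowerSeries.constantCoeff (y : PowerSeries V) = 0
    rw [hy, map_pow, PowerSeries.constantCoeff_X, zero_pow (Nat.succ_ne_zero _)]
  have key : ∀ k : ℕ, ∃ r ∈ maximalIdeal (SV S V) ^ k, w - r ∈ I := by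
    intro k
    obtain ⟨g, hg, hc⟩ := SWD_div I hI hN s hs n ((k + 1) * (S.F + 1)) hlt
    refine ⟨w - g, ?_, by rwa [sub_sub_cancel]⟩
    have hz : ∀ j < (k + 1) * (S.F + 1), PowerSeries.coeff j
        (((w - g : SV S V) : SV S V) : PowerSeries V) = 0 := by
      intro j hj
      rw [AddSubgroupClass.coe_sub, map_sub, hc j (by omega), hw, PowerSeries.coeff_C_mul,
        PowerSeries.coeff_X_pow]
      split_ifs <;> simp
    obtain ⟨u, hu⟩ := PowerSeries.X_pow_dvd_iff.2 hz
    have e : w - g = y ^ k * ⟨PowerSeries.X ^ (S.F + 1) * u, SWD_big u⟩ := by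
      apply Subtype.ext
      rw [hu, Subring.coe_mul, Subring.coe_pow, hy, ← pow_mul]
      show _ = PowerSeries.X ^ ((S.F + 1) * k) * (PowerSeries.X ^ (S.F + 1) * u)
      rw [← mul_assoc, ← pow_add]
      congr 2
      ring
    rw [e]
    exact Ideal.mul_mem_right _ _ (Ideal.pow_mem_pow hym k)
  have h0 : (Ideal.Quotient.mk I w) ∈
      (⨅ i : ℕ, maximalIdeal (SV S V) ^ i • (⊤ : Submodule (SV S V) (SV S V ⧸ I))) := by
    rw [Submodule.mem_iInf]
    intro k
    obtain ⟨r, hr, hwr⟩ := key k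
    have e : (Ideal.Quotient.mk I w) = r • (1 : SV S V ⧸ I) := by
      have e1 : Ideal.Quotient.mk I w = Ideal.Quotient.mk I r := Ideal.Quotient.eq.2 hwr
      rw [e1, Algebra.smul_def, mul_one]
      rfl
    rw [e]
    exact Submodule.smul_mem_smul hr trivial
  rw [Ideal.iInf_pow_smul_eq_bot_of_isLocalRing _ (Ideal.IsPrime.ne_top'), Submodule.mem_bot] at h0
  exact Ideal.Quotient.eq_zero_iff_mem.1 h0

private theorem SWD_PV [IsDomain V] : (PV S V).IsPrime := RingHom.ker_isPrime _

private theorem SWD_nat [IsDomain V] [CharZero V] [IsDiscreteValuationRing V] (p : ℕ)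
    (hp : Irreducible (p : V)) (P : Ideal (SV S V)) [P.IsPrime] (hpP : (p : SV S V) ∉ P) (a : V)
    (ha : a ≠ 0) : cst S V a ∉ P := by
  obtain ⟨k, u, hu⟩ := IsDiscreteValuationRing.eq_unit_mul_pow_irreducible ha hp
  intro h
  rw [hu, map_mul, map_pow, map_natCast] at h
  rcases (‹P.IsPrime›).mem_or_mem h with h1 | h1
  · exact (‹P.IsPrime›).ne_top (P.eq_top_of_isUnit_mem h1 (u.isUnit.map _))
  · exact hpP ((‹P.IsPrime›).mem_of_pow_mem _ h1)

end ring

theorem thm_SWD (hSWN : St_SWN) : St_SWD := by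
  intro S V _ _ _ _ p hp P _ hht hpP hPV
  obtain ⟨_, _, hmax⟩ := hSWN S V
  have hm : ∀ f : SV S V, ev S V f = 0 → f ∈ maximalIdeal (SV S V) := by
    intro f hf
    rw [hmax, hf]
    exact Ideal.zero_mem _
  have hunit : ∀ m : ℕ, m ≠ 0 → IsUnit ((m : ℕ) : Localization.AtPrime P) := by
    intro m hm0
    have h1 : (m : SV S V) ∉ P := by
      have h2 := SWD_nat p hp P hpP (m : V) (by exact_mod_cast hm0)
      rwa [map_natCast] at h2
    have h3 := IsLocalization.map_units (Localization.AtPrime P)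
      (⟨(m : SV S V), h1⟩ : P.primeCompl)
    rwa [map_natCast] at h3
  have hunitZ : ∀ z : nonZeroDivisors ℤ, IsUnit (Int.castRingHom (Localization.AtPrime P) z) := by
    intro z
    have hz : (z : ℤ) ≠ 0 := nonZeroDivisors.coe_ne_zero z
    have h1 := hunit (z : ℤ).natAbs (Int.natAbs_ne_zero.2 hz)
    rcases Int.natAbs_eq (z : ℤ) with h | h
    · rw [h, eq_intCast, Int.cast_natCast]
      exact h1
    · rw [h, eq_intCast, Int.cast_neg, Int.cast_natCast]
      exact h1.neg
  let alg : Algebra ℚ (Localization.AtPrime P) :=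
    (IsLocalization.lift (M := nonZeroDivisors ℤ) (S := ℚ) hunitZ).toAlgebra
  refine ⟨alg, ?_⟩
  intro J hJ hD
  by_contra hJ0
  obtain ⟨DB, hDB, hDB'⟩ := SWD_ext P.primeCompl (Localization.AtPrime P) (SWD_D S V) SWD_D_leib
  have hDJ : ∀ b ∈ J, DB b ∈ J := by
    intro b hb
    exact hD (Derivation.mk' DB.toRatLinearMap (by
      intro x y
      show DB (x * y) = x • DB y + y • DB x
      rw [hDB, smul_eq_mul, smul_eq_mul])) b hb
  set I : Ideal (SV S V) := J.comap (algebraMap (SV S V) (Localization.AtPrime P)) with hIdef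
  have hI : ∀ f ∈ I, SWD_D S V f ∈ I := by
    intro f hf
    show algebraMap (SV S V) (Localization.AtPrime P) (SWD_D S V f) ∈ J
    rw [← hDB']
    exact hDJ _ hf
  have hN : ∀ (m : ℕ) (f : SV S V), m ≠ 0 → (m : SV S V) * f ∈ I → f ∈ I := by
    intro m f hm0 hf
    have h1 : algebraMap (SV S V) (Localization.AtPrime P) ((m : SV S V) * f) ∈ J := hf
    rw [map_mul, map_natCast] at h1
    exact (J.unit_mul_mem_iff_mem (hunit m hm0)).1 h1
  have hIP : I ≤ P := by
    intro f hf
    by_contra hfP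
    apply hJ
    exact J.eq_top_of_isUnit_mem hf
      (IsLocalization.map_units (Localization.AtPrime P) (⟨f, hfP⟩ : P.primeCompl))
  -- a nonzero element of `I`
  obtain ⟨b, hb, hb0⟩ := Submodule.exists_mem_ne_zero_of_ne_bot hJ0
  obtain ⟨s, t, hst⟩ := IsLocalization.exists_mk'_eq P.primeCompl b
  have hsI : s ∈ I := by
    show algebraMap (SV S V) (Localization.AtPrime P) s ∈ J
    rw [← IsLocalization.mk'_spec (Localization.AtPrime P) s t, hst]
    exact J.mul_mem_right _ hb
  have hs0 : (s : PowerSeries V) ≠ 0 := by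
    intro h0
    apply hb0
    have h1 : s = 0 := Subtype.ext h0
    rw [← hst, h1, IsLocalization.mk'_zero]
  have hex : ∃ n, PowerSeries.coeff n (s : PowerSeries V) ≠ 0 := by
    by_contra hcon
    push Not at hcon
    exact hs0 (PowerSeries.ext fun n => by rw [hcon n, map_zero])
  classical
  obtain ⟨n, hn, hlt⟩ : ∃ n, PowerSeries.coeff n (s : PowerSeries V) ≠ 0 ∧
      ∀ j < n, PowerSeries.coeff j (s : PowerSeries V) = 0 := by
    refine ⟨Nat.find hex, Nat.find_spec hex, fun m hm1 => ?_⟩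
    have := Nat.find_min hex hm1
    push Not at this
    exact this
  have hGn : S.G n := s.2 n hn
  obtain ⟨x, hx⟩ : ∃ x : SV S V, (x : PowerSeries V) = PowerSeries.X ^ n :=
    ⟨⟨_, SWD_X n hGn⟩, rfl⟩
  have hw : cst S V (PowerSeries.coeff n (s : PowerSeries V)) * x ∈ I := by
    refine SWD_lim hm I hI hN s hsI n hlt _ ?_
    rw [Subring.coe_mul, hx]
    rfl
  have hxP : x ∈ P := (Ideal.IsPrime.mem_or_mem ‹P.IsPrime› (hIP hw)).resolve_left
    (SWD_nat p hp P hpP _ hn)
  have hn0 : n ≠ 0 := by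
    intro h0
    have h1 : x = 1 := Subtype.ext (by rw [hx, h0, pow_zero]; rfl)
    exact (‹P.IsPrime›).ne_top ((P.eq_top_iff_one).2 (h1 ▸ hxP))
  have hle : PV S V ≤ P := by
    intro f hf
    have hf0 : PowerSeries.constantCoeff (f : PowerSeries V) = 0 := hf
    obtain ⟨f1, hf1⟩ := PowerSeries.X_dvd_iff.2 hf0
    apply (‹P.IsPrime›).mem_of_pow_mem (n + (S.F + 1))
    have e : f ^ (n + (S.F + 1)) = x * ⟨PowerSeries.X ^ (S.F + 1) * f1 ^ (n + (S.F + 1)),
        SWD_big _⟩ := by
      apply Subtype.ext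
      rw [Subring.coe_mul, Subring.coe_pow, hx]
      show (f : PowerSeries V) ^ (n + (S.F + 1)) =
        PowerSeries.X ^ n * (PowerSeries.X ^ (S.F + 1) * f1 ^ (n + (S.F + 1)))
      rw [hf1, mul_pow, ← mul_assoc, ← pow_add]
    rw [e]
    exact P.mul_mem_right _ hxP
  have hPVp : (PV S V).IsPrime := SWD_PV
  have hltP : PV S V < P := lt_of_le_of_ne hle (Ne.symm hPV)
  have h1 := Ideal.height_add_one_le_of_lt_of_isPrime hltP
  rw [hht] at h1
  have h2 : (PV S V).height = 0 := by
    by_contra h3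
    have h4 : 1 ≤ (PV S V).height := Order.one_le_iff_ne_zero.2 h3
    have h5 : (1 : ℕ∞) + 1 ≤ 1 := (add_le_add_left h4 1).trans h1
    exact absurd h5 (by decide)
  rw [Ideal.height_eq_zero_iff_eq_bot] at h2
  obtain ⟨y, hy⟩ : ∃ y : SV S V, (y : PowerSeries V) = PowerSeries.X ^ (S.F + 1) :=
    ⟨⟨_, SWD_X _ (S.big _ (Nat.lt_succ_self _))⟩, rfl⟩
  have hyPV : y ∈ PV S V := by
    show PowerSeries.constantCoeff (y : PowerSeries V) = 0
    rw [hy, map_pow, PowerSeries.constantCoeff_X, zero_pow (Nat.succ_ne_zero _)]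
  rw [h2, Ideal.mem_bot] at hyPV
  have h6 : (PowerSeries.X : PowerSeries V) ^ (S.F + 1) = 0 := by
    rw [← hy, hyPV]
    rfl
  exact pow_ne_zero _ PowerSeries.X_ne_zero h6

end Pool.Agent.ARD
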