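import Pool.Agent.ARD.StS

set_option autoImplicit false

namespace Pool.Agent.ARD

open ARS IsLocalRing TensorProduct

/-- a base change of a flat algebra along an algebra with a basis is flat -/
private lemma SWL_flat (A A' B B' : Type) [CommRing A] [CommRing A'] [CommRing B] [CommRing B']
    [Algebra A A'] [Algebra A B] [Algebra A' B'] [Algebra B B'] [Algebra A B']
    [IsScalarTower A A' B'] [IsScalarTower A B B'] (n : ℕ)
    (b : Module.Basis (Fin n) A B) (b' : Module.Basis (Fin n) A' B')
    (h : ∀ i, b' i = algebraMap B B' (b i)) (_ : Module.Flat A A') : Module.Flat B B' := by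
  have h1 : IsBaseChange A' (Fintype.linearCombination A b') :=
    IsBaseChange.of_fintype_basis A b'
  have h2 := IsBaseChange.comp_equiv b.equivFun (Fintype.linearCombination A b') h1
  have h3 : (Fintype.linearCombination A b').comp b.equivFun.toLinearMap =
      (IsScalarTower.toAlgHom A B B').toLinearMap := by
    refine b.ext fun i => ?_
    rw [LinearMap.comp_apply, LinearEquiv.coe_coe, Fintype.linearCombination_apply,
      AlgHom.toLinearMap_apply, IsScalarTower.coe_toAlgHom', ← h i]
    rw [Finset.sum_eq_single i]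
    · rw [Module.Basis.equivFun_apply, Module.Basis.repr_self, Finsupp.single_eq_same, one_smul]
    · intro j _ hj
      rw [Module.Basis.equivFun_apply, Module.Basis.repr_self, Finsupp.single_eq_of_ne hj,
        zero_smul]
    · intro hi
      exact absurd (Finset.mem_univ _) hi
  rw [h3] at h2
  have h4 : Algebra.IsPushout A A' B B' := ⟨h2⟩
  have h5 := h4.symm.out
  exact Module.Flat.isBaseChange A B A' B' h5

private lemma SWL_mul (S : HWG.SG) (j : ℕ) : S.G ((S.F + 1) * j) := by
  induction j with
  | zero => exact S.zero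
  | succ j ih =>
    rw [Nat.mul_succ]
    exact S.add _ _ ih (S.big _ (Nat.lt_succ_self _))

/-- `f (X ^ (F + 1))` -/
private noncomputable def SWL_th (S : HWG.SG) (V : Type) [CommRing V] :
    PowerSeries V →+* SV S V :=
  (PowerSeries.expand (R := V) (S.F + 1) (Nat.succ_ne_zero _)).toRingHom.codRestrict (SV S V) (by
    intro f n hn
    by_cases h : (S.F + 1) ∣ n
    · obtain ⟨j, rfl⟩ := h
      exact SWL_mul S j
    · exact absurd (PowerSeries.coeff_expand_of_not_dvd _ _ _ h) hn)

/-- change of coefficients -/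
private noncomputable def SWL_map (S : HWG.SG) (K L : Type) [CommRing K] [CommRing L]
    (r : K →+* L) : SV S K →+* SV S L :=
  ((PowerSeries.map r).comp (SV S K).subtype).codRestrict (SV S L) (by
    intro f n hn
    apply f.2 n
    intro h0
    apply hn
    show PowerSeries.coeff n (PowerSeries.map r (f : PowerSeries K)) = 0
    rw [PowerSeries.coeff_map, h0, map_zero])

private lemma SWL_ex (S : HWG.SG) (i : ℕ) (hi : i < S.F + 1) :
    ∃ w : ℕ, S.G w ∧ w % (S.F + 1) = i ∧ ∀ n, S.G n → n % (S.F + 1) = i → w ≤ n := by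
  classical
  have hex : ∃ n, S.G n ∧ n % (S.F + 1) = i :=
    ⟨i + (S.F + 1), S.big _ (by omega), by rw [Nat.add_mod_right, Nat.mod_eq_of_lt hi]⟩
  exact ⟨Nat.find hex, (Nat.find_spec hex).1, (Nat.find_spec hex).2,
    fun n h1 h2 => Nat.find_min' hex ⟨h1, h2⟩⟩

/-- monomials -/
private noncomputable def SWL_X (S : HWG.SG) (V : Type) [CommRing V] (w : ℕ) (hw : S.G w) :
    SV S V :=
  ⟨PowerSeries.X ^ w, by
    intro n hn
    rw [PowerSeries.coeff_X_pow] at hn
    split_ifs at hn with h
    · rw [h]; exact hw
    · exact absurd rfl hn⟩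

private lemma SWL_coeff (S : HWG.SG) (V : Type) [CommRing V] (w : Fin (S.F + 1) → ℕ)
    (hw2 : ∀ i, w i % (S.F + 1) = (i : ℕ)) (c : Fin (S.F + 1) → PowerSeries V)
    (i : Fin (S.F + 1)) (j : ℕ) :
    PowerSeries.coeff (w i + (S.F + 1) * j)
      (∑ i, PowerSeries.expand (S.F + 1) (Nat.succ_ne_zero _) (c i) * PowerSeries.X ^ w i) =
    PowerSeries.coeff j (c i) := by
  rw [map_sum, Finset.sum_eq_single i]
  · rw [PowerSeries.coeff_mul_X_pow', if_pos (Nat.le_add_right _ _), Nat.add_sub_cancel_left,
      PowerSeries.coeff_expand_mul]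
  · intro k _ hk
    rw [PowerSeries.coeff_mul_X_pow']
    by_cases h1 : w k ≤ w i + (S.F + 1) * j
    · rw [if_pos h1]
      apply PowerSeries.coeff_expand_of_not_dvd
      intro h2
      have h3 := (Nat.modEq_iff_dvd' h1).2 h2
      unfold Nat.ModEq at h3
      rw [Nat.add_mul_mod_self_left, hw2, hw2] at h3
      exact hk (Fin.ext h3)
    · rw [if_neg h1]
  · intro h
    exact absurd (Finset.mem_univ _) h

private lemma SWL_basis (S : HWG.SG) (V : Type) [CommRing V] (w : Fin (S.F + 1) → ℕ)
    (hw1 : ∀ i, S.G (w i)) (hw2 : ∀ i, w i % (S.F + 1) = (i : ℕ))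
    (hw3 : ∀ (i : Fin (S.F + 1)) n, S.G n → n % (S.F + 1) = (i : ℕ) → w i ≤ n)
    [Algebra (PowerSeries V) (SV S V)] (halg : algebraMap (PowerSeries V) (SV S V) = SWL_th S V) :
    ∃ b : Module.Basis (Fin (S.F + 1)) (PowerSeries V) (SV S V),
      ∀ i, b i = SWL_X S V (w i) (hw1 i) := by
  have hcoe : ∀ c : Fin (S.F + 1) → PowerSeries V,
      ((∑ i, c i • SWL_X S V (w i) (hw1 i) : SV S V) : PowerSeries V) =
      ∑ i, PowerSeries.expand (S.F + 1) (Nat.succ_ne_zero _) (c i) * PowerSeries.X ^ w i := by
    intro c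
    have h := map_sum (SV S V).subtype (fun i => c i • SWL_X S V (w i) (hw1 i)) Finset.univ
    refine h.trans (Finset.sum_congr rfl fun i _ => ?_)
    rw [Algebra.smul_def, halg]
    rfl
  have hli : LinearIndependent (PowerSeries V) (fun i => SWL_X S V (w i) (hw1 i)) := by
    rw [Fintype.linearIndependent_iff]
    intro c hc i
    have h1 := hcoe c
    rw [hc] at h1
    apply PowerSeries.ext
    intro j
    have h2 := SWL_coeff S V w hw2 c i j
    rw [← h1] at h2
    rw [← h2]
    rfl
  have hsp : ⊤ ≤ Submodule.span (PowerSeries V)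
      (Set.range (fun i => SWL_X S V (w i) (hw1 i))) := by
    intro f _
    let c : Fin (S.F + 1) → PowerSeries V := fun i =>
      PowerSeries.mk fun j => PowerSeries.coeff (w i + (S.F + 1) * j) (f : PowerSeries V)
    have hf : f = ∑ i, c i • SWL_X S V (w i) (hw1 i) := by
      apply Subtype.ext
      apply PowerSeries.ext
      intro n
      by_cases hn : S.G n
      · have hlt : n % (S.F + 1) < S.F + 1 := Nat.mod_lt _ (Nat.succ_pos _)
        have hle := hw3 ⟨n % (S.F + 1), hlt⟩ n hn rfl
        have hd : (S.F + 1) ∣ n - w ⟨n % (S.F + 1), hlt⟩ :=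
          (Nat.modEq_iff_dvd' hle).1 (by
            unfold Nat.ModEq
            rw [hw2])
        obtain ⟨j, hj⟩ := hd
        have hnj : n = w ⟨n % (S.F + 1), hlt⟩ + (S.F + 1) * j := by omega
        have h2 := SWL_coeff S V w hw2 c ⟨n % (S.F + 1), hlt⟩ j
        rw [← hcoe c, ← hnj, PowerSeries.coeff_mk, ← hnj] at h2
        exact h2.symm
      · have h1 : PowerSeries.coeff n (f : PowerSeries V) = 0 := by
          by_contra h
          exact hn (f.2 n h)
        have h2 : PowerSeries.coeff n
            ((∑ i, c i • SWL_X S V (w i) (hw1 i) : SV S V) : PowerSeries V) = 0 := by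
          by_contra h
          exact hn ((∑ i, c i • SWL_X S V (w i) (hw1 i) : SV S V).2 n h)
        rw [h1, h2]
    rw [hf]
    exact Submodule.sum_mem _ fun i _ => Submodule.smul_mem _ _
      (Submodule.subset_span ⟨i, rfl⟩)
  exact ⟨Module.Basis.mk hli hsp, fun i => Module.Basis.mk_apply hli hsp i⟩

theorem thm_SWL : St_SWL := by
  intro S K L _ _ r
  choose w hw1 hw2 hw3 using fun i : Fin (S.F + 1) => SWL_ex S i i.2
  let _ : Algebra (SV S K) (SV S L) := (SWL_map S K L r).toAlgebra
  refine ⟨inferInstance, ?_, fun f n => ?_⟩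
  · let _ : Algebra (PowerSeries K) (PowerSeries L) := (PowerSeries.map r).toAlgebra
    let _ : Algebra (PowerSeries K) (SV S K) := (SWL_th S K).toAlgebra
    let _ : Algebra (PowerSeries L) (SV S L) := (SWL_th S L).toAlgebra
    let _ : Algebra (PowerSeries K) (SV S L) :=
      ((SWL_th S L).comp (PowerSeries.map r)).toAlgebra
    have t1 : IsScalarTower (PowerSeries K) (PowerSeries L) (SV S L) :=
      IsScalarTower.of_algebraMap_eq' rfl
    have t2 : IsScalarTower (PowerSeries K) (SV S K) (SV S L) := by
      refine IsScalarTower.of_algebraMap_eq fun f => ?_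
      apply Subtype.ext
      exact (PowerSeries.map_expand _ _ r f).symm
    obtain ⟨b, hb⟩ := SWL_basis S K w hw1 hw2 hw3 rfl
    obtain ⟨b', hb'⟩ := SWL_basis S L w hw1 hw2 hw3 rfl
    have hflat : Module.Flat (PowerSeries K) (PowerSeries L) := by
      have htf : Module.IsTorsionFree (PowerSeries K) (PowerSeries L) := by
        refine ⟨fun a ha => ?_⟩
        intro x y hxy
        have hxy' : PowerSeries.map r a * x = PowerSeries.map r a * y := hxy
        refine mul_left_cancel₀ ?_ hxy'
        intro h0
        have ha0 : a ≠ 0 := ha.ne_zero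
        apply ha0
        apply PowerSeries.ext
        intro n
        have h1 := congrArg (PowerSeries.coeff n) h0
        rw [PowerSeries.coeff_map, map_zero] at h1
        rw [map_zero]
        exact (map_eq_zero r).1 h1
      infer_instance
    refine SWL_flat (PowerSeries K) (PowerSeries L) (SV S K) (SV S L) (S.F + 1) b b' ?_ hflat
    intro i
    rw [hb, hb']
    apply Subtype.ext
    show PowerSeries.X ^ w i = PowerSeries.map r (PowerSeries.X ^ w i)
    rw [map_pow, PowerSeries.map_X]
  · exact PowerSeries.coeff_map _ _ _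

end Pool.Agent.ARD
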