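import Pool.Agent.ARD.StS

set_option autoImplicit false

namespace Pool.Agent.ARD

open ARS IsLocalRing

private lemma SWN_unit (S : HWG.SG) (V : Type) [CommRing V] (f : SV S V)
    (hf : IsUnit (ev S V f)) : IsUnit f := by
  have hf' : IsUnit (PowerSeries.constantCoeff (R := V) (f : PowerSeries V)) := hf
  have hf0 : IsUnit (PowerSeries.coeff 0 (f : PowerSeries V)) := by
    rw [PowerSeries.coeff_zero_eq_constantCoeff_apply]
    exact hf'
  obtain ⟨y, h1⟩ := (PowerSeries.isUnit_iff_constantCoeff.2 hf').exists_right_inv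
  have hy0 : ∀ n, PowerSeries.coeff n y ≠ 0 → S.G n := by
    intro n
    induction n using Nat.strong_induction_on with
    | _ n ih =>
      intro hn
      rcases Nat.eq_zero_or_pos n with h | h
      · rw [h]; exact S.zero
      have e := congrArg (PowerSeries.coeff n) h1
      rw [PowerSeries.coeff_mul, PowerSeries.coeff_one, if_neg (by omega)] at e
      have hp0 : ((0, n) : ℕ × ℕ) ∈ Finset.HasAntidiagonal.antidiagonal n := by
        rw [Finset.HasAntidiagonal.mem_antidiagonal]; simp
      rw [← Finset.add_sum_erase _ _ hp0] at e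
      have hne : ∑ p ∈ (Finset.HasAntidiagonal.antidiagonal n).erase (0, n),
          PowerSeries.coeff p.1 (f : PowerSeries V) * PowerSeries.coeff p.2 y ≠ 0 := by
        intro h2
        rw [h2, add_zero] at e
        exact hn (hf0.mul_right_eq_zero.1 e)
      obtain ⟨p, hp, hp1⟩ := Finset.exists_ne_zero_of_sum_ne_zero hne
      have hp2 := Finset.HasAntidiagonal.mem_antidiagonal.1 (Finset.mem_of_mem_erase hp)
      have hp3 := Finset.ne_of_mem_erase hp
      have hlt : p.2 < n := by
        rcases Nat.eq_zero_or_pos p.1 with h4 | h4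
        · exfalso
          apply hp3
          ext
          · exact h4
          · show p.2 = n
            omega
        · omega
      rw [← hp2]
      exact S.add _ _ (f.2 _ (left_ne_zero_of_mul hp1)) (ih _ hlt (right_ne_zero_of_mul hp1))
  exact IsUnit.of_mul_eq_one (⟨y, hy0⟩ : SV S V) (Subtype.ext h1)

private lemma SWN_mul (S : HWG.SG) (j : ℕ) : S.G ((S.F + 1) * j) := by
  induction j with
  | zero => exact S.zero
  | succ j ih =>
    rw [Nat.mul_succ]
    exact S.add _ _ ih (S.big _ (Nat.lt_succ_self _))

/-- `f (X ^ (F + 1))` -/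
private noncomputable def SWN_th (S : HWG.SG) (V : Type) [CommRing V] :
    PowerSeries V →+* SV S V :=
  (PowerSeries.expand (R := V) (S.F + 1) (Nat.succ_ne_zero _)).toRingHom.codRestrict (SV S V) (by
    intro f n hn
    by_cases h : (S.F + 1) ∣ n
    · obtain ⟨j, rfl⟩ := h
      exact SWN_mul S j
    · exact absurd (PowerSeries.coeff_expand_of_not_dvd _ _ _ h) hn)

private lemma SWN_ex (S : HWG.SG) (i : ℕ) (hi : i < S.F + 1) :
    ∃ w : ℕ, S.G w ∧ w % (S.F + 1) = i ∧ ∀ n, S.G n → n % (S.F + 1) = i → w ≤ n := by
  classical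
  have hex : ∃ n, S.G n ∧ n % (S.F + 1) = i :=
    ⟨i + (S.F + 1), S.big _ (by omega), by rw [Nat.add_mod_right, Nat.mod_eq_of_lt hi]⟩
  exact ⟨Nat.find hex, (Nat.find_spec hex).1, (Nat.find_spec hex).2,
    fun n h1 h2 => Nat.find_min' hex ⟨h1, h2⟩⟩

private lemma SWN_noeth (S : HWG.SG) (V : Type) [CommRing V] [IsNoetherianRing V] :
    IsNoetherianRing (SV S V) := by
  classical
  let _ : Algebra (PowerSeries V) (SV S V) := (SWN_th S V).toAlgebra
  choose w hw1 hw2 hw3 using fun i : Fin (S.F + 1) => SWN_ex S i i.2
  let g : Fin (S.F + 1) → SV S V := fun i => ⟨PowerSeries.X ^ w i, by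
    intro n hn
    rw [PowerSeries.coeff_X_pow] at hn
    split_ifs at hn with h
    · rw [h]; exact hw1 i
    · exact absurd rfl hn⟩
  have hfin : Module.Finite (PowerSeries V) (SV S V) := by
    refine ⟨⟨Finset.univ.image g, ?_⟩⟩
    rw [eq_top_iff]
    intro f _
    let c : Fin (S.F + 1) → PowerSeries V := fun i =>
      PowerSeries.mk fun j => PowerSeries.coeff (w i + (S.F + 1) * j) (f : PowerSeries V)
    have hf : f = ∑ i, c i • g i := by
      apply Subtype.ext
      have hcoe : ((∑ i, c i • g i : SV S V) : PowerSeries V) =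
          ∑ i, PowerSeries.expand (S.F + 1) (Nat.succ_ne_zero _) (c i) * PowerSeries.X ^ w i := by
        have h := map_sum (SV S V).subtype (fun i => c i • g i) Finset.univ
        exact h
      rw [hcoe]
      apply PowerSeries.ext
      intro n
      rw [map_sum]
      have hterm : ∀ i : Fin (S.F + 1), PowerSeries.coeff n
          (PowerSeries.expand (S.F + 1) (Nat.succ_ne_zero _) (c i) * PowerSeries.X ^ w i) =
          if (i : ℕ) = n % (S.F + 1) then PowerSeries.coeff n (f : PowerSeries V) else 0 := by
        intro i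
        rw [PowerSeries.coeff_mul_X_pow']
        by_cases h1 : w i ≤ n
        · rw [if_pos h1]
          by_cases h2 : (S.F + 1) ∣ n - w i
          · obtain ⟨j, hj⟩ := h2
            have h3 : n = w i + (S.F + 1) * j := by omega
            have h4 : (i : ℕ) = n % (S.F + 1) := by
              rw [h3, Nat.add_mul_mod_self_left, hw2]
            rw [if_pos h4, hj, PowerSeries.coeff_expand_mul, PowerSeries.coeff_mk, ← h3]
          · rw [PowerSeries.coeff_expand_of_not_dvd _ _ _ h2]
            by_cases h4 : (i : ℕ) = n % (S.F + 1)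
            · exfalso
              apply h2
              exact (Nat.modEq_iff_dvd' h1).1 (by
                unfold Nat.ModEq
                rw [hw2, h4])
            · rw [if_neg h4]
        · rw [if_neg h1]
          by_cases h4 : (i : ℕ) = n % (S.F + 1)
          · rw [if_pos h4]
            by_contra h5
            exact h1 (hw3 i n (f.2 n (Ne.symm h5)) h4.symm)
          · rw [if_neg h4]
      rw [Finset.sum_congr rfl fun i _ => hterm i]
      have hlt : n % (S.F + 1) < S.F + 1 := Nat.mod_lt _ (Nat.succ_pos _)
      rw [Finset.sum_eq_single (⟨n % (S.F + 1), hlt⟩ : Fin (S.F + 1)), if_pos rfl]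
      · intro i _ hi
        rw [if_neg]
        intro h
        exact hi (Fin.ext h)
      · intro h
        exact absurd (Finset.mem_univ _) h
    rw [hf]
    refine Submodule.sum_mem _ fun i _ => Submodule.smul_mem _ _ (Submodule.subset_span ?_)
    exact Finset.mem_coe.2 (Finset.mem_image_of_mem g (Finset.mem_univ i))
  exact IsNoetherianRing.of_finite (PowerSeries V) (SV S V)

theorem thm_SWN : St_SWN := by
  intro S V _ _ _
  have hloc : IsLocalHom (ev S V) := ⟨fun f hf => SWN_unit S V f hf⟩
  refine ⟨RingHom.domain_isLocalRing (ev S V), SWN_noeth S V, fun f => ?_⟩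
  have := RingHom.domain_isLocalRing (ev S V)
  rw [mem_maximalIdeal, mem_maximalIdeal, mem_nonunits_iff, mem_nonunits_iff,
    isUnit_map_iff (ev S V) f]

end Pool.Agent.ARD
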