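import Pool.Agent.ARD.StG

/-! Statements of the modules of ARD, part H: the graded instance. `A = ⊕ A_n` a Noetherian
positively graded algebra over a field `K`, `A_0 = K`, `m` the ideal of the elements with constant
term zero; if `A_m` is Gorenstein then it is quasi-homogeneous (`QD`). Do not change this file. -/

set_option autoImplicit false

namespace Pool.Agent.ARD

open ARS IsLocalRing

/-- the socle of `N / (xs) N` is simple -/
def TY (R : Type) [CommRing R] [IsLocalRing R] (xs : List R) (N : Type) [AddCommGroup N]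
    [Module R N] : Prop :=
  (∃ u : N, u ∉ (Ideal.ofList xs • ⊤ : Submodule R N) ∧
    ∀ t ∈ maximalIdeal R, t • u ∈ (Ideal.ofList xs • ⊤ : Submodule R N)) ∧
  ∀ u v : N, u ∉ (Ideal.ofList xs • ⊤ : Submodule R N) →
    (∀ t ∈ maximalIdeal R, t • u ∈ (Ideal.ofList xs • ⊤ : Submodule R N)) →
    (∀ t ∈ maximalIdeal R, t • v ∈ (Ideal.ofList xs • ⊤ : Submodule R N)) →
    ∃ r : R, v - r • u ∈ (Ideal.ofList xs • ⊤ : Submodule R N)

/-- [EXT] `St_EXC` with types. Proof as for `St_EXC` (same induction, same choice of `y`), with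
`TY R (x :: xs) N ↔ TY R xs (QuotSMulTop x N)` (check on elements), invariance of `TY` under
permutations of the list (the ideal is the same) and, for lists of length one: if `x, a` are regular
on `N` then `TY R [x] N → TY R [a] N`: for `m u ⊆ x N` write `a u = x u'`; then `m u' ⊆ a N`
(`t u = x w` gives `x t u' = a t u = x a w`), `u ∈ x N ↔ u' ∈ a N`, and symmetrically. -/
def St_EXT : Prop := ∀ (R : Type) [CommRing R] [IsLocalRing R] [IsNoetherianRing R]
  (N : Type) [AddCommGroup N] [Module R N] [Module.Finite R N] (xs : List R),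
  (∀ x ∈ xs, x ∈ maximalIdeal R) → 1 ≤ xs.length → Rg R xs N →
  ∀ a ∈ maximalIdeal R, (∀ v : N, a • v = 0 → v = 0) →
  ∃ ys : List R, (∀ y ∈ ys, y ∈ maximalIdeal R) ∧ ys.length + 1 = xs.length ∧
    Rg R (a :: ys) N ∧ (TY R xs N → TY R (a :: ys) N)

/-- [TYP] (uses EXT) The type does not depend on the sequence. Proof by induction on the length:
`ys = a :: ys'`; `zs` with `(a, zs)` regular and `TY R (a :: zs) N` by `St_EXT`; induction for
`QuotSMulTop a N`, `zs`, `ys'`. -/
def St_TYP : Prop := ∀ (R : Type) [CommRing R] [IsLocalRing R] [IsNoetherianRing R]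
  (N : Type) [AddCommGroup N] [Module R N] [Module.Finite R N] (xs ys : List R),
  (∀ x ∈ xs, x ∈ maximalIdeal R) → (∀ x ∈ ys, x ∈ maximalIdeal R) → ys.length = xs.length →
  Rg R xs N → Rg R ys N → TY R xs N → TY R ys N

/-- [IRT] Proof. If `I = (xs)` is irreducible and `u, v ∉ I` are socle elements, then
`(I + R u) ∩ (I + R v) ≠ I`, so `r u - s v ∈ I` with a unit (as `m u, m v ⊆ I`); a socle element
exists because `R / I` is Artinian, `I ≠ ⊤`. Conversely every ideal `J > I` contains a socle
element outside `I` (`R / I` Artinian local), so all of them contain `u`. -/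
def St_IRT : Prop := ∀ (R : Type) [CommRing R] [IsLocalRing R] [IsNoetherianRing R]
  (xs : List R), IsArtinianRing (R ⧸ Ideal.ofList xs) →
  (InfIrred (Ideal.ofList xs) ↔ TY R xs R)

/-- [GII] (uses TYP, IRT, DIM) Every maximal regular sequence of a Gorenstein local ring generates
an irreducible ideal. Proof: `St_TYP`, `St_IRT`; `R / (ys)` is Artinian by `St_DIM`, since
`dim R = xs.length` (`ringKrullDim_add_length_eq_ringKrullDim_of_isRegular`, `R / (xs)` is Artinian;
`Rg` in the maximal ideal of a local ring gives `IsRegular`). -/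
def St_GII : Prop := ∀ (R : Type) [CommRing R] [IsLocalRing R] [IsNoetherianRing R]
  (xs ys : List R), GorL R xs → (∀ x ∈ ys, x ∈ maximalIdeal R) → ys.length = xs.length →
  Rg R ys R → GorL R ys

/-- [DEP] (uses EXC) Proof by induction on `ys`, for all `N`, `xs`: `ys = []`: some `x` in the
maximal ideal is regular on `N`. `ys = a :: ys'`: `zs` with `(a, zs)` regular on `N` by `St_EXC`;
`zs`, `ys'` are regular on `QuotSMulTop a N` and `ys'.length < zs.length`. -/
def St_DEP : Prop := ∀ (R : Type) [CommRing R] [IsLocalRing R] [IsNoetherianRing R]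
  (N : Type) [AddCommGroup N] [Module R N] [Module.Finite R N] (xs ys : List R),
  (∀ x ∈ xs, x ∈ maximalIdeal R) → (∀ x ∈ ys, x ∈ maximalIdeal R) → ys.length < xs.length →
  Rg R xs N → Rg R ys N → ∀ v : N,
  (∀ t ∈ maximalIdeal R, t • v ∈ (Ideal.ofList ys • ⊤ : Submodule R N)) →
  v ∈ (Ideal.ofList ys • ⊤ : Submodule R N)

/-- [HPA] Homogeneous prime avoidance. Proof. Replace the primes by their homogeneous cores
(`Ideal.IsPrime.homogeneousCore`; the same homogeneous elements). Induction on the number of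
primes: if `P ≠ Q`, `Q ≤ P`, drop `Q`. Otherwise let `f`, homogeneous of positive degree, avoid all
`Q ≠ P`, `f ∈ P`; there is a homogeneous `g` of positive degree in all `Q ≠ P` and not in `P` (a
product of homogeneous elements of `Q \ P` and one of positive degree outside `P`); then
`f ^ deg g + g ^ deg f` works. -/
def St_HPA : Prop := ∀ (K A : Type) [Field K] [CommRing A] [Algebra K A]
  (𝒜 : ℕ → Submodule K A) [GradedAlgebra 𝒜] (S : Set (Ideal A)), S.Finite →
  (∀ P ∈ S, P.IsPrime ∧ ∃ n, 0 < n ∧ ∃ f ∈ 𝒜 n, f ∉ P) →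
  ∃ n, 0 < n ∧ ∃ f ∈ 𝒜 n, ∀ P ∈ S, f ∉ P

/-- [HSQ] (uses DEP, HPA) Homogeneous regular sequences. Proof: for every `i ≤ xs.length` there is
such a list `L` of length `i`. Step: `N = B / (L) B`; its associated primes (finitely many) are
not the maximal ideal (`St_DEP`), so their preimages in `A` do not contain all homogeneous elements
of positive degree (these generate `m`); `f` by `St_HPA`; it is regular on `N`, `L ++ [(f, n)]`. -/
def St_HSQ : Prop := ∀ (K A : Type) [Field K] [CommRing A] [Algebra K A] [IsNoetherianRing A]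
  (𝒜 : ℕ → Submodule K A) [GradedAlgebra 𝒜] (m : Ideal A) [m.IsPrime]
  (_ : ∀ a, a ∈ m ↔ GradedRing.proj 𝒜 0 a = 0) (xs : List (Localization.AtPrime m)),
  (∀ x ∈ xs, x ∈ maximalIdeal (Localization.AtPrime m)) →
  Rg (Localization.AtPrime m) xs (Localization.AtPrime m) →
  ∃ L : List (A × ℕ), (∀ p ∈ L, 0 < p.2 ∧ p.1 ∈ 𝒜 p.2) ∧ L.length = xs.length ∧
    Rg (Localization.AtPrime m)
      (L.map fun p => algebraMap A (Localization.AtPrime m) p.1) (Localization.AtPrime m)

/-- [LDR] Derivations extend to localisations. Proof: `a ↦ (a, D a)`, `A → TrivSqZeroExt B B`,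
`B = Localization M`, maps `M` to units (`TrivSqZeroExt.isUnit_iff_isUnit_fst`), so it extends to
`B` (`IsLocalization.lift`); take the second component (the first one is the identity). -/
def St_LDR : Prop := ∀ (K A : Type) [Field K] [CommRing A] [Algebra K A] (M : Submonoid A)
  (D : Derivation K A A), ∃ D' : Derivation K (Localization M) (Localization M),
  ∀ a, D' (algebraMap A (Localization M) a) = algebraMap A (Localization M) (D a)

/-- [EUL] The Euler derivation. -/
def St_EUL : Prop := ∀ (K A : Type) [Field K] [CommRing A] [Algebra K A]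
  (𝒜 : ℕ → Submodule K A) [GradedAlgebra 𝒜], ∃ D : Derivation K A A,
  ∀ n, ∀ a ∈ 𝒜 n, D a = (n : A) * a

/-- [QDF] Proof. For `j ≥ 1` every element of the maximal ideal is the sum of a `K`-linear
combination of products of `i` elements of `G`, `1 ≤ i < j`, and of an element of `max ^ j`
(induction on `j`, by `res` and `gen`). The products are eigenvectors of `D` with positive integral
eigenvalues `≤ n`; `D` maps `max ^ k` to itself. -/
def St_QDF : Prop := ∀ (K B : Type) [Field K] [CommRing B] [IsLocalRing B] [Algebra K B]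
  (D : Derivation K B B) (G : Finset B) (J : Ideal B) (k : ℕ),
  (∀ a : B, ∃ c : K, a - algebraMap K B c ∈ maximalIdeal B) →
  maximalIdeal B = Ideal.span (G : Set B) →
  (∀ g ∈ G, ∃ w : ℕ, 0 < w ∧ D g = (w : B) * g) → maximalIdeal B ^ k ≤ J →
  (∀ a ∈ maximalIdeal B, D a ∈ maximalIdeal B) ∧ Module.Finite K (B ⧸ J) ∧
  ∃ n : ℕ, ∀ a ∈ maximalIdeal B,
    (Polynomial.aeval (D.toLinearMap : Module.End K B)
      (∏ w ∈ Finset.Icc 1 n, (Polynomial.X - Polynomial.C (w : K)))) a ∈ J

/-- [QDG] (uses HSQ, GII, LDR, EUL, QDF) Proof: `m` is generated by finitely many homogeneous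
elements of positive degree, so is the maximal ideal of `A_m`; `A_m = K + max`
(`a / s - a_0 / s_0 = (a s_0 - a_0 s) / (s s_0)`); `L` from `St_HSQ`, `GorL` for it by `St_GII`;
`max ^ k ≤ (L)` for some `k` because `A_m / (L)` is Artinian. -/
def St_QDG : Prop := ∀ (K A : Type) [Field K] [CommRing A] [Algebra K A] [IsNoetherianRing A]
  (𝒜 : ℕ → Submodule K A) [GradedAlgebra 𝒜] (_ : ∀ a ∈ 𝒜 0, ∃ c : K, algebraMap K A c = a)
  (m : Ideal A) [m.IsPrime] (_ : ∀ a, a ∈ m ↔ GradedRing.proj 𝒜 0 a = 0)
  (xs : List (Localization.AtPrime m)), GorL (Localization.AtPrime m) xs →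
  ∃ (D : Derivation K (Localization.AtPrime m) (Localization.AtPrime m))
    (L : List (Localization.AtPrime m × ℕ)), QD K (Localization.AtPrime m) D L

end Pool.Agent.ARD
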