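import Pool.Agent.ARD.StS
import Pool.Agent.ARD.StH

/-! helper75, module SWP: the localisation of `V[[G]]` at the prime of the series without constant
term is quasi-homogeneous. -/

set_option autoImplicit false

namespace Pool.Agent.ARD

open ARS IsLocalRing TrivSqZeroExt

section loc

variable {k A : Type} [CommRing k] [CommRing A] [Algebra k A] (M : Submonoid A)
  (B : Type) [CommRing B] [Algebra A B] [Algebra k B] [IsScalarTower k A B] [IsLocalization M B]

/-- the homomorphism `a ↦ (a, D a)` -/
private def SWP_h (D : Derivation k A A) : A →ₐ[k] TrivSqZeroExt B B :=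
  { toFun := fun a => inl (algebraMap A B a) + inr (algebraMap A B (D a))
    map_one' := by
      rw [Derivation.map_one_eq_zero, map_one, map_zero, inr_zero, add_zero, inl_one]
    map_mul' := fun a b => by
      ext
      · simp
      · simp only [snd_add, snd_inl, snd_inr, snd_mul, fst_add, fst_inl, fst_inr, zero_add, add_zero,
          D.leibniz, smul_eq_mul, map_add, map_mul, op_smul_eq_smul]
    map_zero' := by simp
    map_add' := fun a b => by
      ext
      · simp only [fst_add, fst_inl, fst_inr, add_zero, map_add]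
      · simp only [snd_add, snd_inl, snd_inr, zero_add, map_add]
    commutes' := fun r => by
      rw [D.map_algebraMap, map_zero, inr_zero, add_zero, ← IsScalarTower.algebraMap_apply]
      rfl }

private theorem SWP_unit (D : Derivation k A A) (y : M) : IsUnit (SWP_h B D y) := by
  rw [isUnit_iff_isUnit_fst]
  show IsUnit ((inl (algebraMap A B y) + inr (algebraMap A B (D y)) : TrivSqZeroExt B B)).fst
  rw [fst_add, fst_inl, fst_inr, add_zero]
  exact IsLocalization.map_units B y

include M in
/-- the extension of a derivation to a localisation -/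
private theorem SWP_locDer (D : Derivation k A A) : ∃ D' : Derivation k B B,
    ∀ a, D' (algebraMap A B a) = algebraMap A B (D a) := by
  let φ : B →ₐ[k] TrivSqZeroExt B B := IsLocalization.liftAlgHom (M := M) (f := SWP_h B D)
    (SWP_unit M B D)
  have hφ : ∀ a, φ (algebraMap A B a) = SWP_h B D a := fun a => by
    show IsLocalization.lift _ _ = _
    exact IsLocalization.lift_eq _ _
  have hfst : ∀ b, (φ b).fst = b := by
    have h : ((fstHom B B B).restrictScalars k).comp φ = AlgHom.id k B := by
      apply IsLocalization.algHom_ext M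
      refine AlgHom.ext fun a => ?_
      show (φ (algebraMap A B a)).fst = algebraMap A B a
      rw [hφ]
      show ((inl (algebraMap A B a) + inr (algebraMap A B (D a)) : TrivSqZeroExt B B)).fst = _
      rw [fst_add, fst_inl, fst_inr, add_zero]
    intro b
    exact congrArg (fun z : B →ₐ[k] B => z b) h
  refine ⟨Derivation.mk' ((sndHom B B).restrictScalars k ∘ₗ φ.toLinearMap) ?_, fun a => ?_⟩
  · intro a b
    show (φ (a * b)).snd = a • (φ b).snd + b • (φ a).snd
    rw [map_mul, snd_mul, hfst, hfst, op_smul_eq_smul]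
  · show (φ (algebraMap A B a)).snd = _
    rw [hφ]
    show ((inl (algebraMap A B a) + inr (algebraMap A B (D a)) : TrivSqZeroExt B B)).snd = _
    rw [snd_add, snd_inl, snd_inr, zero_add]

end loc

section ser

variable (S : HWG.SG) {V : Type} [CommRing V]

/-- monomials -/
private noncomputable def SWP_mo (V : Type) [CommRing V] (n : ℕ) (h : S.G n) : SV S V :=
  ⟨PowerSeries.X ^ n, by
    intro m hm
    rw [PowerSeries.coeff_X_pow] at hm
    split_ifs at hm with h1
    · rw [h1]; exact h
    · exact absurd rfl hm⟩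

private theorem SWP_cmo (n : ℕ) (h : S.G n) (m : ℕ) :
    PowerSeries.coeff m (SWP_mo S V n h : PowerSeries V) = if m = n then 1 else 0 :=
  PowerSeries.coeff_X_pow m n

private theorem SWP_big : S.G (S.F + 1) := S.big _ (Nat.lt_succ_self _)

/-- divisibility by `X ^ (F + 1)` -/
private theorem SWP_div (a : SV S V)
    (h : ∀ n, PowerSeries.coeff n (a : PowerSeries V) ≠ 0 → ∃ m, n = m + (S.F + 1) ∧ S.G m) :
    ∃ b, a = SWP_mo S V (S.F + 1) (SWP_big S) * b := by
  have h1 : PowerSeries.X ^ (S.F + 1) ∣ (a : PowerSeries V) := by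
    rw [PowerSeries.X_pow_dvd_iff]
    intro n hn
    by_contra h2
    obtain ⟨m, hm, _⟩ := h n h2
    omega
  obtain ⟨u, hu⟩ := h1
  have h2 : ∀ n, PowerSeries.coeff n u = PowerSeries.coeff (n + (S.F + 1)) (a : PowerSeries V) := by
    intro n
    rw [hu, PowerSeries.coeff_X_pow_mul]
  refine ⟨⟨u, fun n hn => ?_⟩, Subtype.ext hu⟩
  rw [h2] at hn
  obtain ⟨m, hm, hm'⟩ := h _ hn
  obtain rfl : n = m := by omega
  exact hm'

private theorem SWP_cmul (n : ℕ) (h : S.G n) (a : SV S V) (m : ℕ) :
    PowerSeries.coeff m ((SWP_mo S V n h * a : SV S V) : PowerSeries V) =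
      if n ≤ m then PowerSeries.coeff (m - n) (a : PowerSeries V) else 0 :=
  PowerSeries.coeff_X_pow_mul' _ _ _

private theorem SWP_ccst (v : V) (a : SV S V) (m : ℕ) :
    PowerSeries.coeff m ((cst S V v * a : SV S V) : PowerSeries V) =
      v * PowerSeries.coeff m (a : PowerSeries V) :=
  PowerSeries.coeff_C_mul _ _ _

/-- the key point: an element which is not divisible by `X ^ (F + 1)` has a multiple
`v X ^ (2 F + 1)`, `v ≠ 0`, modulo `X ^ (F + 1)` -/
private theorem SWP_key (a : SV S V)
    (ha : ¬ ∃ b, a = SWP_mo S V (S.F + 1) (SWP_big S) * b) :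
    ∃ (v : V) (c b : SV S V), v ≠ 0 ∧
      c * a = cst S V v * SWP_mo S V (2 * S.F + 1) (S.big _ (by omega)) +
        SWP_mo S V (S.F + 1) (SWP_big S) * b := by
  classical
  have hex : ∃ n, PowerSeries.coeff n (a : PowerSeries V) ≠ 0 ∧
      ¬ ∃ m, n = m + (S.F + 1) ∧ S.G m := by
    by_contra hcon
    push Not at hcon
    refine ha (SWP_div S a fun n hn => ?_)
    obtain ⟨m, h1, h2⟩ := hcon n hn
    exact ⟨m, h1, h2⟩
  obtain ⟨hg1, hg2⟩ := Nat.find_spec hex
  have hmin : ∀ m < Nat.find hex, PowerSeries.coeff m (a : PowerSeries V) ≠ 0 →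
      ∃ l, m = l + (S.F + 1) ∧ S.G l := by
    intro m hm h1
    by_contra h2
    exact Nat.find_min hex hm ⟨h1, h2⟩
  set g := Nat.find hex
  have hgF : g ≤ 2 * S.F + 1 ∧ S.G (2 * S.F + 1 - g) := by
    by_cases h1 : g ≤ S.F
    · exact ⟨by omega, S.big _ (by omega)⟩
    · have h2 : ¬ S.G (g - (S.F + 1)) := fun h3 => hg2 ⟨g - (S.F + 1), by omega, h3⟩
      have h3 : g - (S.F + 1) ≤ S.F := by
        by_contra h4
        exact h2 (S.big _ (by omega))
      have h4 := (S.sym _ h3).not.mp h2
      rw [not_not] at h4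
      refine ⟨by omega, ?_⟩
      rwa [show 2 * S.F + 1 - g = S.F - (g - (S.F + 1)) by omega]
  obtain ⟨hgF, hG⟩ := hgF
  set c := SWP_mo S V (2 * S.F + 1 - g) hG
  set v := PowerSeries.coeff g (a : PowerSeries V)
  obtain ⟨b, hb⟩ := SWP_div S (c * a - cst S V v * SWP_mo S V (2 * S.F + 1) (S.big _ (by omega)))
    (by
      intro n hn
      have h1 : PowerSeries.coeff n ((c * a - cst S V v *
          SWP_mo S V (2 * S.F + 1) (S.big _ (by omega)) : SV S V) : PowerSeries V) =
          (if 2 * S.F + 1 - g ≤ n then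
            PowerSeries.coeff (n - (2 * S.F + 1 - g)) (a : PowerSeries V) else 0) -
          v * (if n = 2 * S.F + 1 then 1 else 0) := by
        rw [← SWP_cmul S (2 * S.F + 1 - g) hG a n, ← SWP_cmo S (2 * S.F + 1)
          (S.big _ (by omega)) n, ← SWP_ccst]
        exact map_sub _ _ _
      rw [h1] at hn
      by_cases h2 : n = 2 * S.F + 1
      · exfalso
        apply hn
        rw [if_pos (by omega), if_pos h2, h2, mul_one,
          show 2 * S.F + 1 - (2 * S.F + 1 - g) = g by omega, sub_self]
      · rw [if_neg h2, mul_zero, sub_zero] at hn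
        split_ifs at hn with h3
        · rcases lt_trichotomy (n - (2 * S.F + 1 - g)) g with h4 | h4 | h4
          · obtain ⟨l, hl, hl'⟩ := hmin _ h4 hn
            exact ⟨l + (2 * S.F + 1 - g), by omega, S.add _ _ hl' hG⟩
          · omega
          · exact ⟨n - (S.F + 1), by omega, S.big _ (by omega)⟩
        · exact absurd rfl hn)
  refine ⟨v, c, b, hg1, ?_⟩
  rw [← hb]
  ring

/-- the ideal of the series without constant term is generated by monomials -/
private theorem SWP_gen (a : SV S V) (ha : PowerSeries.coeff 0 (a : PowerSeries V) = 0) :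
    a ∈ Ideal.span {x : SV S V | ∃ (n : ℕ) (h : S.G n), 0 < n ∧ n ≤ 2 * S.F + 1 ∧
      x = SWP_mo S V n h} := by
  classical
  set J := Ideal.span {x : SV S V | ∃ (n : ℕ) (h : S.G n), 0 < n ∧ n ≤ 2 * S.F + 1 ∧
      x = SWP_mo S V n h}
  -- remove the coefficients up to `2 F + 1`
  have h1 : ∀ N ≤ 2 * S.F + 1, ∃ b ∈ J, ∀ n ≤ N,
      PowerSeries.coeff n ((a - b : SV S V) : PowerSeries V) = 0 := by
    intro N
    induction N with
    | zero =>
      intro _
      refine ⟨0, J.zero_mem, fun n hn => ?_⟩
      obtain rfl : n = 0 := by omega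
      rw [sub_zero]
      exact ha
    | succ N ih =>
      intro hN
      obtain ⟨b, hb, h2⟩ := ih (by omega)
      by_cases h3 : S.G (N + 1)
      · set v := PowerSeries.coeff (N + 1) ((a - b : SV S V) : PowerSeries V) with hv
        refine ⟨b + cst S V v * SWP_mo S V (N + 1) h3, J.add_mem hb (J.mul_mem_left _
          (Ideal.subset_span ⟨N + 1, h3, by omega, hN, rfl⟩)), fun n hn => ?_⟩
        have h4 : PowerSeries.coeff n ((a - (b + cst S V v * SWP_mo S V (N + 1) h3) : SV S V) :
            PowerSeries V) = PowerSeries.coeff n ((a - b : SV S V) : PowerSeries V) -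
            v * (if n = N + 1 then 1 else 0) := by
          rw [← SWP_cmo S (N + 1) h3 n, ← SWP_ccst, ← sub_sub]
          exact map_sub _ _ _
        rw [h4]
        by_cases h5 : n = N + 1
        · rw [if_pos h5, h5, ← hv, mul_one, sub_self]
        · rw [if_neg h5, mul_zero, sub_zero]
          exact h2 n (by omega)
      · refine ⟨b, hb, fun n hn => ?_⟩
        by_cases h5 : n = N + 1
        · by_contra h6
          rw [h5] at h6
          exact h3 ((a - b).2 _ h6)
        · exact h2 n (by omega)
  obtain ⟨b, hb, h2⟩ := h1 _ le_rfl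
  obtain ⟨d, hd⟩ := SWP_div S (a - b) (by
    intro n hn
    have h3 : 2 * S.F + 1 < n := by
      by_contra h4
      exact hn (h2 n (by omega))
    exact ⟨n - (S.F + 1), by omega, S.big _ (by omega)⟩)
  have h3 : a - b ∈ J := by
    rw [hd]
    exact J.mul_mem_right _ (Ideal.subset_span ⟨S.F + 1, SWP_big S, by omega, by omega, rfl⟩)
  have h4 := J.add_mem h3 hb
  rwa [sub_add_cancel] at h4

/-- the derivation `f ↦ X f'` -/
private theorem SWP_D (S : HWG.SG) (V : Type) [CommRing V] [Algebra V (SV S V)]
    (hal : ∀ v, algebraMap V (SV S V) v = cst S V v) :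
    ∃ D : Derivation V (SV S V) (SV S V), ∀ (n : ℕ) (h : S.G n),
      D (SWP_mo S V n h) = (n : SV S V) * SWP_mo S V n h := by
  have hc : ∀ (f : PowerSeries V) (n : ℕ),
      PowerSeries.coeff n (PowerSeries.X * PowerSeries.derivative V f) =
        (n : V) * PowerSeries.coeff n f := by
    intro f n
    cases n with
    | zero => simp
    | succ n =>
      rw [PowerSeries.coeff_succ_X_mul, PowerSeries.coeff_derivative, mul_comm]
      push_cast
      rfl
  have hm : ∀ f : SV S V, PowerSeries.X * PowerSeries.derivative V (f : PowerSeries V) ∈ SV S V := by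
    intro f n hn
    rw [hc] at hn
    exact f.2 n (right_ne_zero_of_mul hn)
  have hsm : ∀ (v : V) (f : SV S V), ((v • f : SV S V) : PowerSeries V) =
      v • (f : PowerSeries V) := by
    intro v f
    rw [Algebra.smul_def, hal, PowerSeries.smul_eq_C_mul]
    rfl
  refine ⟨Derivation.mk'
    { toFun := fun f => ⟨PowerSeries.X * PowerSeries.derivative V (f : PowerSeries V), hm f⟩
      map_add' := fun f g => Subtype.ext (by
        show PowerSeries.X * PowerSeries.derivative V ((f : PowerSeries V) + g) =
          PowerSeries.X * PowerSeries.derivative V (f : PowerSeries V) +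
            PowerSeries.X * PowerSeries.derivative V (g : PowerSeries V)
        rw [map_add, mul_add])
      map_smul' := fun v f => Subtype.ext (by
        show PowerSeries.X * PowerSeries.derivative V ((v • f : SV S V) : PowerSeries V) =
          ((v • (⟨_, hm f⟩ : SV S V) : SV S V) : PowerSeries V)
        rw [hsm, hsm, Derivation.map_smul, mul_smul_comm]) } ?_, fun n h => Subtype.ext ?_⟩
  · intro f g
    refine Subtype.ext ?_
    show PowerSeries.X * PowerSeries.derivative V ((f : PowerSeries V) * g) =
      (f : PowerSeries V) * (PowerSeries.X * PowerSeries.derivative V (g : PowerSeries V)) +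
      (g : PowerSeries V) * (PowerSeries.X * PowerSeries.derivative V (f : PowerSeries V))
    rw [Derivation.leibniz, smul_eq_mul, smul_eq_mul]
    ring
  · show PowerSeries.X * PowerSeries.derivative V (PowerSeries.X ^ n) =
      ((n : SV S V) : PowerSeries V) * PowerSeries.X ^ n
    ext m
    rw [hc, show ((n : SV S V) : PowerSeries V) = PowerSeries.C (n : V) by simp,
      PowerSeries.coeff_C_mul, PowerSeries.coeff_X_pow]
    split_ifs with h1
    · rw [h1]
    · rw [mul_zero, mul_zero]

end ser

theorem thm_SWP (hQDF : St_QDF) : St_SWP := by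
  classical
  intro S V _ _ _ _ _ hP
  let aV : Algebra V (SV S V) := (cst S V).toAlgebra
  have hal : ∀ v, algebraMap V (SV S V) v = cst S V v := fun _ => rfl
  set P := PV S V with hPdef
  set B := Localization.AtPrime P with hB
  have hmemP : ∀ f : SV S V, f ∈ P ↔ PowerSeries.coeff 0 (f : PowerSeries V) = 0 := by
    intro f
    rw [PowerSeries.coeff_zero_eq_constantCoeff_apply]
    exact RingHom.mem_ker
  have hdomA : IsDomain (SV S V) := inferInstance
  have hinj : Function.Injective (algebraMap (SV S V) B) :=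
    IsLocalization.injective B P.primeCompl_le_nonZeroDivisors
  have hdomB : IsDomain B := IsLocalization.isDomain_of_le_nonZeroDivisors B
    P.primeCompl_le_nonZeroDivisors
  have hunit : ∀ f : SV S V, f ∉ P → IsUnit (algebraMap (SV S V) B f) := fun f hf =>
    IsLocalization.map_units B (⟨f, hf⟩ : P.primeCompl)
  have hmax : ∀ f : SV S V, f ∈ P → algebraMap (SV S V) B f ∈ maximalIdeal B := by
    intro f hf
    rw [← Localization.AtPrime.map_eq_maximalIdeal]
    exact Ideal.mem_map_of_mem _ hf
  have hcc : ∀ v : V, PowerSeries.coeff 0 (cst S V v : PowerSeries V) = v := fun v => by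
    show PowerSeries.coeff 0 (PowerSeries.C v) = v
    simp
  -- the field of coefficients
  have hVu : ∀ v : nonZeroDivisors V, IsUnit (algebraMap V B v) := by
    intro v
    rw [IsScalarTower.algebraMap_apply V (SV S V) B, hal]
    refine hunit _ fun h => ?_
    rw [hmemP, hcc] at h
    exact nonZeroDivisors.ne_zero v.2 h
  let aK : Algebra (FractionRing V) B := (IsLocalization.lift hVu).toAlgebra
  have hKal : ∀ c, algebraMap (FractionRing V) B c = IsLocalization.lift hVu c := fun _ => rfl
  have tK : IsScalarTower V (FractionRing V) B := IsScalarTower.of_algebraMap_eq fun v => by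
    rw [hKal, IsLocalization.lift_eq]
  -- the derivation
  obtain ⟨D₀, hD₀⟩ := SWP_D S V hal
  obtain ⟨D₁, hD₁⟩ := SWP_locDer P.primeCompl B D₀
  let D : Derivation (FractionRing V) B B := Derivation.mk'
    (LinearMap.extendScalarsOfIsLocalization (nonZeroDivisors V) (FractionRing V) D₁.toLinearMap)
    (fun a b => D₁.leibniz a b)
  have hD : ∀ a, D a = D₁ a := fun _ => rfl
  have hDmo : ∀ (n : ℕ) (h : S.G n), D (algebraMap (SV S V) B (SWP_mo S V n h)) =
      (n : B) * algebraMap (SV S V) B (SWP_mo S V n h) := by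
    intro n h
    rw [hD, hD₁, hD₀, map_mul, map_natCast]
  set y := algebraMap (SV S V) B (SWP_mo S V (S.F + 1) (SWP_big S)) with hy
  have hmoP : ∀ (n : ℕ) (h : S.G n), 0 < n → SWP_mo S V n h ∈ P := by
    intro n h hn
    rw [hmemP, SWP_cmo, if_neg (by omega)]
  have hymax : y ∈ maximalIdeal B := hmax _ (hmoP _ _ (by omega))
  have hy0 : y ≠ 0 := by
    intro h0
    rw [hy, map_eq_zero_iff _ hinj] at h0
    have h1 := SWP_cmo (V := V) S (S.F + 1) (SWP_big S) (S.F + 1)
    rw [h0, if_pos rfl] at h1
    exact zero_ne_one h1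
  have hI : idl [(y, S.F + 1)] = Ideal.span {y} := by
    unfold idl el
    simp
  -- residues
  have hres : ∀ b : B, ∃ c : FractionRing V, b - algebraMap (FractionRing V) B c ∈
      maximalIdeal B := by
    intro b
    obtain ⟨⟨f, s⟩, hfs⟩ := IsLocalization.surj P.primeCompl b
    set f₀ := PowerSeries.coeff 0 (f : PowerSeries V) with hf₀
    set s₀ := PowerSeries.coeff 0 ((s : SV S V) : PowerSeries V) with hs₀
    have hs₀' : s₀ ≠ 0 := fun h => s.2 ((hmemP _).2 h)
    refine ⟨algebraMap V _ f₀ / algebraMap V _ s₀, ?_⟩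
    have hmulc : ∀ (u v : SV S V), PowerSeries.coeff 0 ((u * v : SV S V) : PowerSeries V) =
        PowerSeries.coeff 0 (u : PowerSeries V) * PowerSeries.coeff 0 (v : PowerSeries V) := by
      intro u v
      rw [PowerSeries.coeff_zero_eq_constantCoeff_apply,
        PowerSeries.coeff_zero_eq_constantCoeff_apply,
        PowerSeries.coeff_zero_eq_constantCoeff_apply]
      exact map_mul _ _ _
    have h1 : f * cst S V s₀ - cst S V f₀ * s ∈ P := by
      rw [hmemP]
      have h2 : PowerSeries.coeff 0 ((f * cst S V s₀ - cst S V f₀ * s : SV S V) :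
          PowerSeries V) = PowerSeries.coeff 0 ((f * cst S V s₀ : SV S V) : PowerSeries V) -
          PowerSeries.coeff 0 ((cst S V f₀ * s : SV S V) : PowerSeries V) := map_sub _ _ _
      rw [h2, hmulc, hmulc, hcc, hcc, ← hf₀, ← hs₀]
      ring
    have h2 := hmax _ h1
    have h3 : algebraMap V B s₀ ≠ 0 := by
      have h4 := (hVu ⟨s₀, mem_nonZeroDivisors_of_ne_zero hs₀'⟩).ne_zero
      exact h4
    have hu1 : IsUnit (algebraMap (SV S V) B s) := hunit _ s.2
    have hu2 : IsUnit (algebraMap V B s₀) := hVu ⟨s₀, mem_nonZeroDivisors_of_ne_zero hs₀'⟩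
    have h5 : algebraMap (FractionRing V) B (algebraMap V _ f₀ / algebraMap V _ s₀) *
        algebraMap V B s₀ = algebraMap V B f₀ := by
      rw [IsScalarTower.algebraMap_apply V (FractionRing V) B s₀, ← map_mul,
        div_mul_cancel₀, ← IsScalarTower.algebraMap_apply]
      intro h6
      exact hs₀' ((IsFractionRing.injective V (FractionRing V)) (by rw [h6, map_zero]))
    have h6 : (b - algebraMap (FractionRing V) B (algebraMap V _ f₀ / algebraMap V _ s₀)) *
        (algebraMap (SV S V) B s * algebraMap V B s₀) ∈ maximalIdeal B := by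
      have h7 : (b - algebraMap (FractionRing V) B (algebraMap V _ f₀ / algebraMap V _ s₀)) *
          (algebraMap (SV S V) B s * algebraMap V B s₀) =
          algebraMap (SV S V) B (f * cst S V s₀ - cst S V f₀ * s) := by
        rw [map_sub, map_mul, map_mul, ← hal, ← hal, ← IsScalarTower.algebraMap_apply,
          ← IsScalarTower.algebraMap_apply, ← hfs, ← h5]
        ring
      rw [h7]
      exact h2
    rcases (maximalIdeal.isMaximal B).isPrime.mem_or_mem h6 with h7 | h7
    · exact h7
    · exact absurd (hu1.mul hu2) ((mem_maximalIdeal _).1 h7)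
  -- generators
  set G : Finset B := (Finset.range (2 * S.F + 2)).image fun n =>
    if h : 0 < n ∧ S.G n then algebraMap (SV S V) B (SWP_mo S V n h.2) else 0 with hG
  have hGm : ∀ g ∈ G, g = 0 ∨ ∃ (n : ℕ) (h : S.G n), 0 < n ∧
      g = algebraMap (SV S V) B (SWP_mo S V n h) := by
    intro g hg
    obtain ⟨n, _, rfl⟩ := Finset.mem_image.1 hg
    by_cases h : 0 < n ∧ S.G n
    · right
      exact ⟨n, h.2, h.1, by rw [dif_pos h]⟩
    · left
      rw [dif_neg h]
  have hgen : maximalIdeal B = Ideal.span (G : Set B) := by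
    apply le_antisymm
    · rw [← Localization.AtPrime.map_eq_maximalIdeal, Ideal.map_le_iff_le_comap]
      intro f hf
      have h1 := SWP_gen S f ((hmemP f).1 hf)
      have h2 : Ideal.span {x : SV S V | ∃ (n : ℕ) (h : S.G n), 0 < n ∧ n ≤ 2 * S.F + 1 ∧
          x = SWP_mo S V n h} ≤ (Ideal.span (G : Set B)).comap (algebraMap (SV S V) B) := by
        refine Ideal.span_le.2 ?_
        rintro x ⟨n, h, h3, h4, rfl⟩
        refine Ideal.subset_span ?_
        rw [hG, Finset.coe_image]
        exact ⟨n, by simp; omega, dif_pos (⟨h3, h⟩ : 0 < n ∧ S.G n)⟩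
      exact h2 h1
    · refine Ideal.span_le.2 fun g hg => ?_
      rcases hGm g hg with h | ⟨n, h, h1, h2⟩
      · rw [h]
        exact (maximalIdeal B).zero_mem
      · rw [h2]
        exact hmax _ (hmoP n h h1)
  have hGw : ∀ g ∈ G, ∃ w : ℕ, 0 < w ∧ D g = (w : B) * g := by
    intro g hg
    rcases hGm g hg with h | ⟨n, h, h1, h2⟩
    · exact ⟨1, one_pos, by rw [h, map_zero, mul_zero]⟩
    · exact ⟨n, h1, by rw [h2, hDmo]⟩
  -- a power of the maximal ideal
  obtain ⟨k, hk⟩ : ∃ k, maximalIdeal B ^ k ≤ idl [(y, S.F + 1)] := by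
    refine Ideal.exists_pow_le_of_le_radical_of_fg ?_ ⟨G, hgen.symm⟩
    rw [hgen, hI]
    refine Ideal.span_le.2 fun g hg => ?_
    rcases hGm g hg with h | ⟨n, h, h1, h2⟩
    · rw [h]
      exact Ideal.zero_mem _
    · refine ⟨S.F + 1, ?_⟩
      rw [Ideal.mem_span_singleton]
      have h3 : g ^ (S.F + 1) = y ^ n := by
        rw [h2, hy, ← map_pow, ← map_pow]
        congr 1
        refine Subtype.ext ?_
        show (PowerSeries.X ^ n) ^ (S.F + 1) = (PowerSeries.X ^ (S.F + 1)) ^ n
        rw [← pow_mul, ← pow_mul, mul_comm]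
      rw [h3]
      exact dvd_pow_self _ (by omega)
  obtain ⟨h1, h2, h3⟩ := hQDF (FractionRing V) B D G (idl [(y, S.F + 1)]) k hres hgen hGw hk
  refine ⟨aK, D, [(y, S.F + 1)], ?_⟩
  have hmem : ∀ p ∈ [(y, S.F + 1)], p.1 ∈ maximalIdeal B := by
    intro p hp
    rw [List.mem_singleton] at hp
    rw [hp]
    exact hymax
  refine ⟨h1, hres, hmem, ?_, ?_, ?_, ?_, h2, h3⟩
  · intro p hp
    rw [List.mem_singleton] at hp
    rw [hp]
    exact Nat.succ_pos _
  · intro p hp
    rw [List.mem_singleton] at hp
    rw [hp]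
    exact hDmo _ _
  · show RingTheory.Sequence.IsWeaklyRegular B [y]
    rw [RingTheory.Sequence.isWeaklyRegular_cons_iff]
    refine ⟨?_, RingTheory.Sequence.IsWeaklyRegular.nil _ _⟩
    intro a b hab
    exact mul_left_cancel₀ hy0 hab
  · -- irreducibility
    rw [hI]
    set u := algebraMap (SV S V) B (SWP_mo S V (2 * S.F + 1) (S.big _ (by omega))) with hu
    have hnF : ¬ S.G S.F := by
      have h4 := S.sym S.F le_rfl
      rw [Nat.sub_self] at h4
      exact fun h5 => (h4.1 h5) S.zero
    have huI : u ∉ Ideal.span {y} := by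
      intro h4
      obtain ⟨b, hb⟩ := Ideal.mem_span_singleton.1 h4
      obtain ⟨⟨f, s⟩, hfs⟩ := IsLocalization.surj P.primeCompl b
      have h5 : s * SWP_mo S V (2 * S.F + 1) (S.big _ (by omega)) =
          SWP_mo S V (S.F + 1) (SWP_big S) * f := by
        apply hinj
        rw [map_mul, map_mul, ← hu, hb, ← hy, ← hfs]
        ring
      have h6 := congrArg (fun a : SV S V => PowerSeries.coeff (2 * S.F + 1)
        (a : PowerSeries V)) h5
      rw [mul_comm (s : SV S V), SWP_cmul, if_pos le_rfl, Nat.sub_self, SWP_cmul,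
        if_pos (by omega), show 2 * S.F + 1 - (S.F + 1) = S.F by omega] at h6
      have h7 : PowerSeries.coeff S.F (f : PowerSeries V) = 0 := by
        by_contra h8
        exact hnF (f.2 _ h8)
      rw [h7] at h6
      exact s.2 ((hmemP _).2 h6)
    have hkey : ∀ J : Ideal B, Ideal.span {y} ≤ J → J ≠ Ideal.span {y} → u ∈ J := by
      intro J hJ hne
      obtain ⟨b, hbJ, hbI⟩ := SetLike.exists_of_lt (lt_of_le_of_ne hJ (Ne.symm hne))
      obtain ⟨⟨f, s⟩, hfs⟩ := IsLocalization.surj P.primeCompl b
      have hfJ : algebraMap (SV S V) B f ∈ J := by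
        rw [← hfs]
        exact J.mul_mem_right _ hbJ
      have hfI : ¬ ∃ c, f = SWP_mo S V (S.F + 1) (SWP_big S) * c := by
        rintro ⟨c, hc⟩
        apply hbI
        obtain ⟨w, hw⟩ := hunit _ s.2
        have h4 : b = y * (algebraMap (SV S V) B c * (w⁻¹ : Bˣ)) := by
          have h5 : b * (w : B) = y * algebraMap (SV S V) B c := by
            rw [hw, hfs, hc, map_mul]
          rw [← mul_assoc, ← h5, mul_assoc, Units.mul_inv, mul_one]
        rw [h4]
        exact Ideal.mul_mem_right _ _ (Ideal.mem_span_singleton_self y)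
      obtain ⟨v, c, d, hv, h4⟩ := SWP_key S f hfI
      have h5 := congrArg (algebraMap (SV S V) B) h4
      rw [map_mul, map_add, map_mul, map_mul, ← hu, ← hy] at h5
      have h6 : algebraMap (SV S V) B (cst S V v) * u ∈ J := by
        have h7 : algebraMap (SV S V) B (cst S V v) * u = algebraMap (SV S V) B c *
            algebraMap (SV S V) B f - y * algebraMap (SV S V) B d := by
          rw [h5]
          ring
        rw [h7]
        exact J.sub_mem (J.mul_mem_left _ hfJ)
          (J.mul_mem_right _ (hJ (Ideal.mem_span_singleton_self y)))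
      have h8 : IsUnit (algebraMap (SV S V) B (cst S V v)) := by
        refine hunit _ fun h9 => hv ?_
        rw [hmemP, hcc] at h9
        exact h9
      exact (Ideal.unit_mul_mem_iff_mem J h8).1 h6
    refine ⟨?_, ?_⟩
    · intro h4
      have h5 : Ideal.span {y} = ⊤ := by
        rw [isMax_iff_eq_top] at h4
        exact h4
      exact huI (by rw [h5]; trivial)
    · intro J₁ J₂ h4
      by_contra h5
      push Not at h5
      have h6 : Ideal.span {y} ≤ J₁ := h4 ▸ inf_le_left
      have h7 : Ideal.span {y} ≤ J₂ := h4 ▸ inf_le_right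
      apply huI
      rw [← h4]
      exact ⟨hkey J₁ h6 h5.1, hkey J₂ h7 h5.2⟩

end Pool.Agent.ARD
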