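import Pool.Agent.ARD.StS

/-! Module SWQ of ARD: reduction of the coefficients. -/

set_option autoImplicit false

namespace Pool.Agent.ARD

theorem SWQ_cst (S : HWG.SG) (V : Type) [CommRing V] (c : V) :
    ((cst S V c : SV S V) : PowerSeries V) = PowerSeries.C c := rfl

theorem thm_SWQ : St_SWQ := by
  classical
  intro S V K _ _ r c hr hk
  have hmem : ∀ f : SV S V, PowerSeries.map r (f : PowerSeries V) ∈ SV S K := by
    intro f n hn
    rw [PowerSeries.coeff_map] at hn
    refine f.2 n fun h => hn ?_
    rw [h, map_zero]
  let φ : SV S V →+* SV S K :=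
    ((PowerSeries.map r).comp (SV S V).subtype).codRestrict (SV S K) hmem
  have hφ : ∀ (f : SV S V) (n : ℕ), PowerSeries.coeff n (φ f : PowerSeries K) =
      r (PowerSeries.coeff n (f : PowerSeries V)) := fun f n => PowerSeries.coeff_map r n _
  refine ⟨φ, ?_, ?_, hφ⟩
  · intro g
    let f : PowerSeries V := PowerSeries.mk fun n =>
      if PowerSeries.coeff n (g : PowerSeries K) = 0 then 0
      else Function.surjInv hr (PowerSeries.coeff n (g : PowerSeries K))
    have hf : ∀ n, PowerSeries.coeff n f = if PowerSeries.coeff n (g : PowerSeries K) = 0 then 0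
      else Function.surjInv hr (PowerSeries.coeff n (g : PowerSeries K)) := fun n =>
      PowerSeries.coeff_mk n _
    have hfS : f ∈ SV S V := by
      intro n hn
      refine g.2 n fun h => hn ?_
      rw [hf, if_pos h]
    refine ⟨⟨f, hfS⟩, Subtype.ext (PowerSeries.ext fun n => ?_)⟩
    rw [hφ]
    show r (PowerSeries.coeff n f) = _
    rw [hf]
    split_ifs with h
    · rw [map_zero, h]
    · exact Function.surjInv_eq hr _
  · ext f
    rw [RingHom.mem_ker, Ideal.mem_span_singleton']
    constructor
    · intro h
      have h1 : ∀ n, PowerSeries.coeff n (f : PowerSeries V) ∈ Ideal.span {c} := by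
        intro n
        rw [← hk, RingHom.mem_ker, ← hφ, h]
        exact map_zero _
      have h2 : ∀ n, ∃ a, a * c = PowerSeries.coeff n (f : PowerSeries V) := fun n =>
        Ideal.mem_span_singleton'.1 (h1 n)
      choose a ha using h2
      let g : PowerSeries V := PowerSeries.mk fun n =>
        if PowerSeries.coeff n (f : PowerSeries V) = 0 then 0 else a n
      have hg : ∀ n, PowerSeries.coeff n g =
          if PowerSeries.coeff n (f : PowerSeries V) = 0 then 0 else a n := fun n =>
        PowerSeries.coeff_mk n _
      have hgS : g ∈ SV S V := by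
        intro n hn
        refine f.2 n fun h => hn ?_
        rw [hg, if_pos h]
      refine ⟨⟨g, hgS⟩, Subtype.ext (PowerSeries.ext fun n => ?_)⟩
      show PowerSeries.coeff n (g * PowerSeries.C c) = _
      rw [PowerSeries.coeff_mul_C, hg]
      split_ifs with h
      · rw [zero_mul, h]
      · exact ha n
    · rintro ⟨g, rfl⟩
      rw [map_mul]
      have h1 : φ (cst S V c) = 0 := by
        refine Subtype.ext (PowerSeries.ext fun n => ?_)
        rw [hφ, SWQ_cst, PowerSeries.coeff_C]
        split_ifs with h
        · show r c = 0
          rw [← RingHom.mem_ker, hk]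
          exact Ideal.mem_span_singleton_self c
        · exact map_zero r
      rw [h1, mul_zero]

end Pool.Agent.ARD
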