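import Pool.Agent.ARD.StC

set_option autoImplicit false

namespace Pool.Agent.ARD

open ARS

/-- one step: the syzygy in the second variable -/
private theorem SYZ_step (R : Type) [CommRing R] (X : Type) [AddCommGroup X] [Module R X]
    (n : ℕ) (p : (Fin n → R) →ₗ[R] X) (hp : Function.Surjective p)
    (W : Type) [AddCommGroup W] [Module R W] (h1 : ExtProp R W X)
    (m : ℕ) (q : (Fin m → R) →ₗ[R] W) (hq : Function.Surjective q)
    (h2 : ExtProp R (LinearMap.ker q) R) : ExtProp R (LinearMap.ker q) (LinearMap.ker p) := by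
  intro m' q' hq' ψ
  have h3 : ∀ j : Fin n, ∃ φ : (Fin m' → R) →ₗ[R] R, ∀ k : LinearMap.ker q',
      φ k = ((LinearMap.proj j : (Fin n → R) →ₗ[R] R) ∘ₗ (LinearMap.ker p).subtype ∘ₗ ψ) k :=
    fun j => h2 m' q' hq' _
  choose gc hgc using h3
  set g : (Fin m' → R) →ₗ[R] (Fin n → R) := LinearMap.pi gc with hg
  have hg1 : ∀ k : LinearMap.ker q', g k = ((ψ k : LinearMap.ker p) : Fin n → R) := by
    intro k
    funext j
    have := hgc j k
    simpa [hg] using this
  have hker : LinearMap.ker q' ≤ LinearMap.ker (p ∘ₗ g) := by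
    intro v hv
    rw [LinearMap.mem_ker, LinearMap.comp_apply]
    have h4 := hg1 ⟨v, hv⟩
    simp only at h4
    rw [h4]
    exact (ψ ⟨v, hv⟩).2
  set χ : LinearMap.ker q →ₗ[R] X :=
    ((LinearMap.ker q').liftQ (p ∘ₗ g) hker) ∘ₗ
      ((q'.quotKerEquivOfSurjective hq').symm : LinearMap.ker q →ₗ[R] _) with hχ
  have hχ1 : ∀ v, χ (q' v) = p (g v) := by
    intro v
    have h5 : (q'.quotKerEquivOfSurjective hq').symm (q' v) = (LinearMap.ker q').mkQ v := by
      rw [LinearEquiv.symm_apply_eq]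
      rfl
    rw [hχ, LinearMap.comp_apply]
    show ((LinearMap.ker q').liftQ (p ∘ₗ g) hker)
      ((q'.quotKerEquivOfSurjective hq').symm (q' v)) = p (g v)
    rw [h5, Submodule.mkQ_apply, Submodule.liftQ_apply]
    rfl
  obtain ⟨φ, hφ⟩ := h1 m q hq χ
  obtain ⟨Ψ, hΨ⟩ := Module.projective_lifting_property p φ hp
  have hΨ1 : ∀ v, p (Ψ v) = φ v := fun v => by rw [← hΨ]; rfl
  set Φ : (Fin m' → R) →ₗ[R] (Fin n → R) :=
    g - Ψ ∘ₗ (LinearMap.ker q).subtype ∘ₗ q' with hΦ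
  have hΦ1 : ∀ v, Φ v = g v - Ψ ((q' v : LinearMap.ker q) : Fin m → R) := fun v => rfl
  have hΦ2 : ∀ v, Φ v ∈ LinearMap.ker p := by
    intro v
    rw [LinearMap.mem_ker, hΦ1, map_sub, hΨ1, hφ, hχ1, sub_self]
  refine ⟨Φ.codRestrict (LinearMap.ker p) hΦ2, ?_⟩
  intro k
  apply Subtype.ext
  rw [LinearMap.codRestrict_apply, hΦ1, hg1]
  have h6 : q' (k : Fin m' → R) = 0 := k.2
  rw [h6]
  simp

private theorem SYZ_all (R : Type) [CommRing R] (X : Type) [AddCommGroup X] [Module R X]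
    (n : ℕ) (p : (Fin n → R) →ₗ[R] X) (hp : Function.Surjective p) :
    ∀ (k : ℕ) (W : Type) [AddCommGroup W] [Module R W], ExtAll R X (k + 1) W →
      ExtAll R R (k + 2) W → ∀ (m : ℕ) (q : (Fin m → R) →ₗ[R] W), Function.Surjective q →
      ExtAll R (LinearMap.ker p) k (LinearMap.ker q) := by
  intro k
  induction k with
  | zero =>
    intro W _ _ _ _ m q _
    exact trivial
  | succ k ih =>
    intro W _ _ h1 h2 m q hq
    have h3 : ExtAll R X (k + 1) (LinearMap.ker q) := h1.2 m q hq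
    have h4 : ExtAll R R (k + 2) (LinearMap.ker q) := h2.2 m q hq
    exact ⟨SYZ_step R X n p hp W h1.1 m q hq h4.1, fun m' q' hq' => ih _ h3 h4 m' q' hq'⟩

theorem thm_SYZ : St_SYZ := by
  intro R _ _ X _ _ _ h1 h2 n p hp
  exact ⟨fun k => SYZ_all R X n p hp k X (h1 (k + 1)) (h2 (k + 2)) n p hp,
    fun k => (h2 (k + 1)).2 n p hp⟩

end Pool.Agent.ARD
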