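import Pool.Agent.ARD.StR
import Pool.Agent.ARD.StC

/-! [TREr] `trc M ≅ Hom(End M, R)` (helper95, for helper9's ARD; the pairing is as in
`Pool/Agent/ARS/TR2.lean`). -/

set_option autoImplicit false

namespace Pool.Agent.ARD

open ARS IsLocalRing

private theorem TREr_div {R E Q : Type} [CommRing R] [AddCommGroup E] [Module R E]
    [AddCommGroup Q] [Module R Q] (s : R) (hs : s ∈ nonZeroDivisors R) (L : E →ₗ[R] Q →ₗ[R] R)
    (hL : ∀ e q, s ∣ L e q) : ∃ B : E →ₗ[R] Q →ₗ[R] R, ∀ e q, L e q = s * B e q := by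
  choose c hc using hL
  have hadd : ∀ e e' q, c (e + e') q = c e q + c e' q := by
    intro e e' q
    apply (mul_cancel_left_mem_nonZeroDivisors hs).1
    rw [mul_add, ← hc, ← hc, ← hc, map_add]
    rfl
  have hsm : ∀ (r : R) e q, c (r • e) q = r • c e q := by
    intro r e q
    apply (mul_cancel_left_mem_nonZeroDivisors hs).1
    rw [← hc, map_smul, LinearMap.smul_apply, hc e q, smul_eq_mul, smul_eq_mul]
    ring
  have hadd2 : ∀ e q q', c e (q + q') = c e q + c e q' := by
    intro e q q'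
    apply (mul_cancel_left_mem_nonZeroDivisors hs).1
    rw [mul_add, ← hc, ← hc, ← hc, map_add]
  have hsm2 : ∀ (r : R) e q, c e (r • q) = r • c e q := by
    intro r e q
    apply (mul_cancel_left_mem_nonZeroDivisors hs).1
    rw [← hc, map_smul, hc e q, smul_eq_mul, smul_eq_mul]
    ring
  exact ⟨LinearMap.mk₂ R c hadd hsm hadd2 hsm2, fun e q => hc e q⟩

private theorem TREr_sum {R : Type} [CommRing R] {n : ℕ} (v : Fin n → R) :
    v = ∑ k, v k • (Pi.single k 1 : Fin n → R) := by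
  ext i
  simp [Finset.sum_apply, Pi.single_apply]

private theorem TREr_core {R X : Type} [CommRing R] [AddCommGroup X] [Module R X]
    (T : Submodule R (X →ₗ[R] X))
    (hT : T = Submodule.span R {φ : X →ₗ[R] X | ∃ (f : X →ₗ[R] R) (x : X), φ = f.smulRight x})
    (hGF : GF R X) (hTL : TL R X)
    (hsur : ∀ θ : (X →ₗ[R] X) →ₗ[R] R, ∃ (n : ℕ) (f : Fin n → (X →ₗ[R] R)) (x : Fin n → X),
      ∀ e : X →ₗ[R] X, θ e = ∑ i, f i (e (x i))) :
    ∃ B : (X →ₗ[R] X) →ₗ[R] T →ₗ[R] R, (∀ (a : X →ₗ[R] X) (f : X →ₗ[R] R) (x : X)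
      (h : f.smulRight x ∈ T), B a ⟨f.smulRight x, h⟩ = f (a x)) ∧
      Function.Bijective B.flip := by
  have hmem : ∀ (f : X →ₗ[R] R) (x : X), f.smulRight x ∈ T := fun f x => by
    rw [hT]
    exact Submodule.subset_span ⟨f, x, rfl⟩
  obtain ⟨s, q, p, j, hs, hj⟩ := hGF
  -- a functional which is `s` times the trace
  let t : (X →ₗ[R] X) →ₗ[R] R :=
    { toFun := fun φ => ∑ k, p (φ (j (Pi.single k 1))) k
      map_add' := fun φ ψ => by
        simp only [LinearMap.add_apply, map_add, Pi.add_apply, Finset.sum_add_distrib]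
      map_smul' := fun r φ => by
        simp only [LinearMap.smul_apply, map_smul, Pi.smul_apply, smul_eq_mul, RingHom.id_apply,
          Finset.mul_sum] }
  have ht : ∀ (f : X →ₗ[R] R) (x : X), t (f.smulRight x) = s * f x := by
    intro f x
    have h1 : s * f x = f (j (p x)) := by
      rw [hj, map_smul, smul_eq_mul]
    have h2 : p x = ∑ k, p x k • (Pi.single k 1 : Fin q → R) := TREr_sum (p x)
    rw [h1]
    show ∑ k, p (f (j (Pi.single k 1)) • x) k = f (j (p x))
    have h3 : f (j (p x)) = ∑ k, p x k * f (j (Pi.single k 1)) := by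
      conv_lhs => rw [h2]
      simp only [map_sum, map_smul, smul_eq_mul]
    rw [h3]
    refine Finset.sum_congr rfl fun k _ => ?_
    rw [map_smul, Pi.smul_apply, smul_eq_mul, mul_comm]
  -- the pairing
  let L : (X →ₗ[R] X) →ₗ[R] T →ₗ[R] R :=
    LinearMap.mk₂ R (fun e τ => t (e ∘ₗ τ.1)) (fun e e' τ => by
        rw [LinearMap.add_comp, map_add]) (fun r e τ => by
        rw [LinearMap.smul_comp, map_smul]) (fun e τ τ' => by
        rw [Submodule.coe_add, LinearMap.comp_add, map_add]) (fun r e τ => by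
        rw [Submodule.coe_smul, LinearMap.comp_smul, map_smul])
  have hcomp : ∀ (e : X →ₗ[R] X) (f : X →ₗ[R] R) (x : X),
      e ∘ₗ f.smulRight x = f.smulRight (e x) := by
    intro e f x
    ext v
    simp
  have hL : ∀ e τ, s ∣ L e τ := by
    rintro e ⟨τ, hτ⟩
    change s ∣ t (e ∘ₗ τ)
    rw [hT] at hτ
    induction hτ using Submodule.span_induction with
    | mem φ hφ =>
      obtain ⟨f, x, rfl⟩ := hφ
      rw [hcomp, ht]
      exact dvd_mul_right _ _
    | zero => simp
    | add φ ψ _ _ h1 h2 =>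
      rw [LinearMap.comp_add, map_add]
      exact dvd_add h1 h2
    | smul r φ _ h1 =>
      rw [LinearMap.comp_smul, map_smul, smul_eq_mul]
      exact h1.mul_left _
  obtain ⟨B, hB⟩ := TREr_div s hs L hL
  have hBf : ∀ (a : X →ₗ[R] X) (f : X →ₗ[R] R) (x : X) (h : f.smulRight x ∈ T),
      B a ⟨f.smulRight x, h⟩ = f (a x) := by
    intro a f x h
    apply (mul_cancel_left_mem_nonZeroDivisors hs).1
    rw [← hB]
    change t (a ∘ₗ f.smulRight x) = _
    rw [hcomp, ht]
  refine ⟨B, hBf, ?_, ?_⟩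
  · rw [injective_iff_map_eq_zero]
    intro τ hτ
    have key : ∀ (g : X →ₗ[R] R) (a : X) (σ : T), B (g.smulRight a) σ = g (σ.1 a) := by
      intro g a σ
      let u : T →ₗ[R] R := g ∘ₗ (LinearMap.applyₗ a) ∘ₗ T.subtype
      have hu : B (g.smulRight a) = u := by
        rw [Submodule.linearMap_eq_iff_of_eq_span _ _ hT]
        rintro ⟨_, f, x, rfl⟩
        rw [hBf]
        show f (g x • a) = g (f a • x)
        rw [map_smul, map_smul, smul_eq_mul, smul_eq_mul, mul_comm]
      rw [hu]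
      rfl
    apply Subtype.ext
    ext a
    refine hTL _ fun g => ?_
    rw [← key g a τ]
    exact LinearMap.congr_fun hτ (g.smulRight a)
  · intro θ
    obtain ⟨n, f, x, hfx⟩ := hsur θ
    refine ⟨∑ i, ⟨(f i).smulRight (x i), hmem (f i) (x i)⟩, ?_⟩
    ext e
    rw [LinearMap.flip_apply, map_sum, hfx]
    exact Finset.sum_congr rfl fun i _ => hBf e (f i) (x i) _

/-- functionals on `End X` are traces -/
private theorem TREr_sur (hEXE : St_EXE) {R X : Type} [CommRing R] [IsNoetherianRing R]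
    [AddCommGroup X] [Module R X] [Module.Finite R X] (h1 : ExtProp R X X)
    (h2 : ∀ (n : ℕ) (p : (Fin n → R) →ₗ[R] X), Function.Surjective p →
      ExtProp R (LinearMap.ker p →ₗ[R] X) R) (θ : (X →ₗ[R] X) →ₗ[R] R) :
    ∃ (n : ℕ) (f : Fin n → (X →ₗ[R] R)) (x : Fin n → X),
      ∀ e : X →ₗ[R] X, θ e = ∑ i, f i (e (x i)) := by
  obtain ⟨n, p, hp⟩ := Module.Finite.exists_fin' R X
  let F : (X →ₗ[R] X) →ₗ[R] ((Fin n → R) →ₗ[R] X) :=
    { toFun := fun φ => φ.comp p
      map_add' := fun φ ψ => by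
        ext v
        rfl
      map_smul' := fun r φ => by
        ext v
        rfl }
  let G : ((Fin n → R) →ₗ[R] X) →ₗ[R] (LinearMap.ker p →ₗ[R] X) :=
    { toFun := fun φ => φ.comp (LinearMap.ker p).subtype
      map_add' := fun φ ψ => by
        ext v
        rfl
      map_smul' := fun r φ => by
        ext v
        rfl }
  have hF : Function.Injective F := by
    intro φ ψ h
    ext v
    obtain ⟨u, rfl⟩ := hp v
    exact LinearMap.congr_fun h u
  have hG : Function.Surjective G := by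
    intro ψ
    obtain ⟨φ, hφ⟩ := h1 n p hp ψ
    refine ⟨φ, ?_⟩
    ext k
    exact hφ k
  have hex : ∀ v, G v = 0 ↔ ∃ u, F u = v := by
    intro v
    constructor
    · intro h
      have hk : LinearMap.ker p ≤ LinearMap.ker v := fun u hu =>
        LinearMap.congr_fun h ⟨u, hu⟩
      refine ⟨((LinearMap.ker p).liftQ v hk).comp
        (p.quotKerEquivOfSurjective hp).symm.toLinearMap, ?_⟩
      refine LinearMap.ext fun u => ?_
      have hu : (p.quotKerEquivOfSurjective hp).symm (p u) = (LinearMap.ker p).mkQ u := by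
        rw [LinearEquiv.symm_apply_eq]
        rfl
      show (LinearMap.ker p).liftQ v hk ((p.quotKerEquivOfSurjective hp).symm (p u)) = v u
      rw [hu]
      rfl
    · rintro ⟨u, rfl⟩
      ext k
      show u (p k) = 0
      have hk : p k = 0 := k.2
      rw [hk, map_zero]
  obtain ⟨Θ, hΘ⟩ := hEXE R (X →ₗ[R] X) ((Fin n → R) →ₗ[R] X) (LinearMap.ker p →ₗ[R] X) R F G
    hF hG hex (h2 n p hp) θ
  let c : Fin n → ((Fin n → R) →ₗ[R] R) := fun i => LinearMap.proj i
  refine ⟨n, fun i => Θ.comp (LinearMap.smulRightₗ (c i)), fun i => p (Pi.single i 1),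
    fun e => ?_⟩
  have h3 : F e = ∑ i, (c i).smulRight (e (p (Pi.single i 1))) := by
    refine LinearMap.ext fun v => ?_
    show e (p v) = (∑ i, (c i).smulRight (e (p (Pi.single i 1)))) v
    rw [LinearMap.sum_apply]
    have h2 : v = ∑ k, v k • (Pi.single k 1 : Fin n → R) := TREr_sum v
    conv_lhs => rw [h2]
    simp only [map_sum, map_smul]
    rfl
  rw [← hΘ, h3, map_sum]
  rfl

theorem thm_TREr (hHMR : St_HMR) (hESA : St_ESA) (hEXE : St_EXE) : St_TREr := by
  intro K R _ _ _ _ _ D L hQ M hfin hreg hGF hTL hEA hT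
  have : Module.Finite R M.X := hfin
  have hsur : ∀ θ : (M.X →ₗ[R] M.X) →ₗ[R] R, ∃ (n : ℕ) (f : Fin n → (M.X →ₗ[R] R))
      (x : Fin n → M.X), ∀ e : M.X →ₗ[R] M.X, θ e = ∑ i, f i (e (x i)) := by
    refine TREr_sur hEXE (hEA 1).1 ?_
    intro n p hp
    have : Module.Finite R (LinearMap.ker p) := Module.IsNoetherian.finite R (LinearMap.ker p)
    exact hESA R (el L) hQ.gor (LinearMap.ker p →ₗ[R] M.X)
      (hHMR R (el L) (LinearMap.ker p) M.X hreg (fun k => (hEA (k + 1)).2 n p hp)).1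
  obtain ⟨B, hB, hbij⟩ := TREr_core (R := R) (X := M.X) (trc M) rfl hGF hTL hsur
  have hmem : ∀ (f : M.X →ₗ[R] R) (x : M.X), f.smulRight x ∈ trc M := fun f x =>
    Submodule.subset_span ⟨f, x, rfl⟩
  have key : ∀ a : M.X →ₗ[R] M.X,
      (((M.hom M).sub (trc M) hT).hom (NM.one D)).N (B a) = B ((M.hom M).N a) := by
    intro a
    refine (Submodule.linearMap_eq_iff_of_eq_span _ _ rfl).2 ?_
    rintro ⟨_, f, x, rfl⟩
    let f' : M.X →ₗ[R] R := ((M.hom (NM.one D)).N f : M.X →ₗ[R] R)
    have hf' : ∀ v, f' v = D (f v) - f (M.N v) := fun v => rfl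
    have hN : ∀ (h : (M.hom M).N (f.smulRight x) ∈ trc M),
        (⟨(M.hom M).N (f.smulRight x), h⟩ : trc M) =
          ⟨f'.smulRight x, hmem f' x⟩ + ⟨f.smulRight (M.N x), hmem f (M.N x)⟩ := by
      intro h
      apply Subtype.ext
      apply LinearMap.ext
      intro v
      change M.N (f v • x) - f (M.N v) • x = f' v • x + f v • M.N x
      rw [M.leib, hf', sub_smul]
      abel
    have h1 : B a ⟨(M.hom M).N (f.smulRight x), hT _ (hmem f x)⟩ =
        f' (a x) + f (a (M.N x)) := by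
      refine (congrArg (B a) (hN (hT _ (hmem f x)))).trans ?_
      refine ((B a).map_add _ _).trans ?_
      exact congrArg₂ (· + ·) (hB a f' x _) (hB a f (M.N x) _)
    have h2 : B ((M.hom M).N a) ⟨f.smulRight x, hmem f x⟩ = f (M.N (a x) - a (M.N x)) :=
      hB _ f x _
    refine Eq.trans ?_ h2.symm
    change D (B a ⟨f.smulRight x, _⟩) - B a ⟨(M.hom M).N (f.smulRight x), _⟩ =
      f (M.N (a x) - a (M.N x))
    rw [h1, hB, hf', map_sub]
    abel
  refine ⟨LinearEquiv.ofBijective B.flip hbij, fun τ => ?_⟩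
  refine LinearMap.ext fun a => ?_
  have h := LinearMap.congr_fun (key a) τ
  change D (B a τ) - B a (((M.hom M).sub (trc M) hT).N τ) = B ((M.hom M).N a) τ at h
  change B a (((M.hom M).sub (trc M) hT).N τ) = D (B a τ) - B ((M.hom M).N a) τ
  rw [← h]
  abel

end Pool.Agent.ARD
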