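import Pool.Agent.ARD.StN

/-!
# ARD, module TRSd : the trace part of `End M` is stable
-/

set_option autoImplicit false

namespace Pool.Agent.ARD

open ARS IsLocalRing

section

variable {K R : Type} [Field K] [CommRing R] [Algebra K R] {D : Derivation K R R}

/-- the derivative of a linear form -/
private def TRSd_d (M : NM D) (f : M.X →ₗ[R] R) : M.X →ₗ[R] R := (M.hom (NM.one D)).N f

private theorem TRSd_stable (M : NM D) : ∀ φ ∈ trc M, (M.hom M).N φ ∈ trc M := by
  intro φ hφ
  unfold trc at hφ
  induction hφ using Submodule.span_induction with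
  | mem φ h =>
    obtain ⟨f, x, rfl⟩ := h
    have e : (M.hom M).N (f.smulRight x) =
        ((f.smulRight (M.N x) : M.X →ₗ[R] M.X) +
          (LinearMap.smulRight (TRSd_d M f) x : M.X →ₗ[R] M.X) : M.X →ₗ[R] M.X) := by
      refine LinearMap.ext fun v => ?_
      show M.N (f v • x) - f (M.N v) • x = f v • M.N x + (D (f v) - f (M.N v)) • x
      rw [M.leib, sub_smul]
      abel
    rw [e]
    exact Submodule.add_mem _ (Submodule.subset_span ⟨f, M.N x, rfl⟩)
      (Submodule.subset_span ⟨_, x, rfl⟩)
  | zero =>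
    rw [map_zero]
    exact Submodule.zero_mem _
  | add φ ψ _ _ h1 h2 =>
    rw [map_add]
    exact Submodule.add_mem _ h1 h2
  | smul r φ h1 h2 =>
    rw [(M.hom M).leib]
    exact Submodule.add_mem _ (Submodule.smul_mem _ _ h1) (Submodule.smul_mem _ _ h2)

private theorem TRSd_factor {M : NM D} (φ : M.X →ₗ[R] M.X) (hφ : φ ∈ trc M) :
    ∃ (F : Type) (_ : AddCommGroup F) (_ : Module R F) (_ : Module.Free R F)
      (p : M.X →ₗ[R] F) (j : F →ₗ[R] M.X), φ = j.comp p := by
  unfold trc at hφ
  induction hφ using Submodule.span_induction with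
  | mem φ h =>
    obtain ⟨f, x, rfl⟩ := h
    exact ⟨R, inferInstance, inferInstance, inferInstance, f, LinearMap.toSpanSingleton R M.X x,
      LinearMap.ext fun v => rfl⟩
  | zero =>
    exact ⟨R, inferInstance, inferInstance, inferInstance, 0, 0, LinearMap.ext fun v => rfl⟩
  | add φ ψ _ _ h1 h2 =>
    obtain ⟨F, _, _, _, p, j, rfl⟩ := h1
    obtain ⟨F', _, _, _, p', j', rfl⟩ := h2
    exact ⟨F × F', inferInstance, inferInstance, inferInstance, p.prod p', j.coprod j',
      LinearMap.ext fun v => rfl⟩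
  | smul r φ _ h2 =>
    obtain ⟨F, _, _, _, p, j, rfl⟩ := h2
    exact ⟨F, inferInstance, inferInstance, inferInstance, p, r • j,
      LinearMap.ext fun v => rfl⟩

end

theorem thm_TRSd : St_TRSd := by
  intro K R _ _ _ _ _ D M hfin
  refine ⟨TRSd_stable M, fun hid => ?_⟩
  obtain ⟨F, _, _, _, p, j, hpj⟩ := TRSd_factor _ hid
  have : Module.Projective R M.X := Module.Projective.of_split p j hpj.symm
  exact Module.free_of_flat_of_isLocalRing

end Pool.Agent.ARD

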