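import Pool.Agent.ARD.StH

/-!
# ARD [TYP]: the type does not depend on the regular sequence
-/

set_option autoImplicit false

namespace Pool.Agent.ARD

open ARS IsLocalRing
open scoped Pointwise

private theorem TYP_mem (R : Type) [CommRing R] (N : Type) [AddCommGroup N] [Module R N]
    (a : R) (zs : List R) (u : N) :
    u ∈ (Ideal.ofList (a :: zs) • ⊤ : Submodule R N) ↔
      (a • ⊤ : Submodule R N).mkQ u ∈ (Ideal.ofList zs • ⊤ : Submodule R (QuotSMulTop a N)) := by
  have h1 : (Ideal.ofList zs • ⊤ : Submodule R (QuotSMulTop a N)) =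
      Submodule.map (a • ⊤ : Submodule R N).mkQ (Ideal.ofList zs • ⊤ : Submodule R N) := by
    rw [Submodule.map_smul'', Submodule.map_top, Submodule.range_mkQ]
  rw [h1, Ideal.ofList_cons_smul, ← Submodule.mem_comap, Submodule.comap_map_mkQ]

private theorem TYP_cons (R : Type) [CommRing R] [IsLocalRing R] (N : Type) [AddCommGroup N]
    [Module R N] (a : R) (zs : List R) :
    TY R (a :: zs) N ↔ TY R zs (QuotSMulTop a N) := by
  constructor
  · rintro ⟨⟨u, hu, hu'⟩, h2⟩
    refine ⟨⟨(a • ⊤ : Submodule R N).mkQ u, fun h => hu ((TYP_mem R N a zs u).2 h), ?_⟩, ?_⟩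
    · intro t ht
      rw [← map_smul]
      exact (TYP_mem R N a zs _).1 (hu' t ht)
    · intro u v hu hu' hv'
      obtain ⟨u, rfl⟩ := (a • ⊤ : Submodule R N).mkQ_surjective u
      obtain ⟨v, rfl⟩ := (a • ⊤ : Submodule R N).mkQ_surjective v
      obtain ⟨r, hr⟩ := h2 u v (fun h => hu ((TYP_mem R N a zs u).1 h))
        (fun t ht => (TYP_mem R N a zs _).2 (by rw [map_smul]; exact hu' t ht))
        (fun t ht => (TYP_mem R N a zs _).2 (by rw [map_smul]; exact hv' t ht))
      refine ⟨r, ?_⟩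
      rw [← map_smul, ← map_sub]
      exact (TYP_mem R N a zs _).1 hr
  · rintro ⟨⟨u, hu, hu'⟩, h2⟩
    obtain ⟨u, rfl⟩ := (a • ⊤ : Submodule R N).mkQ_surjective u
    refine ⟨⟨u, fun h => hu ((TYP_mem R N a zs u).1 h), ?_⟩, ?_⟩
    · intro t ht
      refine (TYP_mem R N a zs _).2 ?_
      rw [map_smul]
      exact hu' t ht
    · intro u v hu hu' hv'
      obtain ⟨r, hr⟩ := h2 ((a • ⊤ : Submodule R N).mkQ u) ((a • ⊤ : Submodule R N).mkQ v)
        (fun h => hu ((TYP_mem R N a zs u).2 h))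
        (fun t ht => by rw [← map_smul]; exact (TYP_mem R N a zs _).1 (hu' t ht))
        (fun t ht => by rw [← map_smul]; exact (TYP_mem R N a zs _).1 (hv' t ht))
      refine ⟨r, (TYP_mem R N a zs _).2 ?_⟩
      rw [map_sub, map_smul]
      exact hr

theorem thm_TYP (hEXT : St_EXT) : St_TYP := by
  intro R _ _ _ N _ _ _ xs ys
  induction ys generalizing N xs with
  | nil =>
    intro _ _ hl _ _ h
    have : xs = [] := List.eq_nil_of_length_eq_zero hl.symm
    rwa [this] at h
  | cons a ys ih =>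
    intro hx hy hl hRx hRy h
    have ha : a ∈ maximalIdeal R := hy a List.mem_cons_self
    obtain ⟨h1, h2⟩ := (RingTheory.Sequence.isWeaklyRegular_cons_iff N a ys).1 hRy
    rw [List.length_cons] at hl
    obtain ⟨zs, hz, hzl, hRz, hT⟩ := hEXT R N xs hx (by omega) hRx a ha
      (fun v hv => h1 (by show a • v = a • (0 : N); rw [hv, smul_zero]))
    obtain ⟨_, h3⟩ := (RingTheory.Sequence.isWeaklyRegular_cons_iff N a zs).1 hRz
    have hT' := (TYP_cons R N a zs).1 (hT h)
    exact (TYP_cons R N a ys).2 (ih (QuotSMulTop a N) zs hz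
      (fun x hx => hy x (List.mem_cons_of_mem a hx)) (by omega) h3 h2 hT')

end Pool.Agent.ARD
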