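import Pool.Agent.ARD.StK

/-! helper11. ARD UNK: unmixedness in Cohen-Macaulay local rings. -/

set_option autoImplicit false

namespace Pool.Agent.ARD

open ARS IsLocalRing TensorProduct
open scoped Pointwise

private theorem UNK_dim (R : Type) [CommRing R] (q : Ideal R) [q.IsPrime] :
    ((q.height : ℕ∞) : WithBot ℕ∞) + ringKrullDim (R ⧸ q) ≤ ringKrullDim R := by
  let p : PrimeSpectrum R := ⟨q, inferInstance⟩
  have h1 : ringKrullDim (R ⧸ q) = ((Order.coheight p : ℕ∞) : WithBot ℕ∞) := by
    rw [ringKrullDim_quotient, Order.coheight_eq_krullDim_Ici]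
    have h3 : PrimeSpectrum.zeroLocus (q : Set R) = Set.Ici p := by
      ext x
      rfl
    rw [h3]
  have h2 : q.height = Order.height p := PrimeSpectrum.height_eq_orderHeight p
  have : Nonempty (PrimeSpectrum R) := ⟨p⟩
  rw [h1, h2, ringKrullDim, Order.krullDim_eq_iSup_height_add_coheight_of_nonempty,
    ← WithBot.coe_add, WithBot.coe_le_coe]
  exact le_iSup (fun a : PrimeSpectrum R => Order.height a + Order.coheight a) p

/-- unmixedness in Cohen-Macaulay local rings -/
theorem thm_UNK (hEXC : St_EXC) (hASD : St_ASD) : St_UNK := by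
  intro R _ _ _ xs hmem hreg hdim
  refine ⟨fun q hq => ?_, fun a ha ha0 q hq => ?_⟩
  · have hqp : q.IsPrime := IsAssociatedPrime.isPrime hq
    have hd := UNK_dim R q
    have h2 := hASD R xs R hmem hreg q hq
    rw [← hdim] at hd
    have h3 : ((q.height : ℕ∞) : WithBot ℕ∞) + ((xs.length : ℕ∞) : WithBot ℕ∞) ≤
        ((xs.length : ℕ∞) : WithBot ℕ∞) := (add_le_add_right h2 _).trans hd
    rw [← WithBot.coe_add, WithBot.coe_le_coe] at h3
    have h4 : q.height + ((xs.length : ℕ) : ℕ∞) ≤ 0 + ((xs.length : ℕ) : ℕ∞) := by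
      rw [zero_add]
      exact h3
    exact nonpos_iff_eq_zero.1 ((ENat.add_le_add_iff_right (ENat.natCast_ne_top _)).1 h4)
  · have hqp : q.IsPrime := IsAssociatedPrime.isPrime hq
    have hd := UNK_dim R q
    by_cases hlen : 1 ≤ xs.length
    · obtain ⟨ys, hys, hyl, hyr⟩ := hEXC R R xs hmem hlen hreg a ha (by
        intro v hv
        exact (mul_left_mem_nonZeroDivisors_eq_zero_iff ha0).1 hv)
      have h1 := ((RingTheory.Sequence.isWeaklyRegular_cons_iff R a ys).1 hyr).2
      have heq : (a • (⊤ : Submodule R R)) = Ideal.span {a} := by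
        ext x
        rw [Submodule.mem_smul_pointwise_iff_exists, Ideal.mem_span_singleton]
        constructor
        · rintro ⟨w, _, hw⟩
          exact ⟨w, hw.symm⟩
        · rintro ⟨w, hw⟩
          exact ⟨w, trivial, hw.symm⟩
      have hq' : q ∈ associatedPrimes R (QuotSMulTop a R) := by
        rw [LinearEquiv.AssociatedPrimes.eq (Submodule.quotEquivOfEq _ _ heq)]
        exact hq
      have h2 := hASD R ys (QuotSMulTop a R) hys h1 q hq'
      rw [← hdim] at hd
      have h3 : ((q.height : ℕ∞) : WithBot ℕ∞) + ((ys.length : ℕ∞) : WithBot ℕ∞) ≤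
          ((xs.length : ℕ∞) : WithBot ℕ∞) := (add_le_add_right h2 _).trans hd
      rw [← hyl, ← WithBot.coe_add, WithBot.coe_le_coe, Nat.cast_add, Nat.cast_one, add_comm] at h3
      exact (ENat.add_le_add_iff_left (ENat.natCast_ne_top _)).1 h3
    · have hx0 : xs.length = 0 := by omega
      rw [hx0] at hdim
      have h1 : ((q.height : ℕ∞) : WithBot ℕ∞) ≤ ringKrullDim R :=
        Ideal.height_le_ringKrullDim_of_ne_top hqp.ne_top
      rw [← hdim, WithBot.coe_le_coe] at h1
      refine h1.trans ?_
      simp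

end Pool.Agent.ARD
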