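import Pool.Agent.ARD.StG

/-! ARD UNM: unmixedness in Cohen-Macaulay local domains -/

set_option autoImplicit false

namespace Pool.Agent.ARD

open ARS IsLocalRing TensorProduct
open scoped Pointwise

private theorem UNM_dim (R : Type) [CommRing R] (q : Ideal R) [q.IsPrime] :
    ((q.height : ℕ∞) : WithBot ℕ∞) + ringKrullDim (R ⧸ q) ≤ ringKrullDim R := by
  let p : PrimeSpectrum R := ⟨q, inferInstance⟩
  have h1 : ringKrullDim (R ⧸ q) = ((Order.coheight p : ℕ∞) : WithBot ℕ∞) := by
    rw [ringKrullDim_quotient, Order.coheight_eq_krullDim_Ici]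
    have h3 : PrimeSpectrum.zeroLocus (q : Set R) = Set.Ici p := by
      ext x
      rfl
    rw [h3]
  have h2 : q.height = Order.height p := PrimeSpectrum.height_eq_orderHeight p
  haveI : Nonempty (PrimeSpectrum R) := ⟨p⟩
  rw [h1, h2, ringKrullDim, Order.krullDim_eq_iSup_height_add_coheight_of_nonempty,
    ← WithBot.coe_add, WithBot.coe_le_coe]
  exact le_iSup (fun a : PrimeSpectrum R => Order.height a + Order.coheight a) p

/-- unmixedness in Cohen-Macaulay local domains -/
theorem thm_UNM (hEXC : St_EXC) (hASD : St_ASD) : St_UNM := by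
  intro R _ _ _ _ xs hmem hreg hdim a ha ha0 q hq
  have hqp : q.IsPrime := IsAssociatedPrime.isPrime hq
  have hd := UNM_dim R q
  by_cases hlen : 1 ≤ xs.length
  · obtain ⟨ys, hys, hyl, hyr⟩ := hEXC R R xs hmem hlen hreg a ha (by
      intro v hv
      rcases mul_eq_zero.1 (show a * v = 0 from hv) with h | h
      · exact absurd h ha0
      · exact h)
    have h1 := ((RingTheory.Sequence.isWeaklyRegular_cons_iff R a ys).1 hyr).2
    have heq : (a • (⊤ : Submodule R R)) = Ideal.span {a} := by
      ext x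
      rw [Submodule.mem_smul_pointwise_iff_exists, Ideal.mem_span_singleton]
      constructor
      · rintro ⟨w, _, hw⟩
        exact ⟨w, hw.symm⟩
      · rintro ⟨w, hw⟩
        exact ⟨w, trivial, hw.symm⟩
    have hq' : q ∈ associatedPrimes R (QuotSMulTop a R) := by
      rw [LinearEquiv.AssociatedPrimes.eq (Submodule.quotEquivOfEq _ _ heq)]
      exact hq
    have h2 := hASD R ys (QuotSMulTop a R) hys h1 q hq'
    rw [← hdim] at hd
    have h3 : ((q.height : ℕ∞) : WithBot ℕ∞) + ((ys.length : ℕ∞) : WithBot ℕ∞) ≤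
        ((xs.length : ℕ∞) : WithBot ℕ∞) := (add_le_add_right h2 _).trans hd
    rw [← hyl, ← WithBot.coe_add, WithBot.coe_le_coe, Nat.cast_add, Nat.cast_one, add_comm] at h3
    exact (ENat.add_le_add_iff_left (ENat.natCast_ne_top _)).1 h3
  · have hx0 : xs.length = 0 := by omega
    rw [hx0] at hdim
    have h1 : ((q.height : ℕ∞) : WithBot ℕ∞) ≤ ringKrullDim R :=
      Ideal.height_le_ringKrullDim_of_ne_top hqp.ne_top
    rw [← hdim, WithBot.coe_le_coe] at h1
    refine h1.trans ?_
    simp

end Pool.Agent.ARD
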