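import Pool.Agent.ARD.StN

/-! Module WTA of ARD: weights of quotients of `I P`. -/

set_option autoImplicit false

namespace Pool.Agent.ARD

open ARS IsLocalRing

private theorem WTA_fin {K R X : Type} [Field K] [CommRing R] [Algebra K R] [AddCommGroup X]
    [Module K X] [Module R X] [IsScalarTower K R X] (I : Ideal R) [Module.Finite K (R ⧸ I)]
    [Module.Finite R X] : Module.Finite K (X ⧸ (I • ⊤ : Submodule R X)) := by
  have : IsScalarTower K (R ⧸ I) (X ⧸ (I • ⊤ : Submodule R X)) := by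
    refine ⟨fun k a x => ?_⟩
    obtain ⟨r, rfl⟩ := Ideal.Quotient.mk_surjective a
    obtain ⟨v, rfl⟩ := Submodule.mkQ_surjective _ x
    change (I • ⊤ : Submodule R X).mkQ ((k • r) • v) =
      k • (I • ⊤ : Submodule R X).mkQ (r • v)
    rw [smul_assoc]
    rfl
  have : IsScalarTower R (R ⧸ I) (X ⧸ (I • ⊤ : Submodule R X)) := by
    refine ⟨fun k a x => ?_⟩
    obtain ⟨r, rfl⟩ := Ideal.Quotient.mk_surjective a
    obtain ⟨v, rfl⟩ := Submodule.mkQ_surjective _ x
    change (I • ⊤ : Submodule R X).mkQ ((k * r) • v) =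
      k • (I • ⊤ : Submodule R X).mkQ (r • v)
    rw [mul_smul]
    rfl
  have : Module.Finite (R ⧸ I) (X ⧸ (I • ⊤ : Submodule R X)) :=
    Module.Finite.of_restrictScalars_finite R (R ⧸ I) _
  exact Module.Finite.trans (R ⧸ I) _

private theorem WTA_cf_single {K : Type} [Field K] (a b : AlgebraicClosure K) (n : ℤ)
    [Decidable (a = b)] :
    cf (AddMonoidAlgebra.single a n : GR K) b = if a = b then n else 0 :=
  Finsupp.single_apply

private theorem WTA_cf_add {K : Type} [Field K] (f g : GR K) (a : AlgebraicClosure K) :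
    cf (f + g) a = cf f a + cf g a := rfl

private theorem WTA_cf_xp {K : Type} [Field K] (f : GR K) (a b : AlgebraicClosure K) :
    cf (xp a * f) b = cf f (b - a) := by
  classical
  induction f using AddMonoidAlgebra.induction_linear with
  | zero => rw [mul_zero]; rfl
  | add f g hf hg => rw [mul_add, WTA_cf_add, WTA_cf_add, hf, hg]
  | single c n =>
    unfold xp
    rw [AddMonoidAlgebra.single_mul_single, one_mul, WTA_cf_single, WTA_cf_single]
    refine if_congr ?_ rfl rfl
    exact ⟨fun h => by rw [← h, add_sub_cancel_left], fun h => by rw [h, add_sub_cancel]⟩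

/-- a weight of a quotient is a weight -/
private theorem WTA_sur (hADD : ARS.St_ADD) (hNON : ARS.St_NON)
    {K B C : Type} [Field K] [AddCommGroup B]
    [Module K B] [Module.Finite K B] [AddCommGroup C] [Module K C]
    (b : B →ₗ[K] B) (c : C →ₗ[K] C) (g : B →ₗ[K] C)
    (hg : Function.Surjective g) (hc : ∀ u, g (b u) = c (g u)) (ν : AlgebraicClosure K)
    (hν : cf (ch c) ν ≠ 0) : cf (ch b) ν ≠ 0 := by
  have hle : ∀ x ∈ LinearMap.ker g, b x ∈ LinearMap.ker g := by
    intro x hx
    rw [LinearMap.mem_ker] at hx ⊢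
    rw [hc, hx, map_zero]
  let A := LinearMap.ker g
  let a : A →ₗ[K] A := b.restrict hle
  have hex : ExK a b c := by
    refine ⟨(LinearMap.ker g).subtype, g, Subtype.val_injective, hg, ?_, fun u => rfl, hc⟩
    intro v
    constructor
    · intro h
      exact ⟨⟨v, h⟩, rfl⟩
    · rintro ⟨u, rfl⟩
      exact u.2
  obtain ⟨h1, h2, h3⟩ := (hADD.2 K A B C a b c hex).1 inferInstance
  have h4 := (hNON K A A a a).1 ν
  have h5 := (hNON K C C c c).1 ν
  rw [h3, WTA_cf_add]
  omega

variable {K R : Type} [Field K] [CommRing R] [Algebra K R] {D : Derivation K R R}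

/-- submodule and quotient -/
private theorem WTA_ses (hADD : ARS.St_ADD) (Q : NM D) (hQ : Module.Finite K Q.X)
    (S : Submodule R Q.X) (hS : ∀ x ∈ S, Q.N x ∈ S) :
    Module.Finite K (Q.sub S hS).X ∧ Module.Finite K (Q.quo S hS).X ∧
      Q.ch = (Q.sub S hS).ch + (Q.quo S hS).ch := by
  have hex : ExK (Q.sub S hS).N Q.N (Q.quo S hS).N := by
    refine ⟨S.subtype.restrictScalars K, S.mkQ.restrictScalars K, Subtype.val_injective,
      Submodule.mkQ_surjective _, ?_, fun u => rfl, fun v => rfl⟩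
    intro v
    constructor
    · intro h
      have h' : S.mkQ v = 0 := h
      rw [Submodule.mkQ_apply, Submodule.Quotient.mk_eq_zero] at h'
      exact ⟨⟨v, h'⟩, rfl⟩
    · rintro ⟨⟨u, hu⟩, rfl⟩
      show S.mkQ u = 0
      rw [Submodule.mkQ_apply, Submodule.Quotient.mk_eq_zero]
      exact hu
  exact (hADD.2 K _ _ _ _ _ _ hex).1 hQ

private theorem WTA_ind (hADD : ARS.St_ADD) (hNON : ARS.St_NON) (hSHF : ARS.St_SHF)
    {I : Ideal R} (hI : ∀ a ∈ I, D a ∈ I) (P : NM D) (hP : Module.Finite K (rd P hI).X) :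
    ∀ (L : List (R × ℕ)) (Q : NM D) (F : R × ℕ → (P.X →ₗ[R] Q.X)), Module.Finite K Q.X →
    (∀ a ∈ I, ∀ q : Q.X, a • q = 0) → (∀ p ∈ L, 0 < p.2) →
    (∀ p ∈ L, ∀ v, Q.N (F p v) = F p (P.N v) + (p.2 : K) • F p v) →
    (∀ T : Submodule R Q.X, (∀ p ∈ L, ∀ v, F p v ∈ T) → T = ⊤) →
    ∀ ν, cf Q.ch ν ≠ 0 → ∃ (l : AlgebraicClosure K) (k : ℕ), 1 ≤ k ∧
      cf (rd P hI).ch l ≠ 0 ∧ ν = l + (k : AlgebraicClosure K) := by
  intro L
  induction L with
  | nil =>
    intro Q F hQ hk hpos hN hT ν hν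
    exfalso
    have h1 : (⊥ : Submodule R Q.X) = ⊤ := hT ⊥ (by
      intro p hp
      exact absurd hp List.not_mem_nil)
    have h2 : Subsingleton Q.X := by
      refine ⟨fun a b => ?_⟩
      have ha : a ∈ (⊥ : Submodule R Q.X) := by rw [h1]; trivial
      have hb : b ∈ (⊥ : Submodule R Q.X) := by rw [h1]; trivial
      rw [Submodule.mem_bot] at ha hb
      rw [ha, hb]
    have h3 : Q.ch = 0 := (hNON K Q.X Q.X Q.N Q.N).2.2.2.1 h2
    rw [h3] at hν
    exact hν rfl
  | cons p0 L ih =>
    intro Q F hQ hk hpos hN hT ν hν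
    have hS : ∀ x ∈ LinearMap.range (F p0), Q.N x ∈ LinearMap.range (F p0) := by
      rintro x ⟨v, rfl⟩
      rw [hN p0 List.mem_cons_self]
      refine Submodule.add_mem _ ⟨P.N v, rfl⟩ ?_
      rw [← algebraMap_smul R (p0.2 : K) (F p0 v)]
      exact Submodule.smul_mem _ _ ⟨v, rfl⟩
    obtain ⟨h1, h2, h3⟩ := WTA_ses hADD Q hQ (LinearMap.range (F p0)) hS
    by_cases h4 : cf (Q.quo (LinearMap.range (F p0)) hS).ch ν = 0
    · have h5 : cf (Q.sub (LinearMap.range (F p0)) hS).ch ν ≠ 0 := by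
        intro h
        apply hν
        rw [h3, WTA_cf_add, h, h4, add_zero]
      have hker : (I • ⊤ : Submodule R P.X) ≤ LinearMap.ker (F p0).rangeRestrict := by
        refine Submodule.smul_le.2 fun r hr v _ => ?_
        rw [LinearMap.mem_ker, map_smul]
        exact Subtype.ext (hk r hr _)
      let g : (rd P hI).X →ₗ[R] LinearMap.range (F p0) :=
        (I • ⊤ : Submodule R P.X).liftQ (F p0).rangeRestrict hker
      have hg : Function.Surjective g := by
        rintro ⟨x, v, rfl⟩
        exact ⟨(I • ⊤ : Submodule R P.X).mkQ v, rfl⟩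
      have hgN : ∀ u : (rd P hI).X, g ((rd P hI).N u + (p0.2 : K) • u) =
          (Q.sub (LinearMap.range (F p0)) hS).N (g u) := by
        intro u
        obtain ⟨v, rfl⟩ := (I • ⊤ : Submodule R P.X).mkQ_surjective u
        apply Subtype.ext
        show F p0 (P.N v + (p0.2 : K) • v) = Q.N (F p0 v)
        rw [hN p0 List.mem_cons_self, map_add]
        congr 1
        rw [← algebraMap_smul R (p0.2 : K) v, ← algebraMap_smul R (p0.2 : K) (F p0 v), map_smul]
      have h6 := WTA_sur hADD hNON ((rd P hI).N + (p0.2 : K) • LinearMap.id)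
        (Q.sub (LinearMap.range (F p0)) hS).N (g.restrictScalars K) hg hgN ν h5
      rw [hSHF, WTA_cf_xp] at h6
      refine ⟨_, p0.2, hpos p0 List.mem_cons_self, h6, ?_⟩
      rw [map_natCast, sub_add_cancel]
    · refine ih (Q.quo (LinearMap.range (F p0)) hS)
        (fun p => (LinearMap.range (F p0)).mkQ.comp (F p)) h2 ?_
        (fun p hp => hpos p (List.mem_cons_of_mem _ hp)) ?_ ?_ ν h4
      · intro a ha q
        obtain ⟨v, rfl⟩ := (LinearMap.range (F p0)).mkQ_surjective q
        show (LinearMap.range (F p0)).mkQ (a • v) = 0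
        rw [hk a ha, map_zero]
      · intro p hp v
        show (LinearMap.range (F p0)).mkQ (Q.N (F p v)) =
          (LinearMap.range (F p0)).mkQ (F p (P.N v) + (p.2 : K) • F p v)
        rw [hN p (List.mem_cons_of_mem _ hp)]
      · intro T hT'
        have h7 : T.comap (LinearMap.range (F p0)).mkQ = ⊤ := by
          apply hT
          intro p hp v
          rcases List.mem_cons.1 hp with rfl | hp
          · show (LinearMap.range (F p)).mkQ (F p v) ∈ T
            have h8 : (LinearMap.range (F p)).mkQ (F p v) = 0 := by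
              rw [Submodule.mkQ_apply, Submodule.Quotient.mk_eq_zero]
              exact ⟨v, rfl⟩
            rw [h8]
            exact T.zero_mem
          · exact hT' p hp v
        rw [eq_top_iff]
        intro x _
        obtain ⟨v, rfl⟩ := (LinearMap.range (F p0)).mkQ_surjective x
        have h9 : v ∈ T.comap (LinearMap.range (F p0)).mkQ := by
          rw [h7]
          trivial
        exact h9

private theorem WTA_main (hADD : ARS.St_ADD) (hNON : ARS.St_NON) (hSHF : ARS.St_SHF)
    [IsLocalRing R] {L : List (R × ℕ)} (h : QD K R D L) (P Q : NM D)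
    (hP : Module.Finite R P.X) (hQ : Module.Finite K Q.X)
    (hk : ∀ a ∈ idl L, ∀ q : Q.X, a • q = 0)
    (g : (idl L • ⊤ : Submodule R P.X) →ₗ[R] Q.X) (hg : Function.Surjective g)
    (hgN : ∀ x y : (idl L • ⊤ : Submodule R P.X), (y : P.X) = P.N x → g y = Q.N (g x))
    (ν : AlgebraicClosure K) (hν : cf Q.ch ν ≠ 0) :
    ∃ (l : AlgebraicClosure K) (k : ℕ), 1 ≤ k ∧
      cf (rd P h.stab).ch l ≠ 0 ∧ ν = l + (k : AlgebraicClosure K) := by
  classical
  have hfin : Module.Finite K (rd P h.stab).X := by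
    have := h.fin
    have := hP
    exact WTA_fin (idl L)
  have hmem : ∀ p ∈ L, p.1 ∈ idl L := fun p hp =>
    Ideal.subset_span (List.mem_map.2 ⟨p, hp, rfl⟩)
  have hmem' : ∀ p ∈ L, ∀ v : P.X, p.1 • v ∈ (idl L • ⊤ : Submodule R P.X) := fun p hp v =>
    Submodule.smul_mem_smul (hmem p hp) trivial
  let F : R × ℕ → (P.X →ₗ[R] Q.X) := fun p =>
    if hp : p ∈ L then
      g.comp ((LinearMap.lsmul R P.X p.1).codRestrict (idl L • ⊤) (hmem' p hp))
    else 0
  have hF : ∀ (p : R × ℕ) (hp : p ∈ L) (v : P.X), F p v = g ⟨p.1 • v, hmem' p hp v⟩ := by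
    intro p hp v
    show (if hp : p ∈ L then
      g.comp ((LinearMap.lsmul R P.X p.1).codRestrict (idl L • ⊤) (hmem' p hp))
      else 0) v = _
    rw [dif_pos hp]
    rfl
  refine WTA_ind hADD hNON hSHF h.stab P hfin L Q F hQ hk h.pos ?_ ?_ ν hν
  · intro p hp v
    have h0 : ∀ q : Q.X, (p.2 : K) • q = (p.2 : R) • q := fun q => by
      rw [← algebraMap_smul R (p.2 : K) q, map_natCast]
    rw [hF p hp, hF p hp, h0, ← map_smul g, ← map_add g]
    refine (hgN _ _ ?_).symm
    show p.1 • P.N v + (p.2 : R) • p.1 • v = P.N (p.1 • v)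
    rw [P.leib, h.eig p hp, mul_smul, add_comm]
  · intro T hT
    rw [eq_top_iff]
    intro q _
    obtain ⟨⟨y, hy⟩, rfl⟩ := hg q
    refine Submodule.smul_induction_on' (p := fun y hy => g ⟨y, hy⟩ ∈ T) hy ?_ ?_
    · intro r hr v _
      refine Submodule.span_induction (p := fun r hr => ∀ v : P.X,
        g ⟨r • v, Submodule.smul_mem_smul hr trivial⟩ ∈ T) ?_ ?_ ?_ ?_ hr v
      · intro x hx v
        obtain ⟨p, hp, rfl⟩ := List.mem_map.1 (show x ∈ el L from hx)
        have := hT p hp v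
        rw [hF p hp] at this
        exact this
      · intro v
        have h1 : (⟨(0 : R) • v, Submodule.smul_mem_smul (Submodule.zero_mem _) trivial⟩ :
            (idl L • ⊤ : Submodule R P.X)) = 0 := Subtype.ext (zero_smul R v)
        rw [h1, map_zero]
        exact T.zero_mem
      · intro x y hx hy h1 h2 v
        have h3 : (⟨(x + y) • v, Submodule.smul_mem_smul (Submodule.add_mem _ hx hy) trivial⟩ :
            (idl L • ⊤ : Submodule R P.X)) =
            ⟨x • v, Submodule.smul_mem_smul hx trivial⟩ +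
            ⟨y • v, Submodule.smul_mem_smul hy trivial⟩ := Subtype.ext (add_smul x y v)
        rw [h3, map_add]
        exact T.add_mem (h1 v) (h2 v)
      · intro a x hx h1 v
        have h3 : (⟨(a • x) • v, Submodule.smul_mem_smul (Submodule.smul_mem _ a hx) trivial⟩ :
            (idl L • ⊤ : Submodule R P.X)) =
            a • ⟨x • v, Submodule.smul_mem_smul hx trivial⟩ :=
          Subtype.ext (smul_assoc a x v)
        rw [h3, map_smul]
        exact T.smul_mem a (h1 v)
    · intro x hx y hy h1 h2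
      have h3 : (⟨x + y, Submodule.add_mem _ hx hy⟩ : (idl L • ⊤ : Submodule R P.X)) =
          ⟨x, hx⟩ + ⟨y, hy⟩ := rfl
      rw [h3, map_add]
      exact T.add_mem h1 h2

/-- [WTA] Weights of a finite dimensional quotient of `I P`. -/
theorem thm_WTA (hADD : ARS.St_ADD) (hNON : ARS.St_NON) (hSHF : ARS.St_SHF) : St_WTA := by
  intro K R _ _ _ _ _ D L h P Q hP hQ hk g hg hgN ν hν
  refine WTA_main hADD hNON hSHF h P Q hP hQ hk g hg ?_ ν hν
  rintro ⟨x, hx⟩ ⟨y, hy⟩ hxy
  have h1 : (⟨y, hy⟩ : (idl L • ⊤ : Submodule R P.X)) =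
      (P.sub (idl L • ⊤) (stable_I P h.stab)).N ⟨x, hx⟩ := Subtype.ext hxy
  rw [h1]
  exact hgN ⟨x, hx⟩

end Pool.Agent.ARD
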