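import Pool.Agent.ARD.StN

/-! # ARD, module WTRd: the weights of `R / I` are natural numbers (MP_7dc157_al; helper42) -/

set_option autoImplicit false

namespace Pool.Agent.ARD

open ARS IsLocalRing Polynomial

private theorem WTRd_mem {R : Type} [CommRing R] {I : Ideal R} {a : R} (ha : a ∈ I) :
    a ∈ (I • ⊤ : Submodule R R) := by
  have h := Submodule.smul_mem_smul (N := (⊤ : Submodule R R)) ha (trivial : (1 : R) ∈ ⊤)
  have e : a • (1 : R) = a := by rw [smul_eq_mul, mul_one]
  rwa [e] at h

/-- `R / I R` with its scalar action of `K` is finite dimensional -/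
private theorem WTRd_fin {K R : Type} [Field K] [CommRing R] [Algebra K R]
    {D : Derivation K R R} {I : Ideal R} (hI : ∀ a ∈ I, D a ∈ I)
    (hfin : Module.Finite K (R ⧸ I)) : Module.Finite K (rd (NM.one D) hI).X := by
  let g : R →ₗ[R] R ⧸ (I • ⊤ : Submodule R R) := Submodule.mkQ _
  have hg : ∀ a ∈ I, g a = 0 := by
    intro a ha
    rw [Submodule.mkQ_apply, Submodule.Quotient.mk_eq_zero]
    exact WTRd_mem ha
  let G : (R ⧸ I) →ₗ[R] R ⧸ (I • ⊤ : Submodule R R) :=
    Submodule.liftQ _ g (by intro a ha; exact hg a ha)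
  have hG : Function.Surjective (G.restrictScalars K) := by
    intro q
    obtain ⟨a, rfl⟩ := Submodule.mkQ_surjective _ q
    exact ⟨Submodule.Quotient.mk a, rfl⟩
  exact Module.Finite.of_surjective (G.restrictScalars K) hG

private theorem WTRd_zero {K R : Type} [Field K] [CommRing R] [Algebra K R]
    {D : Derivation K R R} {I : Ideal R} (hI : ∀ a ∈ I, D a ∈ I) (a : R)
    (ha : a ∈ I) : md (NM.one D) hI a = 0 := by
  have h1 : a ∈ (I • ⊤ : Submodule R R) := WTRd_mem ha
  exact (Submodule.Quotient.mk_eq_zero _).2 h1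

private theorem WTRd_aeval {K R : Type} [Field K] [CommRing R] [Algebra K R]
    {D : Derivation K R R} {I : Ideal R} (hI : ∀ a ∈ I, D a ∈ I) (q : K[X]) (a : R) :
    (aeval ((rd (NM.one D) hI).N : Module.End K _) q) (md (NM.one D) hI a) =
      md (NM.one D) hI ((aeval (D.toLinearMap : Module.End K R) q) a) := by
  have hN : ∀ b : R, (rd (NM.one D) hI).N (md (NM.one D) hI b) = md (NM.one D) hI (D b) :=
    fun b => rfl
  induction q using Polynomial.induction_on' with
  | add p q hp hq =>
    rw [map_add, LinearMap.add_apply, hp, hq, map_add, LinearMap.add_apply]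
    exact (map_add (md (NM.one D) hI) _ _).symm
  | monomial n c =>
    rw [aeval_monomial, aeval_monomial]
    have hpow : ∀ (n : ℕ) (b : R),
        (((rd (NM.one D) hI).N : Module.End K _) ^ n) (md (NM.one D) hI b) =
          md (NM.one D) hI (((D.toLinearMap : Module.End K R) ^ n) b) := by
      intro n
      induction n with
      | zero => intro b; rfl
      | succ n ih =>
        intro b
        rw [pow_succ, Module.End.mul_apply, hN, ih, pow_succ, Module.End.mul_apply]
        rfl
    rw [Module.End.mul_apply, Module.End.mul_apply, hpow]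
    rw [Module.algebraMap_end_apply, Module.algebraMap_end_apply]
    rfl

theorem thm_WTRd (hANN : ARS.St_ANN) (hNON : ARS.St_NON) : St_WTRd := by
  intro K R _ _ _ _ _ D L h ν hν
  have := WTRd_fin h.stab h.fin
  obtain ⟨n, hn⟩ := h.wt
  set P : K[X] := ∏ w ∈ Finset.Icc 1 n, (Polynomial.X - Polynomial.C (w : K)) with hP
  have hroot : aeval ν (rd (NM.one D) h.stab).N.charpoly = 0 :=
    ((hNON K (rd (NM.one D) h.stab).X (rd (NM.one D) h.stab).X (rd (NM.one D) h.stab).N
      (rd (NM.one D) h.stab).N).2.1 ν).1 hν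
  have hann : aeval ((rd (NM.one D) h.stab).N : Module.End K _) (P * X) = 0 := by
    apply LinearMap.ext
    intro q
    obtain ⟨a, rfl⟩ : ∃ a : R, md (NM.one D) h.stab a = q := Submodule.mkQ_surjective _ q
    rw [WTRd_aeval, map_mul, aeval_X, Module.End.mul_apply, LinearMap.zero_apply]
    have hDa : D a ∈ maximalIdeal R := by
      obtain ⟨k, hk⟩ := h.res a
      have h1 := h.max _ hk
      rwa [map_sub, D.map_algebraMap, sub_zero] at h1
    have h2 := hn _ hDa
    exact WTRd_zero h.stab _ h2
  have h4 := hANN K (rd (NM.one D) h.stab).X (rd (NM.one D) h.stab).N (P * X) hann ν hroot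
  rw [map_mul, aeval_X, hP, map_prod] at h4
  rcases mul_eq_zero.1 h4 with h5 | h5
  · obtain ⟨w, -, hw⟩ := Finset.prod_eq_zero_iff.1 h5
    refine ⟨w, ?_⟩
    rw [map_sub, aeval_X, aeval_C, map_natCast, sub_eq_zero] at hw
    exact hw
  · exact ⟨0, by rw [h5, Nat.cast_zero]⟩

end Pool.Agent.ARD
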