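import Pool.Agent.ARS.All
import Pool.Agent.ARD.DIM
import Pool.Agent.ARD.RSQ
import Pool.Agent.ARD.HMR
import Pool.Agent.ARD.DUA
import Pool.Agent.ARD.DURd
import Pool.Agent.ARD.RFNd
import Pool.Agent.ARD.ISOd
import Pool.Agent.ARD.EXE
import Pool.Agent.ARD.SYZ
import Pool.Agent.ARD.FRE
import Pool.Agent.ARD.GFZ
import Pool.Agent.ARD.FLE
import Pool.Agent.ARD.FLG
import Pool.Agent.ARD.FLD
import Pool.Agent.ARD.GFR
import Pool.Agent.ARD.CHFd
import Pool.Agent.ARD.POWd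
import Pool.Agent.ARD.GORd
import Pool.Agent.ARD.HSUd
import Pool.Agent.ARD.REXd
import Pool.Agent.ARD.ESA
import Pool.Agent.ARD.COVd
import Pool.Agent.ARD.SUPd
import Pool.Agent.ARD.STPd
import Pool.Agent.ARD.WTRd
import Pool.Agent.ARD.ABSd
import Pool.Agent.ARD.PALd
import Pool.Agent.ARD.TRSd
import Pool.Agent.ARD.TREr
import Pool.Agent.ARD.REG
import Pool.Agent.ARD.PWRa
import Pool.Agent.ARD.PWRb
import Pool.Agent.ARD.WTA
import Pool.Agent.ARD.WTB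
import Pool.Agent.ARD.FIND
import Pool.Agent.ARD.ENDr
import Pool.Agent.ARD.ARQr
import Pool.Agent.ARD.GFD
import Pool.Agent.ARD.EXC
import Pool.Agent.ARD.ASD
import Pool.Agent.ARD.UNM
import Pool.Agent.ARD.GR2
import Pool.Agent.ARD.TRM
import Pool.Agent.ARD.ARY
import Pool.Agent.ARD.LCF
import Pool.Agent.ARD.GPZ
import Pool.Agent.ARD.ARG
import Pool.Agent.ARD.Pid
import Pool.Agent.ARD.DEP
import Pool.Agent.ARD.HSQ
import Pool.Agent.ARD.LDR
import Pool.Agent.ARD.QDF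
import Pool.Agent.ARD.QDG
import Pool.Agent.ARD.QXR
import Pool.Agent.ARD.LIF
import Pool.Agent.ARD.DES
import Pool.Agent.ARD.GEN
import Pool.Agent.ARD.COD
import Pool.Agent.ARD.RDF
import Pool.Agent.ARD.QDC
import Pool.Agent.ARD.FNDd
import Pool.Agent.ARD.HPA
import Pool.Agent.ARD.EXT9
import Pool.Agent.ARD.TYP
import Pool.Agent.ARD.IRT
import Pool.Agent.ARD.GII
import Pool.Agent.ARD.DIF
import Pool.Agent.ARD.GLD
import Pool.Agent.ARD.LGO
import Pool.Agent.ARD.GIS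
import Pool.Agent.ARD.SWN
import Pool.Agent.ARD.SWQ
import Pool.Agent.ARD.SWC
import Pool.Agent.ARD.SWP
import Pool.Agent.ARD.SWD
import Pool.Agent.ARD.SWL
import Pool.Agent.ARD.UNK
import Pool.Agent.ARD.GRK
import Pool.Agent.ARD.ARK
import Pool.Agent.ARD.AGK
import Pool.Agent.ARD.CDK
import Pool.Agent.ARD.LftC
import Pool.Agent.HWG.Final

/-! ARD: the closed theorems. -/

set_option autoImplicit false

namespace Pool.Agent.ARD

open IsLocalRing ARS

theorem cl_ESA : St_ESA := thm_ESA thm_RSQ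

theorem cl_DUA : St_DUA := thm_DUA thm_RSQ cl_ESA

theorem cl_ARQ : St_ARQr := by
  have hTWI : ARS.St_TWI := thm_TWI thm_ADD thm_SHF thm_NON
  have hHOM : ARS.St_HOM := thm_HOM hTWI thm_NEG thm_NON
  have hPOW : St_POWd := thm_POWd thm_ADD thm_NON hTWI
  have hREX : St_REXd := thm_REXd thm_RSQ
  have hGOR : St_GORd := thm_GORd thm_ADD thm_NON hHOM
  have hDUR : St_DURd := thm_DURd hGOR thm_HMR cl_DUA thm_RFNd thm_ISO
  have hSUP : St_SUPd := thm_SUPd hPOW thm_RFNd thm_RSQ thm_ADD thm_NON thm_ANN thm_GRD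
  have hCHF : St_CHFd := thm_CHFd hPOW thm_ISOd thm_RFNd thm_NEG thm_ISO
  have hHSU : St_HSUd := thm_HSUd thm_RFNd thm_HMR hHOM thm_ADD thm_NON thm_GRD
  have hSTP : St_STPd := thm_STPd thm_RFNd hREX thm_RSQ thm_COVd hSUP hCHF thm_HMR thm_ISO thm_HEX
    thm_ADD
  have hWTR : St_WTRd := thm_WTRd thm_ANN thm_NON
  have hABS : St_ABSd := thm_ABSd hSTP hHSU hWTR thm_GRD
  have hPAL : St_PALd := thm_PALd thm_ISOd thm_RFNd thm_GRD thm_NON thm_ISO
  have hTRE : St_TREr := thm_TREr thm_HMR cl_ESA thm_EXE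
  have hREG : St_REG := thm_REG cl_DUA thm_HMR
  have hPWRa : St_PWRa := thm_PWRa thm_RSQ hREX thm_ADD thm_SHF thm_NON
  have hPWRb : St_PWRb := thm_PWRb hPWRa thm_ISO
  have hWTA : St_WTA := thm_WTA thm_ADD thm_NON thm_SHF
  have hWTB : St_WTB := thm_WTB hWTA thm_RFNd thm_ADD thm_NON
  have hFIN : St_FIND := thm_FIND hPWRb hWTB thm_RFNd thm_ADD thm_NON thm_GRD
  have hEND : St_ENDr := thm_ENDr thm_ISOd thm_RFNd hDUR hABS hPAL thm_TRSd hTRE hFIN thm_HMR hREG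
    thm_ISO
  exact thm_ARQr hEND thm_RSQ thm_SYZ thm_FRE thm_GFZ thm_CON

theorem cl_GEN : St_GEN := thm_GEN cl_ARQ thm_SYZ thm_FRE thm_FLE thm_FLG thm_FLD

theorem cl_DES : St_DES := thm_DES thm_FLE thm_FLD

theorem cl_LIF : St_LIF := thm_LIF thm_QXR thm_SYZ thm_FRE

theorem cl_ARG : St_ARG := by
  have hUNM : St_UNM := thm_UNM thm_EXC thm_ASD
  have hARY : St_ARY := thm_ARY (thm_TRM thm_HMR cl_ESA thm_EXE) (thm_GR2 hUNM)
  exact thm_ARG hARY thm_RSQ thm_SYZ thm_FRE thm_GFZ (thm_GFD thm_GFR) thm_GPZ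

theorem cl_COD : St_COD := thm_COD cl_ARG thm_FLE thm_LCF thm_GPZ

theorem cl_CDK : St_CDK := by
  have hUNK : St_UNK := thm_UNK thm_EXC thm_ASD
  have hARK : St_ARK := thm_ARK (thm_TRM thm_HMR cl_ESA thm_EXE) (thm_GRK hUNK)
  exact thm_CDK (thm_AGK hARK hUNK thm_RSQ thm_SYZ thm_FRE thm_GFZ thm_GPZ) thm_FLE thm_LCF thm_GPZ

theorem cl_DIF : St_DIF := thm_DIF thm_CON thm_FLE thm_LCF thm_GPZ

theorem cl_GII : St_GII := thm_GII (thm_TYP thm_EXT) thm_IRT thm_DIM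

theorem cl_QDG : St_QDG :=
  thm_QDG (thm_HSQ (thm_DEP thm_EXC) thm_HPA) cl_GII thm_LDR thm_EUL thm_QDF

theorem cl_GLD : St_GLD := thm_GLD

theorem cl_LGO : St_LGO := thm_LGO

theorem cl_GIS : St_GIS := thm_GIS

theorem cl_SWN : St_SWN := thm_SWN

theorem cl_SWQ : St_SWQ := thm_SWQ

theorem cl_SWC : St_SWC := thm_SWC

theorem cl_SWP : St_SWP := thm_SWP thm_QDF

theorem cl_SWD : St_SWD := thm_SWD thm_SWN

theorem cl_SWL : St_SWL := thm_SWL

theorem ARCe_field (R : Type) [CommRing R] [IsLocalRing R] (h : IsField R) : ARCe R := by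
  have : IsDomain R := h.isDomain
  have : IsPrincipalIdealRing R := h.isPrincipalIdealRing
  exact ARCe_of_pid thm_FRE R

theorem ARC_of_ARCe (R : Type) [CommRing R] (h : ARCe R) : ARC R := by
  intro _ M _ _ _ hM
  exact h M (fun k => extAll_of_EV thm_Ext R M k M fun i hi => (hM i hi).1)
    fun k => extAll_of_EV thm_Ext R R k M fun i hi => (hM i hi).2

end Pool.Agent.ARD
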