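import Pool.Agent.ARS.StN

/-! Definitions for (ARC) over quasi-homogeneous Gorenstein local domains of any dimension
(MP_7dc157_al). Modules with a connection `NM D`, characters `ch`: `Pool/Agent/ARS/Defs.lean`. -/

set_option autoImplicit false

namespace Pool.Agent.ARD

open ARS IsLocalRing

/-- weakly regular sequences (all elements lie in the maximal ideal in our applications) -/
abbrev Rg (R : Type) [CommRing R] (xs : List R) (X : Type) [AddCommGroup X] [Module R X] : Prop :=
  RingTheory.Sequence.IsWeaklyRegular X xs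

/-- the elements of a list of eigenvectors with weights -/
def el {R : Type} (L : List (R × ℕ)) : List R := L.map Prod.fst

/-- the ideal generated by the elements -/
def idl {R : Type} [CommRing R] (L : List (R × ℕ)) : Ideal R := Ideal.ofList (el L)

/-- the list of the powers -/
def pw {R : Type} [CommRing R] (n : ℕ) (L : List (R × ℕ)) : List (R × ℕ) :=
  L.map fun p => (p.1 ^ n, n * p.2)

/-- a Gorenstein local ring, given by a maximal regular sequence with irreducible ideal -/
structure GorL (R : Type) [CommRing R] [IsLocalRing R] (xs : List R) : Prop where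
  mem : ∀ x ∈ xs, x ∈ maximalIdeal R
  reg : Rg R xs R
  irr : InfIrred (Ideal.ofList xs)
  art : IsArtinianRing (R ⧸ Ideal.ofList xs)

/-- `Ext ^ i (X, M) = 0` for all `i ≥ 1`, in terms of covers (`ARS.ExtAll`) -/
def EA (R X M : Type) [CommRing R] [AddCommGroup X] [Module R X] [AddCommGroup M] [Module R M] :
    Prop := ∀ k, ExtAll R M k X

variable {K R : Type} [Field K] [CommRing R] [Algebra K R] {D : Derivation K R R}

/-- `I X` is stable if `I` is -/
theorem stable_I (A : NM D) {I : Ideal R} (hI : ∀ a ∈ I, D a ∈ I) :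
    ∀ x ∈ (I • ⊤ : Submodule R A.X), A.N x ∈ (I • ⊤ : Submodule R A.X) := by
  intro x hx
  refine Submodule.smul_induction_on hx ?_ ?_
  · intro r hr q _
    rw [A.leib]
    exact Submodule.add_mem _ (Submodule.smul_mem_smul (hI r hr) trivial)
      (Submodule.smul_mem_smul hr trivial)
  · intro u v hu hv
    rw [map_add]
    exact Submodule.add_mem _ hu hv

/-- the reduction `X / I X` -/
def rd (A : NM D) {I : Ideal R} (hI : ∀ a ∈ I, D a ∈ I) : NM D :=
  A.quo (I • ⊤) (stable_I A hI)

/-- the reduction of an element -/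
def md (A : NM D) {I : Ideal R} (hI : ∀ a ∈ I, D a ∈ I) : A.X →ₗ[R] (rd A hI).X :=
  (I • ⊤ : Submodule R A.X).mkQ

/-- the shift of the connection by an integer -/
def sh (A : NM D) (m : ℕ) : NM D where
  X := A.X
  N := A.N + (m : K) • LinearMap.id
  leib r x := by
    show A.N (r • x) + (m : K) • (r • x) = D r • x + r • (A.N x + (m : K) • x)
    rw [A.leib, smul_add, smul_comm r (m : K) x, add_assoc]

/-- a list of eigenvectors generates a stable ideal -/
theorem stable_idl {L : List (R × ℕ)} (h : ∀ p ∈ L, D p.1 = (p.2 : R) * p.1) :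
    ∀ a ∈ idl L, D a ∈ idl L := by
  intro a ha
  refine Submodule.span_induction (p := fun a _ => D a ∈ idl L) ?_ ?_ ?_ ?_ ha
  · intro x hx
    obtain ⟨p, hp, rfl⟩ := List.mem_map.1 (show x ∈ el L from hx)
    rw [h p hp]
    exact Ideal.mul_mem_left _ _ (Ideal.subset_span hx)
  · rw [map_zero]
    exact Submodule.zero_mem _
  · intro x y _ _ hx hy
    rw [map_add]
    exact Submodule.add_mem _ hx hy
  · intro r x hx' hx
    rw [smul_eq_mul, D.leibniz, smul_eq_mul, smul_eq_mul]
    exact Submodule.add_mem _ (Ideal.mul_mem_left _ _ hx) (Ideal.mul_mem_right _ _ hx')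

/-- powers of eigenvectors are eigenvectors -/
theorem eig_pw {L : List (R × ℕ)} (h : ∀ p ∈ L, D p.1 = (p.2 : R) * p.1) (n : ℕ) :
    ∀ p ∈ pw n L, D p.1 = (p.2 : R) * p.1 := by
  intro p hp
  obtain ⟨q, hq, rfl⟩ := List.mem_map.1 hp
  show D (q.1 ^ n) = ((n * q.2 : ℕ) : R) * q.1 ^ n
  induction n with
  | zero => simp
  | succ n ih =>
    have hp' : (q.1 ^ n, n * q.2) ∈ pw n L := List.mem_map.2 ⟨q, hq, rfl⟩
    rw [pow_succ, D.leibniz, ih hp', h q hq, smul_eq_mul, smul_eq_mul]
    push_cast
    ring

/-- a quasi-homogeneous Gorenstein local ring: `K` is the residue field, `D` a derivation, `L` a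
list of eigenvectors in the maximal ideal with positive integral eigenvalues, which is a maximal
regular sequence with irreducible ideal; the eigenvalues of `D` on `max / (L)` are positive
integers -/
structure QD (K R : Type) [Field K] [CommRing R] [IsLocalRing R] [Algebra K R]
    (D : Derivation K R R) (L : List (R × ℕ)) : Prop where
  max : ∀ a ∈ maximalIdeal R, D a ∈ maximalIdeal R
  res : ∀ a : R, ∃ k : K, a - algebraMap K R k ∈ maximalIdeal R
  mem : ∀ p ∈ L, p.1 ∈ maximalIdeal R
  pos : ∀ p ∈ L, 0 < p.2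
  eig : ∀ p ∈ L, D p.1 = (p.2 : R) * p.1
  reg : Rg R (el L) R
  irr : InfIrred (idl L)
  fin : Module.Finite K (R ⧸ idl L)
  wt : ∃ n : ℕ, ∀ a ∈ maximalIdeal R,
    (Polynomial.aeval (D.toLinearMap : Module.End K R)
      (∏ w ∈ Finset.Icc 1 n, (Polynomial.X - Polynomial.C (w : K)))) a ∈ idl L

theorem QD.stab [IsLocalRing R] {L : List (R × ℕ)} (h : QD K R D L) :
    ∀ a ∈ idl L, D a ∈ idl L := stable_idl h.eig

theorem QD.stabp [IsLocalRing R] {L : List (R × ℕ)} (h : QD K R D L) (n : ℕ) :
    ∀ a ∈ idl (pw n L), D a ∈ idl (pw n L) := stable_idl (eig_pw h.eig n)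

theorem QD.le [IsLocalRing R] {L : List (R × ℕ)} (h : QD K R D L) : idl L ≤ maximalIdeal R := by
  refine Ideal.span_le.2 ?_
  intro x hx
  obtain ⟨p, hp, rfl⟩ := List.mem_map.1 (show x ∈ el L from hx)
  exact h.mem p hp

theorem QD.gor [IsLocalRing R] {L : List (R × ℕ)} (h : QD K R D L) : GorL R (el L) where
  mem := by
    intro x hx
    obtain ⟨p, hp, rfl⟩ := List.mem_map.1 hx
    exact h.mem p hp
  reg := h.reg
  irr := h.irr
  art := by
    have := h.fin
    exact IsArtinianRing.of_finite K (R ⧸ idl L)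

end Pool.Agent.ARD
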