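import Pool.Agent.ARD.StH

/-! [EXT] exchange with types (helper50, after EXC of helper69) -/

set_option autoImplicit false

namespace Pool.Agent.ARD

open ARS IsLocalRing
open scoped Pointwise

private def EXT_TS {R N : Type} [CommRing R] [IsLocalRing R] [AddCommGroup N] [Module R N]
    (S : Submodule R N) : Prop :=
  (∃ u : N, u ∉ S ∧ ∀ t ∈ maximalIdeal R, t • u ∈ S) ∧
  ∀ u v : N, u ∉ S → (∀ t ∈ maximalIdeal R, t • u ∈ S) →
    (∀ t ∈ maximalIdeal R, t • v ∈ S) → ∃ r : R, v - r • u ∈ S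

private theorem EXT_map {R N M : Type} [CommRing R] [IsLocalRing R] [AddCommGroup N] [Module R N]
    [AddCommGroup M] [Module R M] (f : N →ₗ[R] M) (hf : Function.Surjective f)
    (S : Submodule R N) (S' : Submodule R M) (h : ∀ v, v ∈ S ↔ f v ∈ S') :
    EXT_TS S ↔ EXT_TS S' := by
  constructor
  · rintro ⟨⟨u, hu1, hu2⟩, hs⟩
    refine ⟨⟨f u, fun hc => hu1 ((h u).2 hc), fun t ht => ?_⟩, ?_⟩
    · rw [← map_smul]
      exact (h _).1 (hu2 t ht)
    · intro u' v' h1 h2 h3
      obtain ⟨u, rfl⟩ := hf u'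
      obtain ⟨v, rfl⟩ := hf v'
      obtain ⟨r, hr⟩ := hs u v (fun hc => h1 ((h u).1 hc))
        (fun t ht => (h _).2 (by rw [map_smul]; exact h2 t ht))
        (fun t ht => (h _).2 (by rw [map_smul]; exact h3 t ht))
      refine ⟨r, ?_⟩
      have := (h _).1 hr
      rwa [map_sub, map_smul] at this
  · rintro ⟨⟨u', hu1, hu2⟩, hs⟩
    obtain ⟨u, rfl⟩ := hf u'
    refine ⟨⟨u, fun hc => hu1 ((h u).1 hc), fun t ht => ?_⟩, ?_⟩
    · rw [h, map_smul]
      exact hu2 t ht
    · intro u v h1 h2 h3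
      obtain ⟨r, hr⟩ := hs (f u) (f v) (fun hc => h1 ((h u).2 hc))
        (fun t ht => by rw [← map_smul]; exact (h _).1 (h2 t ht))
        (fun t ht => by rw [← map_smul]; exact (h _).1 (h3 t ht))
      refine ⟨r, ?_⟩
      rw [h, map_sub, map_smul]
      exact hr

private theorem EXT_cons {R N : Type} [CommRing R] [IsLocalRing R] [AddCommGroup N] [Module R N]
    (x : R) (xs : List R) : TY R (x :: xs) N ↔ TY R xs (QuotSMulTop x N) := by
  refine EXT_map (Submodule.mkQ (x • ⊤ : Submodule R N)) (Submodule.mkQ_surjective _)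
    (Ideal.ofList (x :: xs) • ⊤ : Submodule R N)
    (Ideal.ofList xs • ⊤ : Submodule R (QuotSMulTop x N)) ?_
  intro v
  have h1 : (Ideal.ofList xs • ⊤ : Submodule R (QuotSMulTop x N)) =
      Submodule.map (Submodule.mkQ (x • ⊤ : Submodule R N)) (Ideal.ofList xs • ⊤) := by
    rw [Submodule.map_smul'', Submodule.map_top, Submodule.range_mkQ]
  rw [h1, ← Submodule.mem_comap, Submodule.comap_map_mkQ, Ideal.ofList_cons, Submodule.sup_smul,
    Submodule.ideal_span_singleton_smul]

private theorem EXT_perm {R N : Type} [CommRing R] [IsLocalRing R] [AddCommGroup N] [Module R N]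
    {xs ys : List R} (h : xs.Perm ys) : TY R xs N → TY R ys N := by
  have h1 : Ideal.ofList xs = Ideal.ofList ys := by
    have h2 : {r | r ∈ xs} = {r | r ∈ ys} := Set.ext fun r => h.mem_iff
    exact _root_.congrArg Ideal.span h2
  unfold TY
  rw [h1]
  exact id

private theorem EXT_base {R N : Type} [CommRing R] [IsLocalRing R] [AddCommGroup N] [Module R N]
    {x a : R} (hx : x ∈ maximalIdeal R) (ha : a ∈ maximalIdeal R) (rx : IsSMulRegular N x)
    (ra : IsSMulRegular N a) : TY R [x] N → TY R [a] N := by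
  have key : ∀ (c : R) (v : N), v ∈ (Ideal.ofList [c] • ⊤ : Submodule R N) ↔ ∃ w : N, c • w = v := by
    intro c v
    rw [Ideal.ofList_singleton, Submodule.ideal_span_singleton_smul,
      Submodule.mem_smul_pointwise_iff_exists]
    constructor
    · rintro ⟨w, -, hw⟩
      exact ⟨w, hw⟩
    · rintro ⟨w, hw⟩
      exact ⟨w, trivial, hw⟩
  rintro ⟨⟨u, hu1, hu2⟩, hs⟩
  refine ⟨?_, ?_⟩
  · obtain ⟨u', hu'⟩ := (key x _).1 (hu2 a ha)
    refine ⟨u', ?_, ?_⟩
    · intro hc
      obtain ⟨w, hw⟩ := (key a _).1 hc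
      apply hu1
      rw [key]
      refine ⟨w, ?_⟩
      apply ra
      show a • (x • w) = a • u
      rw [← hu', ← hw, smul_comm]
    · intro t ht
      obtain ⟨w, hw⟩ := (key x _).1 (hu2 t ht)
      rw [key]
      refine ⟨w, ?_⟩
      apply rx
      show x • (a • w) = x • (t • u')
      rw [smul_comm x t u', hu', smul_comm x a w, hw, smul_comm]
  · intro u1 v1 h1 h2 h3
    obtain ⟨p, hp⟩ := (key a _).1 (h2 x hx)
    obtain ⟨q, hq⟩ := (key a _).1 (h3 x hx)
    have aux : ∀ z z1 : N, a • z = x • z1 → (∀ t ∈ maximalIdeal R,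
        t • z1 ∈ (Ideal.ofList [a] • ⊤ : Submodule R N)) →
        ∀ t ∈ maximalIdeal R, t • z ∈ (Ideal.ofList [x] • ⊤ : Submodule R N) := by
      intro z z1 hz hm t ht
      obtain ⟨w, hw⟩ := (key a _).1 (hm t ht)
      rw [key]
      refine ⟨w, ?_⟩
      apply ra
      show a • (x • w) = a • (t • z)
      rw [smul_comm a t z, hz, smul_comm a x w, hw, smul_comm]
    obtain ⟨r, hr⟩ := hs p q
      (by
        intro hc
        obtain ⟨w, hw⟩ := (key x _).1 hc
        apply h1
        rw [key]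
        refine ⟨w, ?_⟩
        apply rx
        show x • (a • w) = x • u1
        rw [← hp, ← hw, smul_comm])
      (aux p u1 hp h2) (aux q v1 hq h3)
    obtain ⟨w, hw⟩ := (key x _).1 hr
    refine ⟨r, ?_⟩
    rw [key]
    refine ⟨w, ?_⟩
    apply rx
    show x • (a • w) = x • (v1 - r • u1)
    rw [smul_comm x a w, hw, smul_sub, smul_sub, hq, smul_comm a r p, hp, smul_comm x r u1]

private theorem EXT_na {R M : Type} [CommRing R] [IsLocalRing R] [IsNoetherianRing R]
    [AddCommGroup M] [Module R M]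
    (h : ∀ v : M, (∀ r ∈ maximalIdeal R, r • v = 0) → v = 0) :
    ∀ p ∈ associatedPrimes R M, ¬ maximalIdeal R ≤ p := by
  intro p hp hle
  rw [AssociatedPrimes.mem_iff, isAssociatedPrime_iff] at hp
  obtain ⟨hp1, x, hx⟩ := hp
  have h0 : x = 0 := by
    apply h
    intro r hr
    have h1 := hle hr
    rw [hx, Submodule.mem_colon_singleton, Submodule.mem_bot] at h1
    exact h1
  apply hp1.ne_top
  rw [hx, h0, Ideal.eq_top_iff_one, Submodule.mem_colon_singleton, smul_zero]
  exact Submodule.zero_mem _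

private theorem EXT_reg {R M : Type} [CommRing R] [IsNoetherianRing R]
    [AddCommGroup M] [Module R M] {y : R} (h : ∀ p ∈ associatedPrimes R M, y ∉ p) :
    IsSMulRegular M y := by
  rw [isSMulRegular_iff_right_eq_zero_of_smul]
  intro v hv
  by_contra hne
  have h1 : y ∈ ⋃ p ∈ associatedPrimes R M, (p : Set R) := by
    rw [biUnion_associatedPrimes_eq_zero_divisors]
    exact ⟨v, hne, hv⟩
  obtain ⟨p, hp, hy⟩ := Set.mem_iUnion₂.1 h1
  exact h p hp hy

private theorem EXT_avoid {R : Type} [CommRing R] [IsLocalRing R] {S : Set (Ideal R)}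
    (hS : S.Finite) (hp : ∀ p ∈ S, p.IsPrime) (h : ∀ p ∈ S, ¬ maximalIdeal R ≤ p) :
    ∃ y ∈ maximalIdeal R, ∀ p ∈ S, y ∉ p := by
  by_contra hcon
  push Not at hcon
  have h1 : (maximalIdeal R : Set R) ⊆ ⋃ p ∈ S, (p : Set R) := by
    intro y hy
    obtain ⟨p, hpS, hyp⟩ := hcon y hy
    exact Set.mem_iUnion₂.2 ⟨p, hpS, hyp⟩
  obtain ⟨p, hpS, hle⟩ :=
    (Ideal.subset_union_prime_finite hS (f := id) 0 0 fun p hpS _ _ => hp p hpS).1 h1
  exact h p hpS hle

private theorem EXT_main {R : Type} [CommRing R] [IsLocalRing R] [IsNoetherianRing R] (n : ℕ) :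
    ∀ (N : Type) [AddCommGroup N] [Module R N] [Module.Finite R N] (xs : List R),
    xs.length = n + 1 → (∀ x ∈ xs, x ∈ maximalIdeal R) → Rg R xs N →
    ∀ a ∈ maximalIdeal R, IsSMulRegular N a →
    ∃ ys : List R, (∀ y ∈ ys, y ∈ maximalIdeal R) ∧ ys.length = n ∧ Rg R (a :: ys) N ∧
      (TY R xs N → TY R (a :: ys) N) := by
  induction n with
  | zero =>
    intro N _ _ _ xs hlen hmem hxs a ha hreg
    obtain ⟨x, rfl⟩ := List.length_eq_one_iff.1 hlen
    obtain ⟨hx, -⟩ := (RingTheory.Sequence.isWeaklyRegular_cons_iff N x []).1 hxs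
    refine ⟨[], ?_, rfl, ?_, EXT_base (hmem x (by simp)) ha hx hreg⟩
    · intro y hy
      simp at hy
    · exact (RingTheory.Sequence.isWeaklyRegular_cons_iff N a []).2
        ⟨hreg, RingTheory.Sequence.IsWeaklyRegular.nil R _⟩
  | succ n ih =>
    intro N _ _ _ xs hlen hmem hxs a ha hreg
    obtain ⟨x1, xs1, rfl⟩ : ∃ x1 xs1, xs = x1 :: xs1 := by
      cases xs with
      | nil => simp at hlen
      | cons x l => exact ⟨x, l, rfl⟩
    obtain ⟨x2, xs2, rfl⟩ : ∃ x2 xs2, xs1 = x2 :: xs2 := by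
      cases xs1 with
      | nil => simp at hlen
      | cons x l => exact ⟨x, l, rfl⟩
    have hlen2 : (x2 :: xs2).length = n + 1 := by simpa using hlen
    have hx1 : x1 ∈ maximalIdeal R := hmem x1 (by simp)
    have hx2 : x2 ∈ maximalIdeal R := hmem x2 (by simp)
    obtain ⟨hr1, hr2⟩ := (RingTheory.Sequence.isWeaklyRegular_cons_iff N x1 (x2 :: xs2)).1 hxs
    obtain ⟨hr3, -⟩ := (RingTheory.Sequence.isWeaklyRegular_cons_iff _ x2 xs2).1 hr2
    have z1 := isSMulRegular_iff_right_eq_zero_of_smul.1 hr1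
    have z3 := isSMulRegular_iff_right_eq_zero_of_smul.1 hr3
    -- membership in `x N` in terms of the quotient
    have hq : ∀ (c : R) (v : N),
        (Submodule.Quotient.mk v : QuotSMulTop c N) = 0 ↔ ∃ w : N, c • w = v := by
      intro c v
      rw [Submodule.Quotient.mk_eq_zero, Submodule.mem_smul_pointwise_iff_exists]
      constructor
      · rintro ⟨w, -, hw⟩
        exact ⟨w, hw⟩
      · rintro ⟨w, hw⟩
        exact ⟨w, trivial, hw⟩
    have b1 : ∀ v : N, (∀ r ∈ maximalIdeal R, r • v = 0) → v = 0 := fun v hv =>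
      z1 v (hv x1 hx1)
    have b2 : ∀ v : QuotSMulTop x1 N, (∀ r ∈ maximalIdeal R, r • v = 0) → v = 0 := fun v hv =>
      z3 v (hv x2 hx2)
    have b3 : ∀ v : QuotSMulTop a N, (∀ r ∈ maximalIdeal R, r • v = 0) → v = 0 := by
      intro v hv
      obtain ⟨u, rfl⟩ := Submodule.Quotient.mk_surjective _ v
      have c1 := hv x1 hx1
      have c2 := hv x2 hx2
      rw [← Submodule.Quotient.mk_smul, hq] at c1 c2
      obtain ⟨w1, hw1⟩ := c1
      obtain ⟨w2, hw2⟩ := c2
      have c3 : x1 • w2 = x2 • w1 := by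
        apply hreg
        show a • (x1 • w2) = a • (x2 • w1)
        rw [smul_comm a x1 w2, hw2, smul_comm a x2 w1, hw1, smul_comm]
      have c4 : (Submodule.Quotient.mk w1 : QuotSMulTop x1 N) = 0 := by
        apply z3
        rw [← Submodule.Quotient.mk_smul, hq]
        exact ⟨w2, c3⟩
      obtain ⟨w0, hw0⟩ := (hq x1 w1).1 c4
      rw [hq]
      refine ⟨w0, ?_⟩
      apply hr1
      show x1 • (a • w0) = x1 • u
      rw [smul_comm, hw0, hw1]
    obtain ⟨y, hy, hyS⟩ := EXT_avoid (S := associatedPrimes R N ∪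
        (associatedPrimes R (QuotSMulTop x1 N) ∪ associatedPrimes R (QuotSMulTop a N)))
      ((associatedPrimes.finite R N).union ((associatedPrimes.finite R _).union
        (associatedPrimes.finite R _)))
      (by
        rintro p (hp | hp | hp)
        · exact IsAssociatedPrime.isPrime hp
        · exact IsAssociatedPrime.isPrime hp
        · exact IsAssociatedPrime.isPrime hp)
      (by
        rintro p (hp | hp | hp)
        · exact EXT_na b1 p hp
        · exact EXT_na b2 p hp
        · exact EXT_na b3 p hp)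
    have y1 : IsSMulRegular N y := EXT_reg fun p hp => hyS p (Or.inl hp)
    have y2 : IsSMulRegular (QuotSMulTop x1 N) y := EXT_reg fun p hp => hyS p (Or.inr (Or.inl hp))
    have y3 : IsSMulRegular (QuotSMulTop a N) y := EXT_reg fun p hp => hyS p (Or.inr (Or.inr hp))
    obtain ⟨zs, hz1, hz2, hz3, hz4⟩ := ih (QuotSMulTop x1 N) (x2 :: xs2) hlen2
      (fun x hx => hmem x (List.mem_cons_of_mem _ hx)) hr2 y hy y2
    have e1 : Rg R (x1 :: y :: zs) N :=
      (RingTheory.Sequence.isWeaklyRegular_cons_iff N x1 (y :: zs)).2 ⟨hr1, hz3⟩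
    have e2 : Rg R (y :: x1 :: zs) N := by
      refine IsLocalRing.isWeaklyRegular_of_perm_of_subset_maximalIdeal e1
        (List.Perm.swap y x1 zs) ?_
      intro r hr
      rcases List.mem_cons.1 hr with h | h
      · exact h ▸ hx1
      · rcases List.mem_cons.1 h with h | h
        · exact h ▸ hy
        · exact hz1 r h
    obtain ⟨-, e3⟩ := (RingTheory.Sequence.isWeaklyRegular_cons_iff N y (x1 :: zs)).1 e2
    have e4 : Rg R [a, y] N :=
      (RingTheory.Sequence.isWeaklyRegular_cons_iff N a [y]).2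
        ⟨hreg, (RingTheory.Sequence.isWeaklyRegular_cons_iff _ y []).2
          ⟨y3, RingTheory.Sequence.IsWeaklyRegular.nil R _⟩⟩
    have e5 : Rg R [y, a] N := by
      refine IsLocalRing.isWeaklyRegular_of_perm_of_subset_maximalIdeal e4
        (List.Perm.swap y a []) ?_
      intro r hr
      rcases List.mem_cons.1 hr with h | h
      · exact h ▸ ha
      · rcases List.mem_cons.1 h with h | h
        · exact h ▸ hy
        · simp at h
    have e6 : IsSMulRegular (QuotSMulTop y N) a :=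
      ((RingTheory.Sequence.isWeaklyRegular_cons_iff _ a []).1
        ((RingTheory.Sequence.isWeaklyRegular_cons_iff N y [a]).1 e5).2).1
    obtain ⟨ys, hs1, hs2, hs3, hs4⟩ := ih (QuotSMulTop y N) (x1 :: zs) (by simp [hz2])
      (by
        intro r hr
        rcases List.mem_cons.1 hr with h | h
        · exact h ▸ hx1
        · exact hz1 r h) e3 a ha e6
    have e7 : Rg R (y :: a :: ys) N :=
      (RingTheory.Sequence.isWeaklyRegular_cons_iff N y (a :: ys)).2 ⟨y1, hs3⟩
    refine ⟨y :: ys, ?_, by simp [hs2], ?_, fun hT => EXT_perm (List.Perm.swap a y ys)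
      ((EXT_cons y (a :: ys)).2 (hs4 ((EXT_cons y (x1 :: zs)).1
        (EXT_perm (List.Perm.swap y x1 zs) ((EXT_cons x1 (y :: zs)).2
          (hz4 ((EXT_cons x1 (x2 :: xs2)).1 hT)))))))⟩
    · intro r hr
      rcases List.mem_cons.1 hr with h | h
      · exact h ▸ hy
      · exact hs1 r h
    · refine IsLocalRing.isWeaklyRegular_of_perm_of_subset_maximalIdeal e7
        (List.Perm.swap a y ys) ?_
      intro r hr
      rcases List.mem_cons.1 hr with h | h
      · exact h ▸ hy
      · rcases List.mem_cons.1 h with h | h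
        · exact h ▸ ha
        · exact hs1 r h

theorem thm_EXT : St_EXT := by
  intro R _ _ _ N _ _ _ xs hmem hlen hxs a ha hreg
  obtain ⟨n, hn⟩ : ∃ n, xs.length = n + 1 := ⟨xs.length - 1, by omega⟩
  obtain ⟨ys, h1, h2, h3, h4⟩ := EXT_main n N xs hn hmem hxs a ha
    (isSMulRegular_iff_right_eq_zero_of_smul.2 hreg)
  exact ⟨ys, h1, by omega, h3, h4⟩

end Pool.Agent.ARD
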