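import Pool.Agent.ARD.StG
import Pool.Agent.ARS.END

/-! helper55. Module FNG of ARD: the final theorem of the codimension one form. -/

set_option autoImplicit false

namespace Pool.Agent.ARD

open ARS IsLocalRing TensorProduct

theorem thm_FNG (hARG : St_ARG) (hARE : St_ARE) (hFLE : St_FLE) (hLCF : St_LCF) (hGPZ : St_GPZ)
    (hExt : ARS.St_Ext) : St_FNG := by
  intro R _ _ _ _ xs hG hd hloc _ M _ _ _ hM
  have hEV : EV R M M := fun i hi => (hM i hi).1
  have hEV' : EV R M R := fun i hi => (hM i hi).2
  have h1 : EA R M M := fun k => extAll_of_EV hExt R M k M hEV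
  have h2 : EA R M R := fun k => extAll_of_EV hExt R R k M hEV'
  refine hARG R xs hG hd M h1 h2 fun p hp hpt => ?_
  obtain ⟨q, hq, hpq, hgood⟩ := hloc p hp hpt
  have hdom : IsDomain (Localization.AtPrime q) :=
    IsLocalization.isDomain_localization q.primeCompl_le_nonZeroDivisors
  have hnoeth : IsNoetherianRing (Localization.AtPrime q) :=
    IsLocalization.isNoetherianRing q.primeCompl _ inferInstance
  have hflat : Module.Flat R (Localization.AtPrime q) :=
    IsLocalization.flat (Localization.AtPrime q) q.primeCompl
  have h4 : EA (Localization.AtPrime q) (Localization.AtPrime q ⊗[R] M)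
      (Localization.AtPrime q ⊗[R] M) := hFLE R (Localization.AtPrime q) _ _ h1
  have h5 : EA (Localization.AtPrime q) (Localization.AtPrime q ⊗[R] M)
      (Localization.AtPrime q) := fun k =>
    extAll_iso (TensorProduct.AlgebraTensorModule.rid R (Localization.AtPrime q)
      (Localization.AtPrime q)) k _ _ (LinearEquiv.refl (Localization.AtPrime q) _)
      (hFLE R (Localization.AtPrime q) _ _ h2 k)
  have h6 : Module.Free (Localization.AtPrime q) (Localization.AtPrime q ⊗[R] M) :=
    hARE (Localization.AtPrime q) hgood _ h4 h5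
  exact (hGPZ R q M (hLCF R q M h6)).2.1 p hpq

end Pool.Agent.ARD
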