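import Pool.Agent.ARD.StS

/-! Module GIS of ARD. -/

set_option autoImplicit false

namespace Pool.Agent.ARD

open IsLocalRing

theorem thm_GIS : St_GIS := by
  intro R R' _ _ _ _ e xs h
  have hI : Ideal.ofList (xs.map e) = (Ideal.ofList xs).map (e : R →+* R') := by
    rw [Ideal.map_ofList]
    rfl
  have hsurj : Function.Surjective (e : R →+* R') := e.surjective
  have hmc : ∀ J : Ideal R', (J.comap (e : R →+* R')).map (e : R →+* R') = J := fun J =>
    Ideal.map_comap_of_surjective _ hsurj J
  have hcm : ∀ J : Ideal R, (J.map (e : R →+* R')).comap (e : R →+* R') = J := fun J => by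
    rw [Ideal.comap_map_of_bijective (e : R →+* R') e.bijective]
  refine ⟨?_, ?_, ?_, ?_⟩
  · intro x hx
    obtain ⟨a, ha, rfl⟩ := List.mem_map.1 hx
    have h1 := h.mem a ha
    rw [mem_maximalIdeal, mem_nonunits_iff] at h1 ⊢
    intro h2
    exact h1 ((MulEquiv.isUnit_map e).1 h2)
  · refine (AddEquiv.isWeaklyRegular_congr (e := e.toAddEquiv) (as := xs) (bs := xs.map e) ?_).1
      h.reg
    refine List.forall₂_map_right_iff.mpr ?_
    refine List.forall₂_same.mpr fun r _ x => ?_
    exact map_mul e r x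
  · rw [hI]
    obtain ⟨h1, h2⟩ := h.irr
    refine ⟨fun h3 => h1 ?_, fun {b c} hbc => ?_⟩
    · rw [isMax_iff_eq_top] at h3 ⊢
      rw [← hcm (Ideal.ofList xs), h3, Ideal.comap_top]
    · have h4 : b.comap (e : R →+* R') ⊓ c.comap (e : R →+* R') = Ideal.ofList xs := by
        rw [← Ideal.comap_inf, hbc, hcm]
      rcases h2 h4 with h5 | h5
      · left
        rw [← hmc b, h5]
      · right
        rw [← hmc c, h5]
  · have h1 := h.art
    have e2 : (R ⧸ Ideal.ofList xs) ≃+* (R' ⧸ Ideal.ofList (xs.map e)) :=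
      Ideal.quotientEquiv _ _ e hI
    exact Function.Surjective.isArtinianRing (f := e2.toRingHom) e2.surjective

end Pool.Agent.ARD
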