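import Mathlib

/-! helper11. Lifting of resolutions along `R → R / x` (Auslander, Ding, Solberg), in terms of
matrices. -/

set_option autoImplicit false

namespace Pool.Agent.ARD

open Matrix

section lift

variable {R : Type} [CommRing R] {x : R} {n0 n1 n2 : ℕ}

/-- reduction of a matrix -/
abbrev rm (x : R) {m n : ℕ} (A : Matrix (Fin m) (Fin n) R) :
    Matrix (Fin m) (Fin n) (R ⧸ Ideal.span {x}) := A.map (Ideal.Quotient.mk (Ideal.span {x}))

/-- reduction of a vector -/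
abbrev rv (x : R) {n : ℕ} (v : Fin n → R) : Fin n → (R ⧸ Ideal.span {x}) :=
  fun i => Ideal.Quotient.mk (Ideal.span {x}) (v i)

theorem rv_surj {n : ℕ} (v : Fin n → (R ⧸ Ideal.span {x})) : ∃ u : Fin n → R, rv x u = v := by
  choose u hu using fun i => Ideal.Quotient.mk_surjective (v i)
  exact ⟨u, funext hu⟩

theorem rm_surj {m n : ℕ} (A : Matrix (Fin m) (Fin n) (R ⧸ Ideal.span {x})) :
    ∃ B : Matrix (Fin m) (Fin n) R, rm x B = A := by
  choose B hB using fun i j => Ideal.Quotient.mk_surjective (A i j)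
  exact ⟨fun i j => B i j, by
    ext i j
    exact hB i j⟩

theorem rv_mulVec {m n : ℕ} (A : Matrix (Fin m) (Fin n) R) (v : Fin n → R) :
    rv x (A *ᵥ v) = rm x A *ᵥ rv x v := by
  funext i
  simp only [rv, rm, mulVec, dotProduct, map_sum, map_mul, Matrix.map_apply]

theorem rm_mul {m n k : ℕ} (A : Matrix (Fin m) (Fin n) R) (B : Matrix (Fin n) (Fin k) R) :
    rm x (A * B) = rm x A * rm x B := by
  simp only [rm, Matrix.map_mul]

theorem rv_eq_zero {n : ℕ} (v : Fin n → R) (h : rv x v = 0) : ∃ w, v = x • w := by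
  have h1 : ∀ i, ∃ c, v i = x * c := by
    intro i
    have h2 := Ideal.Quotient.eq_zero_iff_mem.1 (congrFun h i)
    obtain ⟨c, hc⟩ := Ideal.mem_span_singleton'.1 h2
    exact ⟨c, by rw [← hc, mul_comm]⟩
  choose w hw using h1
  exact ⟨w, funext hw⟩

theorem rm_eq_zero {m n : ℕ} (A : Matrix (Fin m) (Fin n) R) (h : rm x A = 0) :
    ∃ B, A = x • B := by
  have h1 : ∀ i j, ∃ c, A i j = x * c := by
    intro i j
    have h2 := Ideal.Quotient.eq_zero_iff_mem.1 (congrFun (congrFun h i) j)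
    obtain ⟨c, hc⟩ := Ideal.mem_span_singleton'.1 h2
    exact ⟨c, by rw [← hc, mul_comm]⟩
  choose B hB using h1
  exact ⟨fun i j => B i j, by
    ext i j
    exact hB i j⟩

theorem rv_smul {n : ℕ} (v : Fin n → R) : rv x (x • v) = 0 := by
  funext i
  show Ideal.Quotient.mk (Ideal.span {x}) (x * v i) = 0
  rw [Ideal.Quotient.eq_zero_iff_mem]
  exact Ideal.mul_mem_right _ _ (Ideal.mem_span_singleton_self x)

theorem rm_smul {m n : ℕ} (A : Matrix (Fin m) (Fin n) R) : rm x (x • A) = 0 := by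
  ext i j
  show Ideal.Quotient.mk (Ideal.span {x}) (x * A i j) = 0
  rw [Ideal.Quotient.eq_zero_iff_mem]
  exact Ideal.mul_mem_right _ _ (Ideal.mem_span_singleton_self x)

theorem vsmul_inj (hx : ∀ c : R, x * c = 0 → c = 0) {n : ℕ} {v w : Fin n → R}
    (h : x • v = x • w) : v = w := by
  funext i
  have h1 : x * (v i - w i) = 0 := by
    rw [mul_sub]
    have h2 := congrFun h i
    exact sub_eq_zero.2 h2
  exact sub_eq_zero.1 (hx _ h1)

/-- the claim on the induced cocycle -/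
theorem lift_claim (hx : ∀ c : R, x * c = 0 → c = 0)
    (A : Matrix (Fin n0) (Fin n1) R) (B : Matrix (Fin n1) (Fin n2) R)
    (hE : ∀ e : Fin n1 → (R ⧸ Ideal.span {x}), rm x A *ᵥ e = 0 →
      ∃ g : Fin n2 → (R ⧸ Ideal.span {x}), e = rm x B *ᵥ g)
    (n : ℕ) (C : Matrix (Fin n0) (Fin n2) R) (hC : A * B = x ^ n • C) (k : ℕ) :
    k + 1 ≤ n → ∀ (e : Fin n1 → R) (y : Fin n0 → R), A *ᵥ e = x ^ k • y →
      ∃ f z, y = A *ᵥ f + x • z := by
  induction k with
  | zero =>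
    intro _ e y h
    refine ⟨e, 0, ?_⟩
    rw [h, pow_zero, one_smul, smul_zero, add_zero]
  | succ k ih =>
    intro hk e y h
    obtain ⟨g, hg⟩ := hE (rv x e) (by
      rw [← rv_mulVec, h, pow_succ', mul_smul]
      exact rv_smul _)
    obtain ⟨g', rfl⟩ := rv_surj g
    rw [← rv_mulVec] at hg
    obtain ⟨e', he'⟩ := rv_eq_zero (x := x) (e - B *ᵥ g') (by
      funext i
      have h1 := congrFun hg i
      show Ideal.Quotient.mk (Ideal.span {x}) (e i - (B *ᵥ g') i) = 0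
      rw [map_sub, sub_eq_zero]
      exact h1)
    have h2 : e = B *ᵥ g' + x • e' := by
      rw [← he']
      abel
    obtain ⟨m, rfl⟩ : ∃ m, n = k + 2 + m := ⟨n - (k + 2), by omega⟩
    have h3 : A *ᵥ e = x ^ (k + 2 + m) • (C *ᵥ g') + x • (A *ᵥ e') := by
      rw [h2, mulVec_add, mulVec_smul, mulVec_mulVec, hC, smul_mulVec]
    have h4 : A *ᵥ e' = x ^ k • (y - x ^ (m + 1) • (C *ᵥ g')) := by
      apply vsmul_inj hx
      have h5 : x • (A *ᵥ e') = x ^ (k + 1) • y - x ^ (k + 2 + m) • (C *ᵥ g') := by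
        rw [← h, h3]
        abel
      rw [h5, smul_smul, smul_sub, smul_smul]
      congr 1
      · rw [pow_succ']
      · congr 1
        ring
    obtain ⟨f, z, hf⟩ := ih (by omega) e' _ h4
    refine ⟨f, z + x ^ m • (C *ᵥ g'), ?_⟩
    rw [smul_add, smul_smul, ← add_assoc, ← hf, ← pow_succ']
    abel

/-- one step of the approximation -/
theorem lift_step (hx : ∀ c : R, x * c = 0 → c = 0)
    (Ab : Matrix (Fin n0) (Fin n1) (R ⧸ Ideal.span {x}))
    (Bb : Matrix (Fin n1) (Fin n2) (R ⧸ Ideal.span {x}))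
    (hE : ∀ e : Fin n1 → (R ⧸ Ideal.span {x}), Ab *ᵥ e = 0 →
      ∃ g : Fin n2 → (R ⧸ Ideal.span {x}), e = Bb *ᵥ g)
    (hX : ∀ C : Matrix (Fin n0) (Fin n2) (R ⧸ Ideal.span {x}),
      (∀ g : Fin n2 → (R ⧸ Ideal.span {x}), Bb *ᵥ g = 0 →
        ∃ e : Fin n1 → (R ⧸ Ideal.span {x}), C *ᵥ g = Ab *ᵥ e) →
      ∃ (V : Matrix (Fin n0) (Fin n1) (R ⧸ Ideal.span {x}))
        (U : Matrix (Fin n1) (Fin n2) (R ⧸ Ideal.span {x})), C = V * Bb + Ab * U)
    (n : ℕ) (A : Matrix (Fin n0) (Fin n1) R) (B : Matrix (Fin n1) (Fin n2) R)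
    (hA : rm x A = Ab) (hB : rm x B = Bb) (C : Matrix (Fin n0) (Fin n2) R)
    (hC : A * B = x ^ (n + 1) • C) :
    ∃ (V : Matrix (Fin n0) (Fin n1) R) (U : Matrix (Fin n1) (Fin n2) R)
      (C' : Matrix (Fin n0) (Fin n2) R),
      (A - x ^ (n + 1) • V) * (B - x ^ (n + 1) • U) = x ^ (n + 2) • C' := by
  subst hA hB
  have hcoc : ∀ g : Fin n2 → (R ⧸ Ideal.span {x}), rm x B *ᵥ g = 0 →
      ∃ e : Fin n1 → (R ⧸ Ideal.span {x}), rm x C *ᵥ g = rm x A *ᵥ e := by
    intro g hg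
    obtain ⟨g', rfl⟩ := rv_surj g
    rw [← rv_mulVec] at hg
    obtain ⟨e, he⟩ := rv_eq_zero (x := x) _ hg
    have h1 : A *ᵥ e = x ^ n • (C *ᵥ g') := by
      apply vsmul_inj hx
      rw [← mulVec_smul, ← he, mulVec_mulVec, hC, smul_mulVec, smul_smul, pow_succ']
    obtain ⟨f, z, hf⟩ := lift_claim hx A B hE (n + 1) C hC n le_rfl e _ h1
    refine ⟨rv x f, ?_⟩
    rw [← rv_mulVec, ← rv_mulVec, hf]
    funext i
    show Ideal.Quotient.mk (Ideal.span {x}) ((A *ᵥ f) i + (x • z) i) = _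
    rw [map_add]
    have h2 := congrFun (rv_smul (x := x) z) i
    rw [show Ideal.Quotient.mk (Ideal.span {x}) ((x • z) i) = 0 from h2, add_zero]
  obtain ⟨V, U, hVU⟩ := hX _ hcoc
  obtain ⟨V, rfl⟩ := rm_surj V
  obtain ⟨U, rfl⟩ := rm_surj U
  obtain ⟨D, hD⟩ := rm_eq_zero (x := x) (C - (V * B + A * U)) (by
    have h3 : rm x (C - (V * B + A * U)) = rm x C - (rm x V * rm x B + rm x A * rm x U) := by
      rw [← rm_mul, ← rm_mul]
      ext i j
      simp only [rm, Matrix.map_apply, Matrix.sub_apply, Matrix.add_apply, map_sub, map_add]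
    rw [h3, hVU, sub_self])
  refine ⟨V, U, D + x ^ n • (V * U), ?_⟩
  have h4 : (A - x ^ (n + 1) • V) * (B - x ^ (n + 1) • U) =
      A * B - x ^ (n + 1) • (V * B + A * U) + (x ^ (n + 1) * x ^ (n + 1)) • (V * U) := by
    rw [Matrix.sub_mul, Matrix.mul_sub, Matrix.mul_sub, Matrix.smul_mul, Matrix.mul_smul,
      Matrix.smul_mul, Matrix.mul_smul, smul_smul, smul_add]
    abel
  rw [h4, hC, ← smul_sub, hD, smul_smul, smul_add, smul_smul]
  congr 1
  · congr 1
    ring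
  · congr 1
    ring

/-- the limit -/
theorem lift_exists (hx : ∀ c : R, x * c = 0 → c = 0) [IsAdicComplete (Ideal.span {x}) R]
    (Ab : Matrix (Fin n0) (Fin n1) (R ⧸ Ideal.span {x}))
    (Bb : Matrix (Fin n1) (Fin n2) (R ⧸ Ideal.span {x})) (hAB : Ab * Bb = 0)
    (hE : ∀ e : Fin n1 → (R ⧸ Ideal.span {x}), Ab *ᵥ e = 0 →
      ∃ g : Fin n2 → (R ⧸ Ideal.span {x}), e = Bb *ᵥ g)
    (hX : ∀ C : Matrix (Fin n0) (Fin n2) (R ⧸ Ideal.span {x}),
      (∀ g : Fin n2 → (R ⧸ Ideal.span {x}), Bb *ᵥ g = 0 →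
        ∃ e : Fin n1 → (R ⧸ Ideal.span {x}), C *ᵥ g = Ab *ᵥ e) →
      ∃ (V : Matrix (Fin n0) (Fin n1) (R ⧸ Ideal.span {x}))
        (U : Matrix (Fin n1) (Fin n2) (R ⧸ Ideal.span {x})), C = V * Bb + Ab * U) :
    ∃ (A : Matrix (Fin n0) (Fin n1) R) (B : Matrix (Fin n1) (Fin n2) R),
      rm x A = Ab ∧ rm x B = Bb ∧ A * B = 0 := by
  classical
  let T : ℕ → Type := fun n => {P : Matrix (Fin n0) (Fin n1) R × Matrix (Fin n1) (Fin n2) R //
    rm x P.1 = Ab ∧ rm x P.2 = Bb ∧ ∃ C, P.1 * P.2 = x ^ (n + 1) • C}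
  have hstep : ∀ n (P : T n), ∃ Q : T (n + 1),
      (∃ V, Q.1.1 = P.1.1 - x ^ (n + 1) • V) ∧ ∃ U, Q.1.2 = P.1.2 - x ^ (n + 1) • U := by
    rintro n ⟨⟨A, B⟩, hA, hB, C, hC⟩
    obtain ⟨V, U, C', h⟩ := lift_step hx Ab Bb hE hX n A B hA hB C hC
    have hr : ∀ {m k : ℕ} (G H : Matrix (Fin m) (Fin k) R),
        rm x (G - x ^ (n + 1) • H) = rm x G := by
      intro m k G H
      have h1 : rm x (x ^ (n + 1) • H) = 0 := by
        rw [pow_succ', mul_smul]
        exact rm_smul _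
      have h2 : rm x (G - x ^ (n + 1) • H) = rm x G - rm x (x ^ (n + 1) • H) := by
        ext i j
        simp only [rm, Matrix.map_apply, Matrix.sub_apply, map_sub]
      rw [h2, h1, sub_zero]
    exact ⟨⟨⟨A - x ^ (n + 1) • V, B - x ^ (n + 1) • U⟩, (hr A V).trans hA, (hr B U).trans hB,
      C', h⟩, ⟨V, rfl⟩, ⟨U, rfl⟩⟩
  obtain ⟨A0, hA0⟩ := rm_surj Ab
  obtain ⟨B0, hB0⟩ := rm_surj Bb
  obtain ⟨C0, hC0⟩ := rm_eq_zero (x := x) (A0 * B0) (by rw [rm_mul, hA0, hB0, hAB])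
  let P0 : T 0 := ⟨(A0, B0), hA0, hB0, C0, by
    rw [zero_add, pow_one]
    exact hC0⟩
  choose nxt hV hU using hstep
  let P : ∀ n, T n := fun n => Nat.rec P0 (fun n Q => nxt n Q) n
  have hP : ∀ n, P (n + 1) = nxt n (P n) := fun n => rfl
  -- convergence of the entries
  have hlim : ∀ f : ℕ → R, (∀ n, ∃ c, f (n + 1) = f n - x ^ (n + 1) * c) →
      ∃ l : R, ∀ n, ∃ c, l = f n - x ^ (n + 1) * c := by
    intro f hf
    have hdiff : ∀ m k, ∃ c, f (m + k) = f m - x ^ (m + 1) * c := by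
      intro m k
      induction k with
      | zero => exact ⟨0, by rw [mul_zero, sub_zero, add_zero]⟩
      | succ k ih =>
        obtain ⟨c, hc⟩ := ih
        obtain ⟨d, hd⟩ := hf (m + k)
        refine ⟨c + x ^ k * d, ?_⟩
        rw [← add_assoc, hd, hc]
        ring
    obtain ⟨l, hl⟩ := IsPrecomplete.prec' (I := Ideal.span {x}) (M := R) f (by
      intro m n hmn
      obtain ⟨k, rfl⟩ := Nat.exists_eq_add_of_le hmn
      obtain ⟨c, hc⟩ := hdiff m k
      rw [SModEq.sub_mem, Ideal.span_singleton_pow, smul_eq_mul, Ideal.mul_top,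
        Ideal.mem_span_singleton', hc]
      exact ⟨x * c, by ring⟩)
    refine ⟨l, fun n => ?_⟩
    have h1 := hl (n + 1)
    rw [SModEq.sub_mem, Ideal.span_singleton_pow, smul_eq_mul, Ideal.mul_top,
      Ideal.mem_span_singleton'] at h1
    obtain ⟨c, hc⟩ := h1
    obtain ⟨d, hd⟩ := hf n
    refine ⟨c + d, ?_⟩
    have h2 : l = f (n + 1) - c * x ^ (n + 1) := by
      rw [hc]
      ring
    rw [h2, hd]
    ring
  have hAlim : ∀ i j, ∃ l : R, ∀ n, ∃ c, l = (P n).1.1 i j - x ^ (n + 1) * c := by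
    intro i j
    refine hlim (fun n => (P n).1.1 i j) fun n => ?_
    obtain ⟨V, hV'⟩ := hV n (P n)
    exact ⟨V i j, by
      show (P (n + 1)).1.1 i j = _
      rw [hP, hV']
      rfl⟩
  have hBlim : ∀ i j, ∃ l : R, ∀ n, ∃ c, l = (P n).1.2 i j - x ^ (n + 1) * c := by
    intro i j
    refine hlim (fun n => (P n).1.2 i j) fun n => ?_
    obtain ⟨U, hU'⟩ := hU n (P n)
    exact ⟨U i j, by
      show (P (n + 1)).1.2 i j = _
      rw [hP, hU']
      rfl⟩
  choose A hA using hAlim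
  choose B hB using hBlim
  have hA' : ∀ n, ∃ V, (Matrix.of A) = (P n).1.1 - x ^ (n + 1) • V := by
    intro n
    choose V hV using fun i j => hA i j n
    exact ⟨Matrix.of V, by
      ext i j
      exact hV i j⟩
  have hB' : ∀ n, ∃ U, (Matrix.of B) = (P n).1.2 - x ^ (n + 1) • U := by
    intro n
    choose U hU using fun i j => hB i j n
    exact ⟨Matrix.of U, by
      ext i j
      exact hU i j⟩
  have hr : ∀ {m k : ℕ} (G H : Matrix (Fin m) (Fin k) R) (n : ℕ),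
      rm x (G - x ^ (n + 1) • H) = rm x G := by
    intro m k G H n
    have h1 : rm x (x ^ (n + 1) • H) = 0 := by
      rw [pow_succ', mul_smul]
      exact rm_smul _
    have h2 : rm x (G - x ^ (n + 1) • H) = rm x G - rm x (x ^ (n + 1) • H) := by
      ext i j
      simp only [rm, Matrix.map_apply, Matrix.sub_apply, map_sub]
    rw [h2, h1, sub_zero]
  refine ⟨Matrix.of A, Matrix.of B, ?_, ?_, ?_⟩
  · obtain ⟨V, hV'⟩ := hA' 0
    rw [hV', hr]
    exact (P 0).2.1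
  · obtain ⟨U, hU'⟩ := hB' 0
    rw [hU', hr]
    exact (P 0).2.2.1
  · have hmem : ∀ n, ∃ D : Matrix (Fin n0) (Fin n2) R,
        (Matrix.of A) * (Matrix.of B) = x ^ (n + 1) • D := by
      intro n
      obtain ⟨V, hV'⟩ := hA' n
      obtain ⟨U, hU'⟩ := hB' n
      obtain ⟨C, hC⟩ := (P n).2.2.2
      refine ⟨C - ((P n).1.1 * U + V * (P n).1.2) + x ^ (n + 1) • (V * U), ?_⟩
      rw [hV', hU', Matrix.sub_mul, Matrix.mul_sub, Matrix.mul_sub, Matrix.smul_mul,
        Matrix.mul_smul, Matrix.smul_mul, Matrix.mul_smul, hC, smul_add, smul_sub, smul_add]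
      abel
    ext i j
    have hz := IsHausdorff.haus (I := Ideal.span {x}) (M := R) inferInstance
      (((Matrix.of A) * (Matrix.of B)) i j) (by
      intro n
      obtain ⟨D, hD⟩ := hmem n
      rw [SModEq.sub_mem, Ideal.span_singleton_pow, smul_eq_mul, Ideal.mul_top, hD,
        Ideal.mem_span_singleton']
      refine ⟨x * D i j, ?_⟩
      show x * D i j * x ^ n = x ^ (n + 1) * D i j - 0
      ring)
    exact hz

end lift

end Pool.Agent.ARD
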