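import Pool.Agent.ARD.StG

/-! Statements of the modules of ARD, part I: permanence properties of (ARC), in terms of covers
(`ARCe`): flat descent, lifting from `R / (x)`, generic form, codimension one. Do not change this
file. -/

set_option autoImplicit false

namespace Pool.Agent.ARD

open ARS IsLocalRing TensorProduct

/-- [QXR] Change of rings modulo a regular element, `R' = R / (x)`. Proof. `x` is regular on all
syzygies of `X`. Let `0 → Z → R ^ n → X → 0` be a cover; then `0 → R' ⊗ Z → R' ^ n → R' ⊗ X → 0` is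
exact (`Tor_1 (R', X) = 0`: if `v ∈ Z` and `v = x w` then `x p(w) = 0`, so `w ∈ Z`). An `R'`-linear
map `R' ⊗ Z → M` is an `R`-linear map `Z → M`, which extends to `R ^ n`. All covers (over `R'`) and
all syzygies: as in the proof of `St_FLE` (`Pool/Agent/ARD/FLE.lean`, relation `FLE_R`). -/
def St_QXR : Prop := ∀ (R : Type) [CommRing R] [IsNoetherianRing R] (x : R)
  (X M : Type) [AddCommGroup X] [Module R X] [Module.Finite R X] [AddCommGroup M] [Module R M]
  [Module (R ⧸ Ideal.span {x}) M] [IsScalarTower R (R ⧸ Ideal.span {x}) M],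
  (∀ r : R, x * r = 0 → r = 0) → (∀ v : X, x • v = 0 → v = 0) → EA R X M →
  EA (R ⧸ Ideal.span {x}) ((R ⧸ Ideal.span {x}) ⊗[R] X) M

/-- [LIF] (uses QXR, SYZ, FRE; `HMR_EA` in `Pool/Agent/ARD/HMR.lean`) Lifting. Proof: `Z` the
syzygy of `M` (a cover), `x` is regular on `Z`; `EA R Z Z`, `EA R Z R` (`St_SYZ`), so `EA R Z (Z/xZ)`,
`EA R Z (R/x)` (`HMR_EA`); by `St_QXR` the module `R' ⊗ Z ≅ Z / x Z` over `R' = R / (x)` satisfies
the hypotheses, so it is free. A lift of its basis gives `R ^ n → Z`, onto by Nakayama, with kernel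
`N`, `N = x N` (`x` is regular on `Z`), so `N = 0`, `Z` is free; `M` is free by `St_FRE`. -/
def St_LIF : Prop := ∀ (R : Type) [CommRing R] [IsLocalRing R] [IsNoetherianRing R] (x : R),
  x ∈ maximalIdeal R → (∀ r : R, x * r = 0 → r = 0) → ARCe (R ⧸ Ideal.span {x}) → ARCe R

/-- [DES] (uses FLE, FLD) Flat descent. -/
def St_DES : Prop := ∀ (R S : Type) [CommRing R] [IsLocalRing R] [IsNoetherianRing R] [CommRing S]
  [IsLocalRing S] [IsNoetherianRing S] [Algebra R S] [Module.Flat R S]
  [IsLocalHom (algebraMap R S)], ARCe S → ARCe R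

/-- [GEN] (uses ARQr, SYZ, FRE, FLE, FLG, FLD; `Min_GF` in `Min.lean`) `St_ARFm` in terms of
covers. -/
def St_GEN : Prop := ∀ (K R S : Type) [Field K] [CharZero K] [CommRing R]
  [IsLocalRing R] [IsNoetherianRing R] [CommRing S] [IsLocalRing S] [IsNoetherianRing S]
  [Algebra K S] [Algebra R S] [Module.Flat R S] [IsLocalHom (algebraMap R S)]
  (D : Derivation K S S) (L : List (S × ℕ)) (_ : QD K S D L),
  (∀ (P : Ideal R) [P.IsPrime], P ∈ associatedPrimes R R → ARCe (Localization.AtPrime P)) → ARCe R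

/-- [COD] (uses ARG, FLE, LCF, GPZ) The codimension one principle, as `St_FNG'` (`Pid.lean`). -/
def St_COD : Prop := ∀ (R : Type) [CommRing R] [IsDomain R] [IsLocalRing R] [IsNoetherianRing R]
  (xs : List R), GorL R xs → ((xs.length : ℕ∞) : WithBot ℕ∞) = ringKrullDim R →
  (∀ p : Ideal R, p.IsPrime → p.height = 1 → ∃ (q : Ideal R) (_ : q.IsPrime), p ≤ q ∧
    ARCe (Localization.AtPrime q)) → ARCe R

/-- [RDF] Over a reduced Noetherian ring the localisations at the associated primes are fields, and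
(ARC) holds for fields. -/
def St_RDF : Prop := ∀ (R : Type) [CommRing R] [IsReduced R] [IsNoetherianRing R]
  (P : Ideal R) [P.IsPrime], P ∈ associatedPrimes R R → ARCe (Localization.AtPrime P)

end Pool.Agent.ARD
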