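import Pool.Agent.ARD.QDC
import Pool.Agent.ARD.StI

/-! helper11. (ARC) for Noetherian local rings whose completion is that of a quasi-homogeneous
Gorenstein local ring. -/

set_option autoImplicit false

namespace Pool.Agent.ARD

open ARS IsLocalRing

/-- (ARC) for `R` if the completion of `R` is isomorphic to that of a quasi-homogeneous Gorenstein
local ring `S` and (ARC) holds for `R_P`, `P` associated -/
theorem thm_CPL (hG : St_GEN) (K R S : Type) [Field K] [CharZero K] [CommRing R]
    [IsLocalRing R] [IsNoetherianRing R] [CommRing S] [IsLocalRing S] [IsNoetherianRing S]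
    [Algebra K S] (D : Derivation K S S) (L : List (S × ℕ)) (h : QD K S D L) (e : Ch R ≃+* Ch S)
    (hP : ∀ (P : Ideal R) [P.IsPrime], P ∈ associatedPrimes R R →
      ARCe (Localization.AtPrime P)) : ARCe R := by
  let _ : Algebra R (Ch S) := (e.toRingHom.comp (algebraMap R (Ch R))).toAlgebra
  have : IsNoetherianRing (Ch S) := noeth_adic S _
  let e' : Ch R ≃ₗ[R] Ch S := { e with
    map_smul' := by
      intro r a
      show e (r • a) = r • e a
      rw [Algebra.smul_def, Algebra.smul_def, map_mul]
      rfl }
  have : Module.Flat R (Ch S) := Module.Flat.of_linearEquiv e'.symm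
  have : IsLocalHom (algebraMap R (Ch S)) := by
    refine ⟨fun a ha => ?_⟩
    have h1 : IsUnit (algebraMap R (Ch R) a) := by
      have h2 : IsUnit (e (algebraMap R (Ch R) a)) := ha
      exact (MulEquiv.isUnit_map e).1 h2
    exact isUnit_of_map_unit (algebraMap R (Ch R)) a h1
  exact hG K R (Ch S) (derC D (maximalIdeal S) h.max) (cL L) (QDC h) hP

end Pool.Agent.ARD
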