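import Pool.Agent.ARD.LftC
import Pool.Agent.ARD.QDCe

/-! helper11. Quotients of complete rings by regular sequences. -/

set_option autoImplicit false

namespace Pool.Agent.ARD

open ARS IsLocalRing
open scoped Pointwise

section complete

variable (R : Type) [CommRing R] [IsLocalRing R] [IsNoetherianRing R]
  [IsAdicComplete (maximalIdeal R) R]

/-- a complete local ring is complete for all ideals in the maximal ideal -/
theorem complete_le (I : Ideal R) (hI : I ≤ maximalIdeal R) : IsAdicComplete I R := by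
  have hne : I ≠ ⊤ := fun h => (maximalIdeal.isMaximal R).ne_top (top_le_iff.1 (h ▸ hI))
  have hH : IsHausdorff I R := IsHausdorff.of_isLocalRing I R hne
  have hP : IsPrecomplete I R := by
    refine ⟨fun f hf => ?_⟩
    have hmono : ∀ n, (I ^ n • ⊤ : Submodule R R) ≤ (maximalIdeal R ^ n • ⊤ : Submodule R R) :=
      fun n => Submodule.smul_mono (Ideal.pow_right_mono hI n) le_rfl
    obtain ⟨l, hl⟩ := IsPrecomplete.prec' (I := maximalIdeal R) (M := R) f
      (fun {m n} h => (hf h).mono (hmono m))
    refine ⟨l, fun n => ?_⟩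
    have hQ : IsHausdorff (maximalIdeal R) (R ⧸ (I ^ n • ⊤ : Submodule R R)) := inferInstance
    have h1 : (Submodule.Quotient.mk (f n - l) : R ⧸ (I ^ n • ⊤ : Submodule R R)) = 0 := by
      refine hQ.haus' _ fun N => ?_
      have h2 : f n - l = (f n - f (max n N)) + (f (max n N) - l) := by ring
      have h3 : (Submodule.Quotient.mk (f n - f (max n N)) :
          R ⧸ (I ^ n • ⊤ : Submodule R R)) = 0 :=
        (Submodule.Quotient.mk_eq_zero _).2 (SModEq.sub_mem.1 (hf (le_max_left n N)))
      rw [SModEq.zero, h2, Submodule.Quotient.mk_add, h3, zero_add]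
      have h4 : f (max n N) - l ∈ (maximalIdeal R ^ N • ⊤ : Submodule R R) :=
        Submodule.smul_mono (Ideal.pow_le_pow_right (le_max_right n N)) le_rfl
          (SModEq.sub_mem.1 (hl (max n N)))
      have h5 := Submodule.mem_map_of_mem (f := (I ^ n • ⊤ : Submodule R R).mkQ) h4
      rw [Submodule.map_smul''] at h5
      exact Submodule.smul_mono le_rfl le_top h5
    rw [Submodule.Quotient.mk_eq_zero] at h1
    exact SModEq.sub_mem.2 h1
  exact { hH, hP with }

/-- quotients of complete local rings are complete -/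
theorem complete_quot (I : Ideal R) [IsLocalRing (R ⧸ I)] :
    IsAdicComplete (maximalIdeal (R ⧸ I)) (R ⧸ I) := by
  have hm : (maximalIdeal R).map (algebraMap R (R ⧸ I)) = maximalIdeal (R ⧸ I) :=
    IsLocalRing.map_maximalIdeal_of_surjective _ Ideal.Quotient.mk_surjective
  have hP : IsPrecomplete (maximalIdeal R) (R ⧸ I) := by
    rw [← AdicCompletion.of_surjective_iff]
    intro y
    obtain ⟨a, rfl⟩ := AdicCompletion.map_surjective (maximalIdeal R) I.mkQ_surjective y
    obtain ⟨r, rfl⟩ := AdicCompletion.of_surjective (maximalIdeal R) R a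
    exact ⟨I.mkQ r, (AdicCompletion.map_of _ _ _).symm⟩
  have hP' : IsPrecomplete (maximalIdeal (R ⧸ I)) (R ⧸ I) := by
    rw [← hm]
    exact IsPrecomplete.map_algebraMap_iff.2 hP
  exact { (inferInstance : IsHausdorff (maximalIdeal (R ⧸ I)) (R ⧸ I)), hP' with }

end complete

/-- transport along isomorphisms -/
theorem ARCe_iso (hD : St_DES) {R S : Type} [CommRing R] [IsLocalRing R] [IsNoetherianRing R]
    [CommRing S] [IsLocalRing S] [IsNoetherianRing S] (e : R ≃+* S) (h : ARCe R) : ARCe S := by
  let _ : Algebra S R := e.symm.toRingHom.toAlgebra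
  let e' : S ≃ₗ[S] R := { e.symm with
    map_smul' := by
      intro r a
      show e.symm (r * a) = e.symm r * e.symm a
      rw [map_mul] }
  have : Module.Flat S R := Module.Flat.of_linearEquiv e'.symm
  have : IsLocalHom (algebraMap S R) := by
    refine ⟨fun a ha => ?_⟩
    exact (MulEquiv.isUnit_map e.symm).1 ha
  exact hD S R h

/-- [LFS] (ARC) descends from a complete local ring to its quotients by regular sequences -/
theorem thm_LFS (hD : St_DES) : ∀ (n : ℕ) (R : Type) [CommRing R] [IsLocalRing R]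
    [IsNoetherianRing R] [IsAdicComplete (maximalIdeal R) R] (xs : List R), xs.length = n →
    (∀ x ∈ xs, x ∈ maximalIdeal R) → Rg R xs R → ARCe R → ARCe (R ⧸ Ideal.ofList xs) := by
  intro n
  induction n with
  | zero =>
    intro R _ _ _ _ xs hn _ _ hR
    obtain rfl := List.length_eq_zero_iff.1 hn
    have h1 : Ideal.ofList ([] : List R) = ⊥ := Ideal.ofList_nil
    have e : R ≃+* R ⧸ Ideal.ofList ([] : List R) :=
      (RingEquiv.quotientBot R).symm.trans (Ideal.quotEquivOfEq h1.symm)
    have : Nontrivial (R ⧸ Ideal.ofList ([] : List R)) := e.injective.nontrivial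
    have : IsLocalRing (R ⧸ Ideal.ofList ([] : List R)) :=
      IsLocalRing.of_surjective' (Ideal.Quotient.mk _) Ideal.Quotient.mk_surjective
    exact ARCe_iso hD e hR
  | succ n ih =>
    intro R _ _ _ _ xs hn hm hreg hR
    obtain _ | ⟨x, xs⟩ := xs
    · simp at hn
    have hxm : x ∈ maximalIdeal R := hm x List.mem_cons_self
    have hcons := (RingTheory.Sequence.isWeaklyRegular_cons_iff R x xs).1 hreg
    have hx : ∀ c : R, x * c = 0 → c = 0 := by
      intro c hc
      refine hcons.1 ?_
      show x • c = x • (0 : R)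
      rw [smul_zero]
      exact hc
    have hle : Ideal.span {x} ≤ maximalIdeal R := by
      rw [Ideal.span_singleton_le_iff_mem]
      exact hxm
    have hne : Ideal.span {x} ≠ ⊤ := fun h =>
      (maximalIdeal.isMaximal R).ne_top (top_le_iff.1 (h ▸ hle))
    have : Nontrivial (R ⧸ Ideal.span {x}) := Ideal.Quotient.nontrivial_iff.2 hne
    have : IsLocalRing (R ⧸ Ideal.span {x}) :=
      IsLocalRing.of_surjective' (Ideal.Quotient.mk _) Ideal.Quotient.mk_surjective
    have : IsAdicComplete (Ideal.span {x}) R := complete_le R _ hle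
    have : IsAdicComplete (maximalIdeal (R ⧸ Ideal.span {x})) (R ⧸ Ideal.span {x}) :=
      complete_quot R _
    have hR1 : ARCe (R ⧸ Ideal.span {x}) := thm_LFT R x hxm hx hR
    have hmm : (maximalIdeal R).map (Ideal.Quotient.mk (Ideal.span {x})) =
        maximalIdeal (R ⧸ Ideal.span {x}) :=
      IsLocalRing.map_maximalIdeal_of_surjective _ Ideal.Quotient.mk_surjective
    have hreg' : Rg (R ⧸ Ideal.span {x}) (xs.map (algebraMap R (R ⧸ Ideal.span {x})))
        (R ⧸ Ideal.span {x}) := by
      rw [Rg, RingTheory.Sequence.isWeaklyRegular_map_algebraMap_iff]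
      have h2 : (x • ⊤ : Submodule R R) = Ideal.span {x} := by
        rw [← Submodule.ideal_span_singleton_smul, smul_eq_mul, Ideal.mul_top]
      exact (LinearEquiv.isWeaklyRegular_congr (Submodule.quotEquivOfEq _ _ h2) xs).1 hcons.2
    have h3 := ih (R ⧸ Ideal.span {x}) (xs.map (algebraMap R (R ⧸ Ideal.span {x})))
      (by rw [List.length_map]; simpa using hn) (by
        intro y hy
        obtain ⟨z, hz, rfl⟩ := List.mem_map.1 hy
        rw [← hmm]
        exact Ideal.mem_map_of_mem _ (hm z (List.mem_cons_of_mem _ hz))) hreg' hR1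
    have h4 : Ideal.ofList (xs.map (algebraMap R (R ⧸ Ideal.span {x}))) =
        (Ideal.ofList xs).map (Ideal.Quotient.mk (Ideal.span {x})) := (Ideal.map_ofList _ _).symm
    have h5 : Ideal.ofList (x :: xs) = Ideal.span {x} ⊔ Ideal.ofList xs := Ideal.ofList_cons x xs
    have e : ((R ⧸ Ideal.span {x}) ⧸ Ideal.ofList (xs.map (algebraMap R (R ⧸ Ideal.span {x}))))
        ≃+* R ⧸ Ideal.ofList (x :: xs) :=
      (Ideal.quotEquivOfEq h4).trans ((DoubleQuot.quotQuotEquivQuotSup _ _).trans
        (Ideal.quotEquivOfEq h5.symm))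
    have hle2 : Ideal.ofList (x :: xs) ≤ maximalIdeal R := Ideal.span_le.2 fun y hy => hm y hy
    have : Nontrivial (R ⧸ Ideal.ofList (x :: xs)) := Ideal.Quotient.nontrivial_iff.2 fun h =>
      (maximalIdeal.isMaximal R).ne_top (top_le_iff.1 (h ▸ hle2))
    have : IsLocalRing (R ⧸ Ideal.ofList (x :: xs)) :=
      IsLocalRing.of_surjective' (Ideal.Quotient.mk _) Ideal.Quotient.mk_surjective
    have : Nontrivial ((R ⧸ Ideal.span {x}) ⧸
        Ideal.ofList (xs.map (algebraMap R (R ⧸ Ideal.span {x})))) := e.symm.injective.nontrivial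
    have : IsLocalRing ((R ⧸ Ideal.span {x}) ⧸
        Ideal.ofList (xs.map (algebraMap R (R ⧸ Ideal.span {x})))) :=
      IsLocalRing.of_surjective' (Ideal.Quotient.mk _) Ideal.Quotient.mk_surjective
    exact ARCe_iso hD e h3

end Pool.Agent.ARD
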