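import Pool.Agent.ARD.LftD

/-! helper11. (ARC) for rings with a flat local homomorphism to a quotient, by a regular sequence,
of the completion of a quasi-homogeneous Gorenstein local ring. -/

set_option autoImplicit false

namespace Pool.Agent.ARD

open ARS IsLocalRing

/-- `S₀` quasi-homogeneous Gorenstein, `xs` a regular sequence in the completion `S` of `S₀`,
(ARC) for the localisations of `S` at its associated primes (for instance `S` reduced),
`R → S / (xs)` flat and local: (ARC) holds for `R` -/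
theorem thm_CPX (hG : St_GEN) (hD : St_DES) (K S₀ : Type) [Field K] [CharZero K] [CommRing S₀]
    [IsLocalRing S₀] [IsNoetherianRing S₀] [Algebra K S₀] (D : Derivation K S₀ S₀)
    (L : List (S₀ × ℕ)) (h : QD K S₀ D L)
    (hP : ∀ (P : Ideal (Ch S₀)) [P.IsPrime], P ∈ associatedPrimes (Ch S₀) (Ch S₀) →
      ARCe (Localization.AtPrime P))
    (xs : List (Ch S₀)) (hm : ∀ x ∈ xs, x ∈ maximalIdeal (Ch S₀)) (hreg : Rg (Ch S₀) xs (Ch S₀))
    (R : Type) [CommRing R] [IsLocalRing R] [IsNoetherianRing R]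
    [IsLocalRing (Ch S₀ ⧸ Ideal.ofList xs)] [Algebra R (Ch S₀ ⧸ Ideal.ofList xs)]
    [Module.Flat R (Ch S₀ ⧸ Ideal.ofList xs)]
    [IsLocalHom (algebraMap R (Ch S₀ ⧸ Ideal.ofList xs))] : ARCe R := by
  have : IsNoetherianRing (Ch S₀) := noeth_adic S₀ _
  have h1 : ARCe (Ch S₀) := thm_CPL hG K (Ch S₀) (Ch S₀) (derC D (maximalIdeal S₀) h.max) (cL L)
    (QDC h) (RingEquiv.refl _) hP
  exact hD R _ (thm_LFS hD _ (Ch S₀) xs rfl hm hreg h1)

end Pool.Agent.ARD
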