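import Pool.Agent.ARD.StH

/-! helper8, module QDF: finiteness and weights of a local ring whose maximal ideal is generated by
eigenvectors. -/

set_option autoImplicit false

namespace Pool.Agent.ARD

open ARS IsLocalRing

/-- products of `i` elements of `G` -/
private def QDF_P {B : Type} [CommRing B] (G : Set B) : ℕ → Set B
  | 0 => {1}
  | i + 1 => Set.image2 (fun g m => g * m) G (QDF_P G i)

private theorem QDF_P_finite {B : Type} [CommRing B] (G : Set B) (hG : G.Finite) (i : ℕ) :
    (QDF_P G i).Finite := by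
  induction i with
  | zero => exact Set.finite_singleton _
  | succ i ih => exact Set.Finite.image2 _ hG ih

section

variable {K B : Type} [Field K] [CommRing B] [IsLocalRing B] [Algebra K B]

private theorem QDF_step (G : Set B)
    (hres : ∀ a : B, ∃ c : K, a - algebraMap K B c ∈ maximalIdeal B)
    (hgen : maximalIdeal B = Ideal.span G) (j : ℕ) :
    ∀ b ∈ maximalIdeal B ^ j, ∃ s ∈ Submodule.span K (QDF_P G j),
      b - s ∈ maximalIdeal B ^ (j + 1) := by
  induction j with
  | zero =>
    intro b _
    obtain ⟨c, hc⟩ := hres b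
    refine ⟨algebraMap K B c, ?_, ?_⟩
    · rw [Algebra.algebraMap_eq_smul_one]
      exact Submodule.smul_mem _ _ (Submodule.subset_span rfl)
    · simpa using hc
  | succ j ih =>
    have key : ∀ x ∈ Ideal.span G, ∀ y ∈ maximalIdeal B ^ j,
        ∃ s ∈ Submodule.span K (QDF_P G (j + 1)), x * y - s ∈ maximalIdeal B ^ (j + 1 + 1) := by
      intro x hx
      refine Submodule.span_induction (p := fun x _ => ∀ y ∈ maximalIdeal B ^ j,
        ∃ s ∈ Submodule.span K (QDF_P G (j + 1)), x * y - s ∈ maximalIdeal B ^ (j + 1 + 1))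
        ?_ ?_ ?_ ?_ hx
      · intro g hg y hy
        obtain ⟨s, hs, hys⟩ := ih y hy
        refine ⟨g * s, ?_, ?_⟩
        · refine Submodule.span_induction (p := fun s _ => g * s ∈
            Submodule.span K (QDF_P G (j + 1))) ?_ ?_ ?_ ?_ hs
          · intro m hm
            exact Submodule.subset_span ⟨g, hg, m, hm, rfl⟩
          · rw [mul_zero]
            exact Submodule.zero_mem _
          · intro u v _ _ hu hv
            rw [mul_add]
            exact Submodule.add_mem _ hu hv
          · intro c u _ hu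
            rw [mul_smul_comm]
            exact Submodule.smul_mem _ _ hu
        · rw [← mul_sub, pow_succ' (maximalIdeal B) (j + 1)]
          refine Ideal.mul_mem_mul ?_ hys
          rw [hgen]
          exact Ideal.subset_span hg
      · intro y _
        exact ⟨0, Submodule.zero_mem _, by simp⟩
      · intro u v _ _ hu hv y hy
        obtain ⟨s, hs, h1⟩ := hu y hy
        obtain ⟨t, ht, h2⟩ := hv y hy
        refine ⟨s + t, Submodule.add_mem _ hs ht, ?_⟩
        have := Ideal.add_mem _ h1 h2
        have he : (u + v) * y - (s + t) = u * y - s + (v * y - t) := by ring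
        rw [he]
        exact this
      · intro c u _ hu y hy
        obtain ⟨s, hs, h1⟩ := hu (c * y) (Ideal.mul_mem_left _ c hy)
        refine ⟨s, hs, ?_⟩
        have he : (c • u) * y - s = u * (c * y) - s := by
          rw [smul_eq_mul]
          ring
        rw [he]
        exact h1
    intro b hb
    rw [pow_succ'] at hb
    refine Submodule.mul_induction_on hb ?_ ?_
    · intro x hx y hy
      rw [hgen] at hx
      exact key x hx y hy
    · rintro u v ⟨s, hs, h1⟩ ⟨t, ht, h2⟩
      refine ⟨s + t, Submodule.add_mem _ hs ht, ?_⟩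
      have := Ideal.add_mem _ h1 h2
      have he : (u + v) - (s + t) = u - s + (v - t) := by ring
      rw [he]
      exact this

omit [IsLocalRing B] in
private theorem QDF_eig (D : Derivation K B B) (G : Set B) (W : ℕ)
    (hW : ∀ g ∈ G, ∃ w : ℕ, 0 < w ∧ w ≤ W ∧ D g = (w : B) * g) (j : ℕ) :
    ∀ m ∈ QDF_P G j, ∃ e : ℕ, j ≤ e ∧ e ≤ j * W ∧ D m = (e : B) * m := by
  induction j with
  | zero =>
    intro m hm
    obtain rfl : m = 1 := hm
    refine ⟨0, le_rfl, by simp, ?_⟩
    rw [D.map_one_eq_zero]
    simp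
  | succ j ih =>
    rintro m ⟨g, hg, m', hm', rfl⟩
    obtain ⟨w, hw0, hw1, hw⟩ := hW g hg
    obtain ⟨e, he0, he1, he⟩ := ih m' hm'
    refine ⟨e + w, by omega, by rw [add_mul, one_mul]; omega, ?_⟩
    show D (g * m') = _ * (g * m')
    rw [D.leibniz, hw, he, smul_eq_mul, smul_eq_mul]
    push_cast
    ring

private theorem QDF_D (D : Derivation K B B) (G : Set B)
    (hgen : maximalIdeal B = Ideal.span G)
    (hW : ∀ g ∈ G, ∃ w : ℕ, D g = (w : B) * g) :
    ∀ a ∈ maximalIdeal B, D a ∈ maximalIdeal B := by
  intro a ha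
  rw [hgen] at ha
  refine Submodule.span_induction (p := fun a _ => D a ∈ maximalIdeal B) ?_ ?_ ?_ ?_ ha
  · intro g hg
    obtain ⟨w, hw⟩ := hW g hg
    rw [hw]
    refine Ideal.mul_mem_left _ _ ?_
    rw [hgen]
    exact Ideal.subset_span hg
  · rw [map_zero]
    exact Submodule.zero_mem _
  · intro x y _ _ hx hy
    rw [map_add]
    exact Submodule.add_mem _ hx hy
  · intro r x hx' hx
    rw [smul_eq_mul, D.leibniz, smul_eq_mul, smul_eq_mul]
    refine Submodule.add_mem _ (Ideal.mul_mem_left _ _ hx) (Ideal.mul_mem_right _ _ ?_)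
    rw [hgen]
    exact hx'

private theorem QDF_Dpow (D : Derivation K B B)
    (hD : ∀ a ∈ maximalIdeal B, D a ∈ maximalIdeal B) (j : ℕ) :
    ∀ a ∈ maximalIdeal B ^ j, D a ∈ maximalIdeal B ^ j := by
  induction j with
  | zero => intro a _; simp
  | succ j ih =>
    intro a ha
    rw [pow_succ'] at ha ⊢
    refine Submodule.mul_induction_on ha ?_ ?_
    · intro x hx y hy
      rw [D.leibniz, smul_eq_mul, smul_eq_mul]
      refine Ideal.add_mem _ (Ideal.mul_mem_mul hx (ih y hy)) ?_
      rw [mul_comm y (D x)]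
      exact Ideal.mul_mem_mul (hD x hx) hy
    · intro x y hx hy
      rw [map_add]
      exact Ideal.add_mem _ hx hy

omit [IsLocalRing B] in
private theorem QDF_aeval (f : Module.End K B) (N : Ideal B) (hf : ∀ a ∈ N, f a ∈ N)
    (F : Polynomial K) : ∀ a ∈ N, Polynomial.aeval f F a ∈ N := by
  induction F using Polynomial.induction_on with
  | C c =>
    intro a ha
    rw [Polynomial.aeval_C, Module.algebraMap_end_apply, Algebra.smul_def]
    exact Ideal.mul_mem_left _ _ ha
  | add p q hp hq =>
    intro a ha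
    rw [map_add, LinearMap.add_apply]
    exact Ideal.add_mem _ (hp a ha) (hq a ha)
  | monomial n c ih =>
    intro a ha
    rw [pow_succ, ← mul_assoc, map_mul, Module.End.mul_apply, Polynomial.aeval_X]
    exact ih _ (hf a ha)

omit [IsLocalRing B] in
private theorem QDF_kill (D : Derivation K B B) (n e : ℕ) (h1 : 1 ≤ e) (h2 : e ≤ n) (m : B)
    (hm : D m = (e : B) * m) :
    Polynomial.aeval (D.toLinearMap : Module.End K B)
      (∏ w ∈ Finset.Icc 1 n, (Polynomial.X - Polynomial.C (w : K))) m = 0 := by
  by_cases h0 : m = 0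
  · rw [h0, map_zero]
  have hv : Module.End.HasEigenvector (D.toLinearMap : Module.End K B) (e : K) m := by
    rw [Module.End.hasEigenvector_iff]
    refine ⟨?_, h0⟩
    rw [Module.End.mem_eigenspace_iff]
    show D m = (e : K) • m
    rw [hm, Algebra.smul_def, map_natCast]
  rw [Module.End.aeval_apply_of_hasEigenvector hv, Polynomial.eval_prod,
    Finset.prod_eq_zero (Finset.mem_Icc.2 ⟨h1, h2⟩), zero_smul]
  simp

end

theorem thm_QDF : St_QDF := by
  intro K B _ _ _ _ D G J k hres hgen hw hJ
  -- a common bound of the weights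
  obtain ⟨W, hW⟩ : ∃ W : ℕ, ∀ g ∈ (G : Set B), ∃ w : ℕ, 0 < w ∧ w ≤ W ∧ D g = (w : B) * g := by
    classical
    choose! w hw0 hw1 using hw
    refine ⟨∑ g ∈ G, w g, fun g hg => ⟨w g, hw0 g hg, ?_, hw1 g hg⟩⟩
    exact Finset.single_le_sum (f := w) (fun _ _ => Nat.zero_le _) hg
  have hD : ∀ a ∈ maximalIdeal B, D a ∈ maximalIdeal B := by
    refine QDF_D D (G : Set B) hgen fun g hg => ?_
    obtain ⟨w, _, _, h⟩ := hW g hg
    exact ⟨w, h⟩
  have hJ1 : maximalIdeal B ^ (k + 1) ≤ J := (Ideal.pow_le_pow_right (Nat.le_succ k)).trans hJ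
  refine ⟨hD, ?_, (k + 1) * W, ?_⟩
  · -- finiteness
    have hfin : ∀ d j : ℕ, j + d = k + 1 → ∃ N : Submodule K B, N.FG ∧
        ∀ a ∈ maximalIdeal B ^ j, ∃ s ∈ N, a - s ∈ J := by
      intro d
      induction d with
      | zero =>
        intro j hj
        obtain rfl : j = k + 1 := by omega
        exact ⟨⊥, Submodule.fg_bot, fun a ha => ⟨0, Submodule.zero_mem _, by
          rw [sub_zero]; exact hJ1 ha⟩⟩
      | succ d ih =>
        intro j hj
        obtain ⟨N, hN, hN'⟩ := ih (j + 1) (by omega)
        refine ⟨N ⊔ Submodule.span K (QDF_P (G : Set B) j),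
          hN.sup (Submodule.fg_span (QDF_P_finite _ G.finite_toSet j)), fun a ha => ?_⟩
        obtain ⟨s, hs, h1⟩ := QDF_step (K := K) (G : Set B) hres hgen j a ha
        obtain ⟨t, ht, h2⟩ := hN' _ h1
        refine ⟨t + s, Submodule.add_mem _ (Submodule.mem_sup_left ht)
          (Submodule.mem_sup_right hs), ?_⟩
        have he : a - (t + s) = a - s - t := by ring
        rw [he]
        exact h2
    obtain ⟨N, hN, hN'⟩ := hfin (k + 1) 0 (by omega)
    have : Module.Finite K N := Module.Finite.iff_fg.2 hN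
    refine Module.Finite.of_surjective
      ((Ideal.Quotient.mkₐ K J).toLinearMap ∘ₗ N.subtype) ?_
    intro x
    obtain ⟨a, rfl⟩ := Ideal.Quotient.mk_surjective x
    obtain ⟨s, hs, h⟩ := hN' a (by simp)
    refine ⟨⟨s, hs⟩, ?_⟩
    show Ideal.Quotient.mk J s = Ideal.Quotient.mk J a
    exact (Ideal.Quotient.eq.2 h).symm
  · -- weights
    have key : ∀ d j : ℕ, j + d = k + 1 → 1 ≤ j → ∀ a ∈ maximalIdeal B ^ j,
        (Polynomial.aeval (D.toLinearMap : Module.End K B)
          (∏ w ∈ Finset.Icc 1 ((k + 1) * W), (Polynomial.X - Polynomial.C (w : K)))) a ∈ J := by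
      intro d
      induction d with
      | zero =>
        intro j hj _ a ha
        obtain rfl : j = k + 1 := by omega
        exact hJ1 (QDF_aeval _ (maximalIdeal B ^ (k + 1)) (QDF_Dpow D hD (k + 1)) _ a ha)
      | succ d ih =>
        intro j hj hj1 a ha
        obtain ⟨s, hs, h1⟩ := QDF_step (K := K) (G : Set B) hres hgen j a ha
        have h2 := ih (j + 1) (by omega) (by omega) _ h1
        have h3 : (Polynomial.aeval (D.toLinearMap : Module.End K B)
          (∏ w ∈ Finset.Icc 1 ((k + 1) * W), (Polynomial.X - Polynomial.C (w : K)))) s = 0 := by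
          refine Submodule.span_induction (p := fun s _ =>
            (Polynomial.aeval (D.toLinearMap : Module.End K B)
              (∏ w ∈ Finset.Icc 1 ((k + 1) * W),
                (Polynomial.X - Polynomial.C (w : K)))) s = 0) ?_ ?_ ?_ ?_ hs
          · intro m hm
            obtain ⟨e, he0, he1, he⟩ := QDF_eig D (G : Set B) W hW j m hm
            refine QDF_kill D _ e (hj1.trans he0) (he1.trans ?_) m he
            exact Nat.mul_le_mul_right W (by omega)
          · rw [map_zero]
          · intro u v _ _ hu hv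
            rw [map_add, hu, hv, add_zero]
          · intro c u _ hu
            rw [map_smul, hu, smul_zero]
        rw [map_sub, h3, sub_zero] at h2
        exact h2
    intro a ha
    exact key k 1 (by omega) le_rfl a (by rwa [pow_one])

end Pool.Agent.ARD
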