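import Pool.Agent.ARD.StR

/-! helper11. Syzygies over reduced Noetherian rings are generically free. -/

set_option autoImplicit false

namespace Pool.Agent.ARD

open ARS IsLocalRing TensorProduct

/-- endomorphisms which factor through a finite free module -/
def Red_F (R M : Type) [CommRing R] [AddCommGroup M] [Module R M] (φ : M →ₗ[R] M) : Prop :=
  ∃ (q : ℕ) (p : M →ₗ[R] (Fin q → R)) (j : (Fin q → R) →ₗ[R] M), ∀ v, j (p v) = φ v

theorem Red_zero (R M : Type) [CommRing R] [AddCommGroup M] [Module R M] :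
    Red_F R M 0 := ⟨0, 0, 0, fun v => by simp⟩

theorem Red_add {R M : Type} [CommRing R] [AddCommGroup M] [Module R M]
    {φ ψ : M →ₗ[R] M} (h1 : Red_F R M φ) (h2 : Red_F R M ψ) : Red_F R M (φ + ψ) := by
  obtain ⟨q1, p1, j1, h1⟩ := h1
  obtain ⟨q2, p2, j2, h2⟩ := h2
  let e : (Fin (q1 + q2) → R) ≃ₗ[R] (Fin q1 → R) × (Fin q2 → R) :=
    (LinearEquiv.funCongrLeft R R (finSumFinEquiv (m := q1) (n := q2))).trans
      (LinearEquiv.sumArrowLequivProdArrow (Fin q1) (Fin q2) R R)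
  refine ⟨q1 + q2, e.symm.toLinearMap ∘ₗ (p1.prod p2), (j1.coprod j2) ∘ₗ e.toLinearMap, ?_⟩
  intro v
  show (j1.coprod j2) (e (e.symm ((p1.prod p2) v))) = φ v + ψ v
  rw [LinearEquiv.apply_symm_apply, ← h1, ← h2]
  rfl

/-- the factorisation attached to one minimal prime -/
private theorem Red_one (hGFR : St_GFR) {R : Type} [CommRing R] {n : ℕ}
    (Z : Submodule R (Fin n → R)) [Module.Finite R Z] (P : Ideal R) [P.IsPrime] (a : R)
    (ha : ∀ x ∈ P, a * x = 0) (haP : a ∉ P) :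
    ∃ t : R, t ∉ P ∧ (∀ Q : Ideal R, a ∈ Q → t ∈ Q) ∧ Red_F R Z (t • LinearMap.id) := by
  haveI : RingHomSurjective (Ideal.Quotient.mk P) := ⟨Ideal.Quotient.mk_surjective⟩
  let π : (Fin n → R) →ₗ[R] (Fin n → R ⧸ P) := LinearMap.pi fun i => P.mkQ ∘ₗ LinearMap.proj i
  let N : Submodule (R ⧸ P) (Fin n → R ⧸ P) :=
    { carrier := π '' Z
      add_mem' := by
        rintro _ _ ⟨x, hx, rfl⟩ ⟨y, hy, rfl⟩
        exact ⟨x + y, Z.add_mem hx hy, map_add _ _ _⟩
      zero_mem' := ⟨0, Z.zero_mem, map_zero _⟩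
      smul_mem' := by
        rintro c _ ⟨x, hx, rfl⟩
        obtain ⟨r, rfl⟩ := Ideal.Quotient.mk_surjective c
        exact ⟨r • x, Z.smul_mem r hx, by
          rw [map_smul]
          rfl⟩ }
  let ρ : Z →ₗ[R] N :=
    { toFun := fun z => ⟨π z, z, z.2, rfl⟩
      map_add' := fun x y => Subtype.ext (map_add π _ _)
      map_smul' := fun r x => Subtype.ext (map_smul π _ _) }
  have hρ : Function.Surjective ρ := by
    rintro ⟨_, x, hx, rfl⟩
    exact ⟨⟨x, hx⟩, rfl⟩
  haveI : Module.Finite R N := Module.Finite.of_surjective ρ hρ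
  haveI : Module.Finite (R ⧸ P) N := Module.Finite.of_restrictScalars_finite R (R ⧸ P) N
  have hTF : HWC.TF (R ⧸ P) N := by
    rintro s ⟨m, hm⟩ hsm
    by_cases hs : s = 0
    · exact Or.inl hs
    · right
      apply Subtype.ext
      funext i
      have h := congrFun (congrArg Subtype.val hsm) i
      exact (mul_eq_zero.1 (show s * m i = 0 from h)).resolve_left hs
  obtain ⟨s, q, p, j, hs, hj⟩ := hGFR (R ⧸ P) N hTF
  obtain ⟨s', rfl⟩ := Ideal.Quotient.mk_surjective s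
  have hs' : s' ∉ P := fun h => hs (Ideal.Quotient.eq_zero_iff_mem.2 h)
  -- multiplication by `a` from the quotient
  let μ : (R ⧸ P) →ₗ[R] R := P.liftQ (a • LinearMap.id) (by
    intro x hx
    exact ha x hx)
  have hμ : ∀ x : R ⧸ P, P.mkQ (μ x) = a • x := by
    intro x
    obtain ⟨r, rfl⟩ := P.mkQ_surjective x
    rfl
  have hk : LinearMap.ker ρ ≤ LinearMap.ker (a • LinearMap.id : Z →ₗ[R] Z) := by
    intro z hz
    have hz' : π z = 0 := congrArg Subtype.val (show ρ z = 0 from hz)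
    apply Subtype.ext
    funext i
    have h1 : (z.1 i) ∈ P := Ideal.Quotient.eq_zero_iff_mem.1 (congrFun hz' i)
    exact ha _ h1
  let lam : N →ₗ[R] Z := (LinearMap.ker ρ).liftQ (a • LinearMap.id) hk ∘ₗ
    (ρ.quotKerEquivOfSurjective hρ).symm.toLinearMap
  have hlam : ∀ z, lam (ρ z) = a • z := by
    intro z
    have h2 : (ρ.quotKerEquivOfSurjective hρ).symm (ρ z) = (LinearMap.ker ρ).mkQ z := by
      rw [LinearEquiv.symm_apply_eq]
      rfl
    show (LinearMap.ker ρ).liftQ (a • LinearMap.id) hk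
      ((ρ.quotKerEquivOfSurjective hρ).symm (ρ z)) = a • z
    rw [h2]
    rfl
  let p' : N →ₗ[R] (Fin q → R ⧸ P) := p.restrictScalars R
  let j' : (Fin q → R ⧸ P) →ₗ[R] N := j.restrictScalars R
  let u : (Fin q → R ⧸ P) →ₗ[R] (Fin q → R) := LinearMap.pi fun k => μ ∘ₗ LinearMap.proj k
  let w : (Fin q → R) →ₗ[R] (Fin q → R ⧸ P) := LinearMap.pi fun k => P.mkQ ∘ₗ LinearMap.proj k
  have hwu : ∀ x, w (u x) = a • x := by
    intro x
    funext k
    exact hμ (x k)
  refine ⟨a * (a * s'), ?_, ?_, q, u ∘ₗ p' ∘ₗ ρ, lam ∘ₗ j' ∘ₗ w, ?_⟩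
  · intro h
    rcases (‹P.IsPrime›).mem_or_mem h with h | h
    · exact haP h
    · rcases (‹P.IsPrime›).mem_or_mem h with h | h
      · exact haP h
      · exact hs' h
  · intro Q hQ
    exact Ideal.mul_mem_right _ _ hQ
  · intro z
    show lam (j' (w (u (p' (ρ z))))) = (a * (a * s')) • z
    rw [hwu, map_smul]
    have h3 : j' (p' (ρ z)) = ρ (s' • z) := by
      rw [map_smul]
      exact hj (ρ z)
    rw [h3, ← map_smul, hlam, smul_smul, smul_smul, mul_assoc]

/-- syzygies over reduced Noetherian rings are generically free -/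
theorem GFred (hGFR : St_GFR) {R : Type} [CommRing R] [IsReduced R] [IsNoetherianRing R]
    {n : ℕ} (Z : Submodule R (Fin n → R)) : GF R Z := by
  classical
  have hfin : (minimalPrimes R).Finite := minimalPrimes.finite_of_isNoetherianRing R
  let T : Finset (Ideal R) := hfin.toFinset
  have hT : ∀ P, P ∈ T ↔ P ∈ minimalPrimes R := fun P => hfin.mem_toFinset
  have hprime : ∀ P ∈ T, P.IsPrime := fun P hP => ((hT P).1 hP).1.1
  have hinf : ∀ b : R, (∀ P ∈ T, b ∈ P) → b = 0 := by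
    intro b hb
    have h1 : b ∈ nilradical R := by
      rw [nilradical, ← Ideal.sInf_minimalPrimes, Submodule.mem_sInf]
      intro P hP
      exact hb P ((hT P).2 hP)
    rwa [nilradical_eq_zero R, Ideal.zero_eq_bot, Ideal.mem_bot] at h1
  have hex : ∀ P ∈ T, ∃ a : R, a ∉ P ∧ ∀ Q ∈ T, Q ≠ P → a ∈ Q := by
    intro P hP
    have hc : ∀ Q ∈ T.erase P, ∃ b : R, b ∈ Q ∧ b ∉ P := by
      intro Q hQ
      obtain ⟨hne, hQT⟩ := Finset.mem_erase.1 hQ
      by_contra hcon
      push Not at hcon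
      have hle : Q ≤ P := hcon
      have h1 : P ≤ Q := ((hT P).1 hP).2 ((hT Q).1 hQT).1 hle
      exact hne (le_antisymm hle h1)
    choose! b hb1 hb2 using hc
    refine ⟨∏ Q ∈ T.erase P, b Q, ?_, ?_⟩
    · intro h
      haveI := hprime P hP
      obtain ⟨Q, hQ, hbQ⟩ := (Ideal.IsPrime.prod_mem_iff (p := P)).1 h
      exact hb2 Q hQ hbQ
    · intro Q hQ hne
      have hQ' : Q ∈ T.erase P := Finset.mem_erase.2 ⟨hne, hQ⟩
      exact Ideal.mem_of_dvd Q (Finset.dvd_prod_of_mem b hQ') (hb1 Q hQ')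
  have hone : ∀ P ∈ T, ∃ t : R, t ∉ P ∧ (∀ Q ∈ T, Q ≠ P → t ∈ Q) ∧
      Red_F R Z (t • LinearMap.id) := by
    intro P hP
    haveI := hprime P hP
    obtain ⟨a, haP, haQ⟩ := hex P hP
    have ha : ∀ x ∈ P, a * x = 0 := by
      intro x hx
      refine hinf _ fun Q hQ => ?_
      by_cases h : Q = P
      · rw [h]
        exact Ideal.mul_mem_left _ _ hx
      · exact Ideal.mul_mem_right _ _ (haQ Q hQ h)
    obtain ⟨t, h1, h2, h3⟩ := Red_one hGFR Z P a ha haP
    exact ⟨t, h1, fun Q hQ hne => h2 Q (haQ Q hQ hne), h3⟩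
  choose! t ht1 ht2 ht3 using hone
  have hs : ∀ P ∈ T, (∑ Q ∈ T, t Q) ∉ P := by
    intro P hP h
    rw [← Finset.add_sum_erase T t hP] at h
    have h1 : (∑ Q ∈ T.erase P, t Q) ∈ P := by
      refine Ideal.sum_mem _ fun Q hQ => ?_
      obtain ⟨hne, hQT⟩ := Finset.mem_erase.1 hQ
      exact ht2 Q hQT P hP (Ne.symm hne)
    exact ht1 P hP ((Submodule.add_mem_iff_left P h1).1 h)
  have hnz : (∑ Q ∈ T, t Q) ∈ nonZeroDivisors R := by
    rw [mem_nonZeroDivisors_iff_right]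
    intro b hb
    refine hinf b fun P hP => ?_
    haveI := hprime P hP
    have h1 : b * (∑ Q ∈ T, t Q) ∈ P := by
      rw [hb]
      exact P.zero_mem
    exact ((hprime P hP).mem_or_mem h1).resolve_right (hs P hP)
  have hF : Red_F R Z ((∑ Q ∈ T, t Q) • LinearMap.id) := by
    rw [Finset.sum_smul]
    exact Finset.sum_induction _ (Red_F R Z) (fun _ _ => Red_add) (Red_zero R Z) ht3
  obtain ⟨q, p, j, h⟩ := hF
  exact ⟨_, q, p, j, hnz, h⟩

/-- `St_ARF` for reduced rings -/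
def St_ARFr : Prop := ∀ (K R S : Type) [Field K] [CharZero K] [CommRing R] [IsReduced R]
  [IsLocalRing R] [IsNoetherianRing R] [CommRing S] [IsLocalRing S] [IsNoetherianRing S]
  [Algebra K S] [Algebra R S] [Module.Flat R S] [IsLocalHom (algebraMap R S)]
  (D : Derivation K S S) (L : List (S × ℕ)) (_ : QD K S D L), ARC R

end Pool.Agent.ARD
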