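import Pool.Agent.ARD.StR

/-! Statements of the modules of ARD, part G: the codimension one form. `R` is a Gorenstein local
domain such that every prime of height one lies in a prime `q` for which `R_q` has a flat local
homomorphism to a quasi-homogeneous Gorenstein local ring of characteristic zero. Do not change
this file. -/

set_option autoImplicit false

namespace Pool.Agent.ARD

open ARS IsLocalRing TensorProduct

/-- [EXC] Exchange: a regular element `a` begins a regular sequence of the same length.
Proof by induction on the length `d` of `xs = x1 :: x2 :: xs'`, for all `N` (`N ≠ 0`; for `N = 0`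
everything is regular). `d = 1`: `ys = []`. `d ≥ 2`: the maximal ideal is not an associated prime of
`N`, `N / x1`, `N / a` (for the last one: if `m n ⊆ a N` then `x1 n = a n'`, `x2 n = a n''`, so
`x2 n' = x1 n''`, `n' = x1 n0`, `n = a n0`), so by prime avoidance some `y` in it is regular on all
three. Induction for `N / x1`, `(x2, ..)` and `y`: `(y, zs)` is regular on `N / x1`, so `(x1, y, zs)`
and by permutation `(y, x1, zs)` on `N`, i.e. `(x1, zs)` on `N / y`, length `d - 1`. Also
`(a, y)`, so `(y, a)` is regular on `N`, i.e. `a` on `N / y`. Induction for `N / y`, `(x1, zs)`, `a`: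
`(a, ys')` is regular on `N / y`, so `(y, a, ys')` and `(a, y, ys')` on `N`. Permutations:
`IsLocalRing.isWeaklyRegular_of_perm_of_subset_maximalIdeal` and the lemmas near it. -/
def St_EXC : Prop := ∀ (R : Type) [CommRing R] [IsLocalRing R] [IsNoetherianRing R]
  (N : Type) [AddCommGroup N] [Module R N] [Module.Finite R N] (xs : List R),
  (∀ x ∈ xs, x ∈ maximalIdeal R) → 1 ≤ xs.length → Rg R xs N →
  ∀ a ∈ maximalIdeal R, (∀ v : N, a • v = 0 → v = 0) →
  ∃ ys : List R, (∀ y ∈ ys, y ∈ maximalIdeal R) ∧ ys.length + 1 = xs.length ∧ Rg R (a :: ys) N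

/-- [ASD] `depth N ≤ dim R / q` for associated primes `q` of `N`. Proof by induction on the list
`x :: xs`: `U = {v ∈ N : q v = 0} ≠ 0`; if `U ⊆ x N` then `U = x U` (`q x v' = 0` implies
`q v' = 0`), so `U = 0` by Nakayama; hence some `u ∈ U` is not in `x N`, and `q + (x)` lies in an
associated prime `q'` of `N / x N`, `q' ≠ q` because `x` is regular on `N`; `dim R/q ≥ dim R/q' + 1`. -/
def St_ASD : Prop := ∀ (R : Type) [CommRing R] [IsLocalRing R] [IsNoetherianRing R]
  (xs : List R) (N : Type) [AddCommGroup N] [Module R N] [Module.Finite R N],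
  (∀ x ∈ xs, x ∈ maximalIdeal R) → Rg R xs N → ∀ q ∈ associatedPrimes R N,
  ((xs.length : ℕ∞) : WithBot ℕ∞) ≤ ringKrullDim (R ⧸ q)

/-- [UNM] (uses EXC, ASD) Unmixedness. Proof: `(a, ys)` is regular on `R`, `ys` of length
`dim R - 1` (`St_EXC`; if `dim R = 0` every prime has height zero), so `ys` is regular on `R / a`
(`QuotSMulTop a R`), `dim R / q ≥ dim R - 1` by `St_ASD`, and
`height q + dim R / q ≤ dim R`, which is finite. -/
def St_UNM : Prop := ∀ (R : Type) [CommRing R] [IsDomain R] [IsLocalRing R] [IsNoetherianRing R]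
  (xs : List R), (∀ x ∈ xs, x ∈ maximalIdeal R) → Rg R xs R →
  ((xs.length : ℕ∞) : WithBot ℕ∞) = ringKrullDim R →
  ∀ a ∈ maximalIdeal R, a ≠ 0 → ∀ q ∈ associatedPrimes R (R ⧸ Ideal.span {a}), q.height ≤ 1

/-- [GR2] (uses UNM) An ideal in no prime of height at most one contains a regular sequence of
length two. Proof: `a ∈ J` nonzero, `b ∈ J` outside the associated primes of `R / a` (prime
avoidance, finitely many). -/
def St_GR2 : Prop := ∀ (R : Type) [CommRing R] [IsDomain R] [IsLocalRing R] [IsNoetherianRing R]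
  (xs : List R), (∀ x ∈ xs, x ∈ maximalIdeal R) → Rg R xs R →
  ((xs.length : ℕ∞) : WithBot ℕ∞) = ringKrullDim R →
  ∀ J : Ideal R, J ≤ maximalIdeal R → (∀ p : Ideal R, p.IsPrime → p.height ≤ 1 → ¬ J ≤ p) →
  ∃ a ∈ J, ∃ b ∈ J, a ≠ 0 ∧ ∀ c, a ∣ b * c → a ∣ c

/-- the endomorphisms factoring through free modules -/
def trm (R M : Type) [CommRing R] [AddCommGroup M] [Module R M] : Submodule R (M →ₗ[R] M) :=
  Submodule.span R {φ : M →ₗ[R] M | ∃ (f : M →ₗ[R] R) (x : M), φ = f.smulRight x}

/-- `M` is free at the prime `p`, in terms of endomorphisms: some `s` outside `p` times the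
identity factors through a free module -/
def GP (R : Type) [CommRing R] (p : Ideal R) (M : Type) [AddCommGroup M] [Module R M] : Prop :=
  ∃ (s : R) (n : ℕ) (u : M →ₗ[R] (Fin n → R)) (j : (Fin n → R) →ₗ[R] M),
    s ∉ p ∧ ∀ v, j (u v) = s • v

/-- [TRM] (uses HMR, DUA, ESA, EXE, RSQ) The module version of `St_TREr` (its proof in
`Pool/Agent/ARD/TREr.lean`, without connections). -/
def St_TRM : Prop := ∀ (R : Type) [CommRing R] [IsLocalRing R] [IsNoetherianRing R]
  (xs : List R), GorL R xs → ∀ (M : Type) [AddCommGroup M] [Module R M] [Module.Finite R M],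
  Rg R xs M → GF R M → TL R M → EA R M M →
  Nonempty (trm R M ≃ₗ[R] ((M →ₗ[R] M) →ₗ[R] R))

/-- [ARY] (uses TRM, GR2) Reduction to codimension one (Araya). Proof. `J = {s : s • id ∈ T}`,
`T = trm R M`; `T` is closed under composition with endomorphisms, so `J E ⊆ T`, `E = End M`.
If `J = R` then `id ∈ T`, `M` is a direct summand of a free module, so free (as in `TRSd`).
Otherwise `a, b ∈ J` as in `St_GR2`. Let `e = id`: `a • e`, `b • e ∈ T ≅ Hom(E, R)`, with images
`f_a`, `f_b : E → R`, `b f_a = a f_b`, so `a ∣ b * f_a x`, `a ∣ f_a x` for all `x`, `f_a = a g`;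
`g` corresponds to `τ ∈ T` with `a • τ = a • e`, and `τ = e` because `M` is torsionless over a
domain (`a ≠ 0`). -/
def St_ARY : Prop := ∀ (R : Type) [CommRing R] [IsDomain R] [IsLocalRing R] [IsNoetherianRing R]
  (xs : List R), GorL R xs → ((xs.length : ℕ∞) : WithBot ℕ∞) = ringKrullDim R →
  ∀ (M : Type) [AddCommGroup M] [Module R M] [Module.Finite R M],
  Rg R xs M → GF R M → TL R M → EA R M M →
  (∀ p : Ideal R, p.IsPrime → p.height ≤ 1 → ∃ s : R, s ∉ p ∧
    s • (LinearMap.id : M →ₗ[R] M) ∈ trm R M) → Module.Free R M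

/-- [LCF] If `M_q` is free then `s • id` factors through a free module for some `s` outside `q`.
Proof: choose `x_1, .., x_n ∈ M` whose images are a basis of `M_q` (scale a basis); for
`j : R^n → M`, `e_i ↦ x_i`, the kernel and the cokernel are finitely generated and vanish at `q`, so
`s (ker j) = 0`, `s M ⊆ im j` for some `s ∉ q`; `u v := s • w` for any `w` with `j w = s • v` is
well defined and linear, `j (u v) = s ^ 2 • v`. -/
def St_LCF : Prop := ∀ (R : Type) [CommRing R] [IsNoetherianRing R] (q : Ideal R) [q.IsPrime]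
  (M : Type) [AddCommGroup M] [Module R M] [Module.Finite R M],
  Module.Free (Localization.AtPrime q) (Localization.AtPrime q ⊗[R] M) → GP R q M

/-- [GPZ] The syzygy of `X` (as `St_GFZ`); monotonicity; `GP` in terms of `trm`. -/
def St_GPZ : Prop := ∀ (R : Type) [CommRing R] (q : Ideal R) (X : Type) [AddCommGroup X]
  [Module R X], GP R q X →
  (∀ (n : ℕ) (p : (Fin n → R) →ₗ[R] X), Function.Surjective p → GP R q (LinearMap.ker p)) ∧
  (∀ p : Ideal R, p ≤ q → GP R p X) ∧
  ∃ s : R, s ∉ q ∧ s • (LinearMap.id : X →ₗ[R] X) ∈ trm R X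

/-- [ARG] (uses ARY, RSQ, SYZ, FRE, GFZ, GFD, GPZ) Proof: claim for `i ≤ d`: every finitely
generated `X` with `EA R X X`, `EA R X R`, `GP R p X` for all primes `p` of height one, regular for
the first `i` elements of the list, is free. Let `Z` be a syzygy of `X`: the same properties
(`St_SYZ`, `St_GPZ`), torsionless, generically free (`St_GFZ`, `St_GFD`; the only prime of height
zero is zero), and regular for the first `i + 1` elements, or for all of them if `i = d`
(`St_RSQ` (3), (4), (5)). `i = d`: `Z` is free by `St_ARY`; `i < d`: by induction. `X` is free by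
`St_FRE`. -/
def St_ARG : Prop := ∀ (R : Type) [CommRing R] [IsDomain R] [IsLocalRing R] [IsNoetherianRing R]
  (xs : List R), GorL R xs → ((xs.length : ℕ∞) : WithBot ℕ∞) = ringKrullDim R →
  ∀ (M : Type) [AddCommGroup M] [Module R M] [Module.Finite R M], EA R M M → EA R M R →
  (∀ p : Ideal R, p.IsPrime → p.height = 1 → GP R p M) → Module.Free R M

/-- (ARC) in terms of covers -/
def ARCe (R : Type) [CommRing R] : Prop := ∀ (M : Type) [AddCommGroup M] [Module R M]
  [Module.Finite R M], EA R M M → EA R M R → Module.Free R M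

/-- `R` has a flat local homomorphism to a quasi-homogeneous Gorenstein local ring of
characteristic zero -/
def Good (R : Type) [CommRing R] [IsLocalRing R] : Prop :=
  ∃ (K S : Type) (_ : Field K) (_ : CharZero K) (_ : CommRing S) (_ : IsLocalRing S)
    (_ : IsNoetherianRing S) (_ : Algebra K S) (_ : Algebra R S) (_ : Module.Flat R S)
    (_ : IsLocalHom (algebraMap R S)) (D : Derivation K S S) (L : List (S × ℕ)), QD K S D L

/-- [ARE] (uses ARQr, SYZ, FRE, GFD, FLE, FLG, FLD) `ARF.lean` with the conclusion in terms of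
covers. -/
def St_ARE : Prop := ∀ (R : Type) [CommRing R] [IsDomain R] [IsLocalRing R] [IsNoetherianRing R],
  Good R → ARCe R

/-- [FNG] (uses ARG, ARE, FLE, LCF, GPZ, `ARS.St_Ext`) The final theorem. Proof: `M` as in (ARC),
`EA R M M`, `EA R M R` (`ARS.extAll_of_EV`). Let `p` be a prime of height one, `p ≤ q` with
`Good R_q`. `R_q ⊗ M` satisfies the hypotheses of (ARC) over the local domain `R_q`
(`St_FLE`, localisations are flat; `R_q ⊗ R ≅ R_q`, `ARS.extAll_iso`), so it is free (`St_ARE`),
`GP R q M` (`St_LCF`), `GP R p M` (`St_GPZ`). `St_ARG`. -/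
def St_FNG : Prop := ∀ (R : Type) [CommRing R] [IsDomain R] [IsLocalRing R] [IsNoetherianRing R]
  (xs : List R), GorL R xs → ((xs.length : ℕ∞) : WithBot ℕ∞) = ringKrullDim R →
  (∀ p : Ideal R, p.IsPrime → p.height = 1 → ∃ (q : Ideal R) (_ : q.IsPrime), p ≤ q ∧
    Good (Localization.AtPrime q)) → ARC R

end Pool.Agent.ARD
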