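import Pool.Agent.ARD.StI

/-! Statements of the modules of ARD, part K: the codimension one principle for Gorenstein local
rings which need not be domains. The modules are small modifications of UNM, GR2, ARY, ARG, COD.
Do not change this file. -/

set_option autoImplicit false

namespace Pool.Agent.ARD

open ARS IsLocalRing TensorProduct

/-- [UNK] (uses EXC, ASD) Unmixedness, as `St_UNM`; (1) `dim R / q ≥ dim R` (`St_ASD` for `N = R`)
and `height q + dim R / q ≤ dim R`; (2) as `St_UNM`. -/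
def St_UNK : Prop := ∀ (R : Type) [CommRing R] [IsLocalRing R] [IsNoetherianRing R]
  (xs : List R), (∀ x ∈ xs, x ∈ maximalIdeal R) → Rg R xs R →
  ((xs.length : ℕ∞) : WithBot ℕ∞) = ringKrullDim R →
  (∀ q ∈ associatedPrimes R R, q.height = 0) ∧
  ∀ a ∈ maximalIdeal R, a ∈ nonZeroDivisors R →
    ∀ q ∈ associatedPrimes R (R ⧸ Ideal.span {a}), q.height ≤ 1

/-- [GRK] (uses UNK) As `St_GR2`: prime avoidance for the associated primes of `R`, then of
`R / a`. -/
def St_GRK : Prop := ∀ (R : Type) [CommRing R] [IsLocalRing R] [IsNoetherianRing R]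
  (xs : List R), (∀ x ∈ xs, x ∈ maximalIdeal R) → Rg R xs R →
  ((xs.length : ℕ∞) : WithBot ℕ∞) = ringKrullDim R →
  ∀ J : Ideal R, J ≤ maximalIdeal R → (∀ p : Ideal R, p.IsPrime → p.height ≤ 1 → ¬ J ≤ p) →
  ∃ a ∈ J, ∃ b ∈ J, a ∈ nonZeroDivisors R ∧ ∀ c, a ∣ b * c → a ∣ c

/-- [ARK] (uses TRM, GRK) As `St_ARY` (`a` is a nonzerodivisor; `a • (τ - id) = 0` implies
`τ = id` because `M` is torsionless). -/
def St_ARK : Prop := ∀ (R : Type) [CommRing R] [IsLocalRing R] [IsNoetherianRing R]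
  (xs : List R), GorL R xs → ((xs.length : ℕ∞) : WithBot ℕ∞) = ringKrullDim R →
  ∀ (M : Type) [AddCommGroup M] [Module R M] [Module.Finite R M],
  Rg R xs M → GF R M → TL R M → EA R M M →
  (∀ p : Ideal R, p.IsPrime → p.height ≤ 1 → ∃ s : R, s ∉ p ∧
    s • (LinearMap.id : M →ₗ[R] M) ∈ trm R M) → Module.Free R M

/-- [AGK] (uses ARK, UNK, RSQ, SYZ, FRE, GFZ, GPZ) As `St_ARG`. `GF R Z`: the ideal of the `s` such
that `s • id` factors through a free module (as in `Min_GF`, `Pool/Agent/ARD/Min.lean`; `Red_add`)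
is not contained in an associated prime of `R` (they have height zero, `St_UNK` (1)), so it contains
a nonzerodivisor. -/
def St_AGK : Prop := ∀ (R : Type) [CommRing R] [IsLocalRing R] [IsNoetherianRing R]
  (xs : List R), GorL R xs → ((xs.length : ℕ∞) : WithBot ℕ∞) = ringKrullDim R →
  ∀ (M : Type) [AddCommGroup M] [Module R M] [Module.Finite R M], EA R M M → EA R M R →
  (∀ p : Ideal R, p.IsPrime → p.height ≤ 1 → GP R p M) → Module.Free R M

/-- [CDK] (uses AGK, FLE, LCF, GPZ) As `St_COD`. -/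
def St_CDK : Prop := ∀ (R : Type) [CommRing R] [IsLocalRing R] [IsNoetherianRing R]
  (xs : List R), GorL R xs → ((xs.length : ℕ∞) : WithBot ℕ∞) = ringKrullDim R →
  (∀ p : Ideal R, p.IsPrime → p.height ≤ 1 → ∃ (q : Ideal R) (_ : q.IsPrime), p ≤ q ∧
    ARCe (Localization.AtPrime q)) → ARCe R

end Pool.Agent.ARD
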