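import Pool.Agent.ARD.StC

/-! Statements of the modules of ARD, part N: modules with a connection (`NM D`) over a
quasi-homogeneous Gorenstein local ring of any dimension (`QD`). Do not change this file.
These are the statements of `Pool/Agent/ARS/StN.lean` with the ideal `(y)` replaced by
`I = idl L`, `A.red h.eig` by `rd A h.stab` (`= A / I A`), `HWC.TF R A.X` by `Rg R (el L) A.X`:
START FROM THE FILE `Pool/Agent/ARS/<name>.lean` (copy it, the private lemmas for `Ideal.span {y}`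
become lemmas for `I • ⊤`, with `Submodule.smul_induction_on` instead of `∃ w, y • w = x`). -/

set_option autoImplicit false

namespace Pool.Agent.ARD

open ARS IsLocalRing

/-- [POWd] `ARS/POW.lean` with the hypothesis `QH` replaced by `D max ⊆ max`. -/
def St_POWd : Prop := ∀ (K R : Type) [Field K] [CommRing R] [IsLocalRing R]
  [IsNoetherianRing R] [Algebra K R] (D : Derivation K R R),
  (∀ a ∈ maximalIdeal R, D a ∈ maximalIdeal R) → ∀ Q : NM D, Module.Finite K Q.X →
  ∀ (n : ℕ) (a : Matrix (Fin n) (Fin n) R) (a0 : Matrix (Fin n) (Fin n) K),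
  (∀ i j, a i j - algebraMap K R (a0 i j) ∈ maximalIdeal R) →
  (Q.pow a).ch = ch (Matrix.toLin' a0) * Q.ch

/-- [ISOd] Isomorphisms and reductions; `one.hom one ≅ one`. -/
def St_ISOd : Prop := ∀ (K R : Type) [Field K] [CommRing R] [Algebra K R] (D : Derivation K R R)
  (I : Ideal R) (hI : ∀ a ∈ I, D a ∈ I) (A B : NM D), Iso A B → Iso (rd A hI) (rd B hI)

/-- [RFNd] Finiteness, for a stable ideal `I` with `R / I` finite dimensional (this is used for
`idl L` and for `idl (pw n L)`). (i), (ii), (iii) as in `ARS/RFN.lean`. -/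
def St_RFNd : Prop := ∀ (K R : Type) [Field K] [CommRing R] [IsLocalRing R]
  [IsNoetherianRing R] [Algebra K R] (D : Derivation K R R) (I : Ideal R)
  (hI : ∀ a ∈ I, D a ∈ I), Module.Finite K (R ⧸ I) → ∀ (A B : NM D),
  (Module.Finite R A.X → Module.Finite K (rd A hI).X) ∧
  (Module.Finite R A.X → Module.Finite R B.X → Module.Finite R (A.hom B).X) ∧
  (I ≤ maximalIdeal R → Module.Finite R A.X → Subsingleton (rd A hI).X → Subsingleton A.X)

/-- [REXd] (uses RSQ) Reduction modulo `I = (x_1, .., x_d)` is exact if `C` is regular. The left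
injectivity is `St_RSQ` (1), the rest is right exactness (as in `ARS/REX.lean`). -/
def St_REXd : Prop := ∀ (K R : Type) [Field K] [CommRing R] [Algebra K R] (D : Derivation K R R)
  (xs : List R) (hI : ∀ a ∈ Ideal.ofList xs, D a ∈ Ideal.ofList xs) (A B C : NM D),
  Ex A B C → Rg R xs C.X → Ex (rd A hI) (rd B hI) (rd C hI)

/-- [GORd] (uses ADD, NON, HOM) `ARS/GOR.lean`: `A = R / I`, `I = idl L`, is local Artinian
(`h.fin`), its zero ideal is irreducible (`h.irr`, correspondence of ideals), self-injective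
(`HWC.baer`). -/
def St_GORd : Prop := ∀ (K R : Type) [Field K] [CommRing R] [IsLocalRing R]
  [IsNoetherianRing R] [Algebra K R] (D : Derivation K R R) (L : List (R × ℕ))
  (h : QD K R D L), ∃ c : K, ∀ Q : NM D, Module.Finite K Q.X →
  (∀ a ∈ idl L, ∀ q : Q.X, a • q = 0) →
  (Q.hom (rd (NM.one D) h.stab)).ch = xp (algebraMap K (AlgebraicClosure K) c) * iv Q.ch

/-- [DURd] (uses GORd, HMR, DUA, RFNd) Duality for regular modules. Proof as in `ARS/DUR.lean`:
`(A.hom one) / I ≅ (A / I).hom (R / I)`: the map `Hom(A, R) → Hom(A, R/I)` is surjective and its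
kernel is `I Hom(A, R)` by `St_HMR` for `M = R` (`EA R A R` by `St_DUA`, `h.gor`). -/
def St_DURd : Prop := ∀ (K R : Type) [Field K] [CommRing R] [IsLocalRing R]
  [IsNoetherianRing R] [Algebra K R] (D : Derivation K R R) (L : List (R × ℕ))
  (h : QD K R D L), ∃ c : K, ∀ A : NM D, Module.Finite R A.X → Rg R (el L) A.X →
  (rd (A.hom (NM.one D)) h.stab).ch =
    xp (algebraMap K (AlgebraicClosure K) c) * iv (rd A h.stab).ch

/-- [COVd] `ARS/COV.lean` (only `h.res` is used). -/
def St_COVd : Prop := ∀ (K R : Type) [Field K] [CommRing R] [IsLocalRing R]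
  [IsNoetherianRing R] [Algebra K R] (D : Derivation K R R),
  (∀ a : R, ∃ k : K, a - algebraMap K R k ∈ maximalIdeal R) →
  ∀ (A : NM D), Module.Finite R A.X →
  ∃ (n : ℕ) (a : Matrix (Fin n) (Fin n) R) (a0 : Matrix (Fin n) (Fin n) K)
    (p : (Fin n → R) →ₗ[R] A.X), Function.Surjective p ∧
    (∀ v : Fin n → R, p (((NM.one D).pow a).N v) = A.N (p v)) ∧
    (∀ v : Fin n → R, p v = 0 → ∀ i, v i ∈ maximalIdeal R) ∧
    (∀ i j, a i j - algebraMap K R (a0 i j) ∈ maximalIdeal R)

/-- [SUPd] (uses ADD, NON, ANN, POWd, RFNd, GRD, RSQ) `ARS/SUP.lean`; the injectivity of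
`B / I B → F / I F` is `St_RSQ` (1) (`A` is regular). -/
def St_SUPd : Prop := ∀ (K R : Type) [Field K] [CharZero K] [CommRing R]
  [IsLocalRing R] [IsNoetherianRing R] [Algebra K R] (D : Derivation K R R) (L : List (R × ℕ))
  (h : QD K R D L) (A : NM D), Module.Finite R A.X → Rg R (el L) A.X →
  ∀ (n : ℕ) (a : Matrix (Fin n) (Fin n) R) (a0 : Matrix (Fin n) (Fin n) K)
    (p : (Fin n → R) →ₗ[R] A.X), Function.Surjective p →
    (∀ v : Fin n → R, p (((NM.one D).pow a).N v) = A.N (p v)) →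
    (∀ v : Fin n → R, p v = 0 → ∀ i, v i ∈ maximalIdeal R) →
    (∀ i j, a i j - algebraMap K R (a0 i j) ∈ maximalIdeal R) →
  ∀ (B : NM D) (f : B.X →ₗ[R] (Fin n → R)), Function.Injective f →
    (∀ v, p v = 0 ↔ ∃ u, f u = v) → (∀ u, f (B.N u) = ((NM.one D).pow a).N (f u)) →
  ∀ ν, cf (rd B h.stab).ch ν ≠ 0 →
    ∃ (l : AlgebraicClosure K) (k : ℕ), 1 ≤ k ∧ cf (rd A h.stab).ch l ≠ 0 ∧
      ν = l + (k : AlgebraicClosure K)

/-- [CHFd] (uses POWd, NEG, ISO, ISOd, RFNd) `ARS/CHF.lean`. -/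
def St_CHFd : Prop := ∀ (K R : Type) [Field K] [CommRing R] [IsLocalRing R]
  [IsNoetherianRing R] [Algebra K R] (D : Derivation K R R) (L : List (R × ℕ))
  (h : QD K R D L) (M : NM D), Module.Finite R M.X →
  ∀ (n : ℕ) (a : Matrix (Fin n) (Fin n) R) (a0 : Matrix (Fin n) (Fin n) K),
  (∀ i j, a i j - algebraMap K R (a0 i j) ∈ maximalIdeal R) →
  (rd (((NM.one D).pow a).hom M) h.stab).ch =
    iv (ch (Matrix.toLin' a0)) * (rd M h.stab).ch ∧
  (rd ((NM.one D).pow a) h.stab).ch = ch (Matrix.toLin' a0) * (rd (NM.one D) h.stab).ch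

/-- [HSUd] (uses HOM, ADD, NON, GRD, RFNd, HMR) `ARS/HSUt.lean`: `Hom(A, M) / I → Hom_K(A/I, M/I)`
is injective, because a map with values in `I M` is in `I Hom(A, M)` (`St_HMR`, third part). -/
def St_HSUd : Prop := ∀ (K R : Type) [Field K] [CharZero K] [CommRing R]
  [IsLocalRing R] [IsNoetherianRing R] [Algebra K R] (D : Derivation K R R) (L : List (R × ℕ))
  (h : QD K R D L) (A M : NM D), Module.Finite R A.X → Module.Finite R M.X →
  Rg R (el L) M.X → EA R A.X M.X → ∀ ν, cf (rd (A.hom M) h.stab).ch ν ≠ 0 →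
    ∃ μ l, cf (rd M h.stab).ch μ ≠ 0 ∧ cf (rd A h.stab).ch l ≠ 0 ∧ ν = μ - l

/-- the difference of the two sides of the identity of Avramov, Buchweitz and Sally -/
noncomputable def Dl {K R : Type} [Field K] [CommRing R] [IsLocalRing R] [Algebra K R]
    {D : Derivation K R R} {L : List (R × ℕ)} (h : QD K R D L) (A M : NM D) : GR K :=
  (rd (A.hom M) h.stab).ch * iv (rd (NM.one D) h.stab).ch -
    iv (rd A h.stab).ch * (rd M h.stab).ch

/-- [STPd] (uses ISO, RFNd, REXd, RSQ, COVd, SUPd, HEX, CHFd, ADD, HMR) `ARS/STP.lean`. The kernel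
`B` of the cover is regular (`St_RSQ` (3), (5)) and `Hom(B, M)` is regular (`St_HMR`,
`EA R B M`), so both sequences stay exact after reduction (`St_REXd`). -/
def St_STPd : Prop := ∀ (K R : Type) [Field K] [CharZero K] [CommRing R]
  [IsLocalRing R] [IsNoetherianRing R] [Algebra K R] (D : Derivation K R R) (L : List (R × ℕ))
  (h : QD K R D L) (A M : NM D), Module.Finite R A.X → Rg R (el L) A.X →
  Module.Finite R M.X → Rg R (el L) M.X → EA R A.X M.X →
  ∃ B : NM D, Module.Finite R B.X ∧ Rg R (el L) B.X ∧ Dl h A M = - Dl h B M ∧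
    (∀ ν, cf (rd B h.stab).ch ν ≠ 0 → ∃ (l : AlgebraicClosure K) (k : ℕ), 1 ≤ k ∧
      cf (rd A h.stab).ch l ≠ 0 ∧ ν = l + (k : AlgebraicClosure K)) ∧
    EA R B.X M.X

/-- [WTRd] (uses ANN, NON) `ARS/WTR.lean`. -/
def St_WTRd : Prop := ∀ (K R : Type) [Field K] [CommRing R] [IsLocalRing R]
  [IsNoetherianRing R] [Algebra K R] (D : Derivation K R R) (L : List (R × ℕ))
  (h : QD K R D L), ∀ ν, cf (rd (NM.one D) h.stab).ch ν ≠ 0 →
    ∃ k : ℕ, ν = (k : AlgebraicClosure K)

/-- [ABSd] (uses STPd, HSUd, WTRd, GRD) `ARS/ABS.lean`. -/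
def St_ABSd : Prop := ∀ (K R : Type) [Field K] [CharZero K] [CommRing R]
  [IsLocalRing R] [IsNoetherianRing R] [Algebra K R] (D : Derivation K R R) (L : List (R × ℕ))
  (h : QD K R D L) (M : NM D), Module.Finite R M.X → Rg R (el L) M.X → EA R M.X M.X →
  (rd (M.hom M) h.stab).ch * iv (rd (NM.one D) h.stab).ch = iv (rd M h.stab).ch * (rd M h.stab).ch

/-- [PALd] (uses GRD, NON, ISO, ISOd, RFNd) `ARS/PAL.lean`. -/
def St_PALd : Prop := ∀ (K R : Type) [Field K] [CharZero K] [CommRing R]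
  [IsLocalRing R] [IsNoetherianRing R] [Algebra K R] (D : Derivation K R R) (L : List (R × ℕ))
  (h : QD K R D L) (c : K), (∀ A : NM D, Module.Finite R A.X → Rg R (el L) A.X →
    (rd (A.hom (NM.one D)) h.stab).ch =
      xp (algebraMap K (AlgebraicClosure K) c) * iv (rd A h.stab).ch) →
  ∀ M : NM D, (rd (M.hom M) h.stab).ch * iv (rd (NM.one D) h.stab).ch =
    iv (rd M h.stab).ch * (rd M h.stab).ch →
  (rd (M.hom M) h.stab).ch =
    xp (algebraMap K (AlgebraicClosure K) c) * iv (rd (M.hom M) h.stab).ch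

/-- [TRSd] The trace part is stable; the free case (`ARS/TR1.lean`, first and last part). -/
def St_TRSd : Prop := ∀ (K R : Type) [Field K] [CommRing R] [IsLocalRing R] [IsNoetherianRing R]
  [Algebra K R] (D : Derivation K R R) (M : NM D), Module.Finite R M.X →
  (∀ φ ∈ trc M, (M.hom M).N φ ∈ trc M) ∧
  ((LinearMap.id : M.X →ₗ[R] M.X) ∈ trc M → Module.Free R M.X)

/-- [TREd] (uses GFR, HMR, DUA, ESA, EXE) `trc M ≅ Hom(End M, R)`. Proof. Pairing
`End M × trc M → R`, `⟨e, ∑ f i • x i⟩ = ∑ f i (e (x i))`, well defined and compatible with the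
connections as in `ARS/TR2.lean` (`TR2_core`: with `s • id ∈ trc M`, `s ≠ 0`, from `St_GFR`). The
map `τ ↦ ⟨-, τ⟩` is injective: `⟨g • a, τ⟩ = g (τ a)` for rank one maps `g • a`, and
`g (τ a) = 0` for all `g` implies `τ a = 0` (`p`, `j` of `St_GFR`: `s • τ a = j (p (τ a)) = 0`,
torsionfree). It is surjective: let `x 1, .., x n` generate `M`, cover `F → M` with kernel `Z`; the
sequence `0 → Hom(M, M) → Hom(F, M) → Hom(Z, M) → 0` is exact (`ExtProp R M M`), and
`Ext ^ 1 (Hom(Z, M), R) = 0` (`St_ESA`; `Hom(Z, M)` is regular by `St_HMR`, `EA R Z M`), so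
`θ : End M → R` extends to `Hom(F, M) = M ^ n` (`St_EXE`): `θ e = ∑ f i (e (x i))`. -/
def St_TREd : Prop := ∀ (K R : Type) [Field K] [CommRing R] [IsDomain R]
  [IsLocalRing R] [IsNoetherianRing R] [Algebra K R] (D : Derivation K R R) (L : List (R × ℕ))
  (_ : QD K R D L) (M : NM D), Module.Finite R M.X → Rg R (el L) M.X → HWC.TF R M.X →
  EA R M.X M.X → ∀ hT : ∀ φ ∈ trc M, (M.hom M).N φ ∈ trc M,
    Iso ((M.hom M).sub (trc M) hT) ((M.hom M).hom (NM.one D))

/-- [REG] (uses ESA, DUA, HMR) The dual of a regular module is regular; invariance. -/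
def St_REG : Prop := ∀ (R : Type) [CommRing R] [IsLocalRing R] [IsNoetherianRing R]
  (xs : List R), GorL R xs → ∀ (A B : Type) [AddCommGroup A] [Module R A] [Module.Finite R A]
  [AddCommGroup B] [Module R B], (Rg R xs A → Rg R xs (A →ₗ[R] R)) ∧
  ((A ≃ₗ[R] B) → Rg R xs A → Rg R xs B)

/-- [PWRa] (uses ADD, SHF, NON, RSQ, REXd) One power. Let `(y, m) :: L'` be eigenvectors, `A`
regular for them with `(A / y) / L'` finite dimensional. Then `A / y ^ n A` is `L'`-regular,
`(A / y ^ n) / L'` is finite dimensional and its character is `(∑ j < n, xp (j m))` times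
`ch ((A / y) / L')`. Proof by induction on `n`:
`0 → sh (A / y ^ n) m → A / y ^ (n+1) → A / y → 0` is exact (first map: multiplication by `y`,
injective since `y` is regular; `y (N a + m a) = N (y a)`), so the middle is `L'`-regular
(`St_RSQ` (2)) and reduction modulo `L'` is exact (`St_REXd`); `ch` of a shift is `xp m * ch`
(`St_SHF`; `rd (sh A m) = sh (rd A) m`). -/
def St_PWRa : Prop := ∀ (K R : Type) [Field K] [CommRing R] [Algebra K R]
  (D : Derivation K R R) (y : R) (m : ℕ) (L' : List (R × ℕ))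
  (hL : ∀ a ∈ idl L', D a ∈ idl L'), D y = (m : R) * y →
  ∀ (n : ℕ), 1 ≤ n → ∀ (hy : ∀ a ∈ Ideal.span {y}, D a ∈ Ideal.span {y})
    (hyn : ∀ a ∈ Ideal.span {y ^ n}, D a ∈ Ideal.span {y ^ n}) (A : NM D),
  Rg R (y :: el L') A.X → Module.Finite K (rd (rd A hy) hL).X →
  Rg R (el L') (rd A hyn).X ∧ Module.Finite K (rd (rd A hyn) hL).X ∧
  (rd (rd A hyn) hL).ch =
    (∑ j ∈ Finset.range n, xp ((j * m : ℕ) : AlgebraicClosure K)) * (rd (rd A hy) hL).ch

/-- [PWRb] (uses PWRa, ISO, ISOd, RSQ) All powers: the character modulo `(x_1 ^ n, .., x_d ^ n)` is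
a fixed multiple of the character modulo `(x_1, .., x_d)`. Proof by induction on the list:
`rd A ((y, m) :: L') ≅ rd (rd A (y)) L'`, the same for the powers, `St_PWRa` for `A`, the
induction hypothesis for `A / y ^ n` and `L'`. -/
def St_PWRb : Prop := ∀ (K R : Type) [Field K] [CommRing R] [Algebra K R]
  (D : Derivation K R R) (L : List (R × ℕ)) (hL : ∀ p ∈ L, D p.1 = (p.2 : R) * p.1)
  (n : ℕ), 1 ≤ n → ∃ G : GR K, ∀ A : NM D, Rg R (el L) A.X →
    Module.Finite K (rd A (stable_idl hL)).X →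
    Module.Finite K (rd A (stable_idl (eig_pw hL n))).X ∧
    (rd A (stable_idl (eig_pw hL n))).ch = G * (rd A (stable_idl hL)).ch

/-- [WTA] (uses ADD, NON, SHF) Weights of a finite dimensional quotient `Q` of `I P`, killed by
`I`: they are of the form `l + m j` with `l` a weight of `P / I P`. Proof: for the prefix
`x_1, .., x_j` of the list let `Q_j ⊆ Q` be the submodule generated by the images of `x_i p`,
`i ≤ j`; `Q_j / Q_(j-1)` is a quotient of `P / I P` with shifted connection (`p ↦ x_j p`). -/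
def St_WTA : Prop := ∀ (K R : Type) [Field K] [CommRing R] [IsLocalRing R]
  [IsNoetherianRing R] [Algebra K R] (D : Derivation K R R) (L : List (R × ℕ))
  (h : QD K R D L) (P Q : NM D), Module.Finite R P.X → Module.Finite K Q.X →
  (∀ a ∈ idl L, ∀ q : Q.X, a • q = 0) →
  ∀ g : (P.sub (idl L • ⊤) (stable_I P h.stab)).X →ₗ[R] Q.X, Function.Surjective g →
  (∀ x, g ((P.sub (idl L • ⊤) (stable_I P h.stab)).N x) = Q.N (g x)) →
  ∀ ν, cf Q.ch ν ≠ 0 → ∃ (l : AlgebraicClosure K) (k : ℕ), 1 ≤ k ∧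
    cf (rd P h.stab).ch l ≠ 0 ∧ ν = l + (k : AlgebraicClosure K)

/-- [WTB] (uses WTA, ADD, NON, RFNd) Weights of a finite dimensional quotient `Q` of `I ^ k A`.
Proof: strong induction on `finrank K Q.X`, for all `k`: `I Q` is a quotient of `I ^ (k+1) A`,
smaller than `Q ≠ 0` (Nakayama), and `Q / I Q` is a quotient of `P_k / I P_k`, `P_k = I ^ k A`, whose
weights are bounded by induction on `k` with `St_WTA` (`P_(k+1) = I P_k`; state the induction for all
`P` with an injective map `P.X → A.X` commuting with the connections with range `I ^ k • ⊤`). -/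
def St_WTB : Prop := ∀ (K R : Type) [Field K] [CommRing R] [IsLocalRing R]
  [IsNoetherianRing R] [Algebra K R] (D : Derivation K R R) (L : List (R × ℕ))
  (h : QD K R D L) (A Q : NM D), Module.Finite R A.X → Module.Finite K Q.X →
  ∀ (k : ℕ) (g : (idl L ^ k • ⊤ : Submodule R A.X) →ₗ[R] Q.X), Function.Surjective g →
  (∀ x y : (idl L ^ k • ⊤ : Submodule R A.X), (y : A.X) = A.N x → g y = Q.N (g x)) →
  ∀ ν, cf Q.ch ν ≠ 0 → ∃ (l : AlgebraicClosure K) (k' : ℕ), k ≤ k' ∧
    cf (rd A h.stab).ch l ≠ 0 ∧ ν = l + (k' : AlgebraicClosure K)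

/-- [FIND] (uses PWRb, WTB, ADD, NON, GRD, RFNd, RSQ) Equal characters imply equality. Proof. Let
`C = E / T ≠ 0`. Choose `ν` with `cf (ch (C / I C)) ν ≠ 0` (Nakayama, `St_NON`). Let
`J = idl (pw n L) ⊆ I ^ n`. The sequence
`0 → (T ∩ J E) / J T → T / J T → E / J E → C / J C → 0` is exact, and
`ch (T / J T) = ch (E / J E)` (`St_PWRb`), so `ch (C / J C) = ch ((T ∩ J E) / J T)`; `C / I C` is a
quotient of `C / J C`, so `ν` is a weight of `(T ∩ J E) / J T`. By Artin and Rees
(`Ideal.exists_pow_inf_eq_pow_smul`) there is `c` with `T ∩ J E ⊆ T ∩ I ^ n E ⊆ I ^ (n - c) T`,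
so `ν` is a weight of `I ^ (n-c) T / J T` and `ν = l + k'`, `k' ≥ n - c`, `l` a weight of `T / I T`
(`St_WTB`). Finitely many `l`, all `n`: contradiction in characteristic zero. -/
def St_FIND : Prop := ∀ (K R : Type) [Field K] [CharZero K] [CommRing R]
  [IsLocalRing R] [IsNoetherianRing R] [Algebra K R] (D : Derivation K R R) (L : List (R × ℕ))
  (h : QD K R D L) (E : NM D), Module.Finite R E.X → Rg R (el L) E.X →
  ∀ (T : Submodule R E.X) (hT : ∀ x ∈ T, E.N x ∈ T), Rg R (el L) T →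
  (rd (E.sub T hT) h.stab).ch = (rd E h.stab).ch → T = ⊤

/-- [ENDd] (uses GRD, ISO, ISOd, RFNd, DURd, ABSd, PALd, TRSd, TREd, FIND, HMR, REG) -/
def St_ENDd : Prop := ∀ (K R : Type) [Field K] [CharZero K] [CommRing R] [IsDomain R]
  [IsLocalRing R] [IsNoetherianRing R] [Algebra K R] (D : Derivation K R R) (L : List (R × ℕ))
  (_ : QD K R D L) (M : NM D), Module.Finite R M.X → Rg R (el L) M.X → HWC.TF R M.X →
  EA R M.X M.X → Module.Free R M.X

/-- [ARQd] (uses ENDd, `ARS.St_CON`, `ARS.St_Ext`, RSQ, SYZ, FRE) Quasi-homogeneous Gorenstein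
domains satisfy (ARC). Proof. `EA R M M`, `EA R M R` from the hypotheses (`ARS.extAll_of_EV`,
`ARS/END.lean`). Claim: for `i ≤ d`, every `X` with `EA R X X`, `EA R X R`, which is regular for the
first `i` elements of the list, is free. `i = d`: the syzygy `Z` of `X` (kernel of a cover) is regular
(`St_RSQ` (3), (5)), torsionfree (a submodule of a free module) and satisfies the hypotheses
(`St_SYZ`); it has a connection (`St_CON`), so it is free (`St_ENDd`), and `X` is free (`St_FRE`).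
`i < d`: `Z` is regular for the first `i + 1` elements (`St_RSQ` (4), (5)), so free, and `X` is
free. -/
def St_ARQd : Prop := ∀ (K R : Type) [Field K] [CharZero K] [CommRing R] [IsDomain R]
  [IsLocalRing R] [IsNoetherianRing R] [Algebra K R] (D : Derivation K R R) (L : List (R × ℕ))
  (_ : QD K R D L), ARC R

end Pool.Agent.ARD
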