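import Pool.Agent.ARD.StN

/-! Statements of the modules of ARD, part R: the final form. `R` is a local domain with a flat
local homomorphism to a quasi-homogeneous Gorenstein local ring `S` of characteristic zero (for
instance `S = R` or `S` the completion of `R`); `S` need not be a domain, because the modules
`S ⊗ M` are generically free. Do not change this file. -/

set_option autoImplicit false

namespace Pool.Agent.ARD

open ARS IsLocalRing TensorProduct

/-- generically free: a nonzerodivisor times the identity factors through a free module -/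
def GF (R M : Type) [CommRing R] [AddCommGroup M] [Module R M] : Prop :=
  ∃ (s : R) (q : ℕ) (p : M →ₗ[R] (Fin q → R)) (j : (Fin q → R) →ₗ[R] M),
    s ∈ nonZeroDivisors R ∧ ∀ v, j (p v) = s • v

/-- torsionless -/
def TL (R M : Type) [CommRing R] [AddCommGroup M] [Module R M] : Prop :=
  ∀ m : M, (∀ g : M →ₗ[R] R, g m = 0) → m = 0

/-- [GFZ] The syzygy `Z = ker p` of `X` is torsionless (coordinates) and generically free if `X` is:
let `s • x = j (p' x)`, `j : R^q → X`, lift `j` to `j' : R^q → R^n` (`p j' = j`); then
`v ↦ s • v - j' (p' (p v))` is a map `R^n → Z` which is `s` on `Z`. -/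
def St_GFZ : Prop := ∀ (R : Type) [CommRing R] (X : Type) [AddCommGroup X] [Module R X]
  (n : ℕ) (p : (Fin n → R) →ₗ[R] X), Function.Surjective p →
    TL R (LinearMap.ker p) ∧ (GF R X → GF R (LinearMap.ker p))

/-- [GFD] (uses GFR) Over a Noetherian domain syzygies are generically free. -/
def St_GFD : Prop := ∀ (R : Type) [CommRing R] [IsDomain R] [IsNoetherianRing R] (X : Type)
  [AddCommGroup X] [Module R X] (n : ℕ) (p : (Fin n → R) →ₗ[R] X), GF R (LinearMap.ker p)

/-- [TREr] (uses HMR, DUA, ESA, EXE, RSQ) As `St_TREd` (same proof, docstring there), with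
`GF` and `TL` instead of a torsionfree module over a domain: the pairing is well defined because a
nonzerodivisor `s` can be cancelled in `R`; injectivity: `g (τ a) = 0` for all `g` implies
`τ a = 0` (`TL`). -/
def St_TREr : Prop := ∀ (K R : Type) [Field K] [CommRing R]
  [IsLocalRing R] [IsNoetherianRing R] [Algebra K R] (D : Derivation K R R) (L : List (R × ℕ))
  (_ : QD K R D L) (M : NM D), Module.Finite R M.X → Rg R (el L) M.X → GF R M.X → TL R M.X →
  EA R M.X M.X → ∀ hT : ∀ φ ∈ trc M, (M.hom M).N φ ∈ trc M,
    Iso ((M.hom M).sub (trc M) hT) ((M.hom M).hom (NM.one D))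

/-- [ENDr] (uses GRD, ISO, ISOd, RFNd, DURd, ABSd, PALd, TRSd, TREr, FIND, HMR, REG) As
`St_ENDd`. -/
def St_ENDr : Prop := ∀ (K R : Type) [Field K] [CharZero K] [CommRing R]
  [IsLocalRing R] [IsNoetherianRing R] [Algebra K R] (D : Derivation K R R) (L : List (R × ℕ))
  (_ : QD K R D L) (M : NM D), Module.Finite R M.X → Rg R (el L) M.X → GF R M.X → TL R M.X →
  EA R M.X M.X → Module.Free R M.X

/-- [ARQr] (uses ENDr, `ARS.St_CON`, RSQ, SYZ, FRE, GFZ) Proof: claim for `i ≤ d`: every finitely
generated `X` with `EA R X X`, `EA R X R`, `GF R X`, regular for the first `i` elements of the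
list, is free. `i = d`: the syzygy `Z` is regular (`St_RSQ` (3), (5)), torsionless and generically
free (`St_GFZ`), satisfies the hypotheses (`St_SYZ`) and has a connection (`St_CON`; transport
along the isomorphism), so it is free (`St_ENDr`), and `X` is free (`St_FRE`). `i < d`: `Z` is
regular for the first `i + 1` elements (`St_RSQ` (4), (5)), so free, and `X` is free. -/
def St_ARQr : Prop := ∀ (K R : Type) [Field K] [CharZero K] [CommRing R]
  [IsLocalRing R] [IsNoetherianRing R] [Algebra K R] (D : Derivation K R R) (L : List (R × ℕ))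
  (_ : QD K R D L) (X : Type) [AddCommGroup X] [Module R X] [Module.Finite R X],
  GF R X → EA R X X → EA R X R → Module.Free R X

/-- [FLE] Flat base change. Proof. (a) The property `ExtProp` does not depend on the cover: for
covers `p, p'` of `X` choose `h`, `h'` with `p' h = p`, `p h' = p'`; `ψ' : ker p' → M` extends to
`v ↦ ψ' (v - h h' v) + Φ (h' v)`, `Φ` an extension of `ψ' h` from `ker p`. (b) Claim: if
`Y × S^a ≅ (S ⊗ X) × S^b` with `X` finitely generated and `EA R X M`, then `ExtProp S Y (S ⊗ M)`,
and every kernel `Y'` of a cover of `Y` satisfies the same with a syzygy `Z` of `X` (Schanuel).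
`ExtProp` for `S ⊗ X`: `Hom_S(S ⊗ Z, S ⊗ M) = S ⊗ Hom_R(Z, M)` (`Z` finitely presented, `S`
flat; Mathlib: `Module.FinitePresentation`, `IsBaseChange` of `Hom`, or by hand with two rows of
free modules), and `Hom(F, M) → Hom(Z, M)` is surjective. -/
def St_FLE : Prop := ∀ (R S : Type) [CommRing R] [IsNoetherianRing R] [CommRing S]
  [IsNoetherianRing S] [Algebra R S] [Module.Flat R S] (X M : Type) [AddCommGroup X] [Module R X]
  [Module.Finite R X] [AddCommGroup M] [Module R M], EA R X M → EA S (S ⊗[R] X) (S ⊗[R] M)

/-- [FLG] Flat base change of generic freeness. -/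
def St_FLG : Prop := ∀ (R S : Type) [CommRing R] [CommRing S] [Algebra R S] [Module.Flat R S]
  (X : Type) [AddCommGroup X] [Module R X], GF R X → GF S (S ⊗[R] X)

/-- [FLD] Descent of freeness along a flat local homomorphism. Proof: a minimal cover
`p : R^n → M` (`ker p ⊆ max R^n`); `S ⊗ M` is free, of rank `n` (modulo the maximal ideal of `S`), so
`S^n → S ⊗ M` is an isomorphism (a surjection of free modules of the same rank), `S ⊗ ker p = 0`,
`ker p = 0` (a flat local homomorphism is faithfully flat). Or: faithfully flat descent of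
flatness, and finitely generated flat modules over a local ring are free. -/
def St_FLD : Prop := ∀ (R S : Type) [CommRing R] [IsLocalRing R] [IsNoetherianRing R]
  [CommRing S] [IsLocalRing S] [Algebra R S] [Module.Flat R S] [IsLocalHom (algebraMap R S)]
  (M : Type) [AddCommGroup M] [Module R M] [Module.Finite R M],
  Module.Free S (S ⊗[R] M) → Module.Free R M

/-- [ARF] (uses ARQr, `ARS.St_Ext`, SYZ, FRE, GFD, FLE, FLG, FLD) The final theorem. Proof: let
`Z` be the syzygy of `M`: `EA R Z Z`, `EA R Z R` (`ARS.extAll_of_EV`, `St_SYZ`), `GF R Z`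
(`St_GFD`); `S ⊗ Z` satisfies the hypotheses of `St_ARQr` (`S ⊗ R ≅ S`, `ARS.extAll_iso`), so it is
free, `Z` is free (`St_FLD`), `M` is free (`St_FRE`). -/
def St_ARF : Prop := ∀ (K R S : Type) [Field K] [CharZero K] [CommRing R] [IsDomain R]
  [IsLocalRing R] [IsNoetherianRing R] [CommRing S] [IsLocalRing S] [IsNoetherianRing S]
  [Algebra K S] [Algebra R S] [Module.Flat R S] [IsLocalHom (algebraMap R S)]
  (D : Derivation K S S) (L : List (S × ℕ)) (_ : QD K S D L), ARC R

end Pool.Agent.ARD
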