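import Pool.Agent.ARD.StG
import Pool.Agent.ARS.StN
import Pool.Agent.HWG.Defs

/-! Statements of the modules of ARD, part S: the differential principle, and `V[[G]]`, `G` a
symmetric numerical semigroup, `V` a complete discrete valuation ring of mixed characteristic with
residue field `K`: so `K[[G]] = V[[G]] / (p)` satisfies (ARC) also in characteristic `p`. Do not
change this file. -/

set_option autoImplicit false

namespace Pool.Agent.ARD

open ARS IsLocalRing TensorProduct

/-- [DIF] (uses `ARS.St_CON`, FLE, LCF, GPZ) The non-free locus of a rigid module is stable under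
derivations. Proof. Let `EA R M M`, `EA R M R`, `J = {s : s • id ∈ trm R M}` (an ideal). `J` is
stable: for a derivation `D` let `N` be a connection on `M` (`ARS.St_CON`; transport it to `M`);
for `φ = f.smulRight x` the commutator `N φ - φ N` is `f'.smulRight x + f.smulRight (N x)`,
`f' m = D (f m) - f (N m)`, so commutators map `trm R M` to itself, and the commutator with
`s • id` is `D s • id`. If `J = ⊤` then `id ∈ trm R M`, `M` is projective, free (as in ARY).
Otherwise `J ≤ q`; but `R_q ⊗ M` satisfies the hypotheses (`St_FLE`), so it is free, and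
`s • id ∈ trm R M` for some `s ∉ q` (`St_LCF`, `St_GPZ`): contradiction. -/
def St_DIF : Prop := ∀ (K R : Type) [Field K] [CommRing R] [IsLocalRing R] [IsNoetherianRing R]
  [Algebra K R] (q : Ideal R) [q.IsPrime],
  (∀ J : Ideal R, J ≠ ⊤ → (∀ D : Derivation K R R, ∀ a ∈ J, D a ∈ J) → J ≤ q) →
  ARCe (Localization.AtPrime q) → ARCe R

/-- [GLD] The length of the sequence is the dimension
(`ringKrullDim_add_length_eq_ringKrullDim_of_isRegular`; see `Pool/Agent/ARD/DIM.lean`). -/
def St_GLD : Prop := ∀ (R : Type) [CommRing R] [IsLocalRing R] [IsNoetherianRing R]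
  (xs : List R), GorL R xs →
  RingTheory.Sequence.IsRegular R xs ∧ ((xs.length : ℕ∞) : WithBot ℕ∞) = ringKrullDim R

/-- [LGO] Gorenstein rings lift: `xs` = lifts of `ys`; `R / (x, xs) = (R / x) / (ys)`. -/
def St_LGO : Prop := ∀ (R : Type) [CommRing R] [IsLocalRing R] [IsNoetherianRing R] (x : R)
  [IsLocalRing (R ⧸ Ideal.span {x})] (ys : List (R ⧸ Ideal.span {x})),
  x ∈ maximalIdeal R → (∀ r : R, x * r = 0 → r = 0) → GorL (R ⧸ Ideal.span {x}) ys →
  ∃ xs : List R, GorL R (x :: xs)

/-- [GIS] Isomorphisms. -/
def St_GIS : Prop := ∀ (R R' : Type) [CommRing R] [IsLocalRing R] [CommRing R'] [IsLocalRing R']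
  (e : R ≃+* R') (xs : List R), GorL R xs → GorL R' (xs.map e)

/-- power series over `V` with exponents in `G`; for a field `V` this is `HWG.SG.R` -/
def SV (S : HWG.SG) (V : Type) [CommRing V] : Subring (PowerSeries V) where
  carrier := {f | ∀ n, PowerSeries.coeff n f ≠ 0 → S.G n}
  zero_mem' := by
    intro n hn
    exact absurd (map_zero _) hn
  one_mem' := by
    intro n hn
    rw [PowerSeries.coeff_one] at hn
    split_ifs at hn with h
    · rw [h]; exact S.zero
    · exact absurd rfl hn
  add_mem' := by
    intro f g hf hg n hn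
    by_contra h
    apply hn
    have h1 : PowerSeries.coeff n f = 0 := by by_contra h1; exact h (hf n h1)
    have h2 : PowerSeries.coeff n g = 0 := by by_contra h2; exact h (hg n h2)
    rw [map_add, h1, h2, add_zero]
  neg_mem' := by
    intro f hf n hn
    apply hf n
    intro h
    apply hn
    rw [map_neg, h, neg_zero]
  mul_mem' := by
    intro f g hf hg n hn
    rw [PowerSeries.coeff_mul] at hn
    obtain ⟨p, hp, hne⟩ := Finset.exists_ne_zero_of_sum_ne_zero hn
    rw [← Finset.HasAntidiagonal.mem_antidiagonal.1 hp]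
    exact S.add _ _ (hf _ (left_ne_zero_of_mul hne)) (hg _ (right_ne_zero_of_mul hne))

/-- the constant term -/
noncomputable def ev (S : HWG.SG) (V : Type) [CommRing V] : SV S V →+* V :=
  (PowerSeries.constantCoeff (R := V)).comp (SV S V).subtype

/-- constants -/
noncomputable def cst (S : HWG.SG) (V : Type) [CommRing V] : V →+* SV S V :=
  (PowerSeries.C (R := V)).codRestrict (SV S V) (by
    intro v n hn
    rw [PowerSeries.coeff_C] at hn
    split_ifs at hn with h
    · rw [h]; exact S.zero
    · exact absurd rfl hn)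

/-- the ideal of the series with constant term zero -/
noncomputable def PV (S : HWG.SG) (V : Type) [CommRing V] : Ideal (SV S V) := RingHom.ker (ev S V)

/-- [SWN] Proof: a series in `V[[G]]` with a unit as constant term is a unit (the inverse in
`V[[X]]` has exponents in `G`, see `Pool/Agent/HWG/Unit.lean`); `V[[G]]` is a finite module over the
image of `V[[X]] → V[[X]]`, `X ↦ X ^ (F + 1)` (generated by the monomials of exponent
`≤ 2 F + 1`), which is Noetherian (Mathlib, `PowerSeries/Ideal.lean`). Or use Cohen's theorem as in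
`Pool/Agent/HWG/Noether.lean`, or `noeth_adic`. -/
def St_SWN : Prop := ∀ (S : HWG.SG) (V : Type) [CommRing V] [IsLocalRing V] [IsNoetherianRing V],
  ∃ (_ : IsLocalRing (SV S V)), IsNoetherianRing (SV S V) ∧
    ∀ f : SV S V, f ∈ maximalIdeal (SV S V) ↔ ev S V f ∈ maximalIdeal V

/-- [SWQ] Reduction of the coefficients. -/
def St_SWQ : Prop := ∀ (S : HWG.SG) (V K : Type) [CommRing V] [CommRing K] (r : V →+* K) (c : V),
  Function.Surjective r → RingHom.ker r = Ideal.span {c} →
  ∃ φ : SV S V →+* SV S K, Function.Surjective φ ∧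
    RingHom.ker φ = Ideal.span {cst S V c} ∧
    ∀ (f : SV S V) (n : ℕ), PowerSeries.coeff n (φ f : PowerSeries K) =
      r (PowerSeries.coeff n (f : PowerSeries V))

/-- [SWC] Completeness: coefficient by coefficient. -/
def St_SWC : Prop := ∀ (S : HWG.SG) (V : Type) [CommRing V] (c : V)
  [IsAdicComplete (Ideal.span {c}) V], IsAdicComplete (Ideal.span {cst S V c}) (SV S V)

/-- [SWP] The localisation at the prime of the series without constant term is quasi-homogeneous.
Proof: nonzero constants become units, so `Frac V` acts; `D f = X f'` on `V[[G]]`, extended to the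
localisation (see `Pool/Agent/ARD/Eul.lean`), is linear over `Frac V`. `L = [(X ^ (F+1), F+1)]`.
`max`, `fin`, `wt` by `St_QDF` (`Pool/Agent/ARD/QDF.lean`) for `G` = the monomials `X ^ g`,
`0 < g ≤ 2 F + 1`, `S.G g`, which generate `PV`. `res`: `f / s - f_0 / s_0 = (f s_0 - f_0 s) / (s s_0)`.
`irr` by `St_IRT` (`StH.lean`): put `y = X ^ (F+1)`; `y S_P ∩ S = y S` (`s f ∈ y S`, `s_0 ≠ 0` implies
`f ∈ y S`: look at the coefficients of index `n` with `¬ S.G (n - (F+1))` in increasing order); the
socle of `S_P / y` is generated by `u = X ^ (2 F + 1)`: if `P v ⊆ (y)`, `v ∈ S`, and the coefficient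
of `v` at `g` is not zero for some `g` with `S.G g`, `¬ S.G (g - (F+1))`, `g ≠ 2 F + 1`, then
`2 F + 1 - g` is in `G` and `X ^ (2 F + 1 - g) v ∈ (y)` has a nonzero coefficient at `2 F + 1`:
contradiction. -/
def St_SWP : Prop := ∀ (S : HWG.SG) (V : Type) [CommRing V] [IsDomain V] [CharZero V]
  [IsNoetherianRing V] [IsLocalRing V] (_ : (PV S V).IsPrime),
  ∃ (_ : Algebra (FractionRing V) (Localization.AtPrime (PV S V)))
    (D : Derivation (FractionRing V) (Localization.AtPrime (PV S V))
      (Localization.AtPrime (PV S V)))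
    (L : List (Localization.AtPrime (PV S V) × ℕ)),
    QD (FractionRing V) (Localization.AtPrime (PV S V)) D L

/-- [SWD] At the other primes `P` there are no stable ideals. Proof. `V` is local with residue
characteristic `p`, so every integer `≠ 0` is a unit in `S_P`. Let `J ≠ ⊤` be stable, `s ∈ J ∩ S`
not zero, `n` the least exponent of `s`, `a = s_n`. For `N > n` the operator
`∏_{n < i ≤ N} (D - i)`, `D f = X f'` (extended to `S_P`), maps `s` to
`± (N - n)! (a X ^ n + ∑_{i > N} ± (i - n - 1).choose (N - n) • s_i X ^ i)`: so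
`a X ^ n + X ^ (N+1) (..) ∈ J ∩ S` for all `N`, and `a X ^ n ∈ J ∩ S`, an intersection of
`J ∩ S + max ^ k` (Krull, `S` is Noetherian local). Hence `a X ^ n ∈ P`. `a` is a power of `p` times
a unit, so `X ^ n ∈ P`; `n ≠ 0` and then all `X ^ g ∈ P` (`(X ^ g) ^ n = (X ^ n) ^ g`), `PV ≤ P`,
so `P = PV`, because `PV ≠ 0` is prime and `P` has height one: contradiction. -/
def St_SWD : Prop := ∀ (S : HWG.SG) (V : Type) [CommRing V] [IsDomain V] [CharZero V]
  [IsDiscreteValuationRing V] (p : ℕ), Irreducible (p : V) →
  ∀ (P : Ideal (SV S V)) [P.IsPrime], P.height = 1 → (p : SV S V) ∉ P → P ≠ PV S V →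
  ∃ (_ : Algebra ℚ (Localization.AtPrime P)), ∀ J : Ideal (Localization.AtPrime P), J ≠ ⊤ →
    (∀ D : Derivation ℚ (Localization.AtPrime P) (Localization.AtPrime P), ∀ a ∈ J, D a ∈ J) →
    J = ⊥

/-- [SWL] Extension of the field of coefficients. Proof: `K[[y]] → L[[y]]` is flat (torsionfree
over a principal ideal domain), and `L[[G]] = L[[y]] ⊗ K[[G]]`, `y = X ^ (F+1)`: both are free over the
series in `y` with basis `X ^ g`, `S.G g`, `¬ S.G (g - (F+1))`. -/
def St_SWL : Prop := ∀ (S : HWG.SG) (K L : Type) [Field K] [Field L] (r : K →+* L),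
  ∃ (_ : Algebra (SV S K) (SV S L)), Module.Flat (SV S K) (SV S L) ∧
    ∀ (f : SV S K) (n : ℕ), PowerSeries.coeff n
      ((algebraMap (SV S K) (SV S L) f : SV S L) : PowerSeries L) =
      r (PowerSeries.coeff n (f : PowerSeries K))

theorem SV_eq (S : HWG.SG) (K : Type) [Field K] : SV S K = S.R K := rfl

end Pool.Agent.ARD
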