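import Pool.Agent.ARD.StN

/-! Module TREd of ARD: the trace part is the dual of the endomorphism module. -/

set_option autoImplicit false

namespace Pool.Agent.ARD

open ARS IsLocalRing

private theorem TREd_div {R E Q : Type} [CommRing R] [IsDomain R] [AddCommGroup E] [Module R E]
    [AddCommGroup Q] [Module R Q] (s : R) (hs : s ≠ 0) (L : E →ₗ[R] Q →ₗ[R] R)
    (hL : ∀ e q, s ∣ L e q) : ∃ B : E →ₗ[R] Q →ₗ[R] R, ∀ e q, L e q = s * B e q := by
  choose c hc using hL
  have hadd : ∀ e e' q, c (e + e') q = c e q + c e' q := by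
    intro e e' q
    apply mul_left_cancel₀ hs
    rw [mul_add, ← hc, ← hc, ← hc, map_add]
    rfl
  have hsm : ∀ (r : R) e q, c (r • e) q = r • c e q := by
    intro r e q
    apply mul_left_cancel₀ hs
    rw [← hc, map_smul, LinearMap.smul_apply, hc e q, smul_eq_mul, smul_eq_mul]
    ring
  have hadd2 : ∀ e q q', c e (q + q') = c e q + c e q' := by
    intro e q q'
    apply mul_left_cancel₀ hs
    rw [mul_add, ← hc, ← hc, ← hc, map_add]
  have hsm2 : ∀ (r : R) e q, c e (r • q) = r • c e q := by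
    intro r e q
    apply mul_left_cancel₀ hs
    rw [← hc, map_smul, hc e q, smul_eq_mul, smul_eq_mul]
    ring
  exact ⟨LinearMap.mk₂ R c hadd hsm hadd2 hsm2, fun e q => hc e q⟩

private theorem TREd_ext {R X : Type} [CommRing R] [AddCommGroup X] [Module R X]
    (T : Submodule R (X →ₗ[R] X))
    (hT : T = Submodule.span R {φ : X →ₗ[R] X | ∃ (f : X →ₗ[R] R) (x : X), φ = f.smulRight x})
    (g h : T →ₗ[R] R) (H : ∀ (f : X →ₗ[R] R) (x : X) (hm : f.smulRight x ∈ T),
      g ⟨f.smulRight x, hm⟩ = h ⟨f.smulRight x, hm⟩) : g = h := by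
  rw [Submodule.linearMap_eq_iff_of_eq_span _ _ hT]
  rintro ⟨_, f, x, rfl⟩
  exact H f x _

/-- the pairing, and its bijectivity on one side -/
private theorem TREd_core {R X : Type} [CommRing R] [IsDomain R] [AddCommGroup X] [Module R X]
    (T : Submodule R (X →ₗ[R] X))
    (hT : T = Submodule.span R {φ : X →ₗ[R] X | ∃ (f : X →ₗ[R] R) (x : X), φ = f.smulRight x})
    (s : R) (hs : s ≠ 0) (hsT : s • (LinearMap.id : X →ₗ[R] X) ∈ T)
    (hX : ∀ x : X, (∀ g : X →ₗ[R] R, g x = 0) → x = 0)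
    (hS : ∀ θ : (X →ₗ[R] X) →ₗ[R] R, ∃ (n : ℕ) (f : Fin n → X →ₗ[R] R) (x : Fin n → X),
      ∀ e : X →ₗ[R] X, θ e = ∑ i, f i (e (x i))) :
    ∃ e : T ≃ₗ[R] ((X →ₗ[R] X) →ₗ[R] R), ∀ (a : X →ₗ[R] X) (f : X →ₗ[R] R) (x : X)
      (h : f.smulRight x ∈ T), e ⟨f.smulRight x, h⟩ a = f (a x) := by
  have hmem : ∀ (f : X →ₗ[R] R) (x : X), f.smulRight x ∈ T := fun f x => by
    rw [hT]
    exact Submodule.subset_span ⟨f, x, rfl⟩
  -- a functional which is `s` times the trace
  have htr : ∃ t : (X →ₗ[R] X) →ₗ[R] R, ∀ (f : X →ₗ[R] R) (x : X),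
      t (f.smulRight x) = s * f x := by
    have key : ∀ τ ∈ Submodule.span R {φ : X →ₗ[R] X | ∃ (f : X →ₗ[R] R) (x : X),
        φ = f.smulRight x}, ∃ t : (X →ₗ[R] X) →ₗ[R] R, ∀ (f : X →ₗ[R] R) (x : X),
          t (f.smulRight x) = f (τ x) := by
      intro τ hτ
      induction hτ using Submodule.span_induction with
      | mem φ hφ =>
        obtain ⟨g, a, rfl⟩ := hφ
        refine ⟨g ∘ₗ (LinearMap.applyₗ a), fun f x => ?_⟩
        simp [mul_comm]
      | zero => exact ⟨0, fun f x => by simp⟩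
      | add φ ψ _ _ h1 h2 =>
        obtain ⟨t1, h1⟩ := h1
        obtain ⟨t2, h2⟩ := h2
        exact ⟨t1 + t2, fun f x => by simp [h1, h2]⟩
      | smul r φ _ h1 =>
        obtain ⟨t1, h1⟩ := h1
        exact ⟨r • t1, fun f x => by simp [h1]⟩
    rw [hT] at hsT
    obtain ⟨t, ht⟩ := key _ hsT
    exact ⟨t, fun f x => by rw [ht]; simp⟩
  obtain ⟨t, ht⟩ := htr
  -- the pairing
  let L : (X →ₗ[R] X) →ₗ[R] T →ₗ[R] R :=
    LinearMap.mk₂ R (fun e τ => t (e ∘ₗ τ.1)) (fun e e' τ => by
        rw [LinearMap.add_comp, map_add]) (fun r e τ => by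
        rw [LinearMap.smul_comp, map_smul]) (fun e τ τ' => by
        rw [Submodule.coe_add, LinearMap.comp_add, map_add]) (fun r e τ => by
        rw [Submodule.coe_smul, LinearMap.comp_smul, map_smul])
  have hcomp : ∀ (e : X →ₗ[R] X) (f : X →ₗ[R] R) (x : X),
      e ∘ₗ f.smulRight x = f.smulRight (e x) := by
    intro e f x
    ext v
    simp
  have hL : ∀ e τ, s ∣ L e τ := by
    rintro e ⟨τ, hτ⟩
    change s ∣ t (e ∘ₗ τ)
    rw [hT] at hτ
    induction hτ using Submodule.span_induction with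
    | mem φ hφ =>
      obtain ⟨f, x, rfl⟩ := hφ
      rw [hcomp, ht]
      exact dvd_mul_right _ _
    | zero => simp
    | add φ ψ _ _ h1 h2 =>
      rw [LinearMap.comp_add, map_add]
      exact dvd_add h1 h2
    | smul r φ _ h1 =>
      rw [LinearMap.comp_smul, map_smul, smul_eq_mul]
      exact h1.mul_left _
  obtain ⟨B, hB⟩ := TREd_div s hs L hL
  have hBf : ∀ (a : X →ₗ[R] X) (f : X →ₗ[R] R) (x : X) (h : f.smulRight x ∈ T),
      B a ⟨f.smulRight x, h⟩ = f (a x) := by
    intro a f x h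
    apply mul_left_cancel₀ hs
    rw [← hB]
    change t (a ∘ₗ f.smulRight x) = _
    rw [hcomp, ht]
  have hBg : ∀ (g : X →ₗ[R] R) (y : X) (τ : T), B (g.smulRight y) τ = g (τ.1 y) := by
    intro g y
    have h : B (g.smulRight y) = (g ∘ₗ LinearMap.applyₗ y) ∘ₗ T.subtype := by
      refine TREd_ext T hT _ _ ?_
      intro f x hm
      rw [hBf]
      show f (g x • y) = g (f y • x)
      rw [map_smul, map_smul, smul_eq_mul, smul_eq_mul, mul_comm]
    intro τ
    rw [h]
    rfl
  have hinj : Function.Injective B.flip := by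
    rw [injective_iff_map_eq_zero]
    intro τ hτ
    apply Subtype.ext
    refine LinearMap.ext fun y => ?_
    refine hX _ fun g => ?_
    rw [← hBg g y τ]
    exact LinearMap.congr_fun hτ (g.smulRight y)
  have hsurj : Function.Surjective B.flip := by
    intro θ
    obtain ⟨n, f, x, h⟩ := hS θ
    refine ⟨∑ i, ⟨(f i).smulRight (x i), hmem (f i) (x i)⟩, ?_⟩
    refine LinearMap.ext fun e => ?_
    rw [LinearMap.flip_apply, map_sum, h]
    exact Finset.sum_congr rfl fun i _ => hBf e (f i) (x i) _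
  exact ⟨LinearEquiv.ofBijective B.flip ⟨hinj, hsurj⟩, fun a f x h => hBf a f x h⟩

/-- the representation of functionals on `End X` -/
private theorem TREd_rep {R X : Type} [CommRing R] [IsLocalRing R] [IsNoetherianRing R]
    [AddCommGroup X] [Module R X] [Module.Finite R X]
    (hHMR : St_HMR) (hESA : St_ESA) (hEXE : St_EXE) (xs : List R) (hG : GorL R xs)
    (hX : Rg R xs X) (hE : EA R X X) (θ : (X →ₗ[R] X) →ₗ[R] R) :
    ∃ (n : ℕ) (f : Fin n → X →ₗ[R] R) (x : Fin n → X),
      ∀ e : X →ₗ[R] X, θ e = ∑ i, f i (e (x i)) := by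
  obtain ⟨n, p, hp⟩ := Module.Finite.exists_fin' R X
  have h1 : ExtProp R X X := (hE 1).1
  have hZ : EA R (LinearMap.ker p) X := fun k => (hE (k + 1)).2 n p hp
  have hreg : Rg R xs (LinearMap.ker p →ₗ[R] X) := (hHMR R xs (LinearMap.ker p) X hX hZ).1
  have hext : ExtProp R (LinearMap.ker p →ₗ[R] X) R := hESA R xs hG _ hreg
  let F : (X →ₗ[R] X) →ₗ[R] ((Fin n → R) →ₗ[R] X) := LinearMap.lcomp R X p
  let G : ((Fin n → R) →ₗ[R] X) →ₗ[R] (LinearMap.ker p →ₗ[R] X) :=
    LinearMap.lcomp R X (LinearMap.ker p).subtype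
  have hF : Function.Injective F := by
    intro a b hab
    refine LinearMap.ext fun v => ?_
    obtain ⟨w, rfl⟩ := hp v
    exact LinearMap.congr_fun hab w
  have hGs : Function.Surjective G := by
    intro ψ
    obtain ⟨φ, hφ⟩ := h1 n p hp ψ
    exact ⟨φ, LinearMap.ext fun k => hφ k⟩
  have hex : ∀ v, G v = 0 ↔ ∃ u, F u = v := by
    intro v
    constructor
    · intro hv
      have hk : LinearMap.ker p ≤ LinearMap.ker v := by
        intro w hw
        exact LinearMap.congr_fun hv (⟨w, hw⟩ : LinearMap.ker p)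
      refine ⟨(LinearMap.ker p).liftQ v hk ∘ₗ
        (p.quotKerEquivOfSurjective hp).symm.toLinearMap, ?_⟩
      refine LinearMap.ext fun w => ?_
      show (LinearMap.ker p).liftQ v hk ((p.quotKerEquivOfSurjective hp).symm (p w)) = v w
      have h2 : (p.quotKerEquivOfSurjective hp).symm (p w) = (LinearMap.ker p).mkQ w := by
        rw [LinearEquiv.symm_apply_eq]
        rfl
      rw [h2]
      rfl
    · rintro ⟨u, rfl⟩
      refine LinearMap.ext fun k => ?_
      show u (p k.1) = 0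
      rw [show p k.1 = 0 from k.2, map_zero]
  obtain ⟨Θ, hΘ⟩ := hEXE R (X →ₗ[R] X) ((Fin n → R) →ₗ[R] X) (LinearMap.ker p →ₗ[R] X) R F G
    hF hGs hex hext θ
  let f : Fin n → X →ₗ[R] R := fun i =>
    { toFun := fun x => Θ ((LinearMap.proj i : (Fin n → R) →ₗ[R] R).smulRight x)
      map_add' := fun x y => by
        rw [← map_add]
        congr 1
        refine LinearMap.ext fun v => ?_
        show v i • (x + y) = v i • x + v i • y
        rw [smul_add]
      map_smul' := fun r x => by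
        rw [RingHom.id_apply, ← map_smul]
        congr 1
        refine LinearMap.ext fun v => ?_
        show v i • (r • x) = r • (v i • x)
        rw [smul_comm] }
  refine ⟨n, f, fun i => p (Pi.single i 1), fun e => ?_⟩
  have h3 : F e = ∑ i, (LinearMap.proj i : (Fin n → R) →ₗ[R] R).smulRight
      (e (p (Pi.single i 1))) := by
    refine LinearMap.ext fun v => ?_
    rw [LinearMap.sum_apply]
    show e (p v) = ∑ i, v i • e (p (Pi.single i 1))
    have h4 : v = ∑ i, v i • (Pi.single i 1 : Fin n → R) := pi_eq_sum_univ' v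
    calc e (p v) = e (p (∑ i, v i • (Pi.single i 1 : Fin n → R))) := by rw [← h4]
      _ = ∑ i, v i • e (p (Pi.single i 1)) := by
        rw [map_sum, map_sum]
        refine Finset.sum_congr rfl fun i _ => ?_
        rw [map_smul, map_smul]
  rw [← hΘ e, h3, map_sum]
  rfl

theorem thm_TREd (hGFR : St_GFR) (hHMR : St_HMR) (hESA : St_ESA) (hEXE : St_EXE) : St_TREd := by
  intro K R _ _ _ _ _ _ D L hQ M hfin hreg hTF hE hT
  haveI : Module.Finite R M.X := hfin
  obtain ⟨s, q, p, j, hs, hj⟩ := hGFR R M.X hTF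
  have hmem : ∀ (f : M.X →ₗ[R] R) (x : M.X), f.smulRight x ∈ trc M := fun f x =>
    Submodule.subset_span ⟨f, x, rfl⟩
  have hsT : s • (LinearMap.id : M.X →ₗ[R] M.X) ∈ trc M := by
    have e : s • (LinearMap.id : M.X →ₗ[R] M.X) =
        ∑ i, (((LinearMap.proj i : (Fin q → R) →ₗ[R] R).comp p).smulRight
          (j (Pi.single i 1)) : M.X →ₗ[R] M.X) := by
      refine LinearMap.ext fun v => ?_
      rw [LinearMap.sum_apply]
      show s • v = ∑ i, p v i • j (Pi.single i 1)
      rw [← hj v]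
      have h4 : p v = ∑ i, p v i • (Pi.single i 1 : Fin q → R) := pi_eq_sum_univ' (p v)
      calc j (p v) = j (∑ i, p v i • (Pi.single i 1 : Fin q → R)) := by rw [← h4]
        _ = ∑ i, p v i • j (Pi.single i 1) := by
          rw [map_sum]
          exact Finset.sum_congr rfl fun i _ => by rw [map_smul]
    rw [e]
    exact Submodule.sum_mem _ fun i _ => hmem _ _
  have hX : ∀ x : M.X, (∀ g : M.X →ₗ[R] R, g x = 0) → x = 0 := by
    intro x hx
    have h0 : p x = 0 := by
      funext i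
      exact hx ((LinearMap.proj i : (Fin q → R) →ₗ[R] R).comp p)
    have h1 : s • x = 0 := by rw [← hj x, h0, map_zero]
    exact (hTF s x h1).resolve_left hs
  obtain ⟨e, he⟩ := TREd_core (R := R) (X := M.X) (trc M) rfl s hs hsT hX
    (TREd_rep hHMR hESA hEXE (el L) hQ.gor hreg hE)
  -- compatibility with the connections
  have key : ∀ (a : M.X →ₗ[R] M.X) (u : trc M),
      e ⟨(M.hom M).N u.1, hT _ u.2⟩ a = D (e u a) - e u ((M.hom M).N a) := by
    intro a
    let P : (trc M →ₗ[R] R) := 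
      (((M.hom M).sub (trc M) hT).hom (NM.one D)).N
        ((LinearMap.applyₗ a ∘ₗ e.toLinearMap : trc M →ₗ[R] R))
    have hP : P = (LinearMap.applyₗ ((M.hom M).N a : M.X →ₗ[R] M.X) ∘ₗ e.toLinearMap :
        trc M →ₗ[R] R) := by
      refine TREd_ext (R := R) (X := M.X) (trc M) rfl _ _ ?_
      intro f x hm
      let f' : M.X →ₗ[R] R := ((M.hom (NM.one D)).N f : M.X →ₗ[R] R)
      have hf' : ∀ v, f' v = D (f v) - f (M.N v) := fun v => rfl
      have hN : ∀ (h : (M.hom M).N (f.smulRight x) ∈ trc M),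
          (⟨(M.hom M).N (f.smulRight x), h⟩ : trc M) =
            ⟨f'.smulRight x, hmem f' x⟩ + ⟨f.smulRight (M.N x), hmem f (M.N x)⟩ := by
        intro h
        apply Subtype.ext
        apply LinearMap.ext
        intro v
        change M.N (f v • x) - f (M.N v) • x = f' v • x + f v • M.N x
        rw [M.leib, hf', sub_smul]
        abel
      have h1 : e ⟨(M.hom M).N (f.smulRight x), hT _ (hmem f x)⟩ a =
          f' (a x) + f (a (M.N x)) := by
        refine (congrArg (fun z : trc M => e z a) (hN (hT _ (hmem f x)))).trans ?_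
        refine (congrArg (fun z : (M.X →ₗ[R] M.X) →ₗ[R] R => z a) (e.map_add _ _)).trans ?_
        exact congrArg₂ (· + ·) (he a f' x _) (he a f (M.N x) _)
      change D (e ⟨f.smulRight x, _⟩ a) - e ⟨(M.hom M).N (f.smulRight x), _⟩ a =
        e ⟨f.smulRight x, _⟩ ((M.hom M).N a : M.X →ₗ[R] M.X)
      rw [h1, he, he, hf']
      change _ = f (M.N (a x) - a (M.N x))
      rw [map_sub]
      abel
    intro u
    have h2 : P u = e u ((M.hom M).N a) := LinearMap.congr_fun hP u
    have h3 : P u = D (e u a) - e ⟨(M.hom M).N u.1, hT _ u.2⟩ a := rfl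
    rw [← h2, h3]
    abel
  refine ⟨e, fun u => ?_⟩
  refine LinearMap.ext fun a => ?_
  exact key a u

end Pool.Agent.ARD
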