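import Pool.Agent.ARD.StN

/-!
# [WTB] Weights of quotients of `I ^ k A`
-/

set_option autoImplicit false

namespace Pool.Agent.ARD

open ARS IsLocalRing

variable {K R : Type} [Field K] [CommRing R] [Algebra K R] {D : Derivation K R R}

private theorem WTB_pow {I : Ideal R} (hI : ∀ a ∈ I, D a ∈ I) (k : ℕ) :
    ∀ a ∈ I ^ k, D a ∈ I ^ k := by
  induction k with
  | zero =>
    intro a _
    rw [pow_zero, Ideal.one_eq_top]
    trivial
  | succ k ih =>
    intro a ha
    rw [pow_succ'] at ha ⊢
    refine Submodule.mul_induction_on ha ?_ ?_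
    · intro x hx y hy
      rw [D.leibniz, smul_eq_mul, smul_eq_mul]
      refine add_mem (Ideal.mul_mem_mul hx (ih y hy)) ?_
      rw [mul_comm y]
      exact Ideal.mul_mem_mul (hI x hx) hy
    · intro x y hx hy
      rw [map_add]
      exact add_mem hx hy

/-- the elements of `I (I ^ k X)` -/
private theorem WTB_lev {X : Type} [AddCommGroup X] [Module R X] (I : Ideal R) (k : ℕ)
    (z : (I ^ k • ⊤ : Submodule R X)) :
    z ∈ (I • ⊤ : Submodule R (I ^ k • ⊤ : Submodule R X)) ↔
      (z : X) ∈ (I ^ (k + 1) • ⊤ : Submodule R X) := by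
  have h1 : (I • ⊤ : Submodule R (I ^ k • ⊤ : Submodule R X)).map
      (I ^ k • ⊤ : Submodule R X).subtype = I ^ (k + 1) • ⊤ := by
    rw [Submodule.map_smul'', Submodule.map_top, Submodule.range_subtype, pow_succ',
      ← Submodule.smul_assoc]
    rfl
  rw [← h1]
  constructor
  · intro hz
    exact ⟨z, hz, rfl⟩
  · rintro ⟨z', hz', h2⟩
    have h3 : z' = z := Subtype.ext h2
    rwa [← h3]

private theorem WTB_cf (f g : GR K) (a : AlgebraicClosure K) : cf (f + g) a = cf f a + cf g a := by
  unfold cf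
  rfl

/-- weights of an extension -/
private theorem WTB_split (hADD : ARS.St_ADD) (Q : NM D) (hQ : Module.Finite K Q.X)
    (S : Submodule R Q.X) (hS : ∀ x ∈ S, Q.N x ∈ S) :
    Module.Finite K (Q.sub S hS).X ∧ Module.Finite K (Q.quo S hS).X ∧
      Q.ch = (Q.sub S hS).ch + (Q.quo S hS).ch := by
  have h1 : ExK (Q.sub S hS).N Q.N (Q.quo S hS).N := by
    refine ⟨S.subtype.restrictScalars K, S.mkQ.restrictScalars K, S.injective_subtype,
      S.mkQ_surjective, ?_, fun _ => rfl, fun _ => rfl⟩
    intro v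
    constructor
    · intro hv
      have h2 : S.mkQ v = 0 := hv
      have h3 : v ∈ S := (Submodule.Quotient.mk_eq_zero S).1 h2
      exact ⟨⟨v, h3⟩, rfl⟩
    · rintro ⟨u, rfl⟩
      exact (Submodule.Quotient.mk_eq_zero S).2 u.2
  obtain ⟨h2, h3, h4⟩ := (hADD.2 K _ _ _ _ _ _ h1).1 hQ
  exact ⟨h2, h3, h4⟩

/-- weights of a quotient -/
private theorem WTB_quot (hADD : ARS.St_ADD) (hNON : ARS.St_NON) (P Q : NM D)
    (hP : Module.Finite K P.X) (f : P.X →ₗ[R] Q.X) (hf : Function.Surjective f)
    (hN : ∀ x, f (P.N x) = Q.N (f x)) (ν : AlgebraicClosure K) (hν : cf Q.ch ν ≠ 0) :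
    cf P.ch ν ≠ 0 := by
  have hS : ∀ x ∈ LinearMap.ker f, P.N x ∈ LinearMap.ker f := by
    intro x hx
    rw [LinearMap.mem_ker] at hx ⊢
    rw [hN, hx, map_zero]
  have h1 : ExK (P.sub (LinearMap.ker f) hS).N P.N Q.N := by
    refine ⟨(LinearMap.ker f).subtype.restrictScalars K, f.restrictScalars K,
      (LinearMap.ker f).injective_subtype, hf, ?_, fun _ => rfl, hN⟩
    intro v
    constructor
    · intro hv
      exact ⟨⟨v, LinearMap.mem_ker.2 hv⟩, rfl⟩
    · rintro ⟨u, rfl⟩
      exact LinearMap.mem_ker.1 u.2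
  obtain ⟨h2, h3, h4⟩ := (hADD.2 K _ _ _ _ _ _ h1).1 hP
  have h5 : P.ch = (P.sub (LinearMap.ker f) hS).ch + Q.ch := h4
  rw [h5, WTB_cf]
  have h6 := (hNON K (P.sub (LinearMap.ker f) hS).X Q.X (P.sub (LinearMap.ker f) hS).N Q.N).1 ν
  have h7 := (hNON K Q.X Q.X Q.N Q.N).1 ν
  have h8 : 0 ≤ cf (P.sub (LinearMap.ker f) hS).ch ν := h6
  have h9 : 0 ≤ cf Q.ch ν := h7
  omega

/-- isomorphic modules have the same weights modulo `I` -/
private theorem WTB_iso (hNON : ARS.St_NON) {I : Ideal R} (hI : ∀ a ∈ I, D a ∈ I) (P A : NM D)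
    (hP : Module.Finite K (rd P hI).X) (e : P.X ≃ₗ[R] A.X) (he : ∀ x, e (P.N x) = A.N (e x)) :
    (rd A hI).ch = (rd P hI).ch := by
  have h1 : (I • ⊤ : Submodule R P.X).map (e : P.X →ₗ[R] A.X) = (I • ⊤ : Submodule R A.X) := by
    rw [Submodule.map_smul'', Submodule.map_top, LinearMap.range_eq_top.2 e.surjective]
  let E : (rd P hI).X ≃ₗ[R] (rd A hI).X := Submodule.Quotient.equiv _ _ e h1
  refine (hNON K (rd P hI).X (rd A hI).X (rd P hI).N (rd A hI).N).2.2.2.2.2
    (E.restrictScalars K) ?_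
  intro v
  obtain ⟨v, rfl⟩ := (I • ⊤ : Submodule R P.X).mkQ_surjective v
  show (I • ⊤ : Submodule R A.X).mkQ (e (P.N v)) = (I • ⊤ : Submodule R A.X).mkQ (A.N (e v))
  rw [he]

private theorem WTB_C [IsLocalRing R] [IsNoetherianRing R] (hWTA : St_WTA) (hRFNd : St_RFNd)
    (hNON : ARS.St_NON) {L : List (R × ℕ)} (h : QD K R D L) (A : NM D)
    (hA : Module.Finite R A.X) (k : ℕ) :
    ∀ (P : NM D) (i : P.X →ₗ[R] A.X), Function.Injective i → (∀ x, i (P.N x) = A.N (i x)) →
      LinearMap.range i = (idl L ^ k • ⊤ : Submodule R A.X) →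
      ∀ ν, cf (rd P h.stab).ch ν ≠ 0 → ∃ (l : AlgebraicClosure K) (k' : ℕ), k ≤ k' ∧
        cf (rd A h.stab).ch l ≠ 0 ∧ ν = l + (k' : AlgebraicClosure K) := by
  have hnoeth : IsNoetherian R A.X := isNoetherian_of_isNoetherianRing_of_finite R A.X
  induction k with
  | zero =>
    intro P i hi hN hr ν hν
    have hsurj : Function.Surjective i := by
      rw [← LinearMap.range_eq_top, hr, pow_zero, Ideal.one_eq_top, Submodule.top_smul]
    have hP : Module.Finite R P.X := Module.Finite.of_injective i hi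
    have hP2 : Module.Finite K (rd P h.stab).X :=
      (hRFNd K R D (idl L) h.stab h.fin P A).1 hP
    refine ⟨ν, 0, le_rfl, ?_, by simp⟩
    rw [WTB_iso hNON h.stab P A hP2 (LinearEquiv.ofBijective i ⟨hi, hsurj⟩) hN]
    exact hν
  | succ k ih =>
    intro P i hi hN hr ν hν
    have hP : Module.Finite R P.X := Module.Finite.of_injective i hi
    have hP2 : Module.Finite K (rd P h.stab).X :=
      (hRFNd K R D (idl L) h.stab h.fin P A).1 hP
    let M : Submodule R A.X := idl L ^ k • ⊤
    have hst : ∀ x ∈ M, A.N x ∈ M := stable_I A (WTB_pow h.stab k)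
    let P' : NM D := A.sub M hst
    have hP' : Module.Finite R P'.X := by
      have h2 : IsNoetherian R M := inferInstance
      exact (inferInstance : Module.Finite R M)
    -- the projection
    let E := LinearEquiv.ofInjective i hi
    have hmem : ∀ z : (idl L • ⊤ : Submodule R M), ((z : M) : A.X) ∈ LinearMap.range i := by
      intro z
      rw [hr]
      exact (WTB_lev (idl L) k z.1).1 z.2
    let φ : (idl L • ⊤ : Submodule R M) →ₗ[R] P.X :=
      E.symm.toLinearMap ∘ₗ
        (M.subtype ∘ₗ (idl L • ⊤ : Submodule R M).subtype).codRestrict (LinearMap.range i) hmem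
    have hφ : ∀ z, i (φ z) = ((z : M) : A.X) := by
      intro z
      have h1 : E (φ z) = ⟨((z : M) : A.X), hmem z⟩ := E.apply_symm_apply _
      have h2 := congrArg Subtype.val h1
      exact h2
    let g : (P'.sub (idl L • ⊤) (stable_I P' h.stab)).X →ₗ[R] (rd P h.stab).X :=
      (idl L • ⊤ : Submodule R P.X).mkQ ∘ₗ φ
    have hg : Function.Surjective g := by
      intro q
      obtain ⟨p, rfl⟩ := (idl L • ⊤ : Submodule R P.X).mkQ_surjective q
      have h1 : i p ∈ (idl L ^ (k + 1) • ⊤ : Submodule R A.X) := by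
        rw [← hr]
        exact ⟨p, rfl⟩
      have h2 : i p ∈ M := by
        have h3 : (idl L ^ (k + 1) • ⊤ : Submodule R A.X) ≤ M :=
          Submodule.smul_mono_left (Ideal.pow_le_pow_right (Nat.le_succ k))
        exact h3 h1
      have h3 : (⟨i p, h2⟩ : M) ∈ (idl L • ⊤ : Submodule R M) :=
        (WTB_lev (idl L) k ⟨i p, h2⟩).2 h1
      refine ⟨⟨⟨i p, h2⟩, h3⟩, ?_⟩
      have h4 : φ ⟨⟨i p, h2⟩, h3⟩ = p := hi (hφ _)
      show (idl L • ⊤ : Submodule R P.X).mkQ (φ ⟨⟨i p, h2⟩, h3⟩) = _
      rw [h4]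
    have hgN : ∀ x, g ((P'.sub (idl L • ⊤) (stable_I P' h.stab)).N x) =
        (rd P h.stab).N (g x) := by
      intro x
      have h1 : φ ((P'.sub (idl L • ⊤) (stable_I P' h.stab)).N x) = P.N (φ x) := by
        apply hi
        rw [hN]
        have h2 := hφ ((P'.sub (idl L • ⊤) (stable_I P' h.stab)).N x)
        refine h2.trans ?_
        rw [hφ x]
        rfl
      show (idl L • ⊤ : Submodule R P.X).mkQ (φ ((P'.sub (idl L • ⊤) (stable_I P' h.stab)).N x)) =
        (idl L • ⊤ : Submodule R P.X).mkQ (P.N (φ x))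
      rw [h1]
    have hkill : ∀ a ∈ idl L, ∀ q : (rd P h.stab).X, a • q = 0 := by
      intro a ha q
      obtain ⟨p, rfl⟩ := (idl L • ⊤ : Submodule R P.X).mkQ_surjective q
      show (idl L • ⊤ : Submodule R P.X).mkQ (a • p) = 0
      exact (Submodule.Quotient.mk_eq_zero _).2 (Submodule.smul_mem_smul ha trivial)
    obtain ⟨l, k0, hk0, hl, hνl⟩ := hWTA K R D L h P' (rd P h.stab) hP' hP2 hkill g hg hgN ν hν
    obtain ⟨l', k', hk', hl', hll⟩ := ih P' M.subtype M.injective_subtype (fun _ => rfl)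
      M.range_subtype l hl
    refine ⟨l', k' + k0, by omega, hl', ?_⟩
    rw [hνl, hll]
    push_cast
    ring

theorem thm_WTB (hWTA : St_WTA) (hRFNd : St_RFNd) (hADD : ARS.St_ADD) (hNON : ARS.St_NON) :
    St_WTB := by
  intro K R _ _ _ _ _ D L h A Q hA hQ
  have hnoeth : IsNoetherian R A.X := isNoetherian_of_isNoetherianRing_of_finite R A.X
  have main : ∀ (N : ℕ) (Q : NM D), Module.Finite K Q.X → Module.finrank K Q.X ≤ N →
      ∀ (k : ℕ) (g : (idl L ^ k • ⊤ : Submodule R A.X) →ₗ[R] Q.X), Function.Surjective g →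
      (∀ x y : (idl L ^ k • ⊤ : Submodule R A.X), (y : A.X) = A.N x → g y = Q.N (g x)) →
      ∀ ν, cf Q.ch ν ≠ 0 → ∃ (l : AlgebraicClosure K) (k' : ℕ), k ≤ k' ∧
        cf (rd A h.stab).ch l ≠ 0 ∧ ν = l + (k' : AlgebraicClosure K) := by
    intro N
    induction N with
    | zero =>
      intro Q hQ hN k g hg hgN ν hν
      have h1 : Subsingleton Q.X :=
        Module.finrank_zero_iff.1 (Nat.le_zero.1 hN)
      have h2 := (hNON K Q.X Q.X Q.N Q.N).2.2.2.1 h1
      have h3 : Q.ch = 0 := h2
      rw [h3] at hν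
      exact absurd rfl hν
    | succ N ih =>
      intro Q hQ hN k g hg hgN ν hν
      obtain ⟨f1, f2, f3⟩ := WTB_split hADD Q hQ (idl L • ⊤) (stable_I Q h.stab)
      rw [f3, WTB_cf] at hν
      by_cases hq : cf (Q.quo (idl L • ⊤) (stable_I Q h.stab)).ch ν = 0
      · -- a weight of `I Q`
        have hs : cf (Q.sub (idl L • ⊤) (stable_I Q h.stab)).ch ν ≠ 0 := by
          rw [hq, add_zero] at hν
          exact hν
        have hQR : Module.Finite R Q.X := Module.Finite.of_restrictScalars_finite K R Q.X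
        have hne : (idl L • ⊤ : Submodule R Q.X) ≠ ⊤ := by
          intro htop
          have h1 : Subsingleton (rd Q h.stab).X := by
            refine ⟨fun a b => ?_⟩
            obtain ⟨a, rfl⟩ := (idl L • ⊤ : Submodule R Q.X).mkQ_surjective a
            obtain ⟨b, rfl⟩ := (idl L • ⊤ : Submodule R Q.X).mkQ_surjective b
            refine (Submodule.Quotient.eq _).2 ?_
            rw [htop]
            trivial
          have h2 := (hRFNd K R D (idl L) h.stab h.fin Q A).2.2 h.le hQR h1
          have h3 : Subsingleton (Q.sub (idl L • ⊤) (stable_I Q h.stab)).X := by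
            refine ⟨fun a b => Subtype.ext (Subsingleton.elim _ _)⟩
          have h4 := (hNON K _ _ (Q.sub (idl L • ⊤) (stable_I Q h.stab)).N
            (Q.sub (idl L • ⊤) (stable_I Q h.stab)).N).2.2.2.1 h3
          have h5 : (Q.sub (idl L • ⊤) (stable_I Q h.stab)).ch = 0 := h4
          rw [h5] at hs
          exact hs rfl
        have hlt : Module.finrank K (Q.sub (idl L • ⊤) (stable_I Q h.stab)).X <
            Module.finrank K Q.X := by
          have h1 : ((idl L • ⊤ : Submodule R Q.X).restrictScalars K) ≠ ⊤ := by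
            intro h2
            apply hne
            rw [Submodule.restrictScalars_eq_top_iff] at h2
            exact h2
          exact Submodule.finrank_lt h1
        have hmem : ∀ x : (idl L ^ (k + 1) • ⊤ : Submodule R A.X),
            (x : A.X) ∈ (idl L ^ k • ⊤ : Submodule R A.X) := by
          intro x
          have h3 : (idl L ^ (k + 1) • ⊤ : Submodule R A.X) ≤ idl L ^ k • ⊤ :=
            Submodule.smul_mono_left (Ideal.pow_le_pow_right (Nat.le_succ k))
          exact h3 x.2
        have hmap : (idl L • ⊤ : Submodule R (idl L ^ k • ⊤ : Submodule R A.X)).map g =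
            (idl L • ⊤ : Submodule R Q.X) := by
          rw [Submodule.map_smul'', Submodule.map_top, LinearMap.range_eq_top.2 hg]
        let ι : (idl L ^ (k + 1) • ⊤ : Submodule R A.X) →ₗ[R]
            (idl L ^ k • ⊤ : Submodule R A.X) :=
          (idl L ^ (k + 1) • ⊤ : Submodule R A.X).subtype.codRestrict _ hmem
        have hιm : ∀ x, g (ι x) ∈ (idl L • ⊤ : Submodule R Q.X) := by
          intro x
          rw [← hmap]
          exact ⟨ι x, (WTB_lev (idl L) k (ι x)).2 x.2, rfl⟩
        let g' : (idl L ^ (k + 1) • ⊤ : Submodule R A.X) →ₗ[R]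
            (Q.sub (idl L • ⊤) (stable_I Q h.stab)).X :=
          (g ∘ₗ ι).codRestrict (idl L • ⊤ : Submodule R Q.X) hιm
        have hg' : Function.Surjective g' := by
          rintro ⟨q, hq⟩
          have h1 : q ∈ (idl L • ⊤ : Submodule R (idl L ^ k • ⊤ : Submodule R A.X)).map g := by
            rw [hmap]
            exact hq
          obtain ⟨z, hz, rfl⟩ := h1
          exact ⟨⟨z.1, (WTB_lev (idl L) k z).1 hz⟩, rfl⟩
        have hgN' : ∀ x y : (idl L ^ (k + 1) • ⊤ : Submodule R A.X), (y : A.X) = A.N x →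
            g' y = (Q.sub (idl L • ⊤) (stable_I Q h.stab)).N (g' x) := by
          intro x y hxy
          apply Subtype.ext
          exact hgN (ι x) (ι y) hxy
        obtain ⟨l, k', hk, hl, hl'⟩ := ih (Q.sub (idl L • ⊤) (stable_I Q h.stab)) f1
          (by omega) (k + 1) g' hg' hgN' ν hs
        exact ⟨l, k', by omega, hl, hl'⟩
      · -- a weight of `Q / I Q`
        let M : Submodule R A.X := idl L ^ k • ⊤
        have hst : ∀ x ∈ M, A.N x ∈ M := stable_I A (WTB_pow h.stab k)
        let P : NM D := A.sub M hst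
        have hP : Module.Finite R P.X := by
          have h2 : IsNoetherian R M := inferInstance
          exact (inferInstance : Module.Finite R M)
        have hP2 : Module.Finite K (rd P h.stab).X :=
          (hRFNd K R D (idl L) h.stab h.fin P A).1 hP
        let f : (rd P h.stab).X →ₗ[R] (rd Q h.stab).X :=
          (idl L • ⊤ : Submodule R M).mapQ (idl L • ⊤ : Submodule R Q.X) g
            (Submodule.smul_top_le_comap_smul_top (idl L) g)
        have hf : Function.Surjective f := by
          intro q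
          obtain ⟨q, rfl⟩ := (idl L • ⊤ : Submodule R Q.X).mkQ_surjective q
          obtain ⟨x, rfl⟩ := hg q
          exact ⟨(idl L • ⊤ : Submodule R M).mkQ x, rfl⟩
        have hfN : ∀ x, f ((rd P h.stab).N x) = (rd Q h.stab).N (f x) := by
          intro x
          obtain ⟨x, rfl⟩ := (idl L • ⊤ : Submodule R M).mkQ_surjective x
          show (idl L • ⊤ : Submodule R Q.X).mkQ (g (P.N x)) =
            (idl L • ⊤ : Submodule R Q.X).mkQ (Q.N (g x))
          rw [hgN x (P.N x) rfl]
        have h1 := WTB_quot hADD hNON (rd P h.stab) (rd Q h.stab) hP2 f hf hfN ν hq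
        exact WTB_C hWTA hRFNd hNON h A hA k P M.subtype M.injective_subtype (fun _ => rfl)
          M.range_subtype ν h1
  exact main (Module.finrank K Q.X) Q hQ le_rfl

end Pool.Agent.ARD
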